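import Pool.Agent.NSP.Stmts
import Pool.Agent.SUBB.Stmts2
import Pool.Agent.EXW.Stmts3

/-!
# Project NSP (MP_f6626d_co), part 2: all moments at prescribed span

The moments `E[area ^ r] / E[area] ^ r` (`KCC.areaMoment`) of the uniform self-avoiding polygons with
span exactly (at least) `h n` converge to those of the Airy law. Every doc string contains the proof.
`C`, `c` are constants; `δ(q) = | |dq q| - arq n q |`.
-/

set_option autoImplicit false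

namespace Pool.Agent.NSP

open Finset Filter Topology MeasureTheory
open Pool.Agent.Lib27 Pool.Agent.SapR Pool.Agent.Gap Pool.Agent.AreaLaw Pool.Agent.FL
open Pool.Agent.FS
open Pool.Agent.KCS (airyMoment)
open Pool.Agent.KCC (areaMoment)

/-- moments under forces bounded from below (a case of `EXW.main3`) -/
def FM_Stmt : Prop := ∀ a : ℝ, 0 < a → ∀ f : ℕ → ℝ, (∀ n, a ≤ f n) → ∀ r : ℕ,
  Tendsto (fun n : ℕ => forceMoment (f n) n r) atTop (𝓝 (airyMoment r))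

/-- ARMR (from FM, ZB, ARM, TR, HG, PDIF): moments of the area functional. PROOF. Second part: PDIF
(`EXW.PDIF_Stmt`) for `p = r`; `Tails C θ` gives `Tails D (1 - D⁻¹)` for `D` large (`Tails.mono`), and
`1 / (n^2 ρ^n) ≤ C n √n Zq / n^2` (ZB). First part: `ra^r ≤ 2^r ((|dq|/sc)^r + (δ/sc)^r)`, so it suffices that
`∑ wtq (|dq|/sc)^r ≤ C Zq` for `n ≥ N`, `0 < s ≤ s1`. If not, there are `n_k` increasing and `s_k ≤ s1` with
`∑ wtq (|dq|/sc)^r > k Zq`; `f n = -log s_k` for `n = n_k`, `-log s1` else; FM: `forceMoment (f n) n r` is bounded.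
By `FS.SAPC.force_sum` and `Z0_le` (`Z0 ≤ Zq` eventually): `E_f[(2A/sc)^r] ≥ (1/2) ∑ wtq (|dq|/sc)^r / Zq` and
`E_f[2A/sc] ≤ C` (ARM; `|dq| ≤ arq + |dq - arq|`, `Z0 4 n ≤ Zq`), so `∑ wtq (|dq|/sc)^r / Zq ≤
2 C^r forceMoment`: contradiction. -/
def ARMR_Stmt : Prop := ∀ s1 : ℝ, 0 < s1 → s1 < 1 → ∀ r : ℕ, ∃ C : ℝ, 0 < C ∧ ∃ N : ℕ,
  ∀ n : ℕ, N ≤ n → ∀ s : ℝ, 0 < s → s ≤ s1 →
    ∑ q ∈ Omn n, wtq n s q * ra n q ^ r ≤ C * Zq n s ∧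
    ∑ q ∈ Omn n, wtq n s q * |(|(dq q : ℝ)| - (arq n q : ℝ))| ^ r ≤
      C * (n * Real.log n) ^ r * Zq n s

/-- LOCM (from SKEL, KBIG, BIN, ARMR; old regime): moments at fixed span. PROOF. As the first part of
`FS/LOC.lean`: `U n s h (a^r) = ∑_i vsk_i p^j (1-p)^(k_i-j) ∑_{|S| = j} ((A_i - t_S)/sc)^r ≤ ∑_i vsk_i bp k_i p j (A_i/sc)^r`,
`j = H_i - h`, `bp ≤ C/√n` if `k_i ≥ c n`; `(3/4) A_i ≤ A_i - t`, so `∑_i vsk_i (A_i/sc)^r ≤ (4/3)^r ∑_q wtq ra^r`. For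
`k_i < c n`: KBIG, `A_i ≤ 2 n^2`. -/
def LOCM_Stmt : Prop := ∀ s0 s1 : ℝ, 0 < s0 → s0 ≤ s1 → s1 < 1 → ∀ r : ℕ, ∃ C : ℝ, 0 < C ∧
  ∃ N : ℕ, ∀ n : ℕ, N ≤ n → ∀ s : ℝ, s0 ≤ s → s ≤ s1 → ∀ h : ℕ,
    U n s h (fun a => a ^ r) ≤ C / Real.sqrt n * Zq n s

/-- LOCMZ (from SKZ, KBGZ, BINZ, ARMR): the same for small `s`. PROOF. The same with `bp ≤ C/√(s n)`
(`p = s/(1+s)`, `k_i ≥ c n`); compare the first part of LOCZ. -/
def LOCMZ_Stmt : Prop := ∀ r : ℕ, ∃ C : ℝ, 0 < C ∧ ∃ N : ℕ, ∀ n : ℕ, N ≤ n → ∀ s : ℝ,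
  s ≤ 1 / 4 → 1 ≤ s * n → ∀ h : ℕ,
    U n s h (fun a => a ^ r) ≤ C / Real.sqrt (s * n) * Zq n s

open Classical in
/-- CLM (from LOCM, ARMR, CLS, ZB, TR, HG): moments in the classes, old regime. PROOF. `r = 0` trivial,
`r = 1` from `y ≤ 1 + y^2`; let `r ≥ 2`, `s = exp(-f n)`. `FS.SAPC.cls_sum`: the sum over the class is
`4 n ∑_q (|dq|/sc)^r` plus the words without cut, at most `(4 n)^r` times their number; the cardinality is at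
least `4 n` times the number of `q`. Multiply by `s^(n-h)`: `s^(n-h) #q ≥ c/√n Zq` (CLS), the words without cut are at
most `Z0 ≤ C n^3 θ^n Zq` (`FS.SAPC.Z0_le`), and `s^(n-h) ∑_q (|dq|/sc)^r = ∑_i s^i ∑_{sp = h+i} wtq (|dq|/sc)^r ≤
2^r ∑_i s^i U(h+i; a^r) + 2^r ∑_q wtq (δ/sc)^r ≤ C/√n Zq + C (log n/√n)^r Zq` (LOCM, ARMR), `r ≥ 2`. -/
def CLM_Stmt : Prop := ∀ f0 f1 : ℝ, 0 < f0 → f0 ≤ f1 → ∀ (f : ℕ → ℝ) (h : ℕ → ℕ),
  (∀ n, f0 ≤ f n ∧ f n ≤ f1) → (∀ᶠ n in atTop, Cen n (f n) (h n)) → ∀ (b : Bool) (r : ℕ),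
    ∃ C : ℝ, ∀ᶠ n in atTop,
      (∑ w ∈ cls n b (h n), (2 * area n w / sc n) ^ r) / (cls n b (h n)).card ≤ C

open Classical in
/-- CLMZ (from LOCMZ, ARMR, CLSZ, ZB, TR, HG): the same for regular sequences. PROOF. The same
with `1/√(s n)` (`≥ 1/√n`). -/
def CLMZ_Stmt : Prop := ∀ (s : ℕ → ℝ) (h : ℕ → ℕ), Reg s h → ∀ (b : Bool) (r : ℕ),
  ∃ C : ℝ, ∀ᶠ n in atTop,
    (∑ w ∈ cls n b (h n), (2 * area n w / sc n) ^ r) / (cls n b (h n)).card ≤ C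

/-- CDFM: convergence of the moments from the convergence in distribution. PROOF.
`Y = area / E[area] ≥ 0` under the uniform law of `F n`; `areaMoment = E Y^r`. `r = 0` is trivial. For `r ≥ 1`,
`E Y^r = ∫_0^∞ r t^(r-1) P(Y > t) dt` (layer cake, or directly for finite sums), `P(Y > t) = 1 - areaCdf n (F n) t`
tends to `μ(Ioi t)` for all `t` with `μ {t} = 0` (all but countably many), and
`P(Y > t) ≤ min 1 (C t^-(r+1))` (Markov), so dominated convergence; `∫_0^∞ r t^(r-1) μ(Ioi t) dt = ∫ x^r dμ`, as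
`μ(Iio 0) = 0` (`areaCdf n (F n) x = 0` for `x < 0`). -/
def CDFM_Stmt : Prop := ∀ (μ : Measure ℝ) (m : ℕ → ℝ), IsProbabilityMeasure μ →
  (∀ r : ℕ, Integrable (fun x : ℝ => x ^ r) μ ∧ ∫ x, x ^ r ∂μ = m r) →
  ∀ F : ∀ n : ℕ, Finset (Fin (2 * n) → Fin 4),
    (∀ᶠ n in atTop, 0 < (F n).card ∧ 0 < ∑ w ∈ F n, area n w) →
    (∀ x : ℝ, μ {x} = 0 →
      Tendsto (fun n : ℕ => areaCdf n (F n) x) atTop (𝓝 (μ (Set.Iic x)).toReal)) →
    (∀ r : ℕ, ∃ C : ℝ, ∀ᶠ n in atTop, areaMoment n (F n) r ≤ C) →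
    ∀ r : ℕ, Tendsto (fun n : ℕ => areaMoment n (F n) r) atTop (𝓝 (m r))

/-- DIAGM: diagonal argument for countably many functionals (compare `FS/DIAG.lean`). PROOF. For
every `k` there is `N_k` (increasing) with: for `n ≥ N_k`, all `r ≤ k` and all `j`, `ok (1/(k+1)) n j` implies
`|F r n j - m r| ≤ 1/(k+1)` (otherwise choose bad `j` for infinitely many `n`). `e n = 1/(k+1)` for
`N_k ≤ n < N_(k+1)`. -/
def DIAGM_Stmt : Prop := ∀ (ok : ℝ → ℕ → ℕ → Prop) (F : ℕ → ℕ → ℕ → ℝ) (m : ℕ → ℝ),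
  (∀ (e e' : ℝ) (n h : ℕ), e' ≤ e → ok e n h → ok e' n h) →
  (∀ e : ℝ, 0 < e → ∀ h : ℕ → ℕ, ∀ r : ℕ, ∀ d : ℝ, 0 < d →
    ∀ᶠ n in atTop, ok e n (h n) → |F r n (h n) - m r| ≤ d) →
  ∃ e : ℕ → ℝ, (∀ n, 0 < e n) ∧ Tendsto e atTop (𝓝 0) ∧
    ∀ h : ℕ → ℕ, (∀ᶠ n in atTop, ok (e n) n (h n)) → ∀ r : ℕ,
      Tendsto (fun n => F r n (h n)) atTop (𝓝 (m r))

open Classical in
/-- FSM (from CHOICE, SAPC, CDF, CLM, CDFM, DIAGM): moments, old regime. PROOF. As `FS.FINAL_of`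
(`FS/Final.lean`): for centered sequences the distribution functions converge (`FS.conv_cls`), the class
means of `2 area/sc` are eventually at least `c/2` (SAPC, third and fourth part), so by CLM the numbers
`areaMoment n (cls n b (h n)) r` are bounded, and CDFM applies. Then `ok` and the diagonal argument as there
(DIAGM for `b = true` and `b = false`, maximum of the two sequences `e`). -/
def FSM_Stmt : Prop := ∀ μ : Measure ℝ, IsProbabilityMeasure μ → FORCE_Stmt μ →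
  (∀ r : ℕ, Integrable (fun x : ℝ => x ^ r) μ ∧ ∫ x, x ^ r ∂μ = airyMoment r) →
  ∃ e : ℕ → ℝ, (∀ n, 0 < e n) ∧ Tendsto e atTop (𝓝 0) ∧
    ∀ h : ℕ → ℕ, (∀ᶠ n in atTop, (((SAP n).filter (fun s => h n ≤ span n s)).card : ℝ) ≤
        Real.exp (-(e n * n)) * (SAP n).card ∧ (h n : ℝ) ≤ (1 - e n) * n) →
      ∀ (b : Bool) (r : ℕ),
        Tendsto (fun n : ℕ => areaMoment n (cls n b (h n)) r) atTop (𝓝 (airyMoment r))

/-- OLDM (from FSM, `SUBB.POL_Stmt`). PROOF. As `SUBB.fin` (`SUBB/FIN.lean`). -/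
def OLDM_Stmt : Prop := ∀ μ : Measure ℝ, IsProbabilityMeasure μ → FORCE_Stmt μ →
  (∀ r : ℕ, Integrable (fun x : ℝ => x ^ r) μ ∧ ∫ x, x ^ r ∂μ = airyMoment r) →
  ∃ e : ℕ → ℝ, (∀ n, 0 < e n) ∧ Tendsto e atTop (𝓝 0) ∧
    ∀ h : ℕ → ℕ, (∀ᶠ n : ℕ in atTop, e n * n ≤ (h n : ℝ) ∧ (h n : ℝ) ≤ (1 - e n) * n) →
      ∀ (b : Bool) (r : ℕ),
        Tendsto (fun n : ℕ => areaMoment n (cls n b (h n)) r) atTop (𝓝 (airyMoment r))

/-- REGM (from FINZ, SAPZ, CLMZ, CDFM): moments for regular sequences. PROOF. As in FSM: FINZ gives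
the distribution functions, SAPZ (third and fourth part) the lower bound `c/2` of the class means,
CLMZ the boundedness, then CDFM. -/
def REGM_Stmt : Prop := ∀ μ : Measure ℝ, IsProbabilityMeasure μ → FORCE_Stmt μ →
  (∀ r : ℕ, Integrable (fun x : ℝ => x ^ r) μ ∧ ∫ x, x ^ r ∂μ = airyMoment r) →
  ∀ (s : ℕ → ℝ) (h : ℕ → ℕ), Reg s h → ∀ (b : Bool) (r : ℕ),
    Tendsto (fun n : ℕ => areaMoment n (cls n b (h n)) r) atTop (𝓝 (airyMoment r))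

end Pool.Agent.NSP
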