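import Pool.Agent.NSP.Stmts

/-!
# Project NSP, module FINB: all spans, subsequence argument
-/

set_option autoImplicit false

namespace Pool.Agent.NSP

open Finset Filter Topology MeasureTheory
open Pool.Agent.Lib27 Pool.Agent.SapR Pool.Agent.Gap Pool.Agent.AreaLaw Pool.Agent.FL
open Pool.Agent.FS

theorem finb_aux (G : ℕ → ℕ → ℝ) (L : ℝ) (e : ℕ → ℝ) (he : Tendsto e atTop (𝓝 0))
    (hOld : ∀ h : ℕ → ℕ, (∀ᶠ n : ℕ in atTop, e n * n ≤ (h n : ℝ) ∧ (h n : ℝ) ≤ (1 - e n) * n) →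
      Tendsto (fun n : ℕ => G n (h n)) atTop (𝓝 L))
    (hN : ∀ h : ℕ → ℕ, (∀ᶠ n : ℕ in atTop, h n ≤ n) →
      Tendsto (fun n : ℕ => (h n : ℝ) / n) atTop (𝓝 1) →
      Tendsto (fun n : ℕ => G n (h n)) atTop (𝓝 L))
    (h : ℕ → ℕ) (hh : ∀ᶠ n : ℕ in atTop, e n * n ≤ (h n : ℝ) ∧ h n ≤ n) :
    Tendsto (fun n : ℕ => G n (h n)) atTop (𝓝 L) := by
  classical
  rw [Metric.tendsto_nhds]
  intro ε hε
  by_contra hcon
  rw [not_eventually] at hcon
  by_cases hc : ∃ c : ℝ, c < 1 ∧ ∃ᶠ n : ℕ in atTop,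
      ¬ dist (G n (h n)) L < ε ∧ (h n : ℝ) ≤ c * n
  · obtain ⟨c, hc1, hc⟩ := hc
    let h' : ℕ → ℕ := fun n => if ¬ dist (G n (h n)) L < ε ∧ (h n : ℝ) ≤ c * n then h n else n / 2
    have h1 : ∀ᶠ n : ℕ in atTop, e n * n ≤ (h' n : ℝ) ∧ (h' n : ℝ) ≤ (1 - e n) * n := by
      have he1 : ∀ᶠ n : ℕ in atTop, e n < min (1 - c) (1 / 4) :=
        he.eventually (gt_mem_nhds (lt_min (by linarith) (by norm_num)))
      filter_upwards [he1, hh, eventually_ge_atTop 2] with n hn1 hn2 hn3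
      have hn0 : (0 : ℝ) ≤ n := Nat.cast_nonneg n
      have hn4 : e n < 1 - c := lt_of_lt_of_le hn1 (min_le_left _ _)
      have hn5 : e n < 1 / 4 := lt_of_lt_of_le hn1 (min_le_right _ _)
      by_cases hp : ¬ dist (G n (h n)) L < ε ∧ (h n : ℝ) ≤ c * n
      · have e1 : h' n = h n := if_pos hp
        rw [e1]
        exact ⟨hn2.1, hp.2.trans (mul_le_mul_of_nonneg_right (by linarith) hn0)⟩
      · have e1 : h' n = n / 2 := if_neg hp
        rw [e1]
        have h2 : (n : ℝ) ≤ 4 * ((n / 2 : ℕ) : ℝ) := by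
          have : n ≤ 4 * (n / 2) := by omega
          exact_mod_cast this
        have h3 : 2 * ((n / 2 : ℕ) : ℝ) ≤ n := by
          have : 2 * (n / 2) ≤ n := by omega
          exact_mod_cast this
        constructor
        · have h4 : e n * n ≤ 1 / 4 * n := mul_le_mul_of_nonneg_right hn5.le hn0
          linarith
        · have h4 : e n * n ≤ 1 / 4 * n := mul_le_mul_of_nonneg_right hn5.le hn0
          linarith
    have h2 := (Metric.tendsto_nhds.1 (hOld h' h1)) ε hε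
    obtain ⟨n, hn1, hn2⟩ := (hc.and_eventually h2).exists
    have e1 : h' n = h n := if_pos hn1
    rw [e1] at hn2
    exact hn1.1 hn2
  · push Not at hc
    let h' : ℕ → ℕ := fun n => if ¬ dist (G n (h n)) L < ε then h n else n
    have h1 : ∀ᶠ n : ℕ in atTop, h' n ≤ n := by
      filter_upwards [hh] with n hn
      by_cases hp : ¬ dist (G n (h n)) L < ε
      · have e1 : h' n = h n := if_pos hp
        rw [e1]
        exact hn.2
      · have e1 : h' n = n := if_neg hp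
        rw [e1]
    have h2 : Tendsto (fun n : ℕ => (h' n : ℝ) / n) atTop (𝓝 1) := by
      rw [Metric.tendsto_nhds]
      intro δ hδ
      have h3 := hc (1 - δ) (by linarith)
      filter_upwards [h1, h3, eventually_ge_atTop 1] with n hn1 hn2 hn3
      have hn0 : (0 : ℝ) < n := by exact_mod_cast hn3
      rw [Real.dist_eq, abs_lt]
      have h4 : (h' n : ℝ) / n ≤ 1 := by
        rw [div_le_one hn0]
        exact_mod_cast hn1
      have h5 : 1 - δ < (h' n : ℝ) / n := by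
        rw [lt_div_iff₀ hn0]
        by_cases hp : ¬ dist (G n (h n)) L < ε
        · have e1 : h' n = h n := if_pos hp
          rw [e1]
          exact hn2 (not_lt.1 hp)
        · have e1 : h' n = n := if_neg hp
          rw [e1]
          nlinarith
      constructor <;> linarith
    have h3 := (Metric.tendsto_nhds.1 (hN h' h1 h2)) ε hε
    obtain ⟨n, hn1, hn2⟩ := (hcon.and_eventually h3).exists
    have e1 : h' n = h n := if_pos hn1
    rw [e1] at hn2
    exact hn1 hn2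

/-- the general form -/
theorem finb_gen (e : ℕ → ℝ) (he : ∀ n, 0 < e n) (hl : Tendsto e atTop (𝓝 0)) (G : ℕ → ℕ → ℝ)
    (l : ℝ)
    (hold : ∀ h : ℕ → ℕ, (∀ᶠ n : ℕ in atTop, e n * n ≤ (h n : ℝ) ∧ (h n : ℝ) ≤ (1 - e n) * n) →
      Tendsto (fun n => G n (h n)) atTop (𝓝 l))
    (hnew : ∀ h : ℕ → ℕ, (∀ᶠ n : ℕ in atTop, h n ≤ n) →
      Tendsto (fun n : ℕ => (h n : ℝ) / n) atTop (𝓝 1) →
      Tendsto (fun n => G n (h n)) atTop (𝓝 l))
    (h : ℕ → ℕ) (hh : ∀ᶠ n : ℕ in atTop, e n * n ≤ (h n : ℝ) ∧ h n ≤ n) :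
    Tendsto (fun n => G n (h n)) atTop (𝓝 l) := by
  have _ := he
  exact finb_aux G l e hl hold hnew h hh

theorem t_FINB (hN : NSF_Stmt) : FINB_Stmt := by
  intro μ hμ hF hO
  obtain ⟨e, he0, he, hOld⟩ := hO
  refine ⟨e, he0, he, fun h hh x hx b => ?_⟩
  exact finb_gen e he0 he (fun n k => areaCdf n (cls n b k) x) (μ (Set.Iic x)).toReal
    (fun h' hh' => hOld h' hh' x hx b) (fun h' hh' hh2 => hN μ hμ hF h' hh' hh2 b x hx) h hh

end Pool.Agent.NSP
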