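import Pool.Agent.NSP.Stmts

/-!
# Module NSF of project NSP (MP_f6626d_co): spans close to the half perimeter
-/

set_option autoImplicit false

namespace Pool.Agent.NSP

open Finset Filter Topology MeasureTheory
open Pool.Agent.Lib27 Pool.Agent.SapR Pool.Agent.Gap Pool.Agent.AreaLaw Pool.Agent.FL
open Pool.Agent.FS

namespace NSF

theorem sqrt_ratio : Tendsto (fun n : ℕ => ((n - Nat.sqrt n : ℕ) : ℝ) / n) atTop (𝓝 1) := by
  have h1 : Tendsto (fun n : ℕ => (1 : ℝ) / Real.sqrt n) atTop (𝓝 0) := by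
    have : Tendsto (fun n : ℕ => Real.sqrt n) atTop atTop :=
      Real.tendsto_sqrt_atTop.comp tendsto_natCast_atTop_atTop
    simp only [one_div]
    exact this.inv_tendsto_atTop
  have h2 : Tendsto (fun n : ℕ => (1 : ℝ) - 1 / Real.sqrt n) atTop (𝓝 1) := by
    simpa using tendsto_const_nhds.sub h1
  refine tendsto_of_tendsto_of_tendsto_of_le_of_le' h2 tendsto_const_nhds ?_ ?_
  · filter_upwards [eventually_gt_atTop 0] with n hn
    have hn' : (0 : ℝ) < n := by exact_mod_cast hn
    have hs : ((Nat.sqrt n : ℕ) : ℝ) ≤ Real.sqrt n := Real.nat_sqrt_le_real_sqrt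
    rw [Nat.cast_sub (Nat.sqrt_le_self n), sub_div, div_self hn'.ne']
    have h3 : ((Nat.sqrt n : ℕ) : ℝ) / n ≤ 1 / Real.sqrt n := by
      rw [div_le_div_iff₀ hn' (Real.sqrt_pos.2 hn'), one_mul]
      calc ((Nat.sqrt n : ℕ) : ℝ) * Real.sqrt n ≤ Real.sqrt n * Real.sqrt n :=
            mul_le_mul_of_nonneg_right hs (Real.sqrt_nonneg _)
        _ = n := Real.mul_self_sqrt hn'.le
    linarith
  · filter_upwards [eventually_gt_atTop 0] with n hn
    have hn' : (0 : ℝ) < n := by exact_mod_cast hn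
    rw [div_le_one hn']
    exact_mod_cast Nat.sub_le _ _

/-- the subsequence argument -/
theorem core (F : ℕ → ℕ → ℝ) (L : ℝ) (h : ℕ → ℕ) (hle : ∀ᶠ n : ℕ in atTop, h n ≤ n)
    (hlim : Tendsto (fun n : ℕ => (h n : ℝ) / n) atTop (𝓝 1))
    (hA : ∀ δ : ℕ, Tendsto (fun n : ℕ => F n (n - δ)) atTop (𝓝 L))
    (hBig : ∀ h' : ℕ → ℕ, (∀ n, h' n ≤ n) → Tendsto (fun n : ℕ => n - h' n) atTop atTop →
      Tendsto (fun n : ℕ => (h' n : ℝ) / n) atTop (𝓝 1) →
      Tendsto (fun n : ℕ => F n (h' n)) atTop (𝓝 L)) :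
    Tendsto (fun n : ℕ => F n (h n)) atTop (𝓝 L) := by
  classical
  rw [Metric.tendsto_nhds]
  intro ε hε
  by_contra hcon
  have hfr : ∃ᶠ n in atTop, h n ≤ n ∧ ε ≤ dist (F n (h n)) L := by
    have h1 : ∃ᶠ n in atTop, ¬ dist (F n (h n)) L < ε := Filter.not_eventually.1 hcon
    refine (h1.and_eventually hle).mono fun n hn => ⟨hn.2, not_lt.1 hn.1⟩
  set Bad : ℕ → Prop := fun n => h n ≤ n ∧ ε ≤ dist (F n (h n)) L with hBad
  have hlarge : ∀ B : ℕ, ∀ᶠ n in atTop, Bad n → B ≤ n - h n := by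
    intro B
    have h1 : ∀ᶠ n in atTop, ∀ δ ∈ Finset.range (B + 1), dist (F n (n - δ)) L < ε := by
      rw [Filter.eventually_all_finset]
      intro δ _
      exact (Metric.tendsto_nhds.1 (hA δ)) ε hε
    filter_upwards [h1] with n hn hbad
    by_contra hlt
    have h2 := hn (n - h n) (Finset.mem_range.2 (by omega))
    have h3 : n - (n - h n) = h n := by
      have := hbad.1
      omega
    rw [h3] at h2
    exact absurd h2 (not_lt.2 hbad.2)
  set h' : ℕ → ℕ := fun n => if Bad n then h n else n - Nat.sqrt n with hh'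
  have hle' : ∀ n, h' n ≤ n := by
    intro n
    by_cases hb : Bad n
    · simp only [hh', if_pos hb]
      exact hb.1
    · simp only [hh', if_neg hb]
      exact Nat.sub_le _ _
  have htop : Tendsto (fun n : ℕ => n - h' n) atTop atTop := by
    rw [tendsto_atTop]
    intro B
    filter_upwards [hlarge B, eventually_ge_atTop (B * B)] with n h1 h2
    by_cases hb : Bad n
    · simp only [hh', if_pos hb]
      exact h1 hb
    · simp only [hh', if_neg hb]
      have h3 : Nat.sqrt n ≤ n := Nat.sqrt_le_self n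
      have h4 : B ≤ Nat.sqrt n := Nat.le_sqrt.2 h2
      omega
  have hlim' : Tendsto (fun n : ℕ => (h' n : ℝ) / n) atTop (𝓝 1) := by
    have h1 := Filter.Tendsto.if' (p := Bad) hlim sqrt_ratio
    refine h1.congr fun n => ?_
    by_cases hb : Bad n
    · simp only [hh', if_pos hb]
    · simp only [hh', if_neg hb]
  have hfin := (Metric.tendsto_nhds.1 (hBig h' hle' htop hlim')) ε hε
  obtain ⟨n, hn1, hn2⟩ := (hfr.and_eventually hfin).exists
  have hb : Bad n := hn1
  simp only [hh', if_pos hb] at hn2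
  exact absurd hn2 (not_lt.2 hb.2)

end NSF

/-- the general form: a double sequence that converges along all regular sequences converges along
all spans close to the half perimeter -/
theorem nsf_gen (hC : CHOZ_Stmt) (hE : EQZ_Stmt) (hB : BDZ_Stmt) (G : ℕ → ℕ → ℝ) (l : ℝ)
    (hG : ∀ (s : ℕ → ℝ) (h : ℕ → ℕ), Reg s h → Tendsto (fun n => G n (h n)) atTop (𝓝 l))
    (h : ℕ → ℕ) (h1 : ∀ᶠ n in atTop, h n ≤ n)
    (h2 : Tendsto (fun n : ℕ => (h n : ℝ) / n) atTop (𝓝 1)) :
    Tendsto (fun n => G n (h n)) atTop (𝓝 l) := by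
  classical
  refine NSF.core G l h h1 h2 (fun δ => hG _ _ (hB δ)) ?_
  intro h' hle' htop hlim'
  obtain ⟨c1, C1, η, hc1, hC1, hη, D0, N, hch⟩ := hC
  set P : ℕ → Prop := fun n => ∃ s : ℝ, 0 < s ∧ c1 * ((n : ℝ) - h' n) ≤ s * n ∧
    s * n ≤ C1 * ((n : ℝ) - h' n) ∧ CenQ n s (h' n) with hP
  have hPev : ∀ᶠ n in atTop, P n := by
    have h1 : ∀ᶠ n : ℕ in atTop, 1 - η < (h' n : ℝ) / n :=
      hlim'.eventually (lt_mem_nhds (by linarith))
    filter_upwards [h1, htop.eventually_ge_atTop D0, eventually_ge_atTop N,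
      eventually_gt_atTop 0] with n h1 h2 h3 h4
    have hn' : (0 : ℝ) < n := by exact_mod_cast h4
    refine hch n h3 (h' n) (by have := hle' n; omega) ?_
    rw [lt_div_iff₀ hn'] at h1
    nlinarith
  let s : ℕ → ℝ := fun n => if hn : P n then Classical.choose hn else 1
  have hs : ∀ n, P n → 0 < s n ∧ c1 * ((n : ℝ) - h' n) ≤ s n * n ∧
      s n * n ≤ C1 * ((n : ℝ) - h' n) ∧ CenQ n (s n) (h' n) := by
    intro n hn
    have : s n = Classical.choose hn := dif_pos hn
    rw [this]
    exact Classical.choose_spec hn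
  have hpos : ∀ n, 0 < s n := by
    intro n
    by_cases hn : P n
    · exact (hs n hn).1
    · have : s n = 1 := dif_neg hn
      rw [this]
      exact one_pos
  have hzero : Tendsto s atTop (𝓝 0) := by
    have h1 : Tendsto (fun n : ℕ => C1 * (1 - (h' n : ℝ) / n)) atTop (𝓝 0) := by
      have := (tendsto_const_nhds (x := (1 : ℝ))).sub hlim'
      rw [sub_self] at this
      simpa using this.const_mul C1
    refine tendsto_of_tendsto_of_tendsto_of_le_of_le' tendsto_const_nhds h1
      (Eventually.of_forall fun n => (hpos n).le) ?_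
    filter_upwards [hPev, eventually_gt_atTop 0] with n hn h4
    have hn' : (0 : ℝ) < n := by exact_mod_cast h4
    have h2 := (hs n hn).2.2.1
    rw [← le_div_iff₀ hn'] at h2
    refine h2.trans (le_of_eq ?_)
    field_simp
  have hinf : Tendsto (fun n : ℕ => s n * n) atTop atTop := by
    have h1 : Tendsto (fun n : ℕ => c1 * ((n : ℝ) - h' n)) atTop atTop := by
      refine Tendsto.const_mul_atTop hc1 ?_
      have h2 : Tendsto (fun n : ℕ => ((n - h' n : ℕ) : ℝ)) atTop atTop :=
        tendsto_natCast_atTop_atTop.comp htop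
      refine h2.congr fun n => ?_
      rw [Nat.cast_sub (hle' n)]
    refine tendsto_atTop_mono' atTop ?_ h1
    filter_upwards [hPev] with n hn
    exact (hs n hn).2.1
  exact hG s h' (hE s h' hpos hzero hinf (hPev.mono fun n hn => (hs n hn).2.2.2))

theorem t_NSF (hC : CHOZ_Stmt) (hE : EQZ_Stmt) (hB : BDZ_Stmt) (hF : FINZ_Stmt) :
    NSF_Stmt := by
  intro μ hμ hforce h hle hlim b x hx
  exact nsf_gen hC hE hB (fun n k => areaCdf n (cls n b k) x) _
    (fun s h' hreg => hF μ hμ hforce s h' hreg b x hx) h hle hlim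

end Pool.Agent.NSP
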