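import Pool.Agent.NSP.MainPre
import Pool.Agent.NSP.StmtsM
import Pool.Agent.NSP.NSF
import Pool.Agent.NSP.FINB

/-!
# Project NSP: assembly, with moments
-/

set_option autoImplicit false

namespace Pool.Agent.NSP

open Finset Filter Topology MeasureTheory
open Pool.Agent.Lib27 Pool.Agent.SapR Pool.Agent.Gap Pool.Agent.AreaLaw Pool.Agent.FL
open Pool.Agent.FS
open Pool.Agent.KCS (airyMoment)
open Pool.Agent.KCC (areaMoment)

/-- the final theorem with moments -/
def FIN_NSM : Prop := ∃ μ : Measure ℝ, IsProbabilityMeasure μ ∧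
  (∀ r : ℕ, Integrable (fun x : ℝ => x ^ r) μ ∧ ∫ x, x ^ r ∂μ = airyMoment r) ∧
  (∀ x : ℝ, μ {x} = 0 →
    Tendsto (fun n : ℕ => areaCdf n (Staircase n) x) atTop (𝓝 (μ (Set.Iic x)).toReal)) ∧
  ∃ e : ℕ → ℝ, (∀ n, 0 < e n) ∧ Tendsto e atTop (𝓝 0) ∧
    ∀ h : ℕ → ℕ, (∀ᶠ n : ℕ in atTop, e n * n ≤ (h n : ℝ) ∧ h n ≤ n) →
      (∀ x : ℝ, μ {x} = 0 →
        Tendsto (fun n : ℕ => areaCdf n ((SAP n).filter (fun s => span n s = h n)) x) atTop
          (𝓝 (μ (Set.Iic x)).toReal) ∧
        Tendsto (fun n : ℕ => areaCdf n ((SAP n).filter (fun s => h n ≤ span n s)) x) atTop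
          (𝓝 (μ (Set.Iic x)).toReal)) ∧
      ∀ r : ℕ,
        Tendsto (fun n : ℕ => areaMoment n ((SAP n).filter (fun s => span n s = h n)) r) atTop
          (𝓝 (airyMoment r)) ∧
        Tendsto (fun n : ℕ => areaMoment n ((SAP n).filter (fun s => h n ≤ span n s)) r) atTop
          (𝓝 (airyMoment r))

theorem assemble2 (hE : EXW.FINAL3_Stmt) (hO : SUBB.FIN_Stmt) (hU : UNQ_Stmt)
    (hCH : CHOZ_Stmt) (hEQ : EQZ_Stmt) (hBD : BDZ_Stmt) (hFZ : FINZ_Stmt) (hOM : OLDM_Stmt)
    (hRM : REGM_Stmt) : FIN_NSM := by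
  classical
  obtain ⟨μ, hμ, hmom, hst, hforce⟩ := hE
  obtain ⟨μ', hμ', hst', e₁, he₁, hl₁, hold⟩ := hO
  have hμμ : μ = μ' := hU μ μ' hμ hμ' (fun n x => areaCdf n (Staircase n) x) hst hst'
  subst hμμ
  have hF : FORCE_Stmt μ := by
    intro a ha f hf x hx
    refine (hforce f ?_).1 x hx
    have h1 : Tendsto (fun n : ℕ => a * Real.log n) atTop atTop :=
      (Real.tendsto_log_atTop.comp tendsto_natCast_atTop_atTop).const_mul_atTop ha
    refine tendsto_atTop_mono' _ ?_ h1
    filter_upwards [eventually_ge_atTop 1] with n hn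
    exact mul_le_mul_of_nonneg_right (hf n) (Real.log_nonneg (by exact_mod_cast hn))
  obtain ⟨e₂, he₂, hl₂, hold2⟩ := hOM μ hμ hF hmom
  have ht : ∀ n h, cls n true h = (SAP n).filter (fun s => span n s = h) := by
    intro n h
    unfold cls
    apply Finset.filter_congr
    intro s _
    unfold inC
    simp
  have hf : ∀ n h, cls n false h = (SAP n).filter (fun s => h ≤ span n s) := by
    intro n h
    unfold cls
    apply Finset.filter_congr
    intro s _
    unfold inC
    simp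
  refine ⟨μ, hμ, hmom, hst, fun n => max (e₁ n) (e₂ n), fun n => lt_max_of_lt_left (he₁ n), ?_, ?_⟩
  · have := hl₁.max hl₂
    simpa using this
  have hl : Tendsto (fun n => max (e₁ n) (e₂ n)) atTop (𝓝 0) := by
    have := hl₁.max hl₂
    simpa using this
  intro h hh
  -- distribution functions
  have key : ∀ (b : Bool) (x : ℝ), μ {x} = 0 →
      Tendsto (fun n : ℕ => areaCdf n (cls n b (h n)) x) atTop (𝓝 (μ (Set.Iic x)).toReal) := by
    intro b x hx
    refine finb_gen (fun n => max (e₁ n) (e₂ n)) (fun n => lt_max_of_lt_left (he₁ n)) hl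
      (fun n k => areaCdf n (cls n b k) x) _ ?_ ?_ h hh
    · intro h' hh'
      have h3 : ∀ᶠ n : ℕ in atTop, e₁ n * n ≤ (h' n : ℝ) ∧ (h' n : ℝ) ≤ (1 - e₁ n) * n := by
        filter_upwards [hh'] with n hn
        have hn0 : (0 : ℝ) ≤ n := Nat.cast_nonneg n
        have h4 := le_max_left (e₁ n) (e₂ n)
        exact ⟨(mul_le_mul_of_nonneg_right h4 hn0).trans hn.1,
          hn.2.trans (mul_le_mul_of_nonneg_right (by linarith) hn0)⟩
      obtain ⟨h1, h2⟩ := hold h' h3 x hx
      cases b with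
      | true =>
        refine h1.congr fun n => ?_
        rw [ht]
      | false =>
        refine h2.congr fun n => ?_
        rw [hf]
    · intro h' h1 h2
      exact nsf_gen hCH hEQ hBD (fun n k => areaCdf n (cls n b k) x) _
        (fun s k hs => hFZ μ hμ hF s k hs b x hx) h' h1 h2
  -- moments
  have keyM : ∀ (b : Bool) (r : ℕ),
      Tendsto (fun n : ℕ => areaMoment n (cls n b (h n)) r) atTop (𝓝 (airyMoment r)) := by
    intro b r
    refine finb_gen (fun n => max (e₁ n) (e₂ n)) (fun n => lt_max_of_lt_left (he₁ n)) hl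
      (fun n k => areaMoment n (cls n b k) r) _ ?_ ?_ h hh
    · intro h' hh'
      have h3 : ∀ᶠ n : ℕ in atTop, e₂ n * n ≤ (h' n : ℝ) ∧ (h' n : ℝ) ≤ (1 - e₂ n) * n := by
        filter_upwards [hh'] with n hn
        have hn0 : (0 : ℝ) ≤ n := Nat.cast_nonneg n
        have h4 := le_max_right (e₁ n) (e₂ n)
        exact ⟨(mul_le_mul_of_nonneg_right h4 hn0).trans hn.1,
          hn.2.trans (mul_le_mul_of_nonneg_right (by linarith) hn0)⟩
      exact hold2 h' h3 b r
    · intro h' h1 h2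
      exact nsf_gen hCH hEQ hBD (fun n k => areaMoment n (cls n b k) r) _
        (fun s k hs => hRM μ hμ hF hmom s k hs b r) h' h1 h2
  refine ⟨fun x hx => ⟨?_, ?_⟩, fun r => ⟨?_, ?_⟩⟩
  · refine (key true x hx).congr fun n => ?_
    rw [ht]
  · refine (key false x hx).congr fun n => ?_
    rw [hf]
  · refine (keyM true r).congr fun n => ?_
    rw [ht]
  · refine (keyM false r).congr fun n => ?_
    rw [hf]

end Pool.Agent.NSP
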