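import Pool.Agent.NSP.Stmts
import Pool.Agent.Lib_helper89.FL.FinB

/-!
# Module BDZ: bounded number of defects
-/

set_option autoImplicit false

namespace Pool.Agent.NSP

open Finset Filter Topology MeasureTheory
open Pool.Agent.Lib27 Pool.Agent.SapR Pool.Agent.Gap Pool.Agent.AreaLaw Pool.Agent.FL
open Pool.Agent.FS

namespace BDZ

lemma sp_le' (hg : HG_Stmt) (n : ℕ) (q : QI) (hq : q ∈ Omn n) : sp q ≤ n := height_le hg n q hq

lemma wtq_nn (n : ℕ) (s : ℝ) (hs : 0 ≤ s) (q : QI) : 0 ≤ wtq n s q := by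
  unfold wtq
  positivity

lemma Zq_nn (n : ℕ) (s : ℝ) (hs : 0 ≤ s) : 0 ≤ Zq n s :=
  Finset.sum_nonneg fun q _ => wtq_nn n s hs q

lemma ra_nn (n : ℕ) (q : QI) : 0 ≤ ra n q := by
  unfold ra sc
  positivity

/-- tilting of the weights -/
lemma tilt (hg : HG_Stmt) (n : ℕ) (s t : ℝ) (q : QI) (hq : q ∈ Omn n) :
    wtq n s q * Real.exp (t * ((n : ℝ) - sp q)) = wtq n (s * Real.exp t) q := by
  have h1 := sp_le' hg n q hq
  have h2 : wtq n (s * Real.exp t) q = wtq n s q * Real.exp t ^ (n - sp q) := by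
    unfold wtq sp
    rw [mul_pow]
  rw [h2, ← Real.exp_nat_mul, Nat.cast_sub h1, mul_comm t]

/-- the number of words of maximal span -/
noncomputable def N0 (n : ℕ) : ℝ := (((Omn n).filter (fun q => sp q = n)).card : ℝ)

lemma N0_nn (n : ℕ) : 0 ≤ N0 n := Nat.cast_nonneg _

/-- the total weight for small `s` -/
lemma Zq_le (n : ℕ) (s : ℝ) (hs : 0 ≤ s) (hs1 : s ≤ 1) (hg : HG_Stmt) :
    Zq n s ≤ N0 n + s * (Omn n).card := by
  unfold Zq N0
  rw [card_filter, Nat.cast_sum, card_eq_sum_ones, Nat.cast_sum, mul_sum, ← sum_add_distrib]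
  refine sum_le_sum fun q hq => ?_
  have h1 := sp_le' hg n q hq
  have h0 : wtq n s q = s ^ (n - sp q) := rfl
  rw [h0]
  by_cases h : sp q = n
  · rw [if_pos h, h, Nat.sub_self, pow_zero]
    push_cast
    linarith
  · rw [if_neg h]
    have h2 : 1 ≤ n - sp q := by omega
    have h3 : s ^ (n - sp q) ≤ s ^ 1 := pow_le_pow_of_le_one hs hs1 h2
    rw [pow_one] at h3
    push_cast
    linarith

lemma exp_bound (x : ℝ) (hx : 0 ≤ x) (hx1 : x ≤ 1 / 2) : Real.exp (-(2 * x)) ≤ 1 - x := by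
  have h1 := Real.add_one_le_exp (2 * x)
  have h2 : Real.exp (-(2 * x)) * Real.exp (2 * x) = 1 := by
    rw [← Real.exp_add]; simp
  have h3 := Real.exp_pos (-(2 * x))
  nlinarith

/-- the number of words of maximal span is of the order of the total weight -/
lemma N0_ge (hZ : ZB_Stmt) (hR : RHOZ_Stmt) (hg : HG_Stmt) : ∃ K : ℝ, 0 < K ∧ ∀ᶠ n : ℕ in atTop,
    0 < Zq n (2 / ((n : ℝ) + 1)) ∧ Zq n (2 / ((n : ℝ) + 1)) ≤ K * N0 n := by
  obtain ⟨C, θ, hC, _, _, N, hN⟩ := hZ (1 / 4) (by norm_num) (by norm_num)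
  obtain ⟨D, c, s0, hD, _, hs0, hs04, hRR⟩ := hR
  obtain ⟨E, hE⟩ : ∃ E, E = Real.exp (-(16 * D)) := ⟨_, rfl⟩
  have hE0 : 0 < E := by rw [hE]; exact Real.exp_pos _
  refine ⟨C * (C / E), by positivity, ?_⟩
  have hlim : Tendsto (fun n : ℕ => 2 / ((n : ℝ) + 1)) atTop (𝓝 0) := by
    have h1 : Tendsto (fun n : ℕ => (n : ℝ) + 1) atTop atTop :=
      tendsto_atTop_add_const_right _ _ tendsto_natCast_atTop_atTop
    exact h1.const_div_atTop 2
  have hsm : ∀ᶠ n : ℕ in atTop, 2 / ((n : ℝ) + 1) < min s0 (1 / (8 * D)) :=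
    hlim.eventually (gt_mem_nhds (by positivity))
  filter_upwards [hsm, eventually_ge_atTop N, eventually_ge_atTop 6] with n h1 h2 h3
  obtain ⟨s, hs⟩ : ∃ s, s = 2 / ((n : ℝ) + 1) := ⟨_, rfl⟩
  rw [← hs] at h1 ⊢
  have hn0 : (0 : ℝ) < n := by
    have : (6 : ℝ) ≤ n := by exact_mod_cast h3
    linarith
  have hspos : 0 < s := by rw [hs]; positivity
  have h4 : s < s0 := lt_of_lt_of_le h1 (min_le_left _ _)
  have h5 : s < 1 / (8 * D) := lt_of_lt_of_le h1 (min_le_right _ _)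
  obtain ⟨rho, hcr, _, _, _, h6, h7⟩ := hN n h2 s hspos (by linarith)
  obtain ⟨h8, h9, _⟩ := hRR n s rho h3 hspos h4.le hcr
  have hsc : 0 < sc n := by
    unfold sc
    positivity
  have hCi : 0 < C⁻¹ := inv_pos.2 hC
  have hrp : 0 < rho := hcr.1
  have hZpos : 0 < Zq n s := by
    rcases (Zq_nn n s hspos.le).lt_or_eq with h | h
    · exact h
    · rw [← h, mul_zero] at h6
      linarith
  refine ⟨hZpos, ?_⟩
  -- lower bound of the power
  obtain ⟨x, hx⟩ : ∃ x, x = 4 * D * s := ⟨_, rfl⟩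
  have hx0 : 0 ≤ x := by rw [hx]; positivity
  have hx1 : x ≤ 1 / 2 := by
    rw [lt_div_iff₀ (by positivity)] at h5
    rw [hx]
    linarith
  have hxn : 2 * x * n ≤ 16 * D := by
    have h10 : s * n ≤ 2 := by
      rw [hs, div_mul_eq_mul_div, div_le_iff₀ (by positivity)]
      linarith
    rw [hx]
    nlinarith
  have hpow : (1 / 4 : ℝ) ^ n * E ≤ rho ^ n := by
    have h10 : (1 / 4 : ℝ) * (1 - x) ≤ rho := by
      rw [hx]
      linarith
    have h11 : 0 ≤ (1 / 4 : ℝ) * (1 - x) := by linarith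
    refine le_trans ?_ (pow_le_pow_left₀ h11 h10 n)
    rw [mul_pow]
    refine mul_le_mul_of_nonneg_left ?_ (by positivity)
    calc E ≤ Real.exp (n * (-(2 * x))) := by
          rw [hE]
          exact Real.exp_le_exp.2 (by linarith)
      _ = Real.exp (-(2 * x)) ^ n := Real.exp_nat_mul _ _
      _ ≤ (1 - x) ^ n := pow_le_pow_left₀ (Real.exp_pos _).le (exp_bound x hx0 hx1) n
  obtain ⟨a, ha⟩ : ∃ a, a = sc n * (1 / 4 : ℝ) ^ n := ⟨_, rfl⟩
  have ha0 : 0 < a := by rw [ha]; positivity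
  have hup : a * Zq n s ≤ C / E := by
    rw [le_div_iff₀ hE0]
    refine le_trans ?_ h7
    rw [ha]
    calc sc n * (1 / 4 : ℝ) ^ n * Zq n s * E = sc n * ((1 / 4 : ℝ) ^ n * E) * Zq n s := by ring
      _ ≤ sc n * rho ^ n * Zq n s :=
        mul_le_mul_of_nonneg_right (mul_le_mul_of_nonneg_left hpow hsc.le) hZpos.le
  have hlow : C⁻¹ ≤ a * N0 n := by
    have hT : Tendsto (fun s' : ℝ => a * (N0 n + s' * (Omn n).card)) (𝓝[>] 0) (𝓝 (a * N0 n)) := by
      have hc : Continuous (fun s' : ℝ => a * (N0 n + s' * (Omn n).card)) := by fun_prop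
      have h10 := hc.tendsto 0
      simp only [zero_mul, add_zero] at h10
      exact h10.mono_left nhdsWithin_le_nhds
    refine ge_of_tendsto hT ?_
    filter_upwards [Ioc_mem_nhdsGT (show (0 : ℝ) < 1 / 4 by norm_num)] with s' hs'
    obtain ⟨rho', hcr', _, _, h12, h13, _⟩ := hN n h2 s' hs'.1 hs'.2
    have h14 := Zq_le n s' hs'.1.le (by linarith [hs'.2]) hg
    have h15 : rho' ^ n ≤ (1 / 4 : ℝ) ^ n := pow_le_pow_left₀ hcr'.1.le h12 n
    calc C⁻¹ ≤ sc n * rho' ^ n * Zq n s' := h13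
      _ ≤ a * Zq n s' := by
          rw [ha]
          exact mul_le_mul_of_nonneg_right (mul_le_mul_of_nonneg_left h15 hsc.le)
            (Zq_nn n s' hs'.1.le)
      _ ≤ _ := mul_le_mul_of_nonneg_left h14 ha0.le
  have h16 : 1 ≤ C * (a * N0 n) := by
    have := mul_le_mul_of_nonneg_left hlow hC.le
    rwa [mul_inv_cancel₀ hC.ne'] at this
  have h17 : 0 ≤ C * N0 n := mul_nonneg hC.le (N0_nn n)
  calc Zq n s = Zq n s * 1 := (mul_one _).symm
    _ ≤ Zq n s * (C * (a * N0 n)) := mul_le_mul_of_nonneg_left h16 hZpos.le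
    _ = (C * N0 n) * (a * Zq n s) := by ring
    _ ≤ (C * N0 n) * (C / E) := mul_le_mul_of_nonneg_left hup h17
    _ = C * (C / E) * N0 n := by ring

/-- the binomial coefficients -/
lemma choose_low (δ : ℕ) (c : ℝ) (hc : 0 < c) : ∃ κ : ℝ, 0 < κ ∧ ∀ᶠ n : ℕ in atTop,
    ∀ k : ℕ, c * n ≤ k → δ ≤ k ∧ κ ≤ (k.choose δ : ℝ) * (2 / ((n : ℝ) + 1)) ^ δ := by
  refine ⟨(c / 2) ^ δ / δ.factorial, by positivity, ?_⟩
  filter_upwards [eventually_ge_atTop 1, eventually_ge_atTop ⌈2 * δ / c⌉₊] with n h1 h2 k hk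
  have hn1 : (1 : ℝ) ≤ n := by exact_mod_cast h1
  have h3 : 2 * (δ : ℝ) / c ≤ n := (Nat.le_ceil _).trans (by exact_mod_cast h2)
  rw [div_le_iff₀ hc] at h3
  have h4 : 2 * (δ : ℝ) ≤ k := by linarith
  have h5 : δ ≤ k := by
    have : (δ : ℝ) ≤ k := by
      have : (0 : ℝ) ≤ δ := Nat.cast_nonneg _
      linarith
    exact_mod_cast this
  refine ⟨h5, ?_⟩
  have h6 : ((k + 1 - δ : ℕ) : ℝ) ^ δ / δ.factorial ≤ (k.choose δ : ℝ) := by
    exact_mod_cast Nat.pow_le_choose (α := ℝ) δ k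
  have h7 : c * n / 2 ≤ ((k + 1 - δ : ℕ) : ℝ) := by
    rw [Nat.cast_sub (by omega)]
    push_cast
    linarith
  have h8 : 1 / (n : ℝ) ≤ 2 / ((n : ℝ) + 1) := by
    rw [div_le_div_iff₀ (by linarith) (by linarith)]
    linarith
  have h9 : (c * n / 2) ^ δ / δ.factorial ≤ (k.choose δ : ℝ) := by
    refine le_trans ?_ h6
    refine div_le_div_of_nonneg_right (pow_le_pow_left₀ (by positivity) h7 δ) (by positivity)
  calc (c / 2) ^ δ / δ.factorial = (c * n / 2) ^ δ / δ.factorial * (1 / (n : ℝ)) ^ δ := by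
        have : (n : ℝ) ≠ 0 := by linarith
        rw [div_mul_eq_mul_div, ← mul_pow]
        congr 2
        field_simp
    _ ≤ (k.choose δ : ℝ) * (2 / ((n : ℝ) + 1)) ^ δ :=
        mul_le_mul h9 (pow_le_pow_left₀ (by positivity) h8 δ) (by positivity) (by positivity)

/-- lower bound for the weight of the words with `δ` defects -/
lemma low (hS : SKZ_Stmt) (hK : KBGZ_Stmt) (hM : SMP_Stmt) (hZ : ZB_Stmt) (hR : RHOZ_Stmt)
    (hg : HG_Stmt) (δ : ℕ) : ∃ c : ℝ, 0 < c ∧ ∀ᶠ n : ℕ in atTop,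
      c * Zq n (2 / ((n : ℝ) + 1)) ≤ U n (2 / ((n : ℝ) + 1)) (n - δ) (fun _ => 1) := by
  obtain ⟨K, hK0, hN0⟩ := N0_ge hZ hR hg
  obtain ⟨c, hc, N, hN6, hN⟩ := hK
  obtain ⟨κ, hκ, hch⟩ := choose_low δ c hc
  refine ⟨κ * (1 / (2 * K)), by positivity, ?_⟩
  have hexp : ∀ᶠ n : ℕ in atTop, Real.exp (-(c * n)) < 1 / (2 * K) := by
    have h1 : Tendsto (fun n : ℕ => c * (n : ℝ)) atTop atTop :=
      tendsto_natCast_atTop_atTop.const_mul_atTop hc
    have h2 : Tendsto (fun n : ℕ => Real.exp (-(c * (n : ℝ)))) atTop (𝓝 0) :=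
      Real.tendsto_exp_neg_atTop_nhds_zero.comp h1
    exact h2.eventually (gt_mem_nhds (by positivity))
  filter_upwards [hN0, hch, hexp, eventually_ge_atTop N, eventually_ge_atTop 8,
    eventually_ge_atTop δ] with n h1 h2 h3 h4 h5 h6
  obtain ⟨s, hs⟩ : ∃ s, s = 2 / ((n : ℝ) + 1) := ⟨_, rfl⟩
  rw [← hs] at h1 h2 ⊢
  obtain ⟨hZpos, hZN⟩ := h1
  have hn8 : (8 : ℝ) ≤ n := by exact_mod_cast h5
  have hs0 : 0 < s := by rw [hs]; positivity
  have hs4 : s ≤ 1 / 4 := by
    rw [hs, div_le_div_iff₀ (by linarith) (by norm_num)]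
    linarith
  obtain ⟨k, σ, hσ⟩ := hS n (by omega)
  have h7 := hN n h4 s hs0 hs4 k σ hσ
  -- the words of maximal span
  have hcount : N0 n ≤ ((univ.filter (fun i : Fin k => (σ i).H = n)).card : ℝ) := by
    have hr := hσ.repr (fun a _ _ => if a = (n : ℤ) then 1 else 0)
    have hl : ∑ q ∈ Omn n, (if ((sp q : ℕ) : ℤ) = (n : ℤ) then (1 : ℝ) else 0) = N0 n := by
      unfold N0
      rw [card_filter]
      push_cast
      refine sum_congr rfl fun q _ => ?_
      simp only [Nat.cast_inj]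
    rw [← hl, hr, card_filter]
    push_cast
    refine sum_le_sum fun i _ => ?_
    rw [(hM (σ i).l).1 (fun j => if ((σ i).H : ℤ) - j = (n : ℤ) then (1 : ℝ) else 0)]
    have hH := hσ.H_le i
    have hterm : ∀ j ∈ range ((σ i).l.length + 1), (((σ i).l.length.choose j : ℕ) : ℝ) *
        (if ((σ i).H : ℤ) - j = (n : ℤ) then (1 : ℝ) else 0) ≤
        if j = 0 then (if (σ i).H = n then (1 : ℝ) else 0) else 0 := by
      intro j _
      by_cases hj : j = 0
      · subst hj
        simp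
      · rw [if_neg hj, if_neg (by omega), mul_zero]
    refine (sum_le_sum hterm).trans ?_
    rw [Finset.sum_ite_eq' (range ((σ i).l.length + 1)) 0
      (fun _ => if (σ i).H = n then (1 : ℝ) else 0), if_pos (mem_range.2 (Nat.succ_pos _))]
  -- many tokens
  have hmany : 1 / (2 * K) * Zq n s ≤
      ((univ.filter (fun i : Fin k => (σ i).H = n ∧ c * n ≤ ((σ i).l.length : ℝ))).card : ℝ) := by
    have hfew : ((univ.filter (fun i : Fin k => (σ i).H = n ∧
        ((σ i).l.length : ℝ) < c * n)).card : ℝ) ≤ 1 / (2 * K) * Zq n s := by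
      refine le_trans ?_ (h7.trans (mul_le_mul_of_nonneg_right h3.le hZpos.le))
      rw [card_eq_sum_ones, Nat.cast_sum]
      push_cast
      refine (sum_le_sum (g := fun i => vsk n s (σ i)) fun i hi => ?_).trans
        (sum_le_sum_of_subset_of_nonneg (fun i hi => ?_) fun i _ _ => ?_)
      · rw [mem_filter] at hi
        unfold vsk
        rw [hi.2.1, Nat.sub_self, pow_zero, one_mul]
        exact one_le_pow₀ (by linarith)
      · rw [mem_filter] at hi ⊢
        exact ⟨hi.1, hi.2.2⟩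
      · unfold vsk
        positivity
    have hsplit : ((univ.filter (fun i : Fin k => (σ i).H = n)).card : ℝ) ≤
        ((univ.filter (fun i : Fin k => (σ i).H = n ∧
          ((σ i).l.length : ℝ) < c * n)).card : ℝ) +
        ((univ.filter (fun i : Fin k => (σ i).H = n ∧
          c * n ≤ ((σ i).l.length : ℝ))).card : ℝ) := by
      have hsub : (univ.filter (fun i : Fin k => (σ i).H = n)) ⊆
          (univ.filter (fun i : Fin k => (σ i).H = n ∧ ((σ i).l.length : ℝ) < c * n)) ∪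
          (univ.filter (fun i : Fin k => (σ i).H = n ∧ c * n ≤ ((σ i).l.length : ℝ))) := by
        intro i hi
        rw [mem_filter] at hi
        rw [mem_union, mem_filter, mem_filter]
        rcases lt_or_ge ((σ i).l.length : ℝ) (c * n) with h | h
        · exact Or.inl ⟨hi.1, hi.2, h⟩
        · exact Or.inr ⟨hi.1, hi.2, h⟩
      have := (card_le_card hsub).trans (card_union_le _ _)
      exact_mod_cast this
    have h8 : 2 * (1 / (2 * K) * Zq n s) ≤ N0 n := by
      have h9 : 2 * (1 / (2 * K) * Zq n s) = Zq n s / K := by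
        field_simp
      rw [h9, div_le_iff₀ hK0]
      linarith
    linarith
  -- the words with `δ` defects
  have hU : U n s (n - δ) (fun _ => 1) =
      ∑ q ∈ Omn n, (if ((sp q : ℕ) : ℤ) = (n : ℤ) - δ then s ^ δ else 0) := by
    unfold U
    rw [sum_filter]
    refine sum_congr rfl fun q hq => ?_
    have h10 := sp_le' hg n q hq
    by_cases h11 : sp q = n - δ
    · rw [if_pos h11, if_pos (by omega), mul_one]
      have : wtq n s q = s ^ (n - sp q) := rfl
      rw [this]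
      congr 1
      omega
    · rw [if_neg h11, if_neg (by omega)]
  have hrr := hσ.repr (fun a _ _ => if a = (n : ℤ) - δ then s ^ δ else 0)
  rw [hU, hrr]
  calc κ * (1 / (2 * K)) * Zq n s = κ * (1 / (2 * K) * Zq n s) := by ring
    _ ≤ κ * ((univ.filter (fun i : Fin k => (σ i).H = n ∧
          c * n ≤ ((σ i).l.length : ℝ))).card : ℝ) := mul_le_mul_of_nonneg_left hmany hκ.le
    _ = ∑ i ∈ univ.filter (fun i : Fin k => (σ i).H = n ∧ c * n ≤ ((σ i).l.length : ℝ)), κ := by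
        rw [sum_const, nsmul_eq_mul, mul_comm]
    _ ≤ ∑ i ∈ univ.filter (fun i : Fin k => (σ i).H = n ∧ c * n ≤ ((σ i).l.length : ℝ)),
          rs (σ i).l (fun j _ => if ((σ i).H : ℤ) - j = (n : ℤ) - δ then s ^ δ else 0) := by
        refine sum_le_sum fun i hi => ?_
        rw [mem_filter] at hi
        obtain ⟨h12, h13⟩ := h2 (σ i).l.length hi.2.2
        rw [(hM (σ i).l).1 (fun j => if ((σ i).H : ℤ) - j = (n : ℤ) - δ then s ^ δ else 0)]
        refine h13.trans ?_
        have h14 := Finset.single_le_sum (s := range ((σ i).l.length + 1))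
          (f := fun j => (((σ i).l.length.choose j : ℕ) : ℝ) *
            (if ((σ i).H : ℤ) - j = (n : ℤ) - δ then s ^ δ else 0))
          (fun j _ => by
            refine mul_nonneg (Nat.cast_nonneg _) ?_
            split_ifs
            · positivity
            · exact le_rfl) (mem_range.2 (Nat.lt_succ_of_le h12))
        simp only [hi.2.1, if_true] at h14
        rw [hi.2.1]
        exact h14
    _ ≤ _ := by
        refine sum_le_sum_of_subset_of_nonneg (subset_univ _) fun i _ _ => ?_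
        refine rs_nonneg _ _ fun j t _ _ => ?_
        split_ifs
        · positivity
        · exact le_rfl

/-- the test function -/
noncomputable def tst (δ : ℕ) (x : ℝ) : ℝ := max 0 (1 - 2 * |x - δ|)

lemma tst_cont (δ : ℕ) : Continuous (tst δ) := by
  unfold tst
  fun_prop

lemma tst_abs (δ : ℕ) (x : ℝ) : |tst δ x| ≤ 1 := by
  unfold tst
  rw [abs_of_nonneg (le_max_left _ _)]
  refine max_le zero_le_one ?_
  linarith [abs_nonneg (x - δ)]

lemma tst_int (hg : HG_Stmt) (δ n : ℕ) (hn : δ ≤ n) (q : QI) (hq : q ∈ Omn n) :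
    tst δ ((n : ℝ) - sp q) = if sp q = n - δ then 1 else 0 := by
  have h1 := sp_le' hg n q hq
  unfold tst
  by_cases h : sp q = n - δ
  · rw [if_pos h, h, Nat.cast_sub hn]
    simp
  · rw [if_neg h]
    refine max_eq_left ?_
    have h2 : (1 : ℝ) ≤ |(n : ℝ) - sp q - δ| := by
      have h3 : ((n : ℤ) - sp q - δ) ≠ 0 := by omega
      have h4 := Int.one_le_abs h3
      have h5 : (((1 : ℤ) : ℝ)) ≤ ((|(n : ℤ) - sp q - δ| : ℤ) : ℝ) := by exact_mod_cast h4
      rw [Int.cast_abs] at h5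
      push_cast at h5
      exact h5
    linarith

end BDZ

open BDZ in
/-- BDZ : bounded number of defects. -/
theorem t_BDZ (hS : SKZ_Stmt) (hK : KBGZ_Stmt) (hM : SMP_Stmt) (hZ : ZB_Stmt) (hR : RHOZ_Stmt)
    (hI : IND_Stmt) (hE : EXPZ_Stmt) (hLap : LAPZ_Stmt) (hA : ARM_Stmt) (hg : HG_Stmt) :
    BDZ_Stmt := by
  intro δ
  obtain ⟨K, hK0, hN0⟩ := N0_ge hZ hR hg
  have hZpos : ∀ᶠ n : ℕ in atTop, 0 < Zq n (2 / ((n : ℝ) + 1)) := by
    filter_upwards [hN0] with n hn using hn.1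
  have hlim : Tendsto (fun n : ℕ => 2 / ((n : ℝ) + 1)) atTop (𝓝 0) := by
    have h1 : Tendsto (fun n : ℕ => (n : ℝ) + 1) atTop atTop :=
      tendsto_atTop_add_const_right _ _ tendsto_natCast_atTop_atTop
    exact h1.const_div_atTop 2
  have hpos : ∀ n : ℕ, 0 < 2 / ((n : ℝ) + 1) := fun n => by positivity
  have hge : ∀ n : ℕ, 1 ≤ n → 1 ≤ 2 / ((n : ℝ) + 1) * n := by
    intro n hn
    have hn1 : (1 : ℝ) ≤ n := by exact_mod_cast hn
    rw [div_mul_eq_mul_div, le_div_iff₀ (by linarith)]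
    linarith
  have hle : ∀ n : ℕ, 2 / ((n : ℝ) + 1) * n ≤ 2 := by
    intro n
    have hn1 : (0 : ℝ) ≤ n := Nat.cast_nonneg n
    rw [div_mul_eq_mul_div, div_le_iff₀ (by linarith)]
    linarith
  obtain ⟨c, hc, hlow⟩ := low hS hK hM hZ hR hg δ
  refine ⟨hpos, hlim, ?_, ⟨c, hc, ?_⟩, ?_⟩
  · filter_upwards [eventually_ge_atTop 1] with n hn using hge n hn
  · filter_upwards [hlow, hZpos, eventually_ge_atTop 1] with n h1 h2 h3
    refine le_trans (mul_le_mul_of_nonneg_right ?_ h2.le) h1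
    refine div_le_self hc.le ?_
    rw [Real.one_le_sqrt]
    exact hge n h3
  · intro φ hφ1 hφL
    obtain ⟨s0, hs0, hE1, _⟩ := hE
    obtain ⟨Λ, hΛ⟩ := hLap
    obtain ⟨C, hC0, N, hN⟩ := hA (1 / 4) (by norm_num) (by norm_num)
    have key := hI (fun _ => QI) Omn
      (fun n q => wtq n (2 / ((n : ℝ) + 1)) q / Zq n (2 / ((n : ℝ) + 1)))
      (fun n q => (n : ℝ) - sp q) (fun n q => ra n q)
      (fun n q => div_nonneg (wtq_nn n _ (hpos n).le q) (Zq_nn n _ (hpos n).le))
      (fun n q => ra_nn n q) ?_ ?_ ?_ ?_ (tst δ) φ (tst_cont δ) hφL.continuous (tst_abs δ) hφ1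
    · have hconv : Tendsto (fun n : ℕ =>
          (U n (2 / ((n : ℝ) + 1)) (n - δ) φ - U n (2 / ((n : ℝ) + 1)) (n - δ) (fun _ => 1) *
            ((∑ q ∈ Omn n, wtq n (2 / ((n : ℝ) + 1)) q * φ (ra n q)) /
              Zq n (2 / ((n : ℝ) + 1)))) / Zq n (2 / ((n : ℝ) + 1))) atTop (𝓝 0) := by
        refine key.congr' ?_
        filter_upwards [eventually_ge_atTop δ] with n hn
        have e1 : ∀ ψ : ℝ → ℝ, ∑ q ∈ Omn n, wtq n (2 / ((n : ℝ) + 1)) q /
            Zq n (2 / ((n : ℝ) + 1)) * (tst δ ((n : ℝ) - sp q) * ψ (ra n q)) =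
            U n (2 / ((n : ℝ) + 1)) (n - δ) ψ / Zq n (2 / ((n : ℝ) + 1)) := by
          intro ψ
          unfold U
          rw [sum_filter, sum_div]
          refine sum_congr rfl fun q hq => ?_
          rw [tst_int hg δ n hn q hq]
          split_ifs <;> ring
        have e2 := e1 φ
        have e3 := e1 (fun _ => 1)
        simp only [mul_one] at e3
        have e4 : ∑ q ∈ Omn n, wtq n (2 / ((n : ℝ) + 1)) q / Zq n (2 / ((n : ℝ) + 1)) *
            φ (ra n q) = (∑ q ∈ Omn n, wtq n (2 / ((n : ℝ) + 1)) q * φ (ra n q)) /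
              Zq n (2 / ((n : ℝ) + 1)) := by
          rw [sum_div]
          refine sum_congr rfl fun q _ => ?_
          ring
        rw [e2, e3, e4]
        ring
      have hfin : Tendsto (fun n : ℕ => c⁻¹ * abs (
          (U n (2 / ((n : ℝ) + 1)) (n - δ) φ - U n (2 / ((n : ℝ) + 1)) (n - δ) (fun _ => 1) *
            ((∑ q ∈ Omn n, wtq n (2 / ((n : ℝ) + 1)) q * φ (ra n q)) /
              Zq n (2 / ((n : ℝ) + 1)))) / Zq n (2 / ((n : ℝ) + 1)))) atTop (𝓝 0) := by
        have := hconv.abs.const_mul (c⁻¹)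
        simpa using this
      refine squeeze_zero_norm' ?_ hfin
      filter_upwards [hlow, hZpos] with n h1 h2
      obtain ⟨Z, hZd⟩ : ∃ Z, Z = Zq n (2 / ((n : ℝ) + 1)) := ⟨_, rfl⟩
      obtain ⟨u, hu⟩ : ∃ u, u = U n (2 / ((n : ℝ) + 1)) (n - δ) (fun _ => 1) := ⟨_, rfl⟩
      obtain ⟨v, hv⟩ : ∃ v, v = U n (2 / ((n : ℝ) + 1)) (n - δ) φ := ⟨_, rfl⟩
      obtain ⟨E, hEd⟩ : ∃ E, E = (∑ q ∈ Omn n, wtq n (2 / ((n : ℝ) + 1)) q * φ (ra n q)) / Z :=
        ⟨_, rfl⟩
      rw [← hZd] at h1 h2 ⊢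
      rw [← hu] at h1 ⊢
      rw [← hv, ← hEd]
      have hu0 : 0 < u := lt_of_lt_of_le (by positivity) h1
      have h3 : v / u - E = (v - u * E) / Z * (Z / u) := by
        field_simp
      rw [h3, Real.norm_eq_abs, abs_mul, mul_comm]
      refine mul_le_mul_of_nonneg_right ?_ (abs_nonneg _)
      rw [abs_of_nonneg (by positivity), div_le_iff₀ hu0, inv_mul_eq_div, le_div_iff₀ hc]
      linarith
    · filter_upwards [hZpos] with n hn
      rw [← Finset.sum_div]
      exact div_self hn.ne'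
    · intro t
      obtain ⟨C', _, N', hN'⟩ := hE1 t 2 (by norm_num)
      refine ⟨C', ?_⟩
      filter_upwards [hZpos, eventually_ge_atTop N'] with n h1 h2
      simp only [div_mul_eq_mul_div]
      rw [← Finset.sum_div, div_le_iff₀ h1]
      exact hN' n h2 _ (hpos n) (hle n)
    · refine ⟨1 + C, ?_⟩
      have hsm : ∀ᶠ n : ℕ in atTop, 2 / ((n : ℝ) + 1) < 1 / 4 :=
        hlim.eventually (gt_mem_nhds (by norm_num))
      filter_upwards [hZpos, eventually_ge_atTop N, hsm] with n h1 h2 h3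
      obtain ⟨h5, _, _⟩ := hN n h2 _ (hpos n) h3.le
      simp only [div_mul_eq_mul_div]
      rw [← Finset.sum_div, div_le_iff₀ h1]
      have h6 : ∑ q ∈ Omn n, wtq n (2 / ((n : ℝ) + 1)) q * ra n q ≤
          ∑ q ∈ Omn n, (wtq n (2 / ((n : ℝ) + 1)) q +
            wtq n (2 / ((n : ℝ) + 1)) q * ra n q ^ 2) := by
        refine Finset.sum_le_sum fun q _ => ?_
        have h7 := wtq_nn n (2 / ((n : ℝ) + 1)) (hpos n).le q
        have h8 : ra n q ≤ 1 + ra n q ^ 2 := by nlinarith [sq_nonneg (ra n q - 1)]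
        nlinarith [mul_le_mul_of_nonneg_left h8 h7]
      refine h6.trans ?_
      rw [sum_add_distrib]
      have h9 : ∑ q ∈ Omn n, wtq n (2 / ((n : ℝ) + 1)) q = Zq n (2 / ((n : ℝ) + 1)) := rfl
      rw [h9]
      linarith
    · intro t lam hlam
      obtain ⟨C', _, N', hN'⟩ := hE1 t 2 (by norm_num)
      have hL1 := hΛ (fun n : ℕ => 2 / ((n : ℝ) + 1)) hpos hlim lam hlam
      have hL2 := hΛ (fun n : ℕ => 2 / ((n : ℝ) + 1) * Real.exp t)
        (fun n => mul_pos (hpos n) (Real.exp_pos t)) (by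
          have := hlim.mul_const (Real.exp t)
          rwa [zero_mul] at this) lam hlam
      have hL := hL2.sub hL1
      rw [sub_self] at hL
      have hprod : Tendsto (fun n : ℕ => Zq n (2 / ((n : ℝ) + 1) * Real.exp t) /
          Zq n (2 / ((n : ℝ) + 1)) * (lapQ n (2 / ((n : ℝ) + 1) * Real.exp t) lam -
            lapQ n (2 / ((n : ℝ) + 1)) lam)) atTop (𝓝 0) := by
        refine squeeze_zero_norm' (a := fun n : ℕ => C' *
          |lapQ n (2 / ((n : ℝ) + 1) * Real.exp t) lam -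
            lapQ n (2 / ((n : ℝ) + 1)) lam|) ?_ ?_
        · filter_upwards [hZpos, eventually_ge_atTop N'] with n h1 h2
          rw [norm_mul, Real.norm_eq_abs, Real.norm_eq_abs]
          refine mul_le_mul_of_nonneg_right ?_ (abs_nonneg _)
          have h3 := hN' n h2 _ (hpos n) (hle n)
          have h4 : ∑ q ∈ Omn n, wtq n (2 / ((n : ℝ) + 1)) q *
              Real.exp (t * ((n : ℝ) - sp q)) = Zq n (2 / ((n : ℝ) + 1) * Real.exp t) := by
            unfold Zq
            exact sum_congr rfl fun q hq => tilt hg n _ t q hq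
          rw [h4] at h3
          rw [abs_of_nonneg (div_nonneg (Zq_nn n _ (mul_pos (hpos n) (Real.exp_pos t)).le) h1.le),
            div_le_iff₀ h1]
          exact h3
        · have := (hL.abs).const_mul C'
          simpa using this
      refine hprod.congr' ?_
      filter_upwards [hZpos] with n h3
      have hZt : 0 < Zq n (2 / ((n : ℝ) + 1) * Real.exp t) := by
        have h1 : ∃ q ∈ Omn n, 0 < wtq n (2 / ((n : ℝ) + 1)) q := by
          by_contra hcc
          push Not at hcc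
          exact absurd h3 (not_lt.2 (Finset.sum_nonpos hcc))
        obtain ⟨q, hq, _⟩ := h1
        refine Finset.sum_pos' (fun q _ => wtq_nn n _
          (mul_pos (hpos n) (Real.exp_pos t)).le q) ⟨q, hq, ?_⟩
        have := mul_pos (hpos n) (Real.exp_pos t)
        unfold wtq
        positivity
      have e1 : ∑ q ∈ Omn n, wtq n (2 / ((n : ℝ) + 1)) q / Zq n (2 / ((n : ℝ) + 1)) *
          (Real.exp (t * ((n : ℝ) - sp q)) * Real.exp (-(lam * ra n q))) =
          (∑ q ∈ Omn n, wtq n (2 / ((n : ℝ) + 1) * Real.exp t) q *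
            Real.exp (-(lam * ra n q))) / Zq n (2 / ((n : ℝ) + 1)) := by
        rw [sum_div]
        refine sum_congr rfl fun q hq => ?_
        rw [← tilt hg n _ t q hq]
        ring
      have e2 : ∑ q ∈ Omn n, wtq n (2 / ((n : ℝ) + 1)) q / Zq n (2 / ((n : ℝ) + 1)) *
          Real.exp (t * ((n : ℝ) - sp q)) = Zq n (2 / ((n : ℝ) + 1) * Real.exp t) /
            Zq n (2 / ((n : ℝ) + 1)) := by
        unfold Zq
        rw [sum_div]
        refine sum_congr rfl fun q hq => ?_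
        rw [← tilt hg n _ t q hq]
        ring
      have e3 : ∑ q ∈ Omn n, wtq n (2 / ((n : ℝ) + 1)) q / Zq n (2 / ((n : ℝ) + 1)) *
          Real.exp (-(lam * ra n q)) = lapQ n (2 / ((n : ℝ) + 1)) lam := by
        unfold lapQ
        rw [sum_div]
        refine sum_congr rfl fun q _ => ?_
        ring
      rw [e1, e2, e3, mul_sub]
      congr 1
      show Zq n (2 / ((n : ℝ) + 1) * Real.exp t) / Zq n (2 / ((n : ℝ) + 1)) *
        ((∑ q ∈ Omn n, wtq n (2 / ((n : ℝ) + 1) * Real.exp t) q *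
            Real.exp (-(lam * ra n q))) / Zq n (2 / ((n : ℝ) + 1) * Real.exp t)) = _
      rw [div_mul_div_comm, mul_comm (Zq n (2 / ((n : ℝ) + 1) * Real.exp t)),
        mul_div_mul_right _ _ hZt.ne']

end Pool.Agent.NSP
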