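import Pool.Agent.NSP.Stmts
import Pool.Agent.Lib_helper74.FS.BIN

/-!
# Project NSP (MP_f6626d_co): module BINZ, binomial weights with small parameter
-/

set_option autoImplicit false

namespace Pool.Agent.NSP

open Finset Filter Topology MeasureTheory
open Pool.Agent.FS

namespace BINZ

lemma b_ok (p : ℝ) (hp0 : 0 < p) (hp : p ≤ 1 / 2) :
    p / Real.pi ^ 2 ≤ 2 * p * (1 - p) / Real.pi ^ 2 := by
  have h : p ≤ 2 * p * (1 - p) := by nlinarith
  gcongr

lemma pi_le4 : Real.pi ≤ 4 := Real.pi_le_four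

/-- first bound -/
lemma b1 (k : ℕ) (p : ℝ) (j : ℤ) (hp0 : 0 < p) (hp : p ≤ 1 / 2) (hk : 1 ≤ k) :
    bp k p j ≤ Real.pi / Real.sqrt (k * p) := by
  have hk' : (0 : ℝ) < k := by exact_mod_cast hk
  have hpi : 0 < Real.pi := Real.pi_pos
  refine (BIN.bp_le k p (p / Real.pi ^ 2) j hp0.le (by linarith) (by positivity)
    (b_ok p hp0 hp) hk).trans (le_of_eq ?_)
  rw [Real.sqrt_div hp0.le, Real.sqrt_sq hpi.le, Real.sqrt_mul hk'.le, one_div_div, div_div,
    mul_comm (Real.sqrt p)]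

/-- second bound -/
lemma b2 (k : ℕ) (p : ℝ) (j : ℤ) (hp0 : 0 < p) (hp : p ≤ 1 / 2) (hk : 1 ≤ k) :
    |bp k p (j + 1) - bp k p j| ≤ Real.pi ^ 2 / (k * p) := by
  have hk' : (0 : ℝ) < k := by exact_mod_cast hk
  have hpi : 0 < Real.pi := Real.pi_pos
  refine (BIN.bp_diff k p (p / Real.pi ^ 2) j hp0.le (by linarith) (by positivity)
    (b_ok p hp0 hp) hk).trans (le_of_eq ?_)
  rw [one_div_div, div_div, mul_comm p]

lemma be_shift (K n : ℕ) (p : ℝ) :
    ((n + 1 : ℕ) : ℝ) * BIN.be (K + 1) p (n + 1) = (K + 1 : ℕ) * p * BIN.be K p n := by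
  unfold BIN.be
  have h2 : ((K + 1 : ℕ) : ℝ) * (K.choose n : ℝ) =
      ((K + 1).choose (n + 1) : ℝ) * ((n + 1 : ℕ) : ℝ) := by
    exact_mod_cast Nat.add_one_mul_choose_eq K n
  rw [Nat.add_sub_add_right, pow_succ]
  linear_combination (-(p ^ n * p * (1 - p) ^ (K - n))) * h2

/-- third bound -/
lemma b3 (k : ℕ) (p : ℝ) (j : ℤ) (hp0 : 0 < p) (hp : p ≤ 1 / 2) (hk : 1 ≤ k) :
    bp k p j * j ≤ 20 * Real.sqrt (k * p) := by
  have hs0 : 0 ≤ Real.sqrt (k * p) := Real.sqrt_nonneg _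
  rcases lt_trichotomy j 0 with h | h | h
  · rw [BIN.bp_neg _ _ _ h]
    linarith
  · subst h
    simp only [Int.cast_zero, mul_zero]
    linarith
  · obtain ⟨n, rfl⟩ : ∃ n : ℕ, j = (n : ℤ) + 1 := ⟨(j - 1).toNat, by omega⟩
    obtain ⟨K, rfl⟩ : ∃ K, k = K + 1 := ⟨k - 1, by omega⟩
    have h1 : ((n : ℤ) + 1) = ((n + 1 : ℕ) : ℤ) := by push_cast; ring
    have h2 : bp (K + 1) p ((n : ℤ) + 1) * (((n : ℤ) + 1 : ℤ) : ℝ) =
        (K + 1 : ℕ) * p * bp K p (n : ℤ) := by
      rw [h1, BIN.bp_nat, BIN.bp_nat, ← be_shift]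
      push_cast
      ring
    rw [h2]
    rcases Nat.eq_zero_or_pos K with hK | hK
    · subst hK
      have h3 : bp 0 p (n : ℤ) ≤ 1 := (le_abs_self _).trans (BIN.bp_zero_le p n)
      have h4 : p ≤ Real.sqrt p := by
        apply Real.le_sqrt_of_sq_le
        nlinarith
      have h5 : (((0 + 1 : ℕ) : ℝ) * p) = p := by push_cast; ring
      rw [h5]
      have h6 : 0 ≤ Real.sqrt p := Real.sqrt_nonneg _
      nlinarith
    · have hK' : (1 : ℝ) ≤ K := by exact_mod_cast hK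
      have h3 := b1 K p n hp0 hp hK
      set v : ℝ := K * p with hv
      have hv0 : 0 < v := by positivity
      have hsv : 0 < Real.sqrt v := Real.sqrt_pos.mpr hv0
      have hsvv : Real.sqrt v * Real.sqrt v = v := Real.mul_self_sqrt hv0.le
      have h4 : ((K + 1 : ℕ) : ℝ) * p ≤ 2 * v := by
        rw [hv]
        push_cast
        nlinarith
      have h5 : Real.sqrt v ≤ Real.sqrt (((K + 1 : ℕ) : ℝ) * p) := by
        apply Real.sqrt_le_sqrt
        rw [hv]
        push_cast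
        nlinarith
      have h6 : 0 ≤ bp K p (n : ℤ) := BIN.bp_nonneg K p n hp0.le (by linarith)
      calc ((K + 1 : ℕ) : ℝ) * p * bp K p (n : ℤ) ≤ 2 * v * (Real.pi / Real.sqrt v) :=
            mul_le_mul h4 h3 h6 (by positivity)
        _ = 2 * Real.pi * Real.sqrt v := by
            field_simp
            rw [Real.sq_sqrt hv0.le]
        _ ≤ 20 * Real.sqrt (((K + 1 : ℕ) : ℝ) * p) := by
            have := pi_le4
            have hpi : 0 < Real.pi := Real.pi_pos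
            nlinarith

/-- lower bound for one weight -/
lemma be_ge' (j i : ℕ) (p : ℝ) (hj : j ≠ 0) (hi : i ≠ 0) (hp0 : 0 < p) (hp1 : p < 1)
    (hjv : (j : ℝ) ≤ 4 * (((j + i : ℕ) : ℝ) * p)) :
    (1 / (Real.exp 1 ^ 2)) / Real.sqrt (((j + i : ℕ) : ℝ) * p) *
      Real.exp (-(((j : ℝ) - p * (j + i : ℕ)) ^ 2 / (p * (1 - p) * (j + i : ℕ)))) ≤
      BIN.be (j + i) p j := by
  have hj' : (0 : ℝ) < j := by exact_mod_cast Nat.pos_of_ne_zero hj
  have hi' : (0 : ℝ) < i := by exact_mod_cast Nat.pos_of_ne_zero hi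
  have hq : 0 < 1 - p := by linarith
  set k : ℝ := ((j + i : ℕ) : ℝ) with hk
  have hkk : k = (j : ℝ) + i := by rw [hk]; push_cast; ring
  have hk0 : 0 < k := by rw [hkk]; positivity
  unfold BIN.be
  rw [Nat.add_sub_cancel_left]
  have h1 := BIN.choose_ge j i hj hi
  rw [← hk] at h1
  have h2 : Real.exp (-(((j : ℝ) - p * k) ^ 2 / (p * (1 - p) * k))) ≤
      (p * k / j) ^ j * ((1 - p) * k / i) ^ i := by
    have h3 := BIN.pow_ge (p * k / j) (by positivity) j
    have h4 := BIN.pow_ge ((1 - p) * k / i) (by positivity) i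
    refine le_trans (le_of_eq ?_) (mul_le_mul h3 h4 (Real.exp_pos _).le (by positivity))
    rw [← Real.exp_add]
    congr 1
    have hi2 : (i : ℝ) = k - j := by rw [hkk]; ring
    rw [inv_div, inv_div]
    field_simp
    rw [hi2]
    ring
  have h5 : (p * k / j) ^ j * ((1 - p) * k / i) ^ i =
      (k ^ (j + i) / ((j : ℝ) ^ j * (i : ℝ) ^ i)) * (p ^ j * (1 - p) ^ i) := by
    rw [div_pow, div_pow, mul_pow, mul_pow, pow_add]
    field_simp
  have h6 : (1 / (Real.exp 1 ^ 2)) / Real.sqrt (k * p) ≤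
      Real.sqrt (2 * Real.pi) / (Real.exp 1 ^ 2) * (Real.sqrt k / (Real.sqrt j * Real.sqrt i)) := by
    have hsk : 0 < Real.sqrt k := Real.sqrt_pos.mpr hk0
    have hsj : 0 < Real.sqrt j := Real.sqrt_pos.mpr hj'
    have hsi : 0 < Real.sqrt i := Real.sqrt_pos.mpr hi'
    have hsv : 0 < Real.sqrt (k * p) := Real.sqrt_pos.mpr (by positivity)
    have h7 : (2 : ℝ) ≤ Real.sqrt (2 * Real.pi) := by
      apply Real.le_sqrt_of_sq_le
      nlinarith [Real.pi_gt_three]
    have h8 : 1 / Real.sqrt j ≤ Real.sqrt k / (Real.sqrt j * Real.sqrt i) := by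
      rw [div_le_div_iff₀ hsj (by positivity), one_mul]
      have e1 : Real.sqrt i ≤ Real.sqrt k := by
        apply Real.sqrt_le_sqrt
        rw [hkk]
        linarith
      nlinarith
    have h9 : Real.sqrt j ≤ 2 * Real.sqrt (k * p) := by
      have e1 : Real.sqrt j ≤ Real.sqrt (2 ^ 2 * (k * p)) := by
        apply Real.sqrt_le_sqrt
        linarith
      rwa [Real.sqrt_mul (by positivity), Real.sqrt_sq (by norm_num)] at e1
    have h10 : 1 / Real.sqrt (k * p) ≤ 2 * (1 / Real.sqrt j) := by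
      rw [mul_one_div, div_le_div_iff₀ hsv hsj]
      linarith
    calc (1 / (Real.exp 1 ^ 2)) / Real.sqrt (k * p)
        = (1 / (Real.exp 1 ^ 2)) * (1 / Real.sqrt (k * p)) := by ring
      _ ≤ (1 / (Real.exp 1 ^ 2)) * (2 * (1 / Real.sqrt j)) :=
          mul_le_mul_of_nonneg_left h10 (by positivity)
      _ = (2 / (Real.exp 1 ^ 2)) * (1 / Real.sqrt j) := by ring
      _ ≤ _ := by
        refine mul_le_mul ?_ h8 (by positivity) (by positivity)
        gcongr
  calc (1 / (Real.exp 1 ^ 2)) / Real.sqrt (k * p) *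
        Real.exp (-(((j : ℝ) - p * k) ^ 2 / (p * (1 - p) * k)))
      ≤ (Real.sqrt (2 * Real.pi) / (Real.exp 1 ^ 2) *
          (Real.sqrt k / (Real.sqrt j * Real.sqrt i))) *
        ((k ^ (j + i) / ((j : ℝ) ^ j * (i : ℝ) ^ i)) * (p ^ j * (1 - p) ^ i)) := by
        rw [← h5]
        exact mul_le_mul h6 h2 (Real.exp_pos _).le (by positivity)
    _ = (Real.sqrt (2 * Real.pi) / (Real.exp 1 ^ 2) *
          (Real.sqrt k / (Real.sqrt j * Real.sqrt i)) *
          (k ^ (j + i) / ((j : ℝ) ^ j * (i : ℝ) ^ i))) * (p ^ j * (1 - p) ^ i) := by ring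
    _ ≤ ((j + i).choose j : ℝ) * (p ^ j * (1 - p) ^ i) :=
        mul_le_mul_of_nonneg_right h1 (by positivity)
    _ = _ := by ring

end BINZ

theorem t_BINZ : BINZ_Stmt := by
  refine ⟨⟨20, by norm_num, ?_⟩, ?_⟩
  · intro p hp0 hp k j hk
    have hk' : (0 : ℝ) < k := by exact_mod_cast hk
    have hpi : 0 < Real.pi := Real.pi_pos
    have hpi4 := BINZ.pi_le4
    have hs : 0 ≤ Real.sqrt (k * p) := Real.sqrt_nonneg _
    refine ⟨(BINZ.b1 k p j hp0 hp hk).trans ?_, (BINZ.b2 k p j hp0 hp hk).trans ?_,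
      BINZ.b3 k p j hp0 hp hk⟩
    · gcongr
      linarith
    · gcongr
      nlinarith
  · intro R hR
    refine ⟨(1 / (Real.exp 1 ^ 2)) * Real.exp (-(2 * R ^ 2)), 4 * R ^ 2 + 1, by positivity,
      by positivity, ?_⟩
    intro p hp0 hp k j hv hj
    set v : ℝ := (k : ℝ) * p with hvdef
    have hv0 : 0 < v := by nlinarith [sq_nonneg R]
    have hk0 : (0 : ℝ) < k := by
      by_contra hcon
      have h0 : (k : ℝ) ≤ 0 := not_lt.mp hcon
      nlinarith
    have hs : 0 < Real.sqrt v := Real.sqrt_pos.mpr hv0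
    have hss : Real.sqrt v * Real.sqrt v = v := Real.mul_self_sqrt hv0.le
    have a1 : 2 * R ≤ Real.sqrt v := by
      apply Real.le_sqrt_of_sq_le
      nlinarith
    have a2 : R * Real.sqrt v ≤ v / 2 := by nlinarith
    have hpk : p * (k : ℝ) = v := by rw [hvdef]; ring
    rw [hpk] at hj
    have hjj := abs_le.mp hj
    have b1 : (0 : ℝ) < j := by linarith [hjj.1]
    have b2 : (j : ℝ) < k := by
      have : v ≤ k / 2 := by rw [hvdef]; nlinarith
      linarith [hjj.2]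
    have c1 : 0 < j := by exact_mod_cast b1
    have c2 : j < k := by exact_mod_cast b2
    obtain ⟨n, rfl⟩ := Int.eq_ofNat_of_zero_le c1.le
    obtain ⟨i, rfl⟩ : ∃ i : ℕ, k = n + i := ⟨k - n, by omega⟩
    have d1 : n ≠ 0 := by omega
    have d2 : i ≠ 0 := by omega
    rw [BIN.bp_nat]
    have hn : (((n : ℕ) : ℤ) : ℝ) = (n : ℝ) := by push_cast; ring
    rw [hn] at hj hjj
    have hmain := BINZ.be_ge' n i p d1 d2 hp0 (by linarith) (by rw [← hvdef]; linarith [hjj.2])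
    refine le_trans ?_ hmain
    rw [← hvdef, hpk]
    have e0 : p * (1 - p) * ((n + i : ℕ) : ℝ) = v * (1 - p) := by rw [hvdef]; ring
    rw [e0]
    have e1 : ((n : ℝ) - v) ^ 2 / (v * (1 - p)) ≤ 2 * R ^ 2 := by
      have e2 : ((n : ℝ) - v) ^ 2 ≤ R ^ 2 * v := by
        have e3 : ((n : ℝ) - v) ^ 2 ≤ (R * Real.sqrt v) ^ 2 := by
          rw [← sq_abs]
          exact pow_le_pow_left₀ (abs_nonneg _) hj 2
        rwa [mul_pow, Real.sq_sqrt hv0.le] at e3
      have hq : 0 < 1 - p := by linarith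
      rw [div_le_iff₀ (by positivity)]
      have e4 : 0 ≤ R ^ 2 * v := by positivity
      nlinarith
    have e7 : Real.exp (-(2 * R ^ 2)) ≤ Real.exp (-(((n : ℝ) - v) ^ 2 / (v * (1 - p)))) :=
      Real.exp_le_exp.mpr (by linarith)
    calc (1 / (Real.exp 1 ^ 2)) * Real.exp (-(2 * R ^ 2)) / Real.sqrt v
        = (1 / (Real.exp 1 ^ 2)) / Real.sqrt v * Real.exp (-(2 * R ^ 2)) := by ring
      _ ≤ _ := mul_le_mul_of_nonneg_left e7 (by positivity)

end Pool.Agent.NSP
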