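import Pool.Agent.NSP.StmtsM
import Pool.Agent.Lib_helper41.SapR.Diag
import Pool.Agent.Lib_helper74.FS.Final

/-!
# Project NSP (MP_f6626d_co), module CDFM: moments from the convergence in distribution
-/

set_option autoImplicit false

namespace Pool.Agent.NSP.CDFM

open Finset Filter Topology MeasureTheory
open Pool.Agent.AreaLaw Pool.Agent.SapR.M41

/-- layer cake for one number -/
lemma int_one (y : ℝ) (hy : 0 ≤ y) :
    ∫ s in Set.Ioi (0 : ℝ), (if s < y then (1 : ℝ) else 0) = y := by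
  have h1 : (fun s : ℝ => if s < y then (1 : ℝ) else 0) =
      (Set.Iio y).indicator (fun _ => (1 : ℝ)) := by
    funext s
    simp [Set.indicator_apply]
  rw [h1, setIntegral_indicator measurableSet_Iio, Set.Ioi_inter_Iio]
  simp [hy]

lemma int_one_integrable (y : ℝ) :
    IntegrableOn (fun s : ℝ => if s < y then (1 : ℝ) else 0) (Set.Ioi 0) := by
  have h1 : (fun s : ℝ => if s < y then (1 : ℝ) else 0) =
      (Set.Iio y).indicator (fun _ => (1 : ℝ)) := by
    funext s
    simp [Set.indicator_apply]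
  rw [h1, IntegrableOn, integrable_indicator_iff measurableSet_Iio, IntegrableOn,
    Measure.restrict_restrict measurableSet_Iio, Set.Iio_inter_Ioi]
  exact integrableOn_const (by simp) (by simp)

/-- the tail function of the `r`-th power -/
noncomputable def tl {α : Type} (P : Finset α) (Y : α → ℝ) (r : ℕ) (s : ℝ) : ℝ :=
  (∑ w ∈ P, if s < Y w ^ r then (1 : ℝ) else 0) / P.card

lemma tl_int {α : Type} (P : Finset α) (Y : α → ℝ) (hY : ∀ w ∈ P, 0 ≤ Y w) (r : ℕ) :
    ∫ s in Set.Ioi (0 : ℝ), tl P Y r s = (∑ w ∈ P, Y w ^ r) / P.card := by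
  unfold tl
  rw [integral_div, integral_finsetSum _ (fun w _ => int_one_integrable (Y w ^ r))]
  congr 1
  exact Finset.sum_congr rfl fun w hw => int_one _ (pow_nonneg (hY w hw) r)

lemma tl_meas {α : Type} (P : Finset α) (Y : α → ℝ) (r : ℕ) : Measurable (tl P Y r) := by
  unfold tl
  refine Measurable.div_const ?_ _
  refine Finset.measurable_fun_sum _ fun w _ => ?_
  exact Measurable.ite measurableSet_Iio measurable_const measurable_const

lemma tl_nonneg {α : Type} (P : Finset α) (Y : α → ℝ) (r : ℕ) (s : ℝ) : 0 ≤ tl P Y r s := by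
  unfold tl
  refine div_nonneg (Finset.sum_nonneg fun w _ => ?_) (Nat.cast_nonneg _)
  split_ifs <;> norm_num

/-- Markov's inequality -/
lemma tl_le {α : Type} (P : Finset α) (Y : α → ℝ) (hY : ∀ w ∈ P, 0 ≤ Y w) (r : ℕ) {C : ℝ}
    (hC : (∑ w ∈ P, Y w ^ (2 * r)) / P.card ≤ C) (s : ℝ) (hs : 0 < s) :
    tl P Y r s ≤ (1 + C) * (1 + s ^ 2)⁻¹ := by
  have hpos : 0 < 1 + s ^ 2 := by positivity
  rw [← div_eq_mul_inv, le_div_iff₀ hpos]
  rcases Finset.eq_empty_or_nonempty P with hP | hP
  · subst hP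
    simp only [Finset.sum_empty, Finset.card_empty, Nat.cast_zero, div_zero] at hC
    simp only [tl, Finset.sum_empty, Finset.card_empty, Nat.cast_zero, div_zero, zero_mul]
    linarith
  have hc : (0 : ℝ) < P.card := by exact_mod_cast hP.card_pos
  unfold tl
  rw [div_mul_eq_mul_div, div_le_iff₀ hc]
  rw [div_le_iff₀ hc] at hC
  have h1 : (∑ w ∈ P, if s < Y w ^ r then (1 : ℝ) else 0) * (1 + s ^ 2) ≤
      ∑ w ∈ P, (1 + Y w ^ (2 * r)) := by
    rw [Finset.sum_mul]
    refine Finset.sum_le_sum fun w hw => ?_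
    have h2 : 0 ≤ Y w ^ r := pow_nonneg (hY w hw) r
    have h3 : Y w ^ (2 * r) = (Y w ^ r) ^ 2 := by rw [← pow_mul, mul_comm]
    rw [h3]
    split_ifs with h
    · have : s ^ 2 ≤ (Y w ^ r) ^ 2 := pow_le_pow_left₀ hs.le h.le 2
      linarith
    · have := sq_nonneg (Y w ^ r)
      linarith
  refine h1.trans ?_
  rw [Finset.sum_add_distrib, Finset.sum_const, nsmul_eq_mul, mul_one]
  linarith

end Pool.Agent.NSP.CDFM

namespace Pool.Agent.NSP

open Finset Filter Topology MeasureTheory
open Pool.Agent.Lib27 Pool.Agent.SapR Pool.Agent.Gap Pool.Agent.AreaLaw Pool.Agent.FL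
open Pool.Agent.FS
open Pool.Agent.KCS (airyMoment)
open Pool.Agent.KCC (areaMoment)
open Pool.Agent.SapR.M41
open CDFM

theorem t_CDFM : CDFM_Stmt := by
  classical
  intro μ m hμ hm F hF hcdf hbd r
  -- the normalised areas
  set Y : ∀ n : ℕ, (Fin (2 * n) → Fin 4) → ℝ := fun n w =>
    area n w / ((∑ t ∈ F n, area n t) / ((F n).card : ℝ)) with hY
  have hYnn : ∀ n w, 0 ≤ Y n w := fun n w =>
    div_nonneg (Pool.Agent.FS.area_nonneg n w) (div_nonneg
      (Finset.sum_nonneg fun t _ => Pool.Agent.FS.area_nonneg n t) (Nat.cast_nonneg _))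
  have hmom : ∀ (n k : ℕ), areaMoment n (F n) k = (∑ w ∈ F n, Y n w ^ k) / (F n).card := by
    intro n k
    unfold areaMoment
    simp only [hY, div_pow]
    rw [← Finset.sum_div, div_div, div_div, mul_comm ((F n).card : ℝ)]
  -- the law has no mass on the negative numbers
  have hdense : Dense ({x : ℝ | μ {x} ≠ 0}ᶜ) := (countable_atoms μ).dense_compl ℝ
  have hneg : ∀ x : ℝ, x < 0 → μ {x} = 0 → μ (Set.Iic x) = 0 := by
    intro x hx hx0
    have h1 : Tendsto (fun n : ℕ => areaCdf n (F n) x) atTop (𝓝 0) := by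
      refine tendsto_const_nhds.congr' ?_
      filter_upwards [hF] with n hn
      unfold areaCdf
      rw [Finset.filter_eq_empty_iff.2, Finset.card_empty]
      · simp
      · intro w _ hc
        have h2 : 0 ≤ area n w * ((F n).card : ℝ) :=
          mul_nonneg (Pool.Agent.FS.area_nonneg n w) (Nat.cast_nonneg _)
        have h3 : x * ∑ t ∈ F n, area n t < 0 := mul_neg_of_neg_of_pos hx hn.2
        linarith
    have h2 := tendsto_nhds_unique (hcdf x hx0) h1
    rw [ENNReal.toReal_eq_zero_iff] at h2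
    rcases h2 with h2 | h2
    · exact h2
    · exact absurd h2 (measure_ne_top μ _)
  have hnn : ∀ᵐ x ∂μ, 0 ≤ x := by
    rw [ae_iff]
    have h1 : {x : ℝ | ¬ 0 ≤ x} ⊆ ⋃ k : ℕ, Set.Iic (-(1 / ((k : ℝ) + 1))) := by
      intro x hx
      have hx' : x < 0 := not_le.1 hx
      obtain ⟨k, hk⟩ := exists_nat_one_div_lt (show (0 : ℝ) < -x by linarith)
      rw [Set.mem_iUnion]
      exact ⟨k, by rw [Set.mem_Iic]; linarith⟩
    refine measure_mono_null h1 (measure_iUnion_null fun k => ?_)
    have hk : -(1 / ((k : ℝ) + 1)) < 0 := by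
      have : 0 < 1 / ((k : ℝ) + 1) := by positivity
      linarith
    obtain ⟨x, hx, hx1⟩ := hdense.exists_between hk
    have hx0 : μ {x} = 0 := by simpa using hx
    refine measure_mono_null (Set.Iic_subset_Iic.2 hx1.1.le) (hneg x hx1.2 hx0)
  rcases Nat.eq_zero_or_pos r with hr | hr
  · subst hr
    have h1 : m 0 = 1 := by
      rw [← (hm 0).2]
      simp
    rw [h1]
    refine tendsto_const_nhds.congr' ?_
    filter_upwards [hF] with n hn
    rw [hmom]
    have : ((F n).card : ℝ) ≠ 0 := by exact_mod_cast hn.1.ne'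
    simp [this]
  -- the limit
  have hlim : ∫ s in Set.Ioi (0 : ℝ), μ.real {x : ℝ | s < x ^ r} = m r := by
    rw [← (hm r).2]
    symm
    refine (hm r).1.integral_eq_integral_meas_lt ?_
    filter_upwards [hnn] with x hx
    exact pow_nonneg hx r
  have hEq : ∀ n, areaMoment n (F n) r = ∫ s in Set.Ioi (0 : ℝ), tl (F n) (Y n) r s := by
    intro n
    rw [hmom, tl_int _ _ (fun w _ => hYnn n w)]
  rw [← hlim]
  simp only [hEq]
  obtain ⟨C, hC⟩ := hbd (2 * r)
  -- the exceptional set
  have hexc : ∀ᵐ s ∂(volume.restrict (Set.Ioi (0 : ℝ))), ∀ a : ℝ, 0 < a → a ^ r = s →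
      μ {a} = 0 := by
    refine ae_restrict_of_ae ?_
    have hc : ((fun x : ℝ => x ^ r) '' {x : ℝ | μ {x} ≠ 0}).Countable :=
      (countable_atoms μ).image _
    have h1 : ∀ᵐ s : ℝ, s ∉ (fun x : ℝ => x ^ r) '' {x : ℝ | μ {x} ≠ 0} := by
      rw [ae_iff]
      simp only [not_not, Set.ofPred_mem_eq]
      exact hc.measure_zero volume
    filter_upwards [h1] with s hs a _ has
    by_contra hne
    exact hs ⟨a, hne, has⟩
  refine tendsto_integral_filter_of_dominated_convergence
    (fun s : ℝ => (1 + C) * (1 + s ^ 2)⁻¹) ?_ ?_ ?_ ?_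
  · exact Eventually.of_forall fun n => (tl_meas _ _ _).aestronglyMeasurable
  · filter_upwards [hC] with n hn
    rw [hmom] at hn
    refine (ae_restrict_iff' measurableSet_Ioi).2 (Eventually.of_forall fun s hs => ?_)
    rw [Real.norm_of_nonneg (tl_nonneg _ _ _ _)]
    exact tl_le _ _ (fun w _ => hYnn n w) r hn s hs
  · exact (integrable_inv_one_add_sq.const_mul (1 + C)).integrableOn
  · filter_upwards [hexc, ae_restrict_mem measurableSet_Ioi] with s hs1 hs0
    have hs0' : (0 : ℝ) < s := hs0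
    set a : ℝ := s ^ ((r : ℝ)⁻¹) with ha
    have ha0 : 0 < a := Real.rpow_pos_of_pos hs0' _
    have har : a ^ r = s := Real.rpow_inv_natCast_pow hs0'.le hr.ne'
    have hμa : μ {a} = 0 := hs1 a ha0 har
    have h1 : μ.real {x : ℝ | s < x ^ r} = 1 - (μ (Set.Iic a)).toReal := by
      have h2 : μ {x : ℝ | s < x ^ r} = μ (Set.Iic a)ᶜ := by
        refine measure_congr ?_
        filter_upwards [hnn] with x hx
        have : (s < x ^ r) = (a < x) := by
          rw [← har]
          exact propext (pow_lt_pow_iff_left₀ ha0.le hx hr.ne')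
        change (s < x ^ r) = (x ∈ (Set.Iic a)ᶜ)
        rw [this]
        simp
      rw [Measure.real, h2]
      exact probReal_compl_eq_one_sub measurableSet_Iic
    rw [h1]
    refine ((tendsto_const_nhds (x := (1 : ℝ))).sub (hcdf a hμa)).congr' ?_
    filter_upwards [hF] with n hn
    have hcard : (0 : ℝ) < (F n).card := by exact_mod_cast hn.1
    unfold areaCdf tl
    rw [eq_div_iff hcard.ne', sub_mul, one_mul, div_mul_cancel₀ _ hcard.ne']
    have h3 : ∀ w : Fin (2 * n) → Fin 4, (s < Y n w ^ r) ↔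
        ¬ (area n w * ((F n).card : ℝ) ≤ a * ∑ t ∈ F n, area n t) := by
      intro w
      rw [← har, pow_lt_pow_iff_left₀ ha0.le (hYnn n w) hr.ne', not_le]
      simp only [hY]
      rw [lt_div_iff₀ (div_pos hn.2 hcard), ← mul_div_assoc, div_lt_iff₀ hcard]
    have h4 : (∑ w ∈ F n, if s < Y n w ^ r then (1 : ℝ) else 0) =
        ∑ w ∈ F n, (1 - if area n w * ((F n).card : ℝ) ≤ a * ∑ t ∈ F n, area n t then
          (1 : ℝ) else 0) := by
      refine Finset.sum_congr rfl fun w _ => ?_
      by_cases h : area n w * ((F n).card : ℝ) ≤ a * ∑ t ∈ F n, area n t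
      · rw [if_neg (by rw [h3]; exact not_not.2 h), if_pos h]
        ring
      · rw [if_pos ((h3 w).2 h), if_neg h]
        ring
    rw [h4, Finset.sum_sub_distrib, Finset.sum_const, nsmul_eq_mul, mul_one,
      Finset.sum_boole]

end Pool.Agent.NSP
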