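import Pool.Agent.NSP.Stmts
import Pool.Agent.Lib_helper89.FL.FinB

/-!
# Project NSP (MP_f6626d_co), module CHOZ: choice of the weight
-/

set_option autoImplicit false

namespace Pool.Agent.NSP

open Finset Filter Topology MeasureTheory
open Pool.Agent.Lib27 Pool.Agent.SapR Pool.Agent.Gap Pool.Agent.AreaLaw Pool.Agent.FL
open Pool.Agent.FS

namespace CHOZ

/-- change of the weight -/
lemma shift (hg : HG_Stmt) (n : ℕ) (s u : ℝ) : Zq n (s * Real.exp u) =
    ∑ q ∈ Omn n, wtq n s q * Real.exp (u * ((n : ℝ) - sp q)) := by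
  unfold Zq
  refine Finset.sum_congr rfl fun q hq => ?_
  have h1 : sp q ≤ n := height_le hg n q hq
  have h2 : wtq n (s * Real.exp u) q = (s * Real.exp u) ^ (n - sp q) := rfl
  have h3 : wtq n s q = s ^ (n - sp q) := rfl
  rw [h2, h3, mul_pow, ← Real.exp_nat_mul, Nat.cast_sub h1]
  congr 2
  ring

lemma wtq_nonneg (n : ℕ) {s : ℝ} (hs : 0 < s) (q : QI) : 0 ≤ wtq n s q := by
  have h3 : wtq n s q = s ^ (n - sp q) := rfl
  rw [h3]
  positivity

/-- tangent line at `δ` -/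
lemma tangent (hg : HG_Stmt) (n : ℕ) {s : ℝ} (hs : 0 < s) (u δ : ℝ) :
    Real.exp (u * δ) * (Zq n s + u * ∑ q ∈ Omn n, wtq n s q * ((n : ℝ) - sp q - δ)) ≤
      Zq n (s * Real.exp u) := by
  rw [shift hg]
  unfold Zq
  rw [Finset.mul_sum, ← Finset.sum_add_distrib, Finset.mul_sum]
  refine Finset.sum_le_sum fun q _ => ?_
  have h1 := Real.add_one_le_exp (u * ((n : ℝ) - sp q - δ))
  have h2 : Real.exp (u * ((n : ℝ) - sp q)) =
      Real.exp (u * δ) * Real.exp (u * ((n : ℝ) - sp q - δ)) := by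
    rw [← Real.exp_add]
    congr 1
    ring
  have h3 := wtq_nonneg n hs q
  rw [h2]
  calc Real.exp (u * δ) * (wtq n s q + u * (wtq n s q * ((n : ℝ) - sp q - δ)))
      = (Real.exp (u * δ) * wtq n s q) * (u * ((n : ℝ) - sp q - δ) + 1) := by ring
    _ ≤ (Real.exp (u * δ) * wtq n s q) * Real.exp (u * ((n : ℝ) - sp q - δ)) :=
        mul_le_mul_of_nonneg_left h1 (mul_nonneg (Real.exp_pos _).le h3)
    _ = _ := by ring

/-- comparison of two total weights -/
lemma ratio (n : ℕ) {C scn ρ ρ' Z Z' : ℝ} (hC : 0 < C) (hsc : 0 < scn) (hρ : 0 < ρ)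
    (hρ' : 0 < ρ') (h1 : C⁻¹ ≤ scn * ρ ^ n * Z) (h2 : scn * ρ' ^ n * Z' ≤ C) :
    Z' ≤ C ^ 2 * Real.exp (-(n * Real.log (ρ' / ρ))) * Z := by
  set a := Real.log (ρ' / ρ) with ha
  have e1 : ρ' = ρ * Real.exp a := by
    rw [ha, Real.exp_log (div_pos hρ' hρ)]
    field_simp
  rw [e1, mul_pow, ← Real.exp_nat_mul] at h2
  have h3 : 1 ≤ C * (scn * ρ ^ n * Z) := by
    have := mul_le_mul_of_nonneg_left h1 hC.le
    rwa [mul_inv_cancel₀ hC.ne'] at this
  have hp : 0 < scn * ρ ^ n := by positivity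
  have h4 : scn * ρ ^ n * (Real.exp (n * a) * Z') ≤ scn * ρ ^ n * (C ^ 2 * Z) := by
    calc scn * ρ ^ n * (Real.exp (n * a) * Z') = scn * (ρ ^ n * Real.exp (n * a)) * Z' := by ring
      _ ≤ C := h2
      _ ≤ C * (C * (scn * ρ ^ n * Z)) := by
          calc C = C * 1 := (mul_one C).symm
            _ ≤ _ := mul_le_mul_of_nonneg_left h3 hC.le
      _ = _ := by ring
  have h5 : Real.exp (n * a) * Z' ≤ C ^ 2 * Z := le_of_mul_le_mul_left h4 hp
  have h6 := mul_le_mul_of_nonneg_left h5 (Real.exp_pos (-(n * a))).le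
  rw [← mul_assoc, ← Real.exp_add, neg_add_cancel, Real.exp_zero, one_mul] at h6
  calc Z' ≤ _ := h6
    _ = _ := by ring

/-- centred sum -/
noncomputable def GG (n : ℕ) (h s : ℝ) : ℝ := ∑ q ∈ Omn n, wtq n s q * ((sp q : ℝ) - h)

lemma GG_cont (n : ℕ) (h : ℝ) : Continuous (GG n h) := by
  unfold GG
  refine continuous_finsetSum _ fun q _ => ?_
  have h3 : ∀ s : ℝ, wtq n s q * ((sp q : ℝ) - h) = s ^ (n - sp q) * ((sp q : ℝ) - h) :=
    fun s => rfl
  simp_rw [h3]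
  fun_prop

lemma GG_neg (n : ℕ) (h s : ℝ) :
    ∑ q ∈ Omn n, wtq n s q * ((n : ℝ) - sp q - ((n : ℝ) - h)) = -GG n h s := by
  unfold GG
  rw [← Finset.sum_neg_distrib]
  refine Finset.sum_congr rfl fun q _ => ?_
  ring

end CHOZ

open CHOZ

theorem t_CHOZ (hR : RHOZ_Stmt) (hZ : ZB_Stmt) (hg : HG_Stmt) : CHOZ_Stmt := by
  obtain ⟨A, c, s0, hA, hc, hs0, hs04, hR⟩ := hR
  obtain ⟨C, θ, hC, hθ, hθ1, N, hN⟩ := hZ (3 / 4) (by norm_num) (by norm_num)
  -- comparison at weight `s` and `δ`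
  have key : ∀ n : ℕ, N ≤ n → 6 ≤ n → ∀ s : ℝ, 0 < s → s ≤ s0 → ∀ δ : ℝ,
      0 < Zq n s ∧ 1 ≤ C ∧
      (0 ≤ ∑ q ∈ Omn n, wtq n s q * ((n : ℝ) - sp q - δ) → δ ≤ 2 * Real.log C + A * s * n) ∧
      (∑ q ∈ Omn n, wtq n s q * ((n : ℝ) - sp q - δ) ≤ 0 → c * s * n ≤ 2 * Real.log C + δ) := by
    intro n hn hn6 s hs hss δ
    have hn0 : (0 : ℝ) < n := by exact_mod_cast (show 0 < n by omega)
    have hsc0 : 0 < sc n := by unfold sc; positivity
    have he3 : Real.exp 1 < 3 := Real.exp_one_lt_three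
    have hem : Real.exp (-1) ≤ 1 := Real.exp_le_one_iff.2 (by norm_num)
    have hem0 : 0 < Real.exp (-1 : ℝ) := Real.exp_pos _
    have he0 : 0 < Real.exp (1 : ℝ) := Real.exp_pos _
    obtain ⟨ρ, hcr, -, -, -, hZl, hZu⟩ := hN n hn s hs (by linarith)
    obtain ⟨ρp, hcrp, -, -, -, -, hZup⟩ := hN n hn (s * Real.exp 1) (by positivity)
      (by nlinarith)
    obtain ⟨ρm, hcrm, -, -, -, -, hZum⟩ := hN n hn (s * Real.exp (-1)) (by positivity)
      (by nlinarith)
    obtain ⟨-, -, hb, hcc, -⟩ := hR n s ρ hn6 hs hss hcr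
    have hb1 := hb 1 ρp (by norm_num) hcrp
    have hc1 := hcc ρm hcrm
    rw [abs_one, mul_one] at hb1
    have hCC : 1 ≤ C := by
      by_contra hlt
      push Not at hlt
      have h1 : 1 < C⁻¹ := (one_lt_inv₀ hC).2 hlt
      linarith
    have hZ0 : 0 < Zq n s := by
      by_contra hlt
      push Not at hlt
      have h1 : 0 < C⁻¹ := inv_pos.2 hC
      have h2 : 0 < sc n * ρ ^ n := mul_pos hsc0 (pow_pos hcr.1 n)
      have h3 : sc n * ρ ^ n * Zq n s ≤ 0 := mul_nonpos_of_nonneg_of_nonpos h2.le hlt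
      linarith
    have hC2 : C ^ 2 = Real.exp (2 * Real.log C) := by
      rw [two_mul, Real.exp_add, Real.exp_log hC, sq]
    refine ⟨hZ0, hCC, ?_, ?_⟩
    · intro hpos
      have h1 := tangent hg n hs 1 δ
      have h2 := ratio n hC hsc0 hcr.1 hcrp.1 hZl hZup
      have h3 : Real.exp (1 * δ) * Zq n s ≤ Real.exp (1 * δ) *
          (Zq n s + 1 * ∑ q ∈ Omn n, wtq n s q * ((n : ℝ) - sp q - δ)) :=
        mul_le_mul_of_nonneg_left (by linarith) (Real.exp_pos _).le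
      have h4 : Real.exp (1 * δ) * Zq n s ≤
          C ^ 2 * Real.exp (-(n * Real.log (ρp / ρ))) * Zq n s := h3.trans (h1.trans h2)
      have h5 := le_of_mul_le_mul_right h4 hZ0
      rw [hC2, ← Real.exp_add, Real.exp_le_exp] at h5
      have h6 := (abs_le.1 hb1).1
      nlinarith
    · intro hneg
      have h1 := tangent hg n hs (-1) δ
      have h2 := ratio n hC hsc0 hcr.1 hcrm.1 hZl hZum
      have h3 : Real.exp (-1 * δ) * Zq n s ≤ Real.exp (-1 * δ) *
          (Zq n s + -1 * ∑ q ∈ Omn n, wtq n s q * ((n : ℝ) - sp q - δ)) :=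
        mul_le_mul_of_nonneg_left (by linarith) (Real.exp_pos _).le
      have h4 : Real.exp (-1 * δ) * Zq n s ≤
          C ^ 2 * Real.exp (-(n * Real.log (ρm / ρ))) * Zq n s := h3.trans (h1.trans h2)
      have h5 := le_of_mul_le_mul_right h4 hZ0
      rw [hC2, ← Real.exp_add, Real.exp_le_exp] at h5
      nlinarith
  -- constants
  have hC1 : 1 ≤ C := (key (max N 6) (le_max_left _ _) (le_max_right _ _) s0 hs0 le_rfl 0).2.1
  have hlC : 0 ≤ Real.log C := Real.log_nonneg hC1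
  set c1 : ℝ := 1 / (2 * A) with hc1
  have hc10 : 0 < c1 := by positivity
  set η : ℝ := min (c * s0 / 2) (s0 / c1) with hη
  have hη0 : 0 < η := lt_min (by positivity) (by positivity)
  refine ⟨c1, (2 * Real.log C + 1) / c, η, hc10, by positivity, hη0, ⌈4 * Real.log C⌉₊ + 1,
    max (max N 6) (⌈4 * Real.log C / (c * s0)⌉₊ + 1), ?_⟩
  intro n hn h hh hhn
  have hnN : N ≤ n := (le_max_left _ _).trans ((le_max_left _ _).trans hn)
  have hn6 : 6 ≤ n := (le_max_right _ _).trans ((le_max_left _ _).trans hn)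
  have hn3 : ⌈4 * Real.log C / (c * s0)⌉₊ + 1 ≤ n := (le_max_right _ _).trans hn
  have hn0 : (0 : ℝ) < n := by exact_mod_cast (show 0 < n by omega)
  have hnr : 4 * Real.log C < c * s0 * n := by
    have h1 := Nat.le_ceil (4 * Real.log C / (c * s0))
    have h2 : ((⌈4 * Real.log C / (c * s0)⌉₊ + 1 : ℕ) : ℝ) ≤ n := by exact_mod_cast hn3
    push_cast at h2
    have h3 : 4 * Real.log C / (c * s0) < n := by linarith
    rw [div_lt_iff₀ (by positivity)] at h3
    linarith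
  have hδ1 : 4 * Real.log C + 1 ≤ (n : ℝ) - h := by
    have h1 := Nat.le_ceil (4 * Real.log C)
    have h2 : ((h + (⌈4 * Real.log C⌉₊ + 1) : ℕ) : ℝ) ≤ n := by exact_mod_cast hh
    push_cast at h2
    linarith
  set δ : ℝ := (n : ℝ) - h with hδ
  have hδ0 : 1 ≤ δ := by linarith
  set sl : ℝ := c1 * δ / n with hsl
  have hsl0 : 0 < sl := by positivity
  have hsln : sl * n = c1 * δ := by rw [hsl]; field_simp
  have hsl1 : sl ≤ s0 := by
    have h1 : δ ≤ s0 / c1 * n := hhn.trans (mul_le_mul_of_nonneg_right (min_le_right _ _) hn0.le)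
    rw [hsl, div_le_iff₀ hn0]
    calc c1 * δ ≤ c1 * (s0 / c1 * n) := mul_le_mul_of_nonneg_left h1 hc10.le
      _ = s0 * n := by field_simp
  have hlow : 0 ≤ GG n h sl := by
    by_contra hlt
    push Not at hlt
    have h1 := (key n hnN hn6 sl hsl0 hsl1 δ).2.2.1 (by
      rw [hδ, GG_neg]
      linarith)
    have h2 : A * sl * n = δ / 2 := by
      rw [mul_assoc, hsln, hc1]
      field_simp
    linarith
  have hhigh : GG n h s0 ≤ 0 := by
    by_contra hlt
    push Not at hlt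
    have h1 := (key n hnN hn6 s0 hs0 le_rfl δ).2.2.2 (by
      rw [hδ, GG_neg]
      linarith)
    have h2 : δ ≤ c * s0 / 2 * n :=
      hhn.trans (mul_le_mul_of_nonneg_right (min_le_left _ _) hn0.le)
    linarith
  obtain ⟨s, hs, hs1⟩ := intermediate_value_Icc' hsl1 (GG_cont n h).continuousOn ⟨hhigh, hlow⟩
  have hsp : 0 < s := lt_of_lt_of_le hsl0 hs.1
  refine ⟨s, hsp, ?_, ?_, ?_⟩
  · rw [← hsln]
    exact mul_le_mul_of_nonneg_right hs.1 hn0.le
  · have h1 := (key n hnN hn6 s hsp hs.2 δ).2.2.2 (by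
      rw [hδ, GG_neg, hs1]
      simp)
    rw [div_mul_eq_mul_div, le_div_iff₀ hc]
    nlinarith
  · unfold CenQ
    unfold GG at hs1
    rw [hs1, abs_zero]
    exact (key n hnN hn6 s hsp hs.2 δ).1.le

end Pool.Agent.NSP
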