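import Pool.Agent.NSP.StmtsM
import Pool.Agent.Lib_helper74.FS.SAPC

/-!
# Project NSP (MP_f6626d_co), module CLM: moments in the classes, old regime

The lemmas `geom_le`, `log_ratio`, `clsq_le`, `cls_ratio`, `noCut_small`, `of_two` do not use that the
force is bounded; they serve for the regular sequences as well.
-/

set_option autoImplicit false

namespace Pool.Agent.NSP

open Finset Filter Topology MeasureTheory
open Pool.Agent.Lib27 Pool.Agent.SapR Pool.Agent.Gap Pool.Agent.AreaLaw Pool.Agent.FL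
open Pool.Agent.FS

namespace CLM

lemma geom_le (s : ℝ) (hs : 0 < s) (hs1 : s < 1) (m : ℕ) :
    ∑ i ∈ range m, s ^ i ≤ 1 / (1 - s) := by
  rw [le_div_iff₀ (by linarith)]
  have h := geom_sum_mul s m
  have h2 : 0 < s ^ m := pow_pos hs m
  nlinarith

lemma log_le_two_sqrt (x : ℝ) (hx : 0 ≤ x) : Real.log x ≤ 2 * Real.sqrt x := by
  have h := Real.log_le_rpow_div hx (show (0 : ℝ) < 1 / 2 by norm_num)
  rw [← Real.sqrt_eq_rpow] at h
  linarith

/-- the error of the shoelace sum at the scale of the area -/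
lemma log_ratio (n r : ℕ) (hn : 1 ≤ n) (hr : 2 ≤ r) :
    ((n : ℝ) * Real.log n) ^ r ≤ 16 * 2 ^ r / Real.sqrt n * sc n ^ r := by
  have h1 : (1 : ℝ) ≤ n := by exact_mod_cast hn
  have h0 : (0 : ℝ) < n := by linarith
  have hl : 0 ≤ Real.log n := Real.log_nonneg h1
  have hsq : 0 < Real.sqrt n := Real.sqrt_pos.2 h0
  have e1 : Real.log n ≤ 2 * Real.sqrt n := log_le_two_sqrt n h0.le
  have e2 : (Real.log n) ^ 2 ≤ 16 * Real.sqrt n := by
    have h3 : Real.log n = 2 * Real.log (Real.sqrt n) := by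
      rw [Real.log_sqrt h0.le]
      ring
    have h4 := log_le_two_sqrt (Real.sqrt n) hsq.le
    have h5 : Real.sqrt (Real.sqrt n) * Real.sqrt (Real.sqrt n) = Real.sqrt n :=
      Real.mul_self_sqrt hsq.le
    have h6 : 0 ≤ Real.sqrt (Real.sqrt n) := Real.sqrt_nonneg _
    have h7 : Real.log n ≤ 4 * Real.sqrt (Real.sqrt n) := by linarith
    calc (Real.log n) ^ 2 ≤ (4 * Real.sqrt (Real.sqrt n)) ^ 2 := pow_le_pow_left₀ hl h7 2
      _ = 16 * (Real.sqrt (Real.sqrt n) * Real.sqrt (Real.sqrt n)) := by ring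
      _ = 16 * Real.sqrt n := by rw [h5]
  obtain ⟨k, rfl⟩ := Nat.exists_eq_add_of_le hr
  have e3 : (Real.log n) ^ k ≤ (2 * Real.sqrt n) ^ k := pow_le_pow_left₀ hl e1 k
  have e4 : (Real.log n) ^ 2 * (Real.log n) ^ k ≤ 16 * Real.sqrt n * (2 * Real.sqrt n) ^ k :=
    mul_le_mul e2 e3 (pow_nonneg hl k) (by positivity)
  have e5 : (16 : ℝ) * Real.sqrt n * (2 * Real.sqrt n) ^ k ≤
      16 * 2 ^ (2 + k) / Real.sqrt n * Real.sqrt n ^ (2 + k) := by
    have e6 : (16 : ℝ) * 2 ^ (2 + k) / Real.sqrt n * Real.sqrt n ^ (2 + k) =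
        4 * (16 * Real.sqrt n * (2 * Real.sqrt n) ^ k) := by
      field_simp
      ring
    rw [e6]
    have : 0 ≤ (16 : ℝ) * Real.sqrt n * (2 * Real.sqrt n) ^ k := by positivity
    linarith
  unfold sc
  calc ((n : ℝ) * Real.log n) ^ (2 + k) =
        (n : ℝ) ^ (2 + k) * ((Real.log n) ^ 2 * (Real.log n) ^ k) := by ring
    _ ≤ (n : ℝ) ^ (2 + k) * (16 * 2 ^ (2 + k) / Real.sqrt n * Real.sqrt n ^ (2 + k)) :=
        mul_le_mul_of_nonneg_left (e4.trans e5) (by positivity)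
    _ = _ := by ring

lemma wtq_nonneg (n : ℕ) (s : ℝ) (hs : 0 < s) (q : QI) : 0 ≤ wtq n s q := by
  unfold wtq
  positivity

open Classical in
/-- moments of the shoelace sum over a class of canonical words -/
lemma clsq_le (hHG : HG_Stmt) (n h r : ℕ) (hn : 1 ≤ n) (s D E : ℝ) (hs : 0 < s) (hs1 : s < 1)
    (P : ℕ → Prop) (hP : ∀ k, P k → h ≤ k)
    (hU : ∀ k : ℕ, U n s k (fun a => a ^ r) ≤ D)
    (hE : ∑ q ∈ Omn n, wtq n s q * |(|(dq q : ℝ)| - (arq n q : ℝ))| ^ r ≤ E * sc n ^ r) :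
    s ^ (n - h) * ∑ q ∈ (Omn n).filter (fun q => P (sp q)), (|(dq q : ℝ)| / sc n) ^ r ≤
      2 ^ r * (D * (1 / (1 - s)) + E) := by
  have hsc : 0 < sc n := FS.sc_pos hn
  have hscr : 0 < sc n ^ r := pow_pos hsc r
  -- the error term
  have hE' : ∑ q ∈ Omn n, wtq n s q * (|(|(dq q : ℝ)| - (arq n q : ℝ))| / sc n) ^ r ≤ E := by
    have e : ∑ q ∈ Omn n, wtq n s q * (|(|(dq q : ℝ)| - (arq n q : ℝ))| / sc n) ^ r =
        (∑ q ∈ Omn n, wtq n s q * |(|(dq q : ℝ)| - (arq n q : ℝ))| ^ r) / sc n ^ r := by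
      rw [Finset.sum_div]
      refine Finset.sum_congr rfl fun q _ => ?_
      rw [div_pow]
      ring
    rw [e, div_le_iff₀ hscr]
    exact hE
  -- the pointwise bound
  have hpt : ∀ q ∈ (Omn n).filter (fun q => P (sp q)),
      s ^ (n - h) * (|(dq q : ℝ)| / sc n) ^ r ≤
        2 ^ r * (s ^ (sp q - h) * (wtq n s q * ra n q ^ r) +
          wtq n s q * (|(|(dq q : ℝ)| - (arq n q : ℝ))| / sc n) ^ r) := by
    intro q hq
    rw [Finset.mem_filter] at hq
    have hle : h ≤ sp q := hP _ hq.2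
    have hsn : sp q ≤ n := height_le hHG n q hq.1
    have hw0 := wtq_nonneg n s hs q
    have hpow : s ^ (n - h) = s ^ (sp q - h) * wtq n s q := by
      have : wtq n s q = s ^ (n - sp q) := rfl
      rw [this, ← pow_add]
      congr 1
      omega
    have hra : 0 ≤ ra n q := by
      unfold ra
      positivity
    have hδ : 0 ≤ |(|(dq q : ℝ)| - (arq n q : ℝ))| / sc n := by positivity
    have h1 : |(dq q : ℝ)| / sc n ≤ ra n q + |(|(dq q : ℝ)| - (arq n q : ℝ))| / sc n := by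
      unfold ra
      rw [← add_div]
      refine div_le_div_of_nonneg_right ?_ hsc.le
      have := le_abs_self (|(dq q : ℝ)| - (arq n q : ℝ))
      linarith
    have h2 : (|(dq q : ℝ)| / sc n) ^ r ≤
        2 ^ r * (ra n q ^ r + (|(|(dq q : ℝ)| - (arq n q : ℝ))| / sc n) ^ r) := by
      refine (pow_le_pow_left₀ (by positivity) h1 r).trans ((add_pow_le hra hδ r).trans ?_)
      refine mul_le_mul_of_nonneg_right ?_ (by positivity)
      exact pow_le_pow_right₀ (by norm_num) (Nat.sub_le r 1)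
    have hs' : s ^ (sp q - h) ≤ 1 := pow_le_one₀ hs.le hs1.le
    have hs'' : 0 ≤ s ^ (sp q - h) := pow_nonneg hs.le _
    rw [hpow]
    calc s ^ (sp q - h) * wtq n s q * (|(dq q : ℝ)| / sc n) ^ r ≤
          s ^ (sp q - h) * wtq n s q *
            (2 ^ r * (ra n q ^ r + (|(|(dq q : ℝ)| - (arq n q : ℝ))| / sc n) ^ r)) :=
          mul_le_mul_of_nonneg_left h2 (mul_nonneg hs'' hw0)
      _ = 2 ^ r * (s ^ (sp q - h) * (wtq n s q * ra n q ^ r) + s ^ (sp q - h) *
            (wtq n s q * (|(|(dq q : ℝ)| - (arq n q : ℝ))| / sc n) ^ r)) := by ring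
      _ ≤ _ := by
          refine mul_le_mul_of_nonneg_left ?_ (by positivity)
          have h3 : 0 ≤ wtq n s q * (|(|(dq q : ℝ)| - (arq n q : ℝ))| / sc n) ^ r := by
            positivity
          have h4 := mul_le_mul_of_nonneg_right hs' h3
          rw [one_mul] at h4
          linarith
  -- the main term
  have hmain : ∑ q ∈ (Omn n).filter (fun q => P (sp q)),
      s ^ (sp q - h) * (wtq n s q * ra n q ^ r) ≤ D * (1 / (1 - s)) := by
    have hnn : ∀ q, 0 ≤ wtq n s q * ra n q ^ r := by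
      intro q
      have hw0 := wtq_nonneg n s hs q
      have hra : 0 ≤ ra n q := by
        unfold ra
        positivity
      positivity
    have h1 : ∀ q ∈ (Omn n).filter (fun q => P (sp q)),
        s ^ (sp q - h) * (wtq n s q * ra n q ^ r) ≤
          ∑ i ∈ range (n + 1), if sp q = h + i then s ^ i * (wtq n s q * ra n q ^ r) else 0 := by
      intro q hq
      rw [Finset.mem_filter] at hq
      have hle : h ≤ sp q := hP _ hq.2
      have hsn : sp q ≤ n := height_le hHG n q hq.1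
      have h2 : sp q - h ∈ range (n + 1) := by
        rw [Finset.mem_range]
        omega
      refine le_trans (le_of_eq ?_) (Finset.single_le_sum (f := fun i =>
        if sp q = h + i then s ^ i * (wtq n s q * ra n q ^ r) else 0) (fun i _ => ?_) h2)
      · rw [if_pos (by omega)]
      · split_ifs
        · exact mul_nonneg (pow_nonneg hs.le _) (hnn q)
        · exact le_rfl
    have h3 : ∑ q ∈ (Omn n).filter (fun q => P (sp q)),
        ∑ i ∈ range (n + 1), (if sp q = h + i then s ^ i * (wtq n s q * ra n q ^ r) else 0) ≤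
        ∑ q ∈ Omn n, ∑ i ∈ range (n + 1),
          (if sp q = h + i then s ^ i * (wtq n s q * ra n q ^ r) else 0) := by
      refine Finset.sum_le_sum_of_subset_of_nonneg (Finset.filter_subset _ _) fun q _ _ => ?_
      refine Finset.sum_nonneg fun i _ => ?_
      split_ifs
      · exact mul_nonneg (pow_nonneg hs.le _) (hnn q)
      · exact le_rfl
    refine (Finset.sum_le_sum h1).trans (h3.trans ?_)
    rw [Finset.sum_comm]
    have h4 : ∀ i ∈ range (n + 1), ∑ q ∈ Omn n,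
        (if sp q = h + i then s ^ i * (wtq n s q * ra n q ^ r) else 0) ≤ s ^ i * D := by
      intro i _
      have h5 : ∑ q ∈ Omn n, (if sp q = h + i then s ^ i * (wtq n s q * ra n q ^ r) else 0) =
          s ^ i * U n s (h + i) (fun a => a ^ r) := by
        unfold U
        rw [← Finset.sum_filter, Finset.mul_sum]
      rw [h5]
      exact mul_le_mul_of_nonneg_left (hU _) (pow_nonneg hs.le _)
    refine (Finset.sum_le_sum h4).trans ?_
    have hD : 0 ≤ D := by
      refine le_trans ?_ (hU h)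
      unfold U
      exact Finset.sum_nonneg fun q _ => hnn q
    rw [← Finset.sum_mul, mul_comm]
    exact mul_le_mul_of_nonneg_left (geom_le s hs hs1 _) hD
  have herr : ∑ q ∈ (Omn n).filter (fun q => P (sp q)),
      wtq n s q * (|(|(dq q : ℝ)| - (arq n q : ℝ))| / sc n) ^ r ≤ E := by
    refine le_trans ?_ hE'
    refine Finset.sum_le_sum_of_subset_of_nonneg (Finset.filter_subset _ _) fun q _ _ => ?_
    have hw0 := wtq_nonneg n s hs q
    positivity
  rw [Finset.mul_sum]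
  refine (Finset.sum_le_sum hpt).trans ?_
  rw [← Finset.mul_sum, Finset.sum_add_distrib]
  refine mul_le_mul_of_nonneg_left ?_ (by positivity)
  linarith

open Classical in
/-- the moments over a class of polygons and over the canonical words -/
lemma cls_ratio (hTR : TR_Stmt) (n h r : ℕ) (hn : 1 ≤ n) (b : Bool) (K e : ℝ)
    (hN : 0 < (((Omn n).filter (fun q => inC b h (sp q))).card : ℝ))
    (hS : ∑ q ∈ (Omn n).filter (fun q => inC b h (sp q)), (|(dq q : ℝ)| / sc n) ^ r ≤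
      K * ((Omn n).filter (fun q => inC b h (sp q))).card)
    (hM : (((NoCut n).filter (fun w => inC b h (spn w))).card : ℝ) /
        ((Omn n).filter (fun q => inC b h (sp q))).card ≤ e) :
    (∑ w ∈ cls n b h, (2 * area n w / sc n) ^ r) / (cls n b h).card ≤ K + (4 * n) ^ r * e := by
  have h1 := SAPC.cls_sum hTR n hn (inC b h) (fun y => y ^ r)
  have h2 := SAPC.cls_sum hTR n hn (inC b h) (fun _ => 1)
  simp only [Finset.sum_const, nsmul_eq_mul, mul_one] at h2
  have e1 : cls n b h = (SAP n).filter (fun s => inC b h (span n s)) := by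
    unfold cls
    rfl
  rw [e1, h1, h2]
  obtain ⟨N, hNe⟩ : ∃ N : ℝ, N = (((Omn n).filter (fun q => inC b h (sp q))).card : ℝ) := ⟨_, rfl⟩
  obtain ⟨M, hMe⟩ : ∃ M : ℝ, M = (((NoCut n).filter (fun w => inC b h (spn w))).card : ℝ) :=
    ⟨_, rfl⟩
  rw [← hNe] at hN hS hM ⊢
  rw [← hMe] at hM ⊢
  have hn1 : (1 : ℝ) ≤ n := by exact_mod_cast hn
  have hn0 : (0 : ℝ) < n := by linarith
  have hM0 : 0 ≤ M := by
    rw [hMe]
    exact Nat.cast_nonneg _
  have h3 : ∑ w ∈ (NoCut n).filter (fun w => inC b h (spn w)),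
      (|((dbl 0 w : ℤ) : ℝ)| / sc n) ^ r ≤ (4 * (n : ℝ)) ^ r * M := by
    rw [hMe, mul_comm, ← nsmul_eq_mul]
    refine Finset.sum_le_card_nsmul _ _ _ fun w hw => ?_
    have h4 := SAPC.scaled_le n hn ((dbl 0 w : ℤ) : ℝ) (SAPC.dbl_le n w (Finset.mem_filter.1 hw).1)
    exact pow_le_pow_left₀ h4.1 h4.2 r
  have hden : 0 < 4 * (n : ℝ) * N + M := by positivity
  have hK : 0 ≤ K := by
    have h5 : 0 ≤ K * N := by
      refine le_trans ?_ hS
      refine Finset.sum_nonneg fun q _ => ?_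
      have := FS.sc_pos hn
      positivity
    by_contra hneg
    push Not at hneg
    have : K * N < 0 := mul_neg_of_neg_of_pos hneg hN
    linarith
  have he : M ≤ e * N := by
    rwa [div_le_iff₀ hN] at hM
  have he0 : 0 ≤ e := by
    refine le_trans ?_ hM
    positivity
  rw [div_le_iff₀ hden]
  have h6 : 4 * (n : ℝ) * ∑ q ∈ (Omn n).filter (fun q => inC b h (sp q)),
      (|(dq q : ℝ)| / sc n) ^ r ≤ 4 * n * (K * N) :=
    mul_le_mul_of_nonneg_left hS (by positivity)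
  have h7 : (4 * (n : ℝ)) ^ r * M ≤ (4 * (n : ℝ)) ^ r * e * (4 * n * N) := by
    have h8 : M ≤ e * (4 * n * N) := by
      refine he.trans (mul_le_mul_of_nonneg_left ?_ he0)
      nlinarith
    calc (4 * (n : ℝ)) ^ r * M ≤ (4 * (n : ℝ)) ^ r * (e * (4 * n * N)) :=
          mul_le_mul_of_nonneg_left h8 (by positivity)
      _ = _ := by ring
  have h9 : 0 ≤ (K + (4 * (n : ℝ)) ^ r * e) * M := by positivity
  calc _ ≤ 4 * (n : ℝ) * (K * N) + (4 * (n : ℝ)) ^ r * e * (4 * n * N) := by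
        linarith
    _ = (K + (4 * (n : ℝ)) ^ r * e) * (4 * n * N) := by ring
    _ ≤ (K + (4 * (n : ℝ)) ^ r * e) * (4 * n * N + M) := by
        rw [mul_add (K + (4 * (n : ℝ)) ^ r * e)]
        linarith

/-- the error term of `cls_ratio` -/
lemma noCut_small (C c θ : ℝ) (hθ : 0 < θ) (hθ1 : θ < 1) (r : ℕ) :
    ∀ᶠ n : ℕ in atTop, (4 * (n : ℝ)) ^ r * (C ^ 2 * (n : ℝ) ^ 3 * θ ^ n * c) ≤ 1 := by
  have e3 : Tendsto (fun n : ℕ => (n : ℝ) ^ (r + 3) * θ ^ n) atTop (𝓝 0) :=
    tendsto_pow_const_mul_const_pow_of_lt_one (r + 3) hθ.le hθ1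
  have h := e3.const_mul (4 ^ r * C ^ 2 * c)
  rw [mul_zero] at h
  filter_upwards [h.eventually (gt_mem_nhds (show (0 : ℝ) < 1 by norm_num))] with n hn
  refine le_trans (le_of_eq ?_) hn.le
  rw [mul_pow, pow_add]
  ring

/-- all moments from those of order at least two -/
lemma of_two (F : ∀ n : ℕ, Finset (Fin (2 * n) → Fin 4))
    (H : ∀ r : ℕ, 2 ≤ r → ∃ C : ℝ, ∀ᶠ n in atTop,
      (∑ w ∈ F n, (2 * area n w / sc n) ^ r) / (F n).card ≤ C) (r : ℕ) :
    ∃ C : ℝ, ∀ᶠ n in atTop, (∑ w ∈ F n, (2 * area n w / sc n) ^ r) / (F n).card ≤ C := by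
  rcases Nat.lt_or_ge r 2 with hr | hr
  · obtain ⟨C, hC⟩ := H 2 le_rfl
    refine ⟨1 + C, ?_⟩
    filter_upwards [hC] with n hn
    have h1 : ∑ w ∈ F n, (2 * area n w / sc n) ^ r ≤
        ∑ w ∈ F n, (1 + (2 * area n w / sc n) ^ 2) := by
      refine Finset.sum_le_sum fun w _ => ?_
      interval_cases r
      · rw [pow_zero]
        nlinarith [sq_nonneg (2 * area n w / sc n)]
      · rw [pow_one]
        nlinarith [sq_nonneg (2 * area n w / sc n - 1), sq_nonneg (2 * area n w / sc n)]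
    rw [Finset.sum_add_distrib, Finset.sum_const, nsmul_eq_mul, mul_one] at h1
    have h2 : (0 : ℝ) ≤ ((F n).card : ℝ) := Nat.cast_nonneg _
    refine (div_le_div_of_nonneg_right h1 h2).trans ?_
    rw [add_div]
    exact add_le_add (div_self_le_one _) hn
  · exact H r hr

end CLM

open CLM

/-- CLM -/
theorem t_CLM (hL : LOCM_Stmt) (hA : ARMR_Stmt) (hC : CLS_Stmt) (hZ : ZB_Stmt) (hTR : TR_Stmt)
    (hg : HG_Stmt) : CLM_Stmt := by
  classical
  intro f0 f1 hf0 hf01 f h hf hcen b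
  refine of_two (fun n => cls n b (h n)) fun r hr => ?_
  obtain ⟨⟨c, hc, hlow⟩, -⟩ := hC f0 f1 hf0 hf01 f h hf hcen b
  have hs0 : 0 < Real.exp (-f1) := Real.exp_pos _
  have hs1 : Real.exp (-f0) < 1 := by
    rw [Real.exp_lt_one_iff]
    linarith
  have hs01 : Real.exp (-f1) ≤ Real.exp (-f0) := Real.exp_le_exp.2 (by linarith)
  obtain ⟨C, θ, hC0, hθ, hθ1, N, hZB⟩ := hZ (Real.exp (-f0)) (Real.exp_pos _) hs1
  obtain ⟨C1, hC1, N1, hL1⟩ := hL (Real.exp (-f1)) (Real.exp (-f0)) hs0 hs01 hs1 r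
  obtain ⟨C2, hC2, N2, hA2⟩ := hA (Real.exp (-f0)) (Real.exp_pos _) hs1 r
  refine ⟨2 ^ r * (C1 * (1 / (1 - Real.exp (-f0))) + C2 * (16 * 2 ^ r)) / c + 1, ?_⟩
  filter_upwards [hlow, noCut_small C c⁻¹ θ hθ hθ1 r,
    eventually_ge_atTop (max (max N 1) (max N1 N2))] with n hlow' hsm hn
  have hn1 : 1 ≤ n := (le_max_right _ _).trans ((le_max_left _ _).trans hn)
  have hnN : N ≤ n := (le_max_left _ _).trans ((le_max_left _ _).trans hn)
  have hnN1 : N1 ≤ n := (le_max_left _ _).trans ((le_max_right _ _).trans hn)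
  have hnN2 : N2 ≤ n := (le_max_right _ _).trans ((le_max_right _ _).trans hn)
  obtain ⟨s, hs⟩ : ∃ s : ℝ, s = Real.exp (-(f n)) := ⟨_, rfl⟩
  rw [← hs] at hlow'
  have hspos : 0 < s := by
    rw [hs]
    exact Real.exp_pos _
  have hsle : s ≤ Real.exp (-f0) := by
    rw [hs]
    exact Real.exp_le_exp.2 (by linarith [(hf n).1])
  have hsge : Real.exp (-f1) ≤ s := by
    rw [hs]
    exact Real.exp_le_exp.2 (by linarith [(hf n).2])
  have hslt : s < 1 := lt_of_le_of_lt hsle hs1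
  obtain ⟨rho, hcrit, htails, _, _, hz1, _⟩ := hZB n hnN s hspos hsle
  obtain ⟨hZq, hZ0⟩ := SAPC.Z0_le C θ hC0 hθ n hn1 s rho hcrit.1 htails hz1
  obtain ⟨hNpos, hMN⟩ := SAPC.cls_small n (h n) hn1 s C θ c hspos hslt.le hc _
    (SAPC.inC_le b (h n)) hZq hZ0 hlow'
  have hn1' : (1 : ℝ) ≤ n := by exact_mod_cast hn1
  have hsq : 0 < Real.sqrt n := Real.sqrt_pos.2 (by linarith)
  have hlr := log_ratio n r hn1 hr
  have hE : ∑ q ∈ Omn n, wtq n s q * |(|(dq q : ℝ)| - (arq n q : ℝ))| ^ r ≤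
      (C2 * (16 * 2 ^ r) / Real.sqrt n * Zq n s) * sc n ^ r := by
    refine (hA2 n hnN2 s hspos hsle).2.trans ?_
    calc C2 * ((n : ℝ) * Real.log n) ^ r * Zq n s ≤
          C2 * (16 * 2 ^ r / Real.sqrt n * sc n ^ r) * Zq n s :=
          mul_le_mul_of_nonneg_right (mul_le_mul_of_nonneg_left hlr hC2.le) hZq.le
      _ = _ := by ring
  have hq := clsq_le hg n (h n) r hn1 s (C1 / Real.sqrt n * Zq n s)
    (C2 * (16 * 2 ^ r) / Real.sqrt n * Zq n s) hspos hslt (inC b (h n)) (SAPC.inC_le b (h n))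
    (fun k => hL1 n hnN1 s hsge hsle k) hE
  have hgeo : 1 / (1 - s) ≤ 1 / (1 - Real.exp (-f0)) :=
    one_div_le_one_div_of_le (by linarith) (by linarith)
  -- the sum over the canonical words
  have hS : ∑ q ∈ (Omn n).filter (fun q => inC b (h n) (sp q)), (|(dq q : ℝ)| / sc n) ^ r ≤
      2 ^ r * (C1 * (1 / (1 - Real.exp (-f0))) + C2 * (16 * 2 ^ r)) / c *
        ((Omn n).filter (fun q => inC b (h n) (sp q))).card := by
    obtain ⟨B, hB⟩ : ∃ B : ℝ, B = 2 ^ r * (C1 * (1 / (1 - Real.exp (-f0))) + C2 * (16 * 2 ^ r)) :=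
      ⟨_, rfl⟩
    rw [← hB]
    have hB0 : 0 ≤ B := by
      rw [hB]
      have : 0 < 1 - Real.exp (-f0) := by linarith
      positivity
    have hpw : 0 < s ^ (n - h n) := pow_pos hspos _
    have h1 : s ^ (n - h n) * ∑ q ∈ (Omn n).filter (fun q => inC b (h n) (sp q)),
        (|(dq q : ℝ)| / sc n) ^ r ≤ B * (1 / Real.sqrt n * Zq n s) := by
      refine hq.trans ?_
      rw [hB]
      have h2 : C1 / Real.sqrt n * Zq n s * (1 / (1 - s)) ≤
          C1 / Real.sqrt n * Zq n s * (1 / (1 - Real.exp (-f0))) :=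
        mul_le_mul_of_nonneg_left hgeo (by positivity)
      calc 2 ^ r * (C1 / Real.sqrt n * Zq n s * (1 / (1 - s)) +
            C2 * (16 * 2 ^ r) / Real.sqrt n * Zq n s) ≤
            2 ^ r * (C1 / Real.sqrt n * Zq n s * (1 / (1 - Real.exp (-f0))) +
            C2 * (16 * 2 ^ r) / Real.sqrt n * Zq n s) :=
            mul_le_mul_of_nonneg_left (by linarith) (by positivity)
        _ = _ := by ring
    have h3 : 1 / Real.sqrt n * Zq n s ≤ s ^ (n - h n) *
        ((Omn n).filter (fun q => inC b (h n) (sp q))).card / c := by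
      rw [le_div_iff₀ hc]
      refine le_trans (le_of_eq ?_) hlow'
      ring
    have h4 := mul_le_mul_of_nonneg_left h3 hB0
    refine le_of_mul_le_mul_left (h1.trans (h4.trans (le_of_eq ?_))) hpw
    ring
  have hfin := cls_ratio hTR n (h n) r hn1 b _ _ hNpos hS hMN
  linarith

end Pool.Agent.NSP
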