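import Pool.Agent.NSP.CLM

/-!
# Project NSP (MP_f6626d_co), module CLMZ: moments in the classes, regular sequences

As `NSP/CLM.lean`, with `1/√(s n)` instead of `1/√n` (author: helper32).
-/

set_option autoImplicit false

namespace Pool.Agent.NSP

open Finset Filter Topology MeasureTheory
open Pool.Agent.Lib27 Pool.Agent.SapR Pool.Agent.Gap Pool.Agent.AreaLaw Pool.Agent.FL
open Pool.Agent.FS

open CLM

/-- CLMZ -/
theorem t_CLMZ (hL : LOCMZ_Stmt) (hA : ARMR_Stmt) (hC : CLSZ_Stmt) (hZ : ZB_Stmt) (hTR : TR_Stmt)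
    (hg : HG_Stmt) : CLMZ_Stmt := by
  classical
  intro sq h hreg b
  refine of_two (fun n => cls n b (h n)) fun r hr => ?_
  obtain ⟨⟨c, hc, hlow⟩, -⟩ := hC sq h hreg b
  obtain ⟨C, θ, hC0, hθ, hθ1, N, hZB⟩ := hZ (1 / 4) (by norm_num) (by norm_num)
  obtain ⟨C1, hC1, N1, hL1⟩ := hL r
  obtain ⟨C2, hC2, N2, hA2⟩ := hA (1 / 4) (by norm_num) (by norm_num) r
  refine ⟨2 ^ r * (C1 * 2 + C2 * (16 * 2 ^ r)) / c + 1, ?_⟩
  have hsmall : ∀ᶠ n in atTop, sq n < 1 / 4 :=
    hreg.lim.eventually (gt_mem_nhds (show (0 : ℝ) < 1 / 4 by norm_num))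
  filter_upwards [hlow, hreg.ge, hsmall, noCut_small C c⁻¹ θ hθ hθ1 r,
    eventually_ge_atTop (max (max N 1) (max N1 N2))] with n hlow' hge hlt hsm hn
  have hn1 : 1 ≤ n := (le_max_right _ _).trans ((le_max_left _ _).trans hn)
  have hnN : N ≤ n := (le_max_left _ _).trans ((le_max_left _ _).trans hn)
  have hnN1 : N1 ≤ n := (le_max_left _ _).trans ((le_max_right _ _).trans hn)
  have hnN2 : N2 ≤ n := (le_max_right _ _).trans ((le_max_right _ _).trans hn)
  have hspos0 := hreg.pos n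
  obtain ⟨s, hs⟩ : ∃ s : ℝ, s = sq n := ⟨_, rfl⟩
  rw [← hs] at hlow' hge hlt hspos0
  have hspos : 0 < s := hspos0
  have hsle : s ≤ 1 / 4 := hlt.le
  have hslt : s < 1 := by linarith
  obtain ⟨rho, hcrit, htails, _, _, hz1, _⟩ := hZB n hnN s hspos hsle
  obtain ⟨hZq, hZ0⟩ := SAPC.Z0_le C θ hC0 hθ n hn1 s rho hcrit.1 htails hz1
  have hn1' : (1 : ℝ) ≤ n := by exact_mod_cast hn1
  have hsqn : 0 < Real.sqrt n := Real.sqrt_pos.2 (by linarith)
  have hv : 0 < Real.sqrt (s * n) := Real.sqrt_pos.2 (by linarith)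
  have hvle : Real.sqrt (s * n) ≤ Real.sqrt n := Real.sqrt_le_sqrt (by nlinarith)
  have hinv : 1 / Real.sqrt n ≤ 1 / Real.sqrt (s * n) := one_div_le_one_div_of_le hv hvle
  have hlow2 : c / Real.sqrt n * Zq n s ≤
      s ^ (n - h n) * ((Omn n).filter (fun q => inC b (h n) (sp q))).card := by
    refine le_trans ?_ hlow'
    refine mul_le_mul_of_nonneg_right ?_ hZq.le
    exact div_le_div_of_nonneg_left hc.le hv hvle
  obtain ⟨hNpos, hMN⟩ := SAPC.cls_small n (h n) hn1 s C θ c hspos hslt.le hc _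
    (SAPC.inC_le b (h n)) hZq hZ0 hlow2
  have hlr := log_ratio n r hn1 hr
  have hE : ∑ q ∈ Omn n, wtq n s q * |(|(dq q : ℝ)| - (arq n q : ℝ))| ^ r ≤
      (C2 * (16 * 2 ^ r) * (1 / Real.sqrt (s * n)) * Zq n s) * sc n ^ r := by
    refine (hA2 n hnN2 s hspos hsle).2.trans ?_
    have hscr : 0 < sc n ^ r := pow_pos (FS.sc_pos hn1) r
    calc C2 * ((n : ℝ) * Real.log n) ^ r * Zq n s ≤
          C2 * (16 * 2 ^ r / Real.sqrt n * sc n ^ r) * Zq n s :=
          mul_le_mul_of_nonneg_right (mul_le_mul_of_nonneg_left hlr hC2.le) hZq.le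
      _ = (C2 * (16 * 2 ^ r) * (1 / Real.sqrt n) * Zq n s) * sc n ^ r := by ring
      _ ≤ _ := by
          refine mul_le_mul_of_nonneg_right ?_ hscr.le
          refine mul_le_mul_of_nonneg_right ?_ hZq.le
          exact mul_le_mul_of_nonneg_left hinv (by positivity)
  have hq := clsq_le hg n (h n) r hn1 s (C1 / Real.sqrt (s * n) * Zq n s)
    (C2 * (16 * 2 ^ r) * (1 / Real.sqrt (s * n)) * Zq n s) hspos hslt (inC b (h n))
    (SAPC.inC_le b (h n)) (fun k => hL1 n hnN1 s hsle hge k) hE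
  have hgeo : 1 / (1 - s) ≤ 2 := by
    rw [div_le_iff₀ (by linarith)]
    linarith
  -- the sum over the canonical words
  have hS : ∑ q ∈ (Omn n).filter (fun q => inC b (h n) (sp q)), (|(dq q : ℝ)| / sc n) ^ r ≤
      2 ^ r * (C1 * 2 + C2 * (16 * 2 ^ r)) / c *
        ((Omn n).filter (fun q => inC b (h n) (sp q))).card := by
    obtain ⟨B, hB⟩ : ∃ B : ℝ, B = 2 ^ r * (C1 * 2 + C2 * (16 * 2 ^ r)) := ⟨_, rfl⟩
    rw [← hB]
    have hB0 : 0 ≤ B := by
      rw [hB]
      positivity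
    have hpw : 0 < s ^ (n - h n) := pow_pos hspos _
    have h1 : s ^ (n - h n) * ∑ q ∈ (Omn n).filter (fun q => inC b (h n) (sp q)),
        (|(dq q : ℝ)| / sc n) ^ r ≤ B * (1 / Real.sqrt (s * n) * Zq n s) := by
      refine hq.trans ?_
      rw [hB]
      have h2 : C1 / Real.sqrt (s * n) * Zq n s * (1 / (1 - s)) ≤
          C1 / Real.sqrt (s * n) * Zq n s * 2 :=
        mul_le_mul_of_nonneg_left hgeo (by positivity)
      calc 2 ^ r * (C1 / Real.sqrt (s * n) * Zq n s * (1 / (1 - s)) +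
            C2 * (16 * 2 ^ r) * (1 / Real.sqrt (s * n)) * Zq n s) ≤
            2 ^ r * (C1 / Real.sqrt (s * n) * Zq n s * 2 +
            C2 * (16 * 2 ^ r) * (1 / Real.sqrt (s * n)) * Zq n s) :=
            mul_le_mul_of_nonneg_left (by linarith) (by positivity)
        _ = _ := by ring
    have h3 : 1 / Real.sqrt (s * n) * Zq n s ≤ s ^ (n - h n) *
        ((Omn n).filter (fun q => inC b (h n) (sp q))).card / c := by
      rw [le_div_iff₀ hc]
      refine le_trans (le_of_eq ?_) hlow'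
      ring
    have h4 := mul_le_mul_of_nonneg_left h3 hB0
    refine le_of_mul_le_mul_left (h1.trans (h4.trans (le_of_eq ?_))) hpw
    ring
  have hfin := cls_ratio hTR n (h n) r hn1 b _ _ hNpos hS hMN
  linarith

end Pool.Agent.NSP
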