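import Pool.Agent.NSP.Stmts
import Pool.Agent.Lib_helper74.FS.CLS

/-!
# Project NSP (MP_f6626d_co): module CLSZ, both classes
-/

set_option autoImplicit false

namespace Pool.Agent.NSP
namespace CLSZ

open Finset Filter Topology MeasureTheory
open Pool.Agent.Lib27 Pool.Agent.SapR Pool.Agent.Gap Pool.Agent.AreaLaw Pool.Agent.FL
open Pool.Agent.FS Pool.Agent.FS.CLS

lemma geo_small (s : ℝ) (hs : 0 < s) (h1 : s ≤ 1 / 4) (m : ℕ) (B : ℝ) (hB : 0 ≤ B)
    (u : ℕ → ℝ) (hu : ∀ i, u i ≤ B) :
    ∑ i ∈ range m, s ^ (i + 1) * u i ≤ 2 * s * B := by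
  have h2 : ∀ m : ℕ, ∑ i ∈ range m, s ^ i ≤ 2 := by
    intro m
    induction m with
    | zero => simp
    | succ m ih =>
      rw [Finset.sum_range_succ']
      have h3 : ∑ i ∈ range m, s ^ (i + 1) = s * ∑ i ∈ range m, s ^ i := by
        rw [Finset.mul_sum]
        exact Finset.sum_congr rfl fun i _ => by ring
      rw [h3, pow_zero]
      have h4 : s * ∑ i ∈ range m, s ^ i ≤ s * 2 := mul_le_mul_of_nonneg_left ih hs.le
      linarith
  calc ∑ i ∈ range m, s ^ (i + 1) * u i ≤ ∑ i ∈ range m, s * B * s ^ i := by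
        refine Finset.sum_le_sum fun i _ => ?_
        have h3 : s ^ (i + 1) * u i ≤ s ^ (i + 1) * B :=
          mul_le_mul_of_nonneg_left (hu i) (by positivity)
        refine h3.trans (le_of_eq ?_)
        ring
    _ = s * B * ∑ i ∈ range m, s ^ i := by rw [Finset.mul_sum]
    _ ≤ s * B * 2 := mul_le_mul_of_nonneg_left (h2 m) (by positivity)
    _ = 2 * s * B := by ring

open Classical in
/-- comparison of the average over a class with the average over one span, for small weights -/
lemma av_comp0 (n h : ℕ) (s : ℝ) (hs : 0 < s) (h1 : s ≤ 1 / 4) (b : Bool)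
    (ψ : QI → ℝ) (hψ : ∀ q, |ψ q| ≤ 1) (B D : ℝ) (hB : 0 ≤ B) (hD : 0 < D)
    (h3 : ∀ k, V n s k (fun _ => 1) ≤ B) (hV : D ≤ V n s h (fun _ => 1)) :
    |av ((Omn n).filter (fun q => inC b h (sp q))) (fun _ => 1) ψ -
      V n s h ψ / V n s h (fun _ => 1)| ≤ 4 * (s * B) / D := by
  rw [av_class n h s hs]
  have hU := W_one_ge n h s hs b (lt_of_lt_of_le hD hV)
  have hU1p : 0 < V n s h (fun _ => 1) := lt_of_lt_of_le hD hV
  have hm : 1 ≤ mm b n h := by
    by_contra hc
    have h4 : mm b n h = 0 := by omega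
    rw [h4, Finset.range_zero, Finset.sum_empty] at hU
    linarith
  obtain ⟨m, hm'⟩ : ∃ m, mm b n h = m + 1 := ⟨mm b n h - 1, by omega⟩
  rw [hm'] at hU ⊢
  have habs : ∀ k, |V n s k ψ| ≤ V n s k (fun _ => 1) := by
    intro k
    rw [abs_le]
    constructor
    · have e : -V n s k (fun _ => 1) = V n s k (fun _ => -1) := by
        unfold V
        rw [← Finset.sum_neg_distrib]
        exact Finset.sum_congr rfl fun q _ => by ring
      rw [e]
      exact V_mono n s hs k _ _ fun q => (abs_le.1 (hψ q)).1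
    · exact V_mono n s hs k _ _ fun q => (abs_le.1 (hψ q)).2
  rw [Finset.sum_range_succ', Finset.sum_range_succ' (fun i => s ^ i * V n s (h + i) fun _ => 1)]
  simp only [pow_zero, one_mul, add_zero]
  obtain ⟨A, hA⟩ : ∃ A, A = ∑ k ∈ range m, s ^ (k + 1) * V n s (h + (k + 1)) ψ := ⟨_, rfl⟩
  obtain ⟨T, hT⟩ : ∃ T, T = ∑ k ∈ range m, s ^ (k + 1) * V n s (h + (k + 1)) (fun _ => 1) :=
    ⟨_, rfl⟩
  rw [← hA, ← hT]
  have hT0 : 0 ≤ T := by
    rw [hT]
    exact Finset.sum_nonneg fun i _ => mul_nonneg (pow_nonneg hs.le _)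
      (V_nonneg n s hs _ _ fun _ => zero_le_one)
  have hAT : |A| ≤ T := by
    rw [hA, hT]
    refine (Finset.abs_sum_le_sum_abs _ _).trans (Finset.sum_le_sum fun i _ => ?_)
    rw [abs_mul, abs_of_nonneg (pow_nonneg hs.le _)]
    exact mul_le_mul_of_nonneg_left (habs _) (pow_nonneg hs.le _)
  have hTB : T ≤ 2 * s * B := by
    rw [hT]
    exact geo_small s hs h1 m B hB (fun k => V n s (h + (k + 1)) (fun _ => 1)) fun k => h3 _
  obtain ⟨U1, hU1⟩ : ∃ U1, U1 = V n s h (fun _ => 1) := ⟨_, rfl⟩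
  obtain ⟨Uψ, hUψ⟩ : ∃ Uψ, Uψ = V n s h ψ := ⟨_, rfl⟩
  have hUU : |Uψ| ≤ U1 := by rw [hUψ, hU1]; exact habs h
  rw [← hU1] at hU1p hV ⊢
  rw [← hUψ]
  have hW : 0 < T + U1 := by linarith
  have e1 : (A + Uψ) / (T + U1) - Uψ / U1 = (A * U1 - Uψ * T) / ((T + U1) * U1) := by
    field_simp
    ring
  rw [e1, abs_div, abs_of_pos (mul_pos hW hU1p), div_le_div_iff₀ (mul_pos hW hU1p) hD]
  have e2 : |A * U1 - Uψ * T| ≤ 2 * (T * U1) := by
    refine (abs_sub _ _).trans ?_
    rw [abs_mul, abs_mul, abs_of_pos hU1p, abs_of_nonneg hT0]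
    have e3 : |A| * U1 ≤ T * U1 := mul_le_mul_of_nonneg_right hAT hU1p.le
    have e4 : |Uψ| * T ≤ U1 * T := mul_le_mul_of_nonneg_right hUU hT0
    nlinarith
  have e5 : 2 * (T * U1) * D ≤ 2 * (2 * s * B) * (U1 * U1) := by
    have e6 : T * U1 * D ≤ (2 * s * B) * U1 * D := by
      refine mul_le_mul_of_nonneg_right ?_ hD.le
      exact mul_le_mul_of_nonneg_right hTB hU1p.le
    have e7 : (2 * s * B) * U1 * D ≤ (2 * s * B) * U1 * U1 := by
      refine mul_le_mul_of_nonneg_left hV ?_
      have : 0 ≤ 2 * s * B := by positivity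
      exact mul_nonneg this hU1p.le
    nlinarith
  have e8 : 2 * (2 * s * B) * (U1 * U1) ≤ 4 * (s * B) * ((T + U1) * U1) := by
    have e9 : U1 * U1 ≤ (T + U1) * U1 := mul_le_mul_of_nonneg_right (by linarith) hU1p.le
    have e10 : 0 ≤ 4 * (s * B) := by positivity
    have e11 := mul_le_mul_of_nonneg_left e9 e10
    linarith
  have e12 := mul_le_mul_of_nonneg_right e2 hD.le
  linarith

open Classical in
theorem main (hL : LOCZ_Stmt) (hA : ARM_Stmt) (hZ : ZB_Stmt) : CLSZ_Stmt := by
  intro s h hR b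
  obtain ⟨c1, hc1, hE1⟩ := hR.low
  have hE2 := hR.eqv
  have hs1l : (1 / 4 : ℝ) < 1 := by norm_num
  have hs1p : (0 : ℝ) < 1 / 4 := by norm_num
  obtain ⟨⟨C2, hC2, N2, hLo⟩, _⟩ := hL
  obtain ⟨C3, hC3, N3, hA⟩ := hA (1 / 4) hs1p hs1l
  obtain ⟨C4, θ, hC4, _, _, N4, hZ⟩ := hZ (1 / 4) hs1p hs1l
  have hsmall : ∀ᶠ n in atTop, s n ≤ 1 / 4 := by
    have := hR.lim.eventually (gt_mem_nhds hs1p)
    exact this.mono fun n hn => hn.le
  have hZp : ∀ n, N4 ≤ n → s n ≤ 1 / 4 → 0 < Zq n (s n) := by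
    intro n hn hsn
    obtain ⟨rho, _, _, h5, _, h6, _⟩ := hZ n hn (s n) (hR.pos n) hsn
    by_contra hc
    push Not at hc
    have h7 : 0 ≤ sc n * rho ^ n := by
      have : 0 ≤ rho := by linarith
      unfold sc
      positivity
    have h8 := mul_nonpos_of_nonneg_of_nonpos h7 hc
    have h9 : 0 < C4⁻¹ := by positivity
    linarith
  -- good n
  have hgood : ∀ᶠ n in atTop, 1 ≤ n ∧ N2 ≤ n ∧ N3 ≤ n ∧ s n ≤ 1 / 4 ∧ 1 ≤ s n * n ∧
      0 < Zq n (s n) ∧
      c1 / Real.sqrt (s n * n) * Zq n (s n) ≤ V n (s n) (h n) (fun _ => 1) := by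
    filter_upwards [eventually_ge_atTop 1, eventually_ge_atTop N2, eventually_ge_atTop N3,
      eventually_ge_atTop N4, hE1, hsmall, hR.ge] with n h1 h2 h3 h4 h5 h6 h7
    exact ⟨h1, h2, h3, h6, h7, hZp n h4 h6, h5⟩
  set K : ℝ := KK (1 / 4) with hK
  have hK0 : 0 ≤ K := by
    have h0 := geo (1 / 4) (1 / 4) hs1p le_rfl hs1l 0 1 zero_le_one (fun _ => 0)
      (fun i => by positivity)
    rw [Finset.range_zero, Finset.sum_empty, mul_one] at h0
    exact h0
  -- per n facts
  have hsq : ∀ n : ℕ, 1 ≤ n → 0 < Real.sqrt n := fun n hn =>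
    Real.sqrt_pos.2 (by exact_mod_cast hn)
  have hscp : ∀ n : ℕ, 1 ≤ n → 0 < sc n := fun n hn => by
    have := hsq n hn
    have h2 : (0 : ℝ) < n := by exact_mod_cast hn
    unfold sc
    positivity
  refine ⟨⟨c1, hc1, ?_⟩, ?_⟩
  · filter_upwards [hgood] with n hn
    obtain ⟨hn1, hn2, hn3, hs4, hge, hZn, hVn⟩ := hn
    have hq : 0 < Real.sqrt (s n * n) := Real.sqrt_pos.2 (by linarith)
    have hD : 0 < c1 / Real.sqrt (s n * n) * Zq n (s n) := by positivity
    have h1 := W_one_ge n (h n) (s n) (hR.pos n) b (lt_of_lt_of_le hD hVn)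
    rw [← W_eq n (h n) (s n) b (fun _ => 1)] at h1
    simp only [Finset.sum_const, nsmul_eq_mul, mul_one] at h1
    exact hVn.trans h1
  · have hmain := abs_main
      (fun n => (Omn n).filter (fun q => inC b (h n) (sp q))) (fun n => Omn n)
      (fun _ _ => 1) (fun n => wtq n (s n)) (fun n => ra n) (fun n q => |(dq q : ℝ)| / sc n)
      (fun _ _ _ => zero_le_one) (fun n q _ => by
        rw [wtq_eq]
        exact pow_nonneg (hR.pos n).le _) (fun n q => ra_nonneg n q) ?_ ?_ ?_ ?_ ?_
    · obtain ⟨r1, r2, c, hc, r3⟩ := hmain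
      refine ⟨fun φ h1 h2 => ?_, ?_, c, hc, ?_⟩
      · refine (r1 φ h1 h2).congr fun n => ?_
        rw [av_card]
        rfl
      · refine r2.congr fun n => ?_
        rw [av_card]
        rfl
      · exact r3
    · -- class averages of the error
      have hlim : Tendsto (fun n : ℕ => K * C2 / c1 * (Real.log n / Real.sqrt n)) atTop (𝓝 0) := by
        have := log_div_sqrt.const_mul (K * C2 / c1)
        rwa [mul_zero] at this
      refine squeeze_zero' (Eventually.of_forall fun n =>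
        av_nonneg _ _ _ (fun _ _ => zero_le_one) fun _ _ => abs_nonneg _) ?_ hlim
      filter_upwards [hgood] with n hn
      obtain ⟨hn1, hn2, hn3, hs4, hge, hZn, hVn⟩ := hn
      have hq : 0 < Real.sqrt (s n * n) := Real.sqrt_pos.2 (by linarith)
      have hqn := hsq n hn1
      have hscn := hscp n hn1
      have hnr : (0 : ℝ) < n := by exact_mod_cast hn1
      have hlog : 0 ≤ Real.log n := Real.log_nonneg (by exact_mod_cast hn1)
      have hD : 0 < c1 / Real.sqrt (s n * n) * Zq n (s n) := by positivity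
      obtain ⟨_, g2, _⟩ := hLo n hn2 (s n) hs4 hge
      have h1 := av_le n (h n) (s n) (1 / 4) (hR.pos n) hs4 hs1l b
        (fun q => |(|(dq q : ℝ)| / sc n) - ra n q|)
        (C2 * (n * Real.log n / Real.sqrt (s n * n)) * Zq n (s n) / sc n)
        (c1 / Real.sqrt (s n * n) * Zq n (s n))
        (by positivity) hD (fun k => by
          have h2 : V n (s n) k (fun q => |(|(dq q : ℝ)| / sc n) - ra n q|) ≤
              V n (s n) k (fun q => |(dq q : ℝ) - (arq n q : ℝ)| / sc n) :=
            V_mono n (s n) (hR.pos n) k _ _ fun q => dq_ra n q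
          have h3 : V n (s n) k (fun q => |(dq q : ℝ) - (arq n q : ℝ)| / sc n) =
              (∑ q ∈ (Omn n).filter (fun q => sp q = k),
                wtq n (s n) q * |(dq q : ℝ) - (arq n q : ℝ)|) / sc n := by
            unfold V
            rw [Finset.sum_div]
            exact Finset.sum_congr rfl fun q _ => by ring
          rw [h3] at h2
          exact h2.trans (div_le_div_of_nonneg_right (g2 k) hscn.le)) hVn
      refine h1.trans (le_of_eq ?_)
      rw [← hK]
      have e : sc n = n * Real.sqrt n := rfl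
      rw [e]
      obtain ⟨z, hz⟩ : ∃ z, z = Real.sqrt (s n * n) := ⟨_, rfl⟩
      rw [← hz] at hq ⊢
      field_simp
    · -- force averages of the error
      have hlim : Tendsto (fun n : ℕ => C3 * (Real.log n / Real.sqrt n)) atTop (𝓝 0) := by
        have := log_div_sqrt.const_mul C3
        rwa [mul_zero] at this
      refine squeeze_zero' (Eventually.of_forall fun n =>
        av_nonneg _ _ _ (fun q _ => by
          rw [wtq_eq]
          exact pow_nonneg (hR.pos n).le _) fun _ _ => abs_nonneg _) ?_ hlim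
      filter_upwards [hgood] with n hn
      obtain ⟨hn1, hn2, hn3, hs4, hge, hZn, hVn⟩ := hn
      have hq := hsq n hn1
      have hscn := hscp n hn1
      have hnr : (0 : ℝ) < n := by exact_mod_cast hn1
      obtain ⟨_, _, g3⟩ := hA n hn3 (s n) (hR.pos n) hs4
      have h1 : av (Omn n) (wtq n (s n)) (fun q => |(|(dq q : ℝ)| / sc n) - ra n q|) ≤
          av (Omn n) (wtq n (s n)) (fun q => (sc n)⁻¹ * |(dq q : ℝ) - (arq n q : ℝ)|) :=
        av_mono _ _ _ _ (fun q _ => by
          rw [wtq_eq]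
          exact pow_nonneg (hR.pos n).le _) fun q _ => by
          calc _ ≤ |(dq q : ℝ) - (arq n q : ℝ)| / sc n := dq_ra n q
            _ = _ := by rw [div_eq_inv_mul]
      rw [av_mul] at h1
      refine h1.trans ?_
      have h2 : av (Omn n) (wtq n (s n)) (fun q => |(dq q : ℝ) - (arq n q : ℝ)|) ≤
          C3 * (n * Real.log n) := by
        show (∑ q ∈ Omn n, wtq n (s n) q * |(dq q : ℝ) - (arq n q : ℝ)|) / Zq n (s n) ≤ _
        rw [div_le_iff₀ hZn]
        exact g3
      have h3 := mul_le_mul_of_nonneg_left h2 (inv_nonneg.2 hscn.le)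
      refine h3.trans (le_of_eq ?_)
      unfold sc
      field_simp
    · -- second moments
      refine ⟨max (K * C2 / c1) C3, ?_⟩
      filter_upwards [hgood] with n hn
      obtain ⟨hn1, hn2, hn3, hs4, hge, hZn, hVn⟩ := hn
      have hq : 0 < Real.sqrt (s n * n) := Real.sqrt_pos.2 (by linarith)
      have hD : 0 < c1 / Real.sqrt (s n * n) * Zq n (s n) := by positivity
      obtain ⟨g1, _, _⟩ := hLo n hn2 (s n) hs4 hge
      obtain ⟨g3, _, _⟩ := hA n hn3 (s n) (hR.pos n) hs4
      constructor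
      · refine le_trans ?_ (le_max_left _ _)
        have h1 := av_le n (h n) (s n) (1 / 4) (hR.pos n) hs4 hs1l b
          (fun q => ra n q ^ 2) (C2 / Real.sqrt (s n * n) * Zq n (s n))
          (c1 / Real.sqrt (s n * n) * Zq n (s n))
          (by positivity) hD (fun k => by
            refine le_trans ?_ (g1 k)
            exact V_mono n (s n) (hR.pos n) k _ (fun q => 1 + ra n q ^ 2) fun q => by
              show ra n q ^ 2 ≤ 1 + ra n q ^ 2
              linarith) hVn
        refine h1.trans (le_of_eq ?_)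
        rw [← hK]
        field_simp
      · refine le_trans ?_ (le_max_right _ _)
        show (∑ q ∈ Omn n, wtq n (s n) q * ra n q ^ 2) / Zq n (s n) ≤ _
        rw [div_le_iff₀ hZn]
        exact g3
    · -- bounded Lipschitz functions of the area functional
      intro φ hφ1 hφ2
      have hlim : Tendsto (fun n : ℕ => 4 * C2 / c1 * s n) atTop (𝓝 0) := by
        have := hR.lim.const_mul (4 * C2 / c1)
        rwa [mul_zero] at this
      have hfirst : Tendsto (fun n : ℕ =>
          av ((Omn n).filter (fun q => inC b (h n) (sp q))) (fun _ => 1) (fun q => φ (ra n q)) -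
            V n (s n) (h n) (fun q => φ (ra n q)) / V n (s n) (h n) (fun _ => 1))
          atTop (𝓝 0) := by
        refine squeeze_zero_norm' ?_ hlim
        filter_upwards [hgood] with n hn
        obtain ⟨hn1, hn2, hn3, hs4, hge, hZn, hVn⟩ := hn
        have hq : 0 < Real.sqrt (s n * n) := Real.sqrt_pos.2 (by linarith)
        have hD : 0 < c1 / Real.sqrt (s n * n) * Zq n (s n) := by positivity
        obtain ⟨g1, _, _⟩ := hLo n hn2 (s n) hs4 hge
        have h1 := av_comp0 n (h n) (s n) (hR.pos n) hs4 b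
          (fun q => φ (ra n q)) (fun q => hφ1 _) (C2 / Real.sqrt (s n * n) * Zq n (s n))
          (c1 / Real.sqrt (s n * n) * Zq n (s n)) (by positivity) hD
          (fun k => by
            refine le_trans ?_ (g1 k)
            exact V_mono n (s n) (hR.pos n) k _ (fun q => 1 + ra n q ^ 2) fun q => by
              show (1 : ℝ) ≤ 1 + ra n q ^ 2
              nlinarith [sq_nonneg (ra n q)]) hVn
        rw [Real.norm_eq_abs]
        refine h1.trans (le_of_eq ?_)
        field_simp
      have hsecond := hE2 φ hφ1 hφ2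
      have := hfirst.add hsecond
      rw [add_zero] at this
      refine this.congr fun n => ?_
      show (av ((Omn n).filter (fun q => inC b (h n) (sp q))) (fun _ => 1)
          (fun q => φ (ra n q)) -
            V n (s n) (h n) (fun q => φ (ra n q)) / V n (s n) (h n) (fun _ => 1)) +
          (V n (s n) (h n) (fun q => φ (ra n q)) / V n (s n) (h n) (fun _ => 1) -
            av (Omn n) (wtq n (s n)) (fun q => φ (ra n q))) = _
      ring
    · refine ⟨C3⁻¹, by positivity, ?_⟩
      filter_upwards [hgood] with n hn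
      obtain ⟨hn1, hn2, hn3, hs4, hge, hZn, hVn⟩ := hn
      obtain ⟨_, g2, _⟩ := hA n hn3 (s n) (hR.pos n) hs4
      show _ ≤ (∑ q ∈ Omn n, wtq n (s n) q * ra n q) / Zq n (s n)
      rw [le_div_iff₀ hZn]
      exact g2

end CLSZ

theorem t_CLSZ (hL : LOCZ_Stmt) (hA : Pool.Agent.FS.ARM_Stmt) (hZ : Pool.Agent.FS.ZB_Stmt) :
    CLSZ_Stmt :=
  CLSZ.main hL hA hZ

end Pool.Agent.NSP
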