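import Pool.Agent.NSP.StmtsM

/-!
DIAGM: diagonal argument for countably many functionals depending on the span.
-/

set_option autoImplicit false

namespace Pool.Agent.NSP

open Filter Topology

namespace DIAGM

/-- uniformity in `h` from the bounds along all sequences of `h` -/
lemma unif_of_seq (ok : ℕ → ℕ → Prop) (F : ℕ → ℕ → ℝ) (l ε : ℝ)
    (H : ∀ h : ℕ → ℕ, ∀ᶠ n in atTop, ok n (h n) → |F n (h n) - l| ≤ ε) :
    ∀ᶠ n : ℕ in atTop, ∀ h : ℕ, ok n h → |F n h - l| ≤ ε := by
  classical
  set f : ℕ → ℕ := fun n =>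
    if hn : ∃ g : ℕ, ok n g ∧ ε < |F n g - l| then hn.choose else 0 with hf
  filter_upwards [H f] with n hn h hok
  by_contra hcon
  push Not at hcon
  have hex : ∃ g : ℕ, ok n g ∧ ε < |F n g - l| := ⟨h, hok, hcon⟩
  have h3 : f n = hex.choose := by
    simp only [hf]
    rw [dif_pos hex]
  rw [h3] at hn
  have h4 := hn hex.choose_spec.1
  have h5 := hex.choose_spec.2
  linarith

end DIAGM

open DIAGM in
theorem t_DIAGM : DIAGM_Stmt := by
  classical
  intro ok F m _ h
  set P : ℕ → ℕ → Prop := fun n k => ∀ i ∈ Finset.range (k + 1), ∀ g : ℕ,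
    ok (1 / ((k : ℝ) + 1)) n g → |F i n g - m i| ≤ 1 / ((k : ℝ) + 1) with hP
  have hPk : ∀ k, ∀ᶠ n in atTop, P n k := by
    intro k
    rw [hP]
    simp only
    rw [Filter.eventually_all_finset]
    intro i _
    have hk : (0 : ℝ) < 1 / ((k : ℝ) + 1) := by positivity
    exact unif_of_seq (fun n g => ok (1 / ((k : ℝ) + 1)) n g) (fun n g => F i n g) (m i)
      (1 / ((k : ℝ) + 1)) (fun h' => h _ hk h' i _ hk)
  have hR : Tendsto (fun n => Nat.findGreatest (P n) n) atTop atTop := by
    rw [tendsto_atTop]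
    intro k
    filter_upwards [hPk k, eventually_ge_atTop k] with n h1 h2
    exact Nat.le_findGreatest h2 h1
  have hinv : Tendsto (fun n => 1 / (((Nat.findGreatest (P n) n : ℕ) : ℝ) + 1)) atTop (𝓝 0) :=
    tendsto_one_div_add_atTop_nhds_zero_nat.comp hR
  refine ⟨fun n => 1 / (((Nat.findGreatest (P n) n : ℕ) : ℝ) + 1), fun n => by positivity, hinv, ?_⟩
  intro f hf i
  rw [tendsto_iff_dist_tendsto_zero]
  refine squeeze_zero' (Eventually.of_forall fun n => dist_nonneg) ?_ hinv
  filter_upwards [hR.eventually_ge_atTop (i + 1), hf] with n h2 hfn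
  have hne : Nat.findGreatest (P n) n ≠ 0 := by omega
  have hPn : P n (Nat.findGreatest (P n) n) := Nat.findGreatest_of_ne_zero rfl hne
  rw [Real.dist_eq]
  exact hPn i (Finset.mem_range.2 (by omega)) (f n) hfn

end Pool.Agent.NSP
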