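import Pool.Agent.NSP.Stmts
import Pool.Agent.Lib_helper74.FS.EQ

/-!
# Project NSP (MP_f6626d_co): equivalence of the ensembles, unbounded number of defects (module EQZ)
-/

set_option autoImplicit false

namespace Pool.Agent.NSP.EQZ

open Finset Filter Topology MeasureTheory
open Pool.Agent.Lib27 Pool.Agent.SapR Pool.Agent.Gap Pool.Agent.AreaLaw Pool.Agent.FL
open Pool.Agent.FS

/-! ### Elementary facts -/

/-- the tilt identity for the Laplace transform -/
lemma lap_tilt (n : ℕ) (s t a lam r : ℝ) (hs : 0 < s) (hZ : 0 < Zq n s) :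
    ∑ q ∈ Omn n, wtq n s q * (Real.exp (t * (((sp q : ℝ) - a) / r)) *
      Real.exp (-(lam * ra n q))) =
    (∑ q ∈ Omn n, wtq n s q * Real.exp (t * (((sp q : ℝ) - a) / r))) *
      lapQ n (s * Real.exp (-(t / r))) lam := by
  obtain ⟨u, hu⟩ : ∃ u, u = t / r := ⟨_, rfl⟩
  have hX : ∀ q : QI, t * (((sp q : ℝ) - a) / r) = u * ((sp q : ℝ) - a) := by
    intro q
    rw [hu]
    ring
  simp only [hX, ← hu]
  obtain ⟨s', hs'⟩ : ∃ s', s' = s * Real.exp (-u) := ⟨_, rfl⟩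
  have hs'0 : 0 < s' := by rw [hs']; positivity
  have e1 : ∑ q ∈ Omn n, wtq n s q * Real.exp (u * ((sp q : ℝ) - a)) =
      Real.exp (u * ((n : ℝ) - a)) * Zq n s' := by
    unfold Zq
    rw [mul_sum]
    refine sum_congr rfl fun q hq => ?_
    rw [EQ.wtq_tilt n s u a q hq, hs']
  have e2 : ∑ q ∈ Omn n, wtq n s q * (Real.exp (u * ((sp q : ℝ) - a)) *
      Real.exp (-(lam * ra n q))) =
      Real.exp (u * ((n : ℝ) - a)) * ∑ q ∈ Omn n, wtq n s' q * Real.exp (-(lam * ra n q)) := by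
    rw [mul_sum]
    refine sum_congr rfl fun q hq => ?_
    rw [← mul_assoc, EQ.wtq_tilt n s u a q hq, hs']
    ring
  have hZ' : 0 < Zq n s' := by
    have h1 : ∃ q ∈ Omn n, 0 < wtq n s q := by
      by_contra hc
      push Not at hc
      exact absurd hZ (not_lt.2 (Finset.sum_nonpos hc))
    obtain ⟨q, hq, _⟩ := h1
    refine Finset.sum_pos' (fun q _ => EQ.wtq_nonneg n s' hs'0.le q) ⟨q, hq, ?_⟩
    unfold wtq
    positivity
  rw [← hs', e1, e2]
  unfold lapQ
  field_simp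

/-- lower bound for the sum of the hat function over the spans -/
lemma sum_chi (d r : ℝ) (hd : 0 < d) (hd1 : d ≤ 1) (n h : ℕ) (hr : 0 < r) (hrn : r ≤ n) :
    d * r / 4 ≤ ∑ k ∈ range (2 * n + h + 1), EQ.chi d (((k : ℝ) - h) / r) := by
  obtain ⟨m, hm⟩ : ∃ m : ℕ, m = ⌊d * r / 2⌋₊ := ⟨_, rfl⟩
  have hpos : 0 ≤ d * r / 2 := by positivity
  have hm1 : (m : ℝ) ≤ d * r / 2 := by rw [hm]; exact Nat.floor_le hpos
  have hm2 : d * r / 2 < (m : ℝ) + 1 := by rw [hm]; exact Nat.lt_floor_add_one _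
  have hmn : m ≤ n := by
    have : (m : ℝ) ≤ n := by nlinarith
    exact_mod_cast this
  have hinj : Set.InjOn (fun j => h + j) (range (m + 1) : Set ℕ) := by
    intro a _ b _ hab
    simpa using hab
  have hsub : (range (m + 1)).image (fun j => h + j) ⊆ range (2 * n + h + 1) := by
    intro k hk
    rw [mem_image] at hk
    obtain ⟨j, hj, rfl⟩ := hk
    rw [mem_range] at hj ⊢
    omega
  calc d * r / 4 ≤ ∑ j ∈ range (m + 1), (1 / 2 : ℝ) := by
        rw [Finset.sum_const, card_range, nsmul_eq_mul]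
        push_cast
        linarith
    _ ≤ ∑ j ∈ range (m + 1), EQ.chi d ((((h + j : ℕ) : ℝ) - h) / r) := by
        refine Finset.sum_le_sum fun j hj => ?_
        refine EQ.chi_half d _ hd ?_
        push_cast
        rw [add_sub_cancel_left, abs_of_nonneg (by positivity), div_le_iff₀ hr]
        have : (j : ℝ) ≤ m := by
          rw [mem_range] at hj
          exact_mod_cast Nat.lt_succ_iff.1 hj
        linarith
    _ = ∑ k ∈ (range (m + 1)).image (fun j => h + j), EQ.chi d (((k : ℝ) - h) / r) := by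
        rw [Finset.sum_image hinj]
    _ ≤ _ := Finset.sum_le_sum_of_subset_of_nonneg hsub fun _ _ _ => EQ.chi_nonneg _ _

/-! ### The main argument -/

section Main

variable {s : ℕ → ℝ} {h : ℕ → ℕ}

/-- exponential moments -/
lemma expm (hE : EXPZ_Stmt) (h0 : Tendsto s atTop (𝓝 0))
    (hinf : Tendsto (fun n : ℕ => s n * n) atTop atTop)
    (hC : ∀ᶠ n in atTop, CenQ n (s n) (h n)) (t : ℝ) : ∃ C : ℝ, 0 < C ∧ ∀ᶠ n in atTop,
      ∑ q ∈ Omn n, wtq n (s n) q *
        Real.exp (t * (((sp q : ℝ) - h n) / Real.sqrt (s n * n))) ≤ C * Zq n (s n) := by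
  obtain ⟨s0, hs0, _, hE2⟩ := hE
  obtain ⟨C, v0, hC0, _, N, hN⟩ := hE2 t
  refine ⟨C, hC0, ?_⟩
  filter_upwards [hC, eventually_ge_atTop N, h0.eventually (gt_mem_nhds hs0),
    hinf.eventually_ge_atTop v0] with n h1 h2 h3 h4
  exact hN n h2 (s n) h3.le h4 (h n) h1

/-- second moment -/
lemma second (hE : EXPZ_Stmt) (hs : ∀ n, 0 < s n) (h0 : Tendsto s atTop (𝓝 0))
    (hinf : Tendsto (fun n : ℕ => s n * n) atTop atTop)
    (hC : ∀ᶠ n in atTop, CenQ n (s n) (h n)) : ∃ K : ℝ, 0 < K ∧ ∀ᶠ n : ℕ in atTop,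
      ∑ q ∈ Omn n, wtq n (s n) q * ((sp q : ℝ) - h n) ^ 2 ≤
        K * (s n * n) * Zq n (s n) := by
  obtain ⟨C, hC0, h1⟩ := expm hE h0 hinf hC 1
  obtain ⟨C', hC0', h2⟩ := expm hE h0 hinf hC (-1)
  refine ⟨2 * (C + C'), by positivity, ?_⟩
  filter_upwards [h1, h2, hinf.eventually_ge_atTop 1] with n h3 h4 h5
  have hn : (0 : ℝ) < s n * n := by linarith
  have h6 : ∀ q ∈ Omn n, wtq n (s n) q * ((sp q : ℝ) - h n) ^ 2 ≤
      (s n * n) * (2 * (wtq n (s n) q *
        Real.exp (1 * (((sp q : ℝ) - h n) / Real.sqrt (s n * n))) +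
      wtq n (s n) q *
        Real.exp (-1 * (((sp q : ℝ) - h n) / Real.sqrt (s n * n))))) := by
    intro q _
    have h7 := EQ.sq_le_exp (((sp q : ℝ) - h n) / Real.sqrt (s n * n))
    have h8 := EQ.wtq_nonneg n (s n) (hs n).le q
    rw [div_pow, Real.sq_sqrt hn.le, div_le_iff₀ hn] at h7
    have h9 := mul_le_mul_of_nonneg_left h7 h8
    refine h9.trans (le_of_eq ?_)
    ring
  refine (Finset.sum_le_sum h6).trans ?_
  rw [← mul_sum, ← mul_sum, sum_add_distrib]
  have h10 : (s n * n) * (2 * (∑ q ∈ Omn n, wtq n (s n) q *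
        Real.exp (1 * (((sp q : ℝ) - h n) / Real.sqrt (s n * n))) +
      ∑ q ∈ Omn n, wtq n (s n) q *
        Real.exp (-1 * (((sp q : ℝ) - h n) / Real.sqrt (s n * n))))) ≤
      (s n * n) * (2 * (C * Zq n (s n) + C' * Zq n (s n))) := by
    refine mul_le_mul_of_nonneg_left ?_ hn.le
    linarith
  refine h10.trans (le_of_eq ?_)
  ring

/-- positivity of the total weight -/
lemma Zpos (hZB : ZB_Stmt) (hs : ∀ n, 0 < s n) (h0 : Tendsto s atTop (𝓝 0)) :
    ∀ᶠ n in atTop, 0 < Zq n (s n) := by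
  obtain ⟨C, θ, hC, _, _, N, hN⟩ := hZB (1 / 4) (by norm_num) (by norm_num)
  filter_upwards [eventually_ge_atTop N,
    h0.eventually (gt_mem_nhds (by norm_num : (0 : ℝ) < 1 / 4))] with n h1 h2
  obtain ⟨rho, hcr, _, h3, _, h4, _⟩ := hN n h1 (s n) (hs n) h2.le
  have h5 : 0 < C⁻¹ := inv_pos.2 hC
  by_contra hc
  have h6 : 0 ≤ Zq n (s n) := EQ.Zq_nonneg n _ (hs n).le
  have h7 : Zq n (s n) = 0 := le_antisymm (not_lt.1 hc) h6
  rw [h7, mul_zero] at h4
  linarith

/-- the lower bound for the weight of the words of span `h n` -/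
lemma lower (hL : LOCZ_Stmt) (hE : EXPZ_Stmt) (hs : ∀ n, 0 < s n) (h0 : Tendsto s atTop (𝓝 0))
    (hinf : Tendsto (fun n : ℕ => s n * n) atTop atTop)
    (hC : ∀ᶠ n in atTop, CenQ n (s n) (h n)) :
    ∃ c : ℝ, 0 < c ∧ ∀ᶠ n : ℕ in atTop, c / Real.sqrt (s n * n) * Zq n (s n) ≤
      U n (s n) (h n) (fun _ => 1) := by
  obtain ⟨K, hK, h1⟩ := second hE hs h0 hinf hC
  obtain ⟨c, v0, hc, hv0, N, hN⟩ := hL.2 K hK
  refine ⟨c, hc, ?_⟩
  filter_upwards [h1, eventually_ge_atTop N,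
    h0.eventually (gt_mem_nhds (by norm_num : (0 : ℝ) < 1 / 4)),
    hinf.eventually_ge_atTop v0] with n h3 h4 h5 h6
  exact hN n h4 (s n) h5.le h6 (h n) h3

/-- asymptotic independence of the rescaled span and area -/
lemma indep (hIND : IND_Stmt) (hE : EXPZ_Stmt) (hLap : LAPZ_Stmt) (hARM : ARM_Stmt)
    (hZB : ZB_Stmt) (hs : ∀ n, 0 < s n) (h0 : Tendsto s atTop (𝓝 0))
    (hinf : Tendsto (fun n : ℕ => s n * n) atTop atTop)
    (hC : ∀ᶠ n in atTop, CenQ n (s n) (h n)) (g φ : ℝ → ℝ) (hg : Continuous g)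
    (hφ : Continuous φ) (hg1 : ∀ x, |g x| ≤ 1) (hφ1 : ∀ x, |φ x| ≤ 1) :
    Tendsto (fun n : ℕ =>
      (∑ q ∈ Omn n, wtq n (s n) q *
        (g (((sp q : ℝ) - h n) / Real.sqrt (s n * n)) * φ (ra n q))) / Zq n (s n) -
      (∑ q ∈ Omn n, wtq n (s n) q *
        (g (((sp q : ℝ) - h n) / Real.sqrt (s n * n)))) / Zq n (s n) *
      ((∑ q ∈ Omn n, wtq n (s n) q * φ (ra n q)) / Zq n (s n)))
      atTop (𝓝 0) := by
  have hZ := Zpos hZB hs h0
  have key := hIND (fun _ => QI) Omn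
    (fun n q => wtq n (s n) q / Zq n (s n))
    (fun n q => ((sp q : ℝ) - h n) / Real.sqrt (s n * n)) (fun n q => ra n q)
    (fun n q => div_nonneg (EQ.wtq_nonneg n _ (hs n).le q)
      (EQ.Zq_nonneg n _ (hs n).le))
    (fun n q => EQ.ra_nonneg n q) ?_ ?_ ?_ ?_ g φ hg hφ hg1 hφ1
  · refine key.congr fun n => ?_
    simp only [div_mul_eq_mul_div, ← Finset.sum_div]
  · filter_upwards [hZ] with n hn
    rw [← Finset.sum_div]
    exact div_self hn.ne'
  · intro t
    obtain ⟨C, _, h1⟩ := expm hE h0 hinf hC t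
    refine ⟨C, ?_⟩
    filter_upwards [h1, hZ] with n h2 h3
    simp only [div_mul_eq_mul_div]
    rw [← Finset.sum_div, div_le_iff₀ h3]
    exact h2
  · obtain ⟨C, hC0, N, hN⟩ := hARM (1 / 4) (by norm_num) (by norm_num)
    refine ⟨1 + C, ?_⟩
    filter_upwards [hZ, eventually_ge_atTop N,
      h0.eventually (gt_mem_nhds (by norm_num : (0 : ℝ) < 1 / 4))] with n h3 h4 h4'
    obtain ⟨h5, _, _⟩ := hN n h4 (s n) (hs n) h4'.le
    simp only [div_mul_eq_mul_div]
    rw [← Finset.sum_div, div_le_iff₀ h3]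
    have h6 : ∑ q ∈ Omn n, wtq n (s n) q * ra n q ≤
        ∑ q ∈ Omn n, (wtq n (s n) q + wtq n (s n) q * ra n q ^ 2) := by
      refine Finset.sum_le_sum fun q _ => ?_
      have h7 := EQ.wtq_nonneg n (s n) (hs n).le q
      have h8 : ra n q ≤ 1 + ra n q ^ 2 := by nlinarith [sq_nonneg (ra n q - 1)]
      nlinarith [mul_le_mul_of_nonneg_left h8 h7]
    refine h6.trans ?_
    rw [sum_add_distrib]
    have h9 : ∑ q ∈ Omn n, wtq n (s n) q = Zq n (s n) := rfl
    rw [h9]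
    linarith
  · intro t lam hlam
    obtain ⟨C, hC0, h1⟩ := expm hE h0 hinf hC t
    obtain ⟨Λ, hΛ⟩ := hLap
    have hr : Tendsto (fun n : ℕ => Real.sqrt (s n * n)) atTop atTop :=
      Real.tendsto_sqrt_atTop.comp hinf
    have hexp : Tendsto (fun n : ℕ => Real.exp (-(t / Real.sqrt (s n * n)))) atTop (𝓝 1) := by
      have h2 : Tendsto (fun n : ℕ => -(t / Real.sqrt (s n * n))) atTop (𝓝 (-0)) :=
        (hr.const_div_atTop t).neg
      rw [neg_zero] at h2
      have := (Real.continuous_exp.tendsto 0).comp h2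
      rwa [Real.exp_zero] at this
    have hs' : Tendsto (fun n : ℕ => s n * Real.exp (-(t / Real.sqrt (s n * n)))) atTop (𝓝 0) := by
      have := h0.mul hexp
      rwa [zero_mul] at this
    have hL1 := hΛ (fun n => s n * Real.exp (-(t / Real.sqrt (s n * n))))
      (fun n => mul_pos (hs n) (Real.exp_pos _)) hs' lam hlam
    have hL2 := hΛ s hs h0 lam hlam
    have hL : Tendsto (fun n : ℕ => lapQ n (s n * Real.exp (-(t / Real.sqrt (s n * n)))) lam -
        lapQ n (s n) lam) atTop (𝓝 0) := by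
      have := hL1.sub hL2
      rwa [sub_self] at this
    have hb : ∀ᶠ n in atTop, |(∑ q ∈ Omn n, wtq n (s n) q *
        Real.exp (t * (((sp q : ℝ) - h n) / Real.sqrt (s n * n)))) / Zq n (s n)| ≤ C := by
      filter_upwards [h1, hZ] with n h2 h3
      rw [abs_of_nonneg (div_nonneg (Finset.sum_nonneg fun q _ =>
        mul_nonneg (EQ.wtq_nonneg n _ (hs n).le q) (Real.exp_pos _).le) h3.le),
        div_le_iff₀ h3]
      exact h2
    have hprod : Tendsto (fun n => (∑ q ∈ Omn n, wtq n (s n) q *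
        Real.exp (t * (((sp q : ℝ) - h n) / Real.sqrt (s n * n)))) / Zq n (s n) *
        (lapQ n (s n * Real.exp (-(t / Real.sqrt (s n * n)))) lam - lapQ n (s n) lam))
        atTop (𝓝 0) := by
      refine squeeze_zero_norm' (a := fun n => C * |lapQ n
        (s n * Real.exp (-(t / Real.sqrt (s n * n)))) lam - lapQ n (s n) lam|) ?_ ?_
      · filter_upwards [hb] with n h4
        rw [norm_mul, Real.norm_eq_abs, Real.norm_eq_abs]
        exact mul_le_mul_of_nonneg_right h4 (abs_nonneg _)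
      · have := (hL.abs).const_mul C
        simpa using this
    refine hprod.congr' ?_
    filter_upwards [hZ] with n h3
    have h5 := lap_tilt n (s n) t (h n) lam (Real.sqrt (s n * n)) (hs n) h3
    simp only [div_mul_eq_mul_div]
    rw [← Finset.sum_div, ← Finset.sum_div, ← Finset.sum_div, h5]
    unfold lapQ
    ring

/-- localisation to the span `h` -/
lemma localise (C Z d : ℝ) (hZ : 0 ≤ Z) (hd : 0 < d) (n h : ℕ) (s : ℝ) (hsn : 0 < s * n)
    (φ : ℝ → ℝ)
    (hφ : ∀ h' : ℕ, |U n s h' φ - U n s h φ| ≤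
      C * (s / Real.sqrt (s * n) + |(h' : ℝ) - h| / (s * n)) * Z) (hC : 0 ≤ C) :
    |∑ q ∈ Omn n, wtq n s q * (EQ.chi d (((sp q : ℝ) - h) / Real.sqrt (s * n)) * φ (ra n q)) -
      (∑ k ∈ range (2 * n + h + 1), EQ.chi d (((k : ℝ) - h) / Real.sqrt (s * n))) *
        U n s h φ| ≤
    (∑ k ∈ range (2 * n + h + 1), EQ.chi d (((k : ℝ) - h) / Real.sqrt (s * n))) *
      (C / Real.sqrt (s * n) * (s + d) * Z) := by
  have hr : 0 < Real.sqrt (s * n) := Real.sqrt_pos.2 hsn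
  rw [EQ.sum_group n (2 * n + h + 1) (by omega) s
    (fun k => EQ.chi d (((k : ℝ) - h) / Real.sqrt (s * n))) φ, sum_mul, sum_mul,
    ← sum_sub_distrib]
  refine (Finset.abs_sum_le_sum_abs _ _).trans (Finset.sum_le_sum fun k _ => ?_)
  rw [← mul_sub, abs_mul, abs_of_nonneg (EQ.chi_nonneg _ _)]
  by_cases hk : EQ.chi d (((k : ℝ) - h) / Real.sqrt (s * n)) = 0
  · rw [hk, zero_mul, zero_mul]
  refine mul_le_mul_of_nonneg_left ?_ (EQ.chi_nonneg _ _)
  refine (hφ k).trans ?_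
  have h1 := EQ.chi_supp d _ hd hk
  rw [abs_div, abs_of_pos hr, div_le_iff₀ hr] at h1
  have h2 : |(k : ℝ) - h| / (s * n) ≤ d / Real.sqrt (s * n) := by
    rw [div_le_div_iff₀ hsn hr]
    have h3 : Real.sqrt (s * n) * Real.sqrt (s * n) = s * n := Real.mul_self_sqrt hsn.le
    calc |(k : ℝ) - h| * Real.sqrt (s * n) ≤ (d * Real.sqrt (s * n)) * Real.sqrt (s * n) :=
          mul_le_mul_of_nonneg_right h1 hr.le
      _ = d * (s * n) := by rw [mul_assoc, h3]
  have h4 : C / Real.sqrt (s * n) * (s + d) =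
      C * (s / Real.sqrt (s * n) + d / Real.sqrt (s * n)) := by
    ring
  rw [h4]
  refine mul_le_mul_of_nonneg_right ?_ hZ
  refine mul_le_mul_of_nonneg_left ?_ hC
  linarith

end Main

end Pool.Agent.NSP.EQZ

namespace Pool.Agent.NSP

open Finset Filter Topology MeasureTheory
open Pool.Agent.Lib27 Pool.Agent.SapR Pool.Agent.Gap Pool.Agent.AreaLaw Pool.Agent.FL
open Pool.Agent.FS

/-- EQZ : equivalence of the ensembles, unbounded number of defects. -/
theorem t_EQZ (hL : LOCZ_Stmt) (hI : IND_Stmt) (hE : EXPZ_Stmt) (hLap : LAPZ_Stmt)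
    (hA : ARM_Stmt) (hZ : ZB_Stmt) (_hg : HG_Stmt) : EQZ_Stmt := by
  intro s h hs h0 hinf hC
  obtain ⟨c, hc, hlow⟩ := EQZ.lower hL hE hs h0 hinf hC
  refine ⟨hs, h0, hinf.eventually_ge_atTop 1, ⟨c, hc, hlow⟩, fun φ hφ1 hφL => ?_⟩
  obtain ⟨C, hC0, N, hN⟩ := hL.1
  have hZp := EQZ.Zpos hZ hs h0
  rw [Metric.tendsto_atTop]
  suffices H : ∀ ε : ℝ, 0 < ε → ∀ᶠ n : ℕ in atTop,
      |U n (s n) (h n) φ / U n (s n) (h n) (fun _ => 1) -
        (∑ q ∈ Omn n, wtq n (s n) q * φ (ra n q)) / Zq n (s n)| < ε by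
    intro ε hε
    obtain ⟨M, hM⟩ := eventually_atTop.1 (H ε hε)
    refine ⟨M, fun n hn => ?_⟩
    rw [Real.dist_eq, sub_zero]
    exact hM n hn
  intro ε hε
  obtain ⟨d, hd⟩ : ∃ d, d = min 1 (ε * c / (8 * C)) := ⟨_, rfl⟩
  have hd0 : 0 < d := by rw [hd]; positivity
  have hd1 : d ≤ 1 := by rw [hd]; exact min_le_left _ _
  have hd2 : 2 * C / c * d ≤ ε / 4 := by
    have : d ≤ ε * c / (8 * C) := by rw [hd]; exact min_le_right _ _
    calc 2 * C / c * d ≤ 2 * C / c * (ε * c / (8 * C)) :=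
          mul_le_mul_of_nonneg_left this (by positivity)
      _ = ε / 4 := by field_simp; norm_num
  have hind := EQZ.indep hI hE hLap hA hZ hs h0 hinf hC (EQ.chi d) φ (EQ.chi_continuous d)
    hφL.continuous (fun x => EQ.chi_abs d x hd0) hφ1
  have hind' : ∀ᶠ n : ℕ in atTop,
      |(∑ q ∈ Omn n, wtq n (s n) q *
        (EQ.chi d (((sp q : ℝ) - h n) / Real.sqrt (s n * n)) * φ (ra n q))) / Zq n (s n) -
      (∑ q ∈ Omn n, wtq n (s n) q *
        (EQ.chi d (((sp q : ℝ) - h n) / Real.sqrt (s n * n)))) / Zq n (s n) *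
      ((∑ q ∈ Omn n, wtq n (s n) q * φ (ra n q)) / Zq n (s n))| ≤
        ε * (c * d) / 16 := by
    have h1 := (Metric.tendsto_atTop.1 hind) (ε * (c * d) / 16) (by positivity)
    obtain ⟨M, hM⟩ := h1
    filter_upwards [eventually_ge_atTop M] with n hn
    have := hM n hn
    rw [Real.dist_eq, sub_zero] at this
    exact this.le
  have hsq' : ∀ᶠ n : ℕ in atTop, 2 * C / c * s n < ε / 4 := by
    have h1 := h0.const_mul (2 * C / c)
    rw [mul_zero] at h1
    exact h1.eventually (gt_mem_nhds (by positivity))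
  filter_upwards [hlow, hZp, hind', hsq', eventually_ge_atTop N, eventually_ge_atTop 1,
    hinf.eventually_ge_atTop 1, h0.eventually (gt_mem_nhds (by norm_num : (0 : ℝ) < 1 / 4))]
    with n h1 h2 h3 h4 h5 h6 h61 h62
  have hn1 : (1 : ℝ) ≤ n := by exact_mod_cast h6
  have hsn : 0 < s n * n := by linarith
  have hr : 0 < Real.sqrt (s n * n) := Real.sqrt_pos.2 hsn
  have hrn : Real.sqrt (s n * n) ≤ n := by
    rw [Real.sqrt_le_left (by linarith)]
    have := hs n
    nlinarith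
  obtain ⟨_, _, h7⟩ := hN n h5 (s n) h62.le h61
  have h8 := EQZ.localise C (Zq n (s n)) d h2.le hd0 n (h n) (s n) hsn φ
    (fun h' => h7 h' (h n) φ hφ1 hφL) hC0.le
  have h9 := EQZ.localise C (Zq n (s n)) d h2.le hd0 n (h n) (s n) hsn
    (fun _ => 1) (fun h' => h7 h' (h n) (fun _ => 1) (fun _ => by simp)
      (LipschitzWith.const' (1 : ℝ))) hC0.le
  have hE1 : |(∑ q ∈ Omn n, wtq n (s n) q * φ (ra n q)) / Zq n (s n)| ≤ 1 := by
    rw [abs_div, abs_of_pos h2, div_le_one h2]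
    refine (Finset.abs_sum_le_sum_abs _ _).trans ?_
    unfold Zq
    refine Finset.sum_le_sum fun q _ => ?_
    have h10 := EQ.wtq_nonneg n (s n) (hs n).le q
    rw [abs_mul, abs_of_nonneg h10]
    calc _ ≤ wtq n (s n) q * 1 := mul_le_mul_of_nonneg_left (hφ1 _) h10
      _ = _ := mul_one _
  simp only [mul_one] at h9
  have hs0 := hs n
  have h10 := EQ.compare c (C * (s n + d)) (Zq n (s n)) d
    (ε * (c * d) / 16) _ _ _ _ _ _ (C / Real.sqrt (s n * n) * (s n + d))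
    (Real.sqrt (s n * n)) hr hc h2 hd0 (EQZ.sum_chi d _ hd0 hd1 n (h n) hr hrn) (by ring)
    (by positivity) hE1 h8 h9 h3 h1
  refine h10.trans_lt ?_
  have h11 : 4 * (ε * (c * d) / 16) / (c * d) = ε / 4 := by
    field_simp
    norm_num
  have h12 : 2 * (C * (s n + d)) / c = 2 * C / c * s n + 2 * C / c * d := by ring
  rw [h11, h12]
  linarith

end Pool.Agent.NSP
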