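import Pool.Agent.NSP.Stmts
import Pool.Agent.Lib_helper74.FS.EXPM

/-!
# Project NSP (MP_f6626d_co), module EXPZ: exponential moments of the span
-/

set_option autoImplicit false

namespace Pool.Agent.NSP.EXPZ

open Finset Filter Topology MeasureTheory
open Pool.Agent.Lib27 Pool.Agent.SapR Pool.Agent.Gap Pool.Agent.AreaLaw Pool.Agent.FL
open Pool.Agent.FS

/-- change of the weight -/
lemma tilt (hg : HG_Stmt) (n : ℕ) (s u : ℝ) :
    ∑ q ∈ Omn n, wtq n s q * Real.exp (u * ((n : ℝ) - sp q)) = Zq n (s * Real.exp u) := by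
  unfold Zq
  refine Finset.sum_congr rfl fun q hq => ?_
  have h1 : sp q ≤ n := height_le hg n q hq
  have h2 : wtq n s q = s ^ (n - sp q) := rfl
  have h3 : wtq n (s * Real.exp u) q = (s * Real.exp u) ^ (n - sp q) := rfl
  rw [h2, h3, mul_pow, ← Real.exp_nat_mul, Nat.cast_sub h1]
  congr 2
  ring

/-- the sum with the exponential of the span, centred at `m` -/
lemma tilt_m (hg : HG_Stmt) (n : ℕ) (s u m : ℝ) :
    ∑ q ∈ Omn n, wtq n s q * Real.exp (-u * ((sp q : ℝ) - m)) =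
      Real.exp (-u * (n - m)) * Zq n (s * Real.exp u) := by
  rw [← tilt hg, Finset.mul_sum]
  refine Finset.sum_congr rfl fun q _ => ?_
  have : Real.exp (-u * ((sp q : ℝ) - m)) =
      Real.exp (-u * (n - m)) * Real.exp (u * ((n : ℝ) - sp q)) := by
    rw [← Real.exp_add]
    congr 1
    ring
  rw [this]
  ring

/-- Jensen -/
lemma jensen (hg : HG_Stmt) (n : ℕ) (s u m : ℝ) (hs : 0 < s) (hu : |u| ≤ 1 / 2)
    (h : CenQ n s m) :
    Real.exp (-u * (n - m)) * Zq n s ≤ 2 * Zq n (s * Real.exp (-u)) := by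
  have h0 := tilt_m hg n s (-u) m
  have hw : ∀ q, 0 < wtq n s q := fun q => pow_pos hs _
  have h1 : ∑ q ∈ Omn n, wtq n s q * (1 + u * ((sp q : ℝ) - m)) ≤
      ∑ q ∈ Omn n, wtq n s q * Real.exp (- -u * ((sp q : ℝ) - m)) := by
    refine Finset.sum_le_sum fun q _ => ?_
    refine mul_le_mul_of_nonneg_left ?_ (hw q).le
    have := Real.add_one_le_exp (- -u * ((sp q : ℝ) - m))
    linarith [this, show - -u * ((sp q : ℝ) - m) = u * ((sp q : ℝ) - m) by ring]
  have h2 : ∑ q ∈ Omn n, wtq n s q * (1 + u * ((sp q : ℝ) - m)) =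
      Zq n s + u * ∑ q ∈ Omn n, wtq n s q * ((sp q : ℝ) - m) := by
    unfold Zq
    rw [Finset.mul_sum, ← Finset.sum_add_distrib]
    refine Finset.sum_congr rfl fun q _ => ?_
    ring
  have hZ : 0 ≤ Zq n s := Finset.sum_nonneg fun q _ => (hw q).le
  have h3 : |u * ∑ q ∈ Omn n, wtq n s q * ((sp q : ℝ) - m)| ≤ 1 / 2 * Zq n s := by
    rw [abs_mul]
    exact mul_le_mul hu h (abs_nonneg _) (by norm_num)
  have h4 := (abs_le.1 h3).1
  rw [h2, h0] at h1
  have h5 : 1 / 2 * Zq n s ≤ Real.exp (- -u * (n - m)) * Zq n (s * Real.exp (-u)) := by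
    linarith
  have h6 := mul_le_mul_of_nonneg_left h5 (Real.exp_pos (-u * (n - m))).le
  have h7 : Real.exp (-u * (n - m)) *
      (Real.exp (- -u * (n - m)) * Zq n (s * Real.exp (-u))) = Zq n (s * Real.exp (-u)) := by
    rw [← mul_assoc, ← Real.exp_add]
    rw [show -u * (n - m) + - -u * (n - m) = 0 by ring, Real.exp_zero, one_mul]
  rw [h7] at h6
  linarith

/-- comparison of the total weights from the bounds of `ZB` -/
lemma ratio {C S a b X Y : ℝ} (hC : 0 < C) (hS : 0 < S) (ha : 0 < a) (hb : 0 < b)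
    (h1 : S * a * X ≤ C) (h2 : C⁻¹ ≤ S * b * Y) {K : ℝ} (hK : b ≤ K * a) (hY : 0 ≤ Y) :
    X ≤ C ^ 2 * K * Y := by
  have hSa : 0 < S * a := mul_pos hS ha
  refine le_of_mul_le_mul_left ?_ hSa
  refine h1.trans ?_
  have h3 : 1 ≤ C * (S * b * Y) := by
    have := mul_le_mul_of_nonneg_left h2 hC.le
    rwa [mul_inv_cancel₀ hC.ne'] at this
  have h4 : C * (S * b * Y) ≤ C * (S * (K * a) * Y) := by gcongr
  have h5 : C * 1 ≤ C * (C * (S * (K * a) * Y)) :=
    mul_le_mul_of_nonneg_left (h3.trans h4) hC.le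
  calc C = C * 1 := (mul_one C).symm
    _ ≤ _ := h5
    _ = _ := by ring

lemma inv_pow_le {x : ℝ} (hx0 : 0 ≤ x) (hx : x ≤ 1 / 2) (n : ℕ) :
    1 ≤ Real.exp (2 * x * n) * (1 - x) ^ n := by
  have h1 : 1 ≤ Real.exp (2 * x) * (1 - x) := by
    have h2 := Real.add_one_le_exp (2 * x)
    have h3 : 0 ≤ 1 - x := by linarith
    have h4 := mul_le_mul_of_nonneg_right h2 h3
    nlinarith
  have h5 := one_le_pow₀ h1 (n := n)
  rw [mul_pow, ← Real.exp_nat_mul] at h5
  rwa [show 2 * x * n = n * (2 * x) by ring]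

end Pool.Agent.NSP.EXPZ

namespace Pool.Agent.NSP

open Finset Filter Topology MeasureTheory
open Pool.Agent.Lib27 Pool.Agent.SapR Pool.Agent.Gap Pool.Agent.AreaLaw Pool.Agent.FL
open Pool.Agent.FS
open EXPZ

theorem t_EXPZ (hR : RHOZ_Stmt) (hZ : ZB_Stmt) (hg : HG_Stmt) : EXPZ_Stmt := by
  obtain ⟨A, c, s0, hA, hc, hs0, hs04, hR⟩ := hR
  obtain ⟨C, θ, hC, hθ, hθ1, N, hN⟩ := hZ (1 / 2) (by norm_num) (by norm_num)
  have hZnn : ∀ (n : ℕ) (s : ℝ), 0 < s → 0 ≤ Zq n s := fun n s hs =>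
    Finset.sum_nonneg fun q _ => pow_nonneg hs.le _
  refine ⟨s0, hs0, ?_, ?_⟩
  · intro t M hM
    set M' : ℝ := M * Real.exp |t| with hM'
    have hM'0 : 0 < M' := by positivity
    have hMM : M ≤ M' := le_mul_of_one_le_right hM.le (Real.one_le_exp (abs_nonneg t))
    refine ⟨C ^ 2 * Real.exp (8 * A * M'), by positivity,
      max (max N 6) (⌈M' / s0⌉₊ + ⌈8 * A * M'⌉₊ + 1), ?_⟩
    intro n hn s hs hsn
    have hnN : N ≤ n := (le_max_left _ _).trans ((le_max_left _ _).trans hn)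
    have hn6 : 6 ≤ n := (le_max_right _ _).trans ((le_max_left _ _).trans hn)
    have hnb : ⌈M' / s0⌉₊ + ⌈8 * A * M'⌉₊ + 1 ≤ n := (le_max_right _ _).trans hn
    have hn0 : (0 : ℝ) < n := by exact_mod_cast (by omega : 0 < n)
    have hb1 : M' / s0 ≤ n := by
      have h1 := Nat.le_ceil (M' / s0)
      have h2 : ((⌈M' / s0⌉₊ : ℕ) : ℝ) ≤ n := by exact_mod_cast (by omega)
      linarith
    have hb2 : 8 * A * M' ≤ n := by
      have h1 := Nat.le_ceil (8 * A * M')
      have h2 : ((⌈8 * A * M'⌉₊ : ℕ) : ℝ) ≤ n := by exact_mod_cast (by omega)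
      linarith
    set s' : ℝ := s * Real.exp t with hs'
    have hs'0 : 0 < s' := by positivity
    have hs'n : s' * n ≤ M' := by
      have h1 : Real.exp t ≤ Real.exp |t| := Real.exp_le_exp.2 (le_abs_self t)
      calc s' * n = (s * n) * Real.exp t := by rw [hs']; ring
        _ ≤ M * Real.exp |t| := mul_le_mul hsn h1 (Real.exp_pos t).le hM.le
    have hss0 : ∀ x : ℝ, x * n ≤ M' → x ≤ s0 := by
      intro x hx
      rw [div_le_iff₀ hs0] at hb1
      have h1 : x * n ≤ s0 * n := by linarith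
      exact le_of_mul_le_mul_right h1 hn0
    have hsS := hss0 s (hsn.trans hMM)
    have hsS' := hss0 s' hs'n
    obtain ⟨ρ, hcr, -, -, -, hZl, -⟩ := hN n hnN s hs (by linarith)
    obtain ⟨ρ', hcr', -, -, -, -, hZu'⟩ := hN n hnN s' hs'0 (by linarith)
    obtain ⟨-, hρ4, -⟩ := hR n s ρ hn6 hs hsS hcr
    obtain ⟨hρl, -, -⟩ := hR n s' ρ' hn6 hs'0 hsS' hcr'
    have hρ0 := hcr.1
    have hρ'0 := hcr'.1
    have hsc0 : 0 < sc n := by unfold sc; positivity
    rw [tilt hg]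
    refine ratio hC hsc0 (pow_pos hρ'0 n) (pow_pos hρ0 n) hZu' hZl ?_ (hZnn n s hs)
    -- `ρ ^ n ≤ exp (8 A M') * ρ' ^ n`
    set x : ℝ := 4 * A * s' with hx
    have hx0 : 0 ≤ x := by positivity
    have hx2 : x ≤ 1 / 2 := by
      have h1 : x * n ≤ 1 / 2 * n := by
        have : x * n = 4 * A * (s' * n) := by rw [hx]; ring
        rw [this]
        have h2 : 4 * A * (s' * n) ≤ 4 * A * M' := by gcongr
        linarith
      exact le_of_mul_le_mul_right h1 hn0
    have h1 := inv_pow_le hx0 hx2 n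
    have h2 : ρ ^ n ≤ (1 / 4) ^ n := pow_le_pow_left₀ hρ0.le hρ4 n
    have h3 : (1 / 4 * (1 - x)) ^ n ≤ ρ' ^ n := by
      refine pow_le_pow_left₀ (by nlinarith) ?_ n
      rw [hx]
      linarith
    have h4 : Real.exp (2 * x * n) ≤ Real.exp (8 * A * M') := by
      apply Real.exp_le_exp.2
      have : 2 * x * n = 8 * A * (s' * n) := by rw [hx]; ring
      rw [this]
      gcongr
    have h5 : 0 ≤ (1 - x) ^ n := pow_nonneg (by linarith) n
    calc ρ ^ n ≤ (1 / 4) ^ n * 1 := by rw [mul_one]; exact h2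
      _ ≤ (1 / 4) ^ n * (Real.exp (2 * x * n) * (1 - x) ^ n) := by gcongr
      _ = Real.exp (2 * x * n) * (1 / 4 * (1 - x)) ^ n := by rw [mul_pow]; ring
      _ ≤ Real.exp (8 * A * M') * ρ' ^ n :=
          mul_le_mul h4 h3 (pow_nonneg (by nlinarith) n) (Real.exp_pos _).le
  · intro t
    refine ⟨2 * (C ^ 4 * Real.exp (A * t ^ 2)), 4 * t ^ 2 + 1, by positivity, by positivity,
      max N 6, ?_⟩
    intro n hn s hss hsn m hcen
    have hnN : N ≤ n := (le_max_left _ _).trans hn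
    have hn6 : 6 ≤ n := (le_max_right _ _).trans hn
    have hn0 : (0 : ℝ) < n := by exact_mod_cast (by omega : 0 < n)
    have hsn0 : 0 < s * n := by nlinarith [sq_nonneg t]
    have hs : 0 < s := pos_of_mul_pos_left hsn0 hn0.le
    have hsq : 0 < Real.sqrt (s * n) := Real.sqrt_pos.2 hsn0
    set u : ℝ := -(t / Real.sqrt (s * n)) with hu
    have hu2 : s * n * u ^ 2 = t ^ 2 := by
      rw [hu, neg_sq, div_pow, Real.sq_sqrt hsn0.le]
      field_simp
    have hu12 : |u| ≤ 1 / 2 := by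
      rw [hu, abs_neg, abs_div, abs_of_pos hsq, div_le_iff₀ hsq]
      have h1 : 2 * |t| ≤ Real.sqrt (s * n) := by
        apply Real.le_sqrt_of_sq_le
        rw [mul_pow, sq_abs]
        linarith
      linarith
    have hu1 : |u| ≤ 1 := by linarith
    have hub := abs_le.1 hu12
    have hexp : ∀ v : ℝ, v ≤ 1 / 2 → s * Real.exp v ≤ 1 / 2 := by
      intro v hv
      have h1 : Real.exp v ≤ Real.exp (1 / 2) := Real.exp_le_exp.2 hv
      have h2 : Real.exp (1 / 2) ≤ 2 := by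
        have h3 : Real.exp (1 / 2) ^ 2 ≤ 2 ^ 2 := by
          rw [← Real.exp_nat_mul]
          norm_num
          linarith [Real.exp_one_lt_d9]
        exact le_of_sq_le_sq h3 (by norm_num)
      have h4 : s * Real.exp v ≤ 1 / 4 * 2 :=
        mul_le_mul (by linarith) (h1.trans h2) (Real.exp_pos v).le (by norm_num)
      linarith
    obtain ⟨ρ, hcr, -, -, -, hZl, -⟩ := hN n hnN s hs (by linarith)
    obtain ⟨ρ₁, hcr1, -, -, -, -, hZu1⟩ := hN n hnN (s * Real.exp u) (by positivity)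
      (hexp u hub.2)
    obtain ⟨ρ₂, hcr2, -, -, -, -, hZu2⟩ := hN n hnN (s * Real.exp (-u)) (by positivity)
      (hexp (-u) (by linarith [hub.1]))
    obtain ⟨-, -, -, -, hd⟩ := hR n s ρ hn6 hs hss hcr
    have hd := hd u ρ₁ ρ₂ hu1 hcr1 hcr2
    have hρ0 := hcr.1
    have hρ10 := hcr1.1
    have hρ20 := hcr2.1
    have hsc0 : 0 < sc n := by unfold sc; positivity
    set Z0 := Zq n s with hZ0
    set Z1 := Zq n (s * Real.exp u) with hZ1
    set Z2 := Zq n (s * Real.exp (-u)) with hZ2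
    have hZ1n : 0 ≤ Z1 := hZnn n _ (by positivity)
    have hZ2n : 0 ≤ Z2 := hZnn n _ (by positivity)
    have hZ0p : 0 < Z0 := by
      have h1 : 0 < C⁻¹ := by positivity
      have h2 : 0 < sc n * ρ ^ n * Z0 := lt_of_lt_of_le h1 hZl
      exact pos_of_mul_pos_right h2 (by positivity)
    have hE : ∑ q ∈ Omn n, wtq n s q *
        Real.exp (t * (((sp q : ℝ) - m) / Real.sqrt (s * n))) =
        Real.exp (-u * (n - m)) * Z1 := by
      rw [← tilt_m hg n s u m]
      refine Finset.sum_congr rfl fun q _ => ?_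
      congr 2
      rw [hu]
      ring
    have hJ := jensen hg n s u m hs hu12 hcen
    -- second difference
    have hK : (ρ ^ n) ^ 2 ≤ Real.exp (A * t ^ 2) * (ρ₁ ^ n * ρ₂ ^ n) := by
      have h1 := (abs_le.1 hd).1
      have h2 : Real.exp (-(A * s * u ^ 2)) ≤ ρ₁ / ρ * (ρ₂ / ρ) := by
        calc Real.exp (-(A * s * u ^ 2)) ≤
            Real.exp (Real.log (ρ₁ / ρ) + Real.log (ρ₂ / ρ)) := Real.exp_le_exp.2 h1
          _ = _ := by
            rw [Real.exp_add, Real.exp_log (div_pos hρ10 hρ0), Real.exp_log (div_pos hρ20 hρ0)]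
      have h3 : ρ₁ / ρ * (ρ₂ / ρ) = (ρ₁ * ρ₂) / ρ ^ 2 := by field_simp
      rw [h3, le_div_iff₀ (by positivity)] at h2
      have h4 := mul_le_mul_of_nonneg_left h2 (Real.exp_pos (A * s * u ^ 2)).le
      rw [← mul_assoc, ← Real.exp_add, add_neg_cancel, Real.exp_zero, one_mul] at h4
      have h5 := pow_le_pow_left₀ (by positivity) h4 n
      rw [mul_pow, ← Real.exp_nat_mul, mul_pow] at h5
      have h6 : (n : ℝ) * (A * s * u ^ 2) = A * t ^ 2 := by
        rw [← hu2]; ring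
      rw [h6] at h5
      calc (ρ ^ n) ^ 2 = (ρ ^ 2) ^ n := by rw [← pow_mul, ← pow_mul, mul_comm]
        _ ≤ _ := h5
    have hprod : Z1 * Z2 ≤ C ^ 4 * Real.exp (A * t ^ 2) * Z0 ^ 2 := by
      have h1 : sc n ^ 2 * (ρ₁ ^ n * ρ₂ ^ n) * (Z1 * Z2) ≤ C ^ 2 := by
        have h2 : (sc n * ρ₁ ^ n * Z1) * (sc n * ρ₂ ^ n * Z2) ≤ C * C :=
          mul_le_mul hZu1 hZu2 (by positivity) hC.le
        calc _ = (sc n * ρ₁ ^ n * Z1) * (sc n * ρ₂ ^ n * Z2) := by ring
          _ ≤ C * C := h2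
          _ = C ^ 2 := by ring
      have h3 : (C ^ 2)⁻¹ ≤ sc n ^ 2 * (ρ ^ n) ^ 2 * Z0 ^ 2 := by
        have h4 := pow_le_pow_left₀ (by positivity) hZl 2
        calc (C ^ 2)⁻¹ = C⁻¹ ^ 2 := by rw [inv_pow]
          _ ≤ _ := h4
          _ = _ := by ring
      have h5 := ratio (by positivity : 0 < C ^ 2) (by positivity : 0 < sc n ^ 2)
        (by positivity : 0 < ρ₁ ^ n * ρ₂ ^ n) (by positivity : 0 < (ρ ^ n) ^ 2) h1 h3 hK
        (sq_nonneg Z0)
      calc _ ≤ _ := h5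
        _ = _ := by ring
    rw [hE]
    have hex : 0 < Real.exp (-u * (n - m)) := Real.exp_pos _
    refine le_of_mul_le_mul_left ?_ hZ0p
    calc Z0 * (Real.exp (-u * (n - m)) * Z1) = (Real.exp (-u * (n - m)) * Z0) * Z1 := by ring
      _ ≤ (2 * Z2) * Z1 := mul_le_mul_of_nonneg_right hJ hZ1n
      _ = 2 * (Z1 * Z2) := by ring
      _ ≤ 2 * (C ^ 4 * Real.exp (A * t ^ 2) * Z0 ^ 2) := by linarith
      _ = Z0 * (2 * (C ^ 4 * Real.exp (A * t ^ 2)) * Z0) := by ring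

end Pool.Agent.NSP
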