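import Pool.Agent.NSP.Stmts

/-!
# Module FINZ: the law for regular sequences
-/

set_option autoImplicit false

namespace Pool.Agent.NSP

open Finset Filter Topology MeasureTheory
open Pool.Agent.Lib27 Pool.Agent.SapR Pool.Agent.Gap Pool.Agent.AreaLaw Pool.Agent.FL
open Pool.Agent.FS

open Classical in
theorem t_FINZ (hCDF : CDF_Stmt) (hS : SAPZ_Stmt) : FINZ_Stmt := by
  intro μ hμ hF s h hR b x hx
  obtain ⟨s1, s2, s3, c, hc, s4⟩ := hS s h hR b
  set f : ℕ → ℝ := fun n => -Real.log (s n) with hfdef
  have hf1 : ∀ᶠ n : ℕ in atTop, 1 ≤ f n := by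
    have h1 : ∀ᶠ n : ℕ in atTop, s n < Real.exp (-1) :=
      hR.lim.eventually (gt_mem_nhds (Real.exp_pos _))
    filter_upwards [h1] with n hn
    have h2 := Real.log_lt_log (hR.pos n) hn
    rw [Real.log_exp] at h2
    show 1 ≤ -Real.log (s n)
    linarith
  have hZ : ∀ᶠ n : ℕ in atTop, 0 < forceZ (f n) n := by
    filter_upwards [s4] with n hn
    rcases (forceZ_nonneg (f n) n).lt_or_eq with h2 | h2
    · exact h2
    · have h3 : forceZ (-Real.log (s n)) n = 0 := h2.symm
      rw [h3, div_zero] at hn
      linarith [hn.1]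
  have key := hCDF μ hμ (fun n => Fin (2 * n) → Fin 4) (fun n => Fin (2 * n) → Fin 4)
    (fun n => SAP n) (fun n => cls n b (h n))
    (fun n w => Real.exp (f n * span n w) / forceZ (f n) n) (fun n w => 2 * area n w / sc n)
    (fun n _ => 1 / ((cls n b (h n)).card : ℝ)) (fun n w => 2 * area n w / sc n)
    (fun n w => div_nonneg (Real.exp_pos _).le (forceZ_nonneg _ _)) (fun n w => by positivity)
    (fun n w => div_nonneg (mul_nonneg (by norm_num) (area_nonneg n w)) (sc_nonneg n))
    (fun n w => div_nonneg (mul_nonneg (by norm_num) (area_nonneg n w)) (sc_nonneg n))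
    ?_ ?_ ?_ ?_ ?_ ?_ x hx
  · refine key.congr' ?_
    filter_upwards [s1, eventually_ge_atTop 1] with n h2 h3
    rw [areaCdf_eq n h3 (cls n b (h n)) h2 x]
  · filter_upwards [hZ] with n hn
    rw [← Finset.sum_div]
    exact div_self hn.ne'
  · filter_upwards [s1] with n hn
    have : (0 : ℝ) < (cls n b (h n)).card := by exact_mod_cast hn
    rw [Finset.sum_const, nsmul_eq_mul]
    field_simp
  · refine ⟨c, c⁻¹, hc, ?_⟩
    filter_upwards [s4] with n hn
    have e1 : ∑ w ∈ SAP n, Real.exp (f n * span n w) / forceZ (f n) n * (2 * area n w / sc n) =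
        (∑ w ∈ SAP n, Real.exp (f n * span n w) * (2 * area n w / sc n)) / forceZ (f n) n := by
      rw [Finset.sum_div]
      refine Finset.sum_congr rfl fun w _ => ?_
      ring
    rw [e1]
    exact hn
  · refine s3.congr fun n => ?_
    unfold cls
    congr 1
    · rw [Finset.sum_div]
      refine Finset.sum_congr rfl fun w _ => ?_
      ring
    · rw [Finset.sum_div]
      refine Finset.sum_congr rfl fun w _ => ?_
      ring
  · intro φ h2 h3
    refine (s2 φ h2 h3).congr fun n => ?_
    unfold cls
    congr 1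
    · rw [Finset.sum_div]
      refine Finset.sum_congr rfl fun w _ => ?_
      ring
    · rw [Finset.sum_div]
      refine Finset.sum_congr rfl fun w _ => ?_
      ring
  · intro y hy
    refine (hF 1 one_pos (fun n => max 1 (f n)) (fun n => le_max_left _ _) y hy).congr' ?_
    filter_upwards [hZ, hf1, eventually_ge_atTop 1] with n h2 h4 h3
    have h5 : max 1 (f n) = f n := max_eq_right h4
    rw [h5]
    exact forceCdf_eq' (f n) n h3 h2 y

end Pool.Agent.NSP
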