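import Pool.Agent.NSP.StmtsM

/-!
# Project NSP (MP_f6626d_co), module FSM: moments, old regime
-/

set_option autoImplicit false

namespace Pool.Agent.NSP

open Finset Filter Topology MeasureTheory
open Pool.Agent.Lib27 Pool.Agent.SapR Pool.Agent.Gap Pool.Agent.AreaLaw Pool.Agent.FL
open Pool.Agent.FS
open Pool.Agent.KCS (airyMoment)
open Pool.Agent.KCC (areaMoment)

namespace FSM

/-- the moments in terms of the rescaled area -/
lemma areaMoment_eq (n : ℕ) (hn : 1 ≤ n) (F : Finset (Fin (2 * n) → Fin 4)) (r : ℕ) :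
    areaMoment n F r = ((∑ w ∈ F, (2 * area n w / sc n) ^ r) / (F.card : ℝ)) /
      ((∑ w ∈ F, 2 * area n w / sc n) / (F.card : ℝ)) ^ r := by
  have hs := sc_pos hn
  have hk : (0 : ℝ) < (2 / sc n) ^ r := by positivity
  unfold areaMoment
  have e1 : ∑ w ∈ F, (2 * area n w / sc n) ^ r = (2 / sc n) ^ r * ∑ w ∈ F, area n w ^ r := by
    rw [Finset.mul_sum]
    refine Finset.sum_congr rfl fun w _ => ?_
    rw [← mul_pow]
    congr 1
    ring
  have e2 : ∑ w ∈ F, 2 * area n w / sc n = (2 / sc n) * ∑ w ∈ F, area n w := by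
    rw [Finset.mul_sum]
    refine Finset.sum_congr rfl fun w _ => ?_
    ring
  have e3 : (2 / sc n) ^ r * (∑ w ∈ F, area n w ^ r) / (F.card : ℝ) =
      (2 / sc n) ^ r * ((∑ w ∈ F, area n w ^ r) / (F.card : ℝ)) := mul_div_assoc _ _ _
  have e4 : (2 / sc n) * (∑ w ∈ F, area n w) / (F.card : ℝ) =
      (2 / sc n) * ((∑ w ∈ F, area n w) / (F.card : ℝ)) := mul_div_assoc _ _ _
  rw [e1, e2, e3, e4, mul_pow, mul_div_mul_left _ _ hk.ne']

open Classical in
/-- convergence of the moments for centered sequences -/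
theorem conv_mom (hCDF : CDF_Stmt) (hSAPC : SAPC_Stmt) (hCLM : CLM_Stmt) (hCM : CDFM_Stmt)
    (μ : Measure ℝ) (hμ : IsProbabilityMeasure μ) (hF : FORCE_Stmt μ)
    (hint : ∀ r : ℕ, Integrable (fun x : ℝ => x ^ r) μ ∧ ∫ x, x ^ r ∂μ = airyMoment r)
    (f0 f1 : ℝ) (h0 : 0 < f0) (h1 : f0 ≤ f1)
    (f : ℕ → ℝ) (h : ℕ → ℕ) (hf : ∀ n, f0 ≤ f n ∧ f n ≤ f1)
    (hcen : ∀ᶠ n in atTop, Cen n (f n) (h n)) (b : Bool) (r : ℕ) :
    Tendsto (fun n : ℕ => areaMoment n (cls n b (h n)) r) atTop (𝓝 (airyMoment r)) := by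
  obtain ⟨s1, -, s3, c, hc, s4⟩ := hSAPC f0 f1 h0 h1 f h hf hcen b
  have s1' : ∀ᶠ n in atTop, 0 < (cls n b (h n)).card := s1
  -- the class means of the rescaled area are bounded from below
  have hlow : ∀ᶠ n : ℕ in atTop, c / 2 ≤
      (∑ s ∈ cls n b (h n), 2 * area n s / sc n) / ((cls n b (h n)).card : ℝ) := by
    have h2 : ∀ᶠ n : ℕ in atTop, -(c / 2) <
        (∑ s ∈ cls n b (h n), 2 * area n s / sc n) / ((cls n b (h n)).card : ℝ) -
        (∑ s ∈ SAP n, Real.exp (f n * span n s) * (2 * area n s / sc n)) / forceZ (f n) n :=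
      s3.eventually_const_lt (by linarith)
    filter_upwards [h2, s4] with n h3 h4
    linarith [h4.1]
  have hpos : ∀ᶠ n in atTop, 0 < (cls n b (h n)).card ∧ 0 < ∑ w ∈ cls n b (h n), area n w := by
    filter_upwards [s1', hlow, eventually_ge_atTop 1] with n h2 h3 h4
    refine ⟨h2, ?_⟩
    rcases (Finset.sum_nonneg fun w (_ : w ∈ cls n b (h n)) => area_nonneg n w).lt_or_eq
      with h5 | h5
    · exact h5
    · exfalso
      have e2 : ∑ w ∈ cls n b (h n), 2 * area n w / sc n =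
          (2 / sc n) * ∑ w ∈ cls n b (h n), area n w := by
        rw [Finset.mul_sum]
        refine Finset.sum_congr rfl fun w _ => ?_
        ring
      rw [e2, ← h5, mul_zero, zero_div] at h3
      linarith
  refine hCM μ airyMoment hμ hint (fun n => cls n b (h n)) hpos ?_ ?_ r
  · intro x hx
    exact conv_cls hCDF hSAPC μ hμ hF f0 f1 h0 h1 f h hf hcen b x hx
  · intro k
    obtain ⟨C, hC⟩ := hCLM f0 f1 h0 h1 f h hf hcen b k
    refine ⟨max C 0 / (c / 2) ^ k, ?_⟩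
    filter_upwards [hC, hlow, eventually_ge_atTop 1] with n h2 h3 h4
    rw [areaMoment_eq n h4]
    have hc2 : 0 < (c / 2) ^ k := by positivity
    exact div_le_div₀ (le_max_right _ _) (h2.trans (le_max_left _ _)) hc2
      (pow_le_pow_left₀ (by positivity) h3 k)

end FSM

open Classical in
theorem t_FSM (hCH : CHOICE_Stmt) (hS : SAPC_Stmt) (hCDF : CDF_Stmt) (hCLM : CLM_Stmt)
    (hCM : CDFM_Stmt) (hD : DIAGM_Stmt) : FSM_Stmt := by
  intro μ hμ hF hint
  -- the admissible pairs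
  set ok : ℝ → ℕ → ℕ → Prop := fun e n h =>
    (((SAP n).filter (fun s => h ≤ span n s)).card : ℝ) ≤
        Real.exp (-(e * n)) * (SAP n).card ∧ (h : ℝ) ≤ (1 - e) * n with hok
  have hanti : ∀ (e e' : ℝ) (n h : ℕ), e' ≤ e → ok e n h → ok e' n h := by
    intro e e' n h he ⟨h1, h2⟩
    have hn : (0 : ℝ) ≤ n := Nat.cast_nonneg n
    refine ⟨h1.trans (mul_le_mul_of_nonneg_right (Real.exp_le_exp.2 ?_) (Nat.cast_nonneg _)),
      h2.trans ?_⟩
    · nlinarith
    · nlinarith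
  have huni : ∀ b : Bool, ∀ e : ℝ, 0 < e → ∀ h : ℕ → ℕ, ∀ r : ℕ, ∀ d : ℝ, 0 < d →
      ∀ᶠ n in atTop, ok e n (h n) →
        |areaMoment n (cls n b (h n)) r - airyMoment r| ≤ d := by
    intro b e he h r d hd
    obtain ⟨f1, hf1, N, hN⟩ := hCH e he
    have hex : ∀ n : ℕ, ∃ (f : ℝ) (k : ℕ), (e / 2 ≤ f ∧ f ≤ f1) ∧ (N ≤ n → Cen n f k) ∧
        (N ≤ n → ok e n (h n) → k = h n) := by
      intro n
      by_cases hn : N ≤ n ∧ ok e n (h n)
      · obtain ⟨f, g1, g2, g3⟩ := hN n hn.1 (h n) hn.2.1 hn.2.2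
        exact ⟨f, h n, ⟨g1, g2⟩, fun _ => g3, fun _ _ => rfl⟩
      · obtain ⟨k, hk⟩ := exists_cen n (e / 2)
        exact ⟨e / 2, k, ⟨le_rfl, hf1⟩, fun _ => hk, fun g1 g2 => absurd ⟨g1, g2⟩ hn⟩
    choose f k g1 g2 g3 using hex
    have hcen : ∀ᶠ n in atTop, Cen n (f n) (k n) := by
      filter_upwards [eventually_ge_atTop N] with n hn using g2 n hn
    have hconv := FSM.conv_mom hCDF hS hCLM hCM μ hμ hF hint (e / 2) f1 (by linarith) hf1
      f k g1 hcen b r
    obtain ⟨N', hN'⟩ := Metric.tendsto_atTop.1 hconv d hd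
    filter_upwards [eventually_ge_atTop N, eventually_ge_atTop N'] with n hn hn' hokn
    have e1 := hN' n hn'
    rw [g3 n hn hokn, Real.dist_eq] at e1
    exact e1.le
  obtain ⟨e1, he1, hl1, hc1⟩ := hD ok (fun r n h => areaMoment n (cls n true h) r) airyMoment
    hanti (huni true)
  obtain ⟨e2, he2, hl2, hc2⟩ := hD ok (fun r n h => areaMoment n (cls n false h) r) airyMoment
    hanti (huni false)
  refine ⟨fun n => max (e1 n) (e2 n), fun n => lt_max_of_lt_left (he1 n), ?_, ?_⟩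
  · have := hl1.max hl2
    simpa using this
  · intro h hh b r
    cases b
    · exact hc2 h (by
        filter_upwards [hh] with n hn using hanti _ _ _ _ (le_max_right _ _) hn) r
    · exact hc1 h (by
        filter_upwards [hh] with n hn using hanti _ _ _ _ (le_max_left _ _) hn) r

end Pool.Agent.NSP
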