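import Pool.Agent.NSP.Stmts
import Pool.Agent.Lib_helper74.FS.KBIG

/-!
# NSP_KBGZ: skeletons with few tokens are negligible (small weights)
-/

set_option autoImplicit false

namespace Pool.Agent.NSP

open Finset Filter Topology MeasureTheory
open Pool.Agent.Lib27 Pool.Agent.SapR Pool.Agent.Gap Pool.Agent.AreaLaw Pool.Agent.FL
open Pool.Agent.FS
open Pool.Agent.FS.KBIG (pieces caps eventually_small)

theorem t_KBGZ (hZ : ZB_Stmt) : KBGZ_Stmt := by
  obtain ⟨C, θ, hC, hθ, hθ1, N, hN⟩ := hZ (1 / 4) (by norm_num) (by norm_num)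
  -- the parameters
  set θ' : ℝ := (1 + θ) / 2 with hθ'def
  have hθ' : 0 < θ' := by rw [hθ'def]; linarith
  have hθ'1 : θ' < 1 := by rw [hθ'def]; linarith
  have hθθ' : θ < θ' := by rw [hθ'def]; linarith
  set S : ℝ := ∑' m : ℕ, (m : ℝ) * θ' ^ m with hSdef
  have hS : 0 ≤ S := tsum_nonneg fun m => by positivity
  set δ : ℝ := (1 / 2) * (1 / 100) ^ 4 with hδdef
  have hδ : 0 < δ := by rw [hδdef]; positivity
  set κ : ℝ := min (Real.log 2) (min (Real.log (θ' / θ)) (δ / (C * S + 1))) with hκdef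
  have hlog : 0 < Real.log (θ' / θ) := Real.log_pos (by rw [one_lt_div hθ]; exact hθθ')
  have hκ : 0 < κ := lt_min (Real.log_pos (by norm_num)) (lt_min hlog (by positivity))
  have hκ2 : Real.exp κ ≤ 2 := by
    calc Real.exp κ ≤ Real.exp (Real.log 2) := Real.exp_le_exp.mpr (min_le_left _ _)
      _ = 2 := Real.exp_log (by norm_num)
  have hle : Real.exp κ * θ ≤ θ' := by
    have h1 : Real.exp κ ≤ θ' / θ := by
      rw [← Real.exp_log (show 0 < θ' / θ by positivity)]
      exact Real.exp_le_exp.mpr ((min_le_right _ _).trans (min_le_left _ _))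
    calc Real.exp κ * θ ≤ θ' / θ * θ := mul_le_mul_of_nonneg_right h1 hθ.le
      _ = θ' := by field_simp
  have hκS : C * κ * S ≤ δ := by
    have h1 : κ ≤ δ / (C * S + 1) := (min_le_right _ _).trans (min_le_right _ _)
    have h2 : 0 < C * S + 1 := by positivity
    calc C * κ * S = κ * (C * S) := by ring
      _ ≤ δ / (C * S + 1) * (C * S) := mul_le_mul_of_nonneg_right h1 (by positivity)
      _ ≤ δ / (C * S + 1) * (C * S + 1) := mul_le_mul_of_nonneg_left (by linarith) (by positivity)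
      _ = δ := by field_simp
  set C' : ℝ := C * (1 - θ')⁻¹ with hC'def
  obtain ⟨N', hN'⟩ := eventually_small (8 * C' ^ 2 * C) (κ / 2) (by positivity)
  refine ⟨κ / 4, by positivity, max 6 (max N N'), le_max_left _ _, ?_⟩
  intro n hn s hs hss1 k σ hσ
  have hnN : N ≤ n := (le_max_left N N').trans ((le_max_right _ _).trans hn)
  have hnN' : N' ≤ n := (le_max_right N N').trans ((le_max_right _ _).trans hn)
  obtain ⟨rho, hcrit, htails, hr1, hr2, hZ1, hZ2⟩ := hN n hnN s hs hss1
  have hrho := hcrit.1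
  have hp := pieces hC hθ hκ hcrit htails hθ' hθ'1 hle
  obtain ⟨hc0, hc1⟩ := caps hs hC hθ hcrit htails hθ' hθ'1 hle
  set rho' : ℝ := rho * Real.exp κ with hrho'def
  have hrho' : 0 < rho' := by positivity
  have hrr : rho ≤ rho' := by
    rw [hrho'def]
    have := Real.add_one_le_exp κ
    nlinarith
  have hrho'2 : rho' ≤ 1 / 2 := by
    rw [hrho'def]
    calc rho * Real.exp κ ≤ 1 / 4 * 2 := mul_le_mul hr2 hκ2 (Real.exp_pos _).le (by norm_num)
      _ = 1 / 2 := by norm_num
  -- the count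
  have hcount := hσ.count s (1 / 2) rho' hs (by norm_num) hrho' hrho'2 (by
    refine hp.trans ?_
    rw [← hSdef]
    have h1 : (1 / 100 : ℝ) ^ 4 ≤ rho' ^ 4 := pow_le_pow_left₀ (by norm_num) (hr1.trans hrr) 4
    have h3 : (1 / 100 : ℝ) ^ 4 * 1 ≤ rho' ^ 4 * (1 + s) :=
      mul_le_mul h1 (by linarith) (by norm_num) (by positivity)
    have h4 : δ ≤ (1 - 1 / 2) * (rho' ^ 4 * (1 + s)) := by
      rw [hδdef]
      linarith
    exact (add_le_add_iff_left 1).2 (hκS.trans h4))
  have hcap2 : (capK n s rho') ^ 2 ≤ C' ^ 2 := pow_le_pow_left₀ hc0 hc1 2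
  have hcount2 := hcount.trans (mul_le_mul_of_nonneg_left hcap2 (by norm_num : (0 : ℝ) ≤ 8))
  -- the sum over the skeletons with few tokens
  set E : ℝ := ∑ i, s ^ (n - (σ i).H) * ((1 + s) * (1 / 2)) ^ (σ i).l.length with hEdef
  have hE : E ≤ 8 * C' ^ 2 * (rho' ^ n)⁻¹ := by
    rw [← div_eq_mul_inv, le_div_iff₀ (by positivity)]
    linarith
  have hfew : ∑ i ∈ univ.filter (fun i : Fin k => ((σ i).l.length : ℝ) < κ / 4 * n),
      vsk n s (σ i) ≤ Real.exp (κ / 4 * n) * E := by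
    rw [hEdef, Finset.mul_sum]
    refine (Finset.sum_le_sum (fun i hi => ?_)).trans
      (Finset.sum_le_sum_of_subset_of_nonneg (Finset.filter_subset _ _) fun i _ _ => ?_)
    · rw [Finset.mem_filter] at hi
      unfold vsk
      have h1 : (1 + s) ^ (σ i).l.length =
          2 ^ (σ i).l.length * ((1 + s) * (1 / 2)) ^ (σ i).l.length := by
        rw [← mul_pow]
        congr 1
        ring
      rw [h1]
      have h2 : (2 : ℝ) ^ (σ i).l.length ≤ Real.exp (κ / 4 * n) := by
        have h3 : (2 : ℝ) ≤ Real.exp 1 := by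
          have := Real.add_one_le_exp (1 : ℝ)
          linarith
        calc (2 : ℝ) ^ (σ i).l.length ≤ Real.exp 1 ^ (σ i).l.length :=
              pow_le_pow_left₀ (by norm_num) h3 _
          _ = Real.exp ((σ i).l.length : ℝ) := by
              rw [← Real.exp_nat_mul, mul_one]
          _ ≤ Real.exp (κ / 4 * n) := Real.exp_le_exp.mpr hi.2.le
      have h4 : 0 ≤ s ^ (n - (σ i).H) * ((1 + s) * (1 / 2)) ^ (σ i).l.length := by positivity
      calc s ^ (n - (σ i).H) * (2 ^ (σ i).l.length * ((1 + s) * (1 / 2)) ^ (σ i).l.length)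
          = 2 ^ (σ i).l.length * (s ^ (n - (σ i).H) * ((1 + s) * (1 / 2)) ^ (σ i).l.length) := by
            ring
        _ ≤ Real.exp (κ / 4 * n) *
            (s ^ (n - (σ i).H) * ((1 + s) * (1 / 2)) ^ (σ i).l.length) :=
            mul_le_mul_of_nonneg_right h2 h4
    · positivity
  have hZ : (rho ^ n)⁻¹ ≤ C * sc n * Zq n s := by
    have h1 : 0 < rho ^ n := by positivity
    rw [inv_le_iff_one_le_mul₀ h1]
    have h2 : C * C⁻¹ ≤ C * (sc n * rho ^ n * Zq n s) := mul_le_mul_of_nonneg_left hZ1 hC.le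
    rw [mul_inv_cancel₀ hC.ne'] at h2
    linarith
  have hZq := KBIG.Zq_nonneg n (s := s) hs
  have hr' : (rho' ^ n)⁻¹ = Real.exp (-(κ * n)) * (rho ^ n)⁻¹ := by
    rw [hrho'def, mul_pow, mul_inv, ← Real.exp_nat_mul, Real.exp_neg, mul_comm (n : ℝ) κ,
      mul_comm]
  have hsmall := hN' n hnN'
  have hC'0 : 0 ≤ 8 * C' ^ 2 := by positivity
  calc ∑ i ∈ univ.filter (fun i : Fin k => ((σ i).l.length : ℝ) < κ / 4 * n), vsk n s (σ i)
      ≤ Real.exp (κ / 4 * n) * E := hfew
    _ ≤ Real.exp (κ / 4 * n) * (8 * C' ^ 2 * (rho' ^ n)⁻¹) :=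
        mul_le_mul_of_nonneg_left hE (Real.exp_pos _).le
    _ = Real.exp (κ / 4 * n) * (8 * C' ^ 2 * (Real.exp (-(κ * n)) * (rho ^ n)⁻¹)) := by rw [hr']
    _ ≤ Real.exp (κ / 4 * n) * (8 * C' ^ 2 * (Real.exp (-(κ * n)) * (C * sc n * Zq n s))) := by
        refine mul_le_mul_of_nonneg_left ?_ (Real.exp_pos _).le
        refine mul_le_mul_of_nonneg_left ?_ hC'0
        exact mul_le_mul_of_nonneg_left hZ (Real.exp_pos _).le
    _ = Real.exp (-(κ / 4 * n)) *
        ((8 * C' ^ 2 * C * sc n * Real.exp (-(κ / 2 * n))) * Zq n s) := by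
        have h1 : Real.exp (κ / 4 * n) * Real.exp (-(κ * n)) =
            Real.exp (-(κ / 4 * n)) * Real.exp (-(κ / 2 * n)) := by
          rw [← Real.exp_add, ← Real.exp_add]
          congr 1
          ring
        calc Real.exp (κ / 4 * n) * (8 * C' ^ 2 * (Real.exp (-(κ * n)) * (C * sc n * Zq n s)))
            = (Real.exp (κ / 4 * n) * Real.exp (-(κ * n))) * (8 * C' ^ 2 * C * sc n * Zq n s) := by
              ring
          _ = (Real.exp (-(κ / 4 * n)) * Real.exp (-(κ / 2 * n))) *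
              (8 * C' ^ 2 * C * sc n * Zq n s) := by rw [h1]
          _ = _ := by ring
    _ ≤ Real.exp (-(κ / 4 * n)) * (1 * Zq n s) := by
        refine mul_le_mul_of_nonneg_left ?_ (Real.exp_pos _).le
        exact mul_le_mul_of_nonneg_right hsmall hZq
    _ = Real.exp (-(κ / 4 * n)) * Zq n s := by rw [one_mul]

end Pool.Agent.NSP
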