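import Pool.Agent.NSP.Stmts
import Pool.Agent.Lib_helper74.FS.LAPC

/-!
# Module NSP_LAPZ: limit of the Laplace transforms for small weights
-/

set_option autoImplicit false

namespace Pool.Agent.NSP.LAPZ

open Finset Filter Topology MeasureTheory
open Pool.Agent.Lib27 Pool.Agent.SapR Pool.Agent.Gap Pool.Agent.AreaLaw Pool.Agent.FL
open Pool.Agent.FS
open Pool.Agent.FL.GFIN Pool.Agent.FL.Bound Pool.Agent.FS.LAPC

/-- the kernel -/
noncomputable abbrev ker (n : ℕ) (s : ℝ) (hs : 0 < s) : GapKernel := KW.kern (2 * n - 1) s hs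

/-- one level of the kernel in terms of the pieces -/
lemma level (hHG : HG_Stmt) (n : ℕ) (s : ℝ) (hs : 0 < s) (m : ℕ) :
    ∑ i ∈ (ker n s hs).S.filter (fun i => i.1 = m), (ker n s hs).rho ^ i.1 * (ker n s hs).tot i =
      ∑ p ∈ (Pc (2 * n - 1)).filter (fun p => hl p = m),
        (ker n s hs).rho ^ hl p * s ^ (hl p - htn p) := by
  have h1 := KW.kern_level hHG (2 * n - 1) s hs m
  have h2 : ∑ i ∈ (ker n s hs).S.filter (fun i => i.1 = m),
      (ker n s hs).rho ^ i.1 * (ker n s hs).tot i =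
      (ker n s hs).rho ^ m * ∑ i ∈ (ker n s hs).S.filter (fun i => i.1 = m),
        (ker n s hs).tot i := by
    rw [Finset.mul_sum]
    refine Finset.sum_congr rfl fun i hi => ?_
    rw [(Finset.mem_filter.1 hi).2]
  rw [h2, h1, Finset.mul_sum]
  refine Finset.sum_congr rfl fun p hp => ?_
  rw [(Finset.mem_filter.1 hp).2]

/-- the weight of the pieces of half length `m ≥ 2` -/
lemma tail_le (hHG : HG_Stmt) {C : ℝ} (hC : 0 < C) (n : ℕ) (s : ℝ) (hs : 0 < s)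
    (hT : ∀ m : ℕ, 2 ≤ m → ∑ p ∈ (Pc (2 * n - 1)).filter (fun p => hl p = m),
      (ker n s hs).rho ^ hl p * s ^ (hl p - htn p) ≤ C * s / 8 ^ m) :
    ∑ i ∈ (ker n s hs).S.filter (fun i => i.1 ≠ 1),
      (i.1 : ℝ) ^ 2 * ((ker n s hs).rho ^ i.1 * (ker n s hs).tot i) ≤ 2 * C * s := by
  obtain ⟨G, hG⟩ : ∃ G, G = ker n s hs := ⟨_, rfl⟩
  have hlev := level hHG n s hs
  rw [← hG] at hT hlev ⊢
  have hmap : ∀ i ∈ G.S.filter (fun i => i.1 ≠ 1), i.1 ∈ Finset.range (G.S.sup Prod.fst + 1) := by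
    intro i hi
    rw [Finset.mem_range, Nat.lt_succ_iff]
    exact Finset.le_sup (f := Prod.fst) (Finset.mem_filter.1 hi).1
  rw [← Finset.sum_fiberwise_of_maps_to hmap]
  have h1 : ∀ m ∈ Finset.range (G.S.sup Prod.fst + 1),
      ∑ i ∈ (G.S.filter (fun i => i.1 ≠ 1)).filter (fun i => i.1 = m),
        (i.1 : ℝ) ^ 2 * (G.rho ^ i.1 * G.tot i) ≤ C * s * (1 / 2 : ℝ) ^ m := by
    intro m _
    rcases Nat.lt_or_ge m 2 with hm | hm
    · have : (G.S.filter (fun i => i.1 ≠ 1)).filter (fun i => i.1 = m) = ∅ := by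
        rw [Finset.eq_empty_iff_forall_notMem]
        intro i hi
        rw [Finset.mem_filter, Finset.mem_filter] at hi
        have := (G.pos_mem i hi.1.1).1
        omega
      rw [this, Finset.sum_empty]
      positivity
    · have h2 : ∑ i ∈ (G.S.filter (fun i => i.1 ≠ 1)).filter (fun i => i.1 = m),
          (i.1 : ℝ) ^ 2 * (G.rho ^ i.1 * G.tot i) ≤
          ∑ i ∈ G.S.filter (fun i => i.1 = m), (i.1 : ℝ) ^ 2 * (G.rho ^ i.1 * G.tot i) := by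
        refine Finset.sum_le_sum_of_subset_of_nonneg ?_ fun i _ _ => ?_
        · intro i hi
          rw [Finset.mem_filter, Finset.mem_filter] at hi
          rw [Finset.mem_filter]
          exact ⟨hi.1.1, hi.2⟩
        · exact mul_nonneg (sq_nonneg _) (mul_nonneg (pow_nonneg G.rho_pos.le _) (G.tot_nonneg i))
      have h3 : ∑ i ∈ G.S.filter (fun i => i.1 = m), (i.1 : ℝ) ^ 2 * (G.rho ^ i.1 * G.tot i) =
          (m : ℝ) ^ 2 * ∑ i ∈ G.S.filter (fun i => i.1 = m), G.rho ^ i.1 * G.tot i := by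
        rw [Finset.mul_sum]
        refine Finset.sum_congr rfl fun i hi => ?_
        rw [(Finset.mem_filter.1 hi).2]
      have h4 := hT m hm
      rw [← hlev m] at h4
      have h5 : (m : ℝ) ^ 2 ≤ 4 ^ m := by
        have : (m : ℝ) ≤ 2 ^ m := by exact_mod_cast Nat.lt_two_pow_self.le
        calc (m : ℝ) ^ 2 ≤ ((2 : ℝ) ^ m) ^ 2 := pow_le_pow_left₀ (Nat.cast_nonneg _) this 2
          _ = 4 ^ m := by rw [← pow_mul, mul_comm, pow_mul]; norm_num
      have h6 : 0 ≤ C * s / 8 ^ m := by positivity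
      refine h2.trans ?_
      rw [h3]
      calc (m : ℝ) ^ 2 * ∑ i ∈ G.S.filter (fun i => i.1 = m), G.rho ^ i.1 * G.tot i
          ≤ (m : ℝ) ^ 2 * (C * s / 8 ^ m) := mul_le_mul_of_nonneg_left h4 (sq_nonneg _)
        _ ≤ 4 ^ m * (C * s / 8 ^ m) := mul_le_mul_of_nonneg_right h5 h6
        _ = C * s * (1 / 2 : ℝ) ^ m := by
            have : (8 : ℝ) ^ m = 4 ^ m * 2 ^ m := by rw [← mul_pow]; norm_num
            rw [this, one_div, inv_pow]
            have h4 : (4 : ℝ) ^ m ≠ 0 := by positivity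
            have h2 : (2 : ℝ) ^ m ≠ 0 := by positivity
            field_simp
  refine (Finset.sum_le_sum h1).trans ?_
  rw [← Finset.mul_sum]
  have h7 : ∑ m ∈ Finset.range (G.S.sup Prod.fst + 1), (1 / 2 : ℝ) ^ m ≤ 2 := by
    refine ((summable_geometric_two).sum_le_tsum _ fun m _ => by positivity).trans ?_
    rw [tsum_geometric_two]
  calc C * s * ∑ m ∈ Finset.range (G.S.sup Prod.fst + 1), (1 / 2 : ℝ) ^ m
      ≤ C * s * 2 := mul_le_mul_of_nonneg_left h7 (by positivity)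
    _ = 2 * C * s := by ring

/-- sums over all types against the sum over the types of half length at least `2` -/
lemma split_ne (G : GapKernel) (f : ℕ × ℕ → ℝ) :
    ∑ i ∈ G.S, f i = ∑ i ∈ G.S.filter (fun i => i.1 = 1), f i +
      ∑ i ∈ G.S.filter (fun i => i.1 ≠ 1), f i :=
  (Finset.sum_filter_add_sum_filter_not _ _ _).symm

lemma only_one (G : GapKernel) (hloc : Loc G) :
    G.S.filter (fun i => i.1 = 1) = {(1, 1)} := by
  ext i
  rw [Finset.mem_filter, Finset.mem_singleton]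
  constructor
  · rintro ⟨h1, h2⟩
    have h3 := (G.pos_mem i h1).2
    have h4 := hloc.h_le i h1
    rw [Prod.ext_iff]
    simp only
    omega
  · rintro rfl
    exact ⟨G.i0_mem, rfl⟩

lemma S2_one (G : GapKernel) (hR : 1 ≤ G.R) :
    ∑ d ∈ Icc (-(G.R : ℤ)) G.R, (d : ℝ) ^ 2 * G.T (1, 1) d = 2 := by
  have h1 : ∑ d ∈ ({-1, 1} : Finset ℤ), (d : ℝ) ^ 2 * G.T (1, 1) d =
      ∑ d ∈ Icc (-(G.R : ℤ)) G.R, (d : ℝ) ^ 2 * G.T (1, 1) d := by
    refine Finset.sum_subset ?_ ?_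
    · intro d hd
      rw [Finset.mem_insert, Finset.mem_singleton] at hd
      rw [Finset.mem_Icc]
      omega
    · intro d _ hd
      rw [Finset.mem_insert, Finset.mem_singleton] at hd
      by_cases h0 : d = 0
      · rw [h0]; simp
      · rw [G.T_one.2.2 d (by
          rcases abs_cases d with h | h <;> omega), mul_zero]
  rw [← h1, Finset.sum_insert (by norm_num), Finset.sum_singleton, G.T_even, G.T_one.2.1]
  norm_num

lemma S2_le (G : GapKernel) (hloc : Loc G) (i : ℕ × ℕ) :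
    ∑ d ∈ Icc (-(G.R : ℤ)) G.R, (d : ℝ) ^ 2 * G.T i d ≤ 4 * (i.1 : ℝ) ^ 2 * G.tot i := by
  unfold GapKernel.tot
  rw [Finset.mul_sum]
  refine Finset.sum_le_sum fun d _ => ?_
  rcases le_or_gt |d| (2 * (i.1 : ℤ)) with hd | hd
  · refine mul_le_mul_of_nonneg_right ?_ (G.T_nonneg i d)
    have h2 : |(d : ℝ)| ≤ 2 * (i.1 : ℝ) := by exact_mod_cast hd
    calc (d : ℝ) ^ 2 = |(d : ℝ)| ^ 2 := (sq_abs _).symm
      _ ≤ (2 * (i.1 : ℝ)) ^ 2 := pow_le_pow_left₀ (abs_nonneg _) h2 2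
      _ = 4 * (i.1 : ℝ) ^ 2 := by ring
  · rw [hloc.T_loc i d hd]
    simp

/-- the parameters of a kernel with small tail -/
lemma par_bound (G : GapKernel) (hloc : Loc G) (hR : 1 ≤ G.R) {A : ℝ}
    (hA : ∑ i ∈ G.S.filter (fun i => i.1 ≠ 1),
      (i.1 : ℝ) ^ 2 * (G.rho ^ i.1 * G.tot i) ≤ A) :
    |G.mbar - 1| ≤ A ∧ |G.hbar - 1| ≤ A ∧ |G.sig2 - 2 * G.rho| ≤ 4 * A := by
  have hterm : ∀ i, 0 ≤ G.rho ^ i.1 * G.tot i := fun i =>
    mul_nonneg (pow_nonneg G.rho_pos.le _) (G.tot_nonneg i)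
  have hcr := G.crit'
  have key : ∀ f : ℕ × ℕ → ℝ, (∀ i ∈ G.S, i.1 = 1 → f i = 0) →
      (∀ i ∈ G.S, i.1 ≠ 1 → 0 ≤ f i ∧ f i ≤ (i.1 : ℝ) ^ 2 * (G.rho ^ i.1 * G.tot i)) →
      |∑ i ∈ G.S, f i| ≤ A := by
    intro f h1 h2
    rw [split_ne G f]
    have h3 : ∑ i ∈ G.S.filter (fun i => i.1 = 1), f i = 0 :=
      Finset.sum_eq_zero fun i hi => h1 i (Finset.mem_filter.1 hi).1 (Finset.mem_filter.1 hi).2
    rw [h3, zero_add, abs_of_nonneg (Finset.sum_nonneg fun i hi =>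
      (h2 i (Finset.mem_filter.1 hi).1 (Finset.mem_filter.1 hi).2).1)]
    exact (Finset.sum_le_sum fun i hi =>
      (h2 i (Finset.mem_filter.1 hi).1 (Finset.mem_filter.1 hi).2).2).trans hA
  refine ⟨?_, ?_, ?_⟩
  · have e : G.mbar - ∑ i ∈ G.S, G.rho ^ i.1 * G.tot i =
        ∑ i ∈ G.S, ((i.1 : ℝ) - 1) * (G.rho ^ i.1 * G.tot i) := by
      unfold GapKernel.mbar
      rw [← Finset.sum_sub_distrib]
      refine Finset.sum_congr rfl fun i _ => ?_
      ring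
    rw [hcr] at e
    rw [e]
    refine key _ (fun i _ h => by rw [h]; simp) fun i hi _ => ?_
    have h1 : (1 : ℝ) ≤ i.1 := by exact_mod_cast (G.pos_mem i hi).1
    exact ⟨mul_nonneg (by linarith) (hterm i),
      mul_le_mul_of_nonneg_right (by nlinarith) (hterm i)⟩
  · have e : G.hbar - ∑ i ∈ G.S, G.rho ^ i.1 * G.tot i =
        ∑ i ∈ G.S, ((i.2 : ℝ) - 1) * (G.rho ^ i.1 * G.tot i) := by
      unfold GapKernel.hbar
      rw [← Finset.sum_sub_distrib]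
      refine Finset.sum_congr rfl fun i _ => ?_
      ring
    rw [hcr] at e
    rw [e]
    refine key _ (fun i hi h => ?_) fun i hi _ => ?_
    · have h3 := (G.pos_mem i hi).2
      have h4 := hloc.h_le i hi
      have : i.2 = 1 := by omega
      rw [this]; simp
    · have h1 : (1 : ℝ) ≤ i.2 := by exact_mod_cast (G.pos_mem i hi).2
      have h2 : (i.2 : ℝ) ≤ i.1 := by exact_mod_cast hloc.h_le i hi
      exact ⟨mul_nonneg (by linarith) (hterm i),
        mul_le_mul_of_nonneg_right (by nlinarith) (hterm i)⟩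
  · unfold GapKernel.sig2
    rw [split_ne G, only_one G hloc, Finset.sum_singleton, S2_one G hR]
    simp only [pow_one]
    rw [show G.rho * 2 + ∑ i ∈ G.S.filter (fun i => i.1 ≠ 1), G.rho ^ i.1 *
        ∑ d ∈ Icc (-(G.R : ℤ)) G.R, (d : ℝ) ^ 2 * G.T i d - 2 * G.rho =
        ∑ i ∈ G.S.filter (fun i => i.1 ≠ 1), G.rho ^ i.1 *
        ∑ d ∈ Icc (-(G.R : ℤ)) G.R, (d : ℝ) ^ 2 * G.T i d by ring]
    rw [abs_of_nonneg (Finset.sum_nonneg fun i _ => mul_nonneg (pow_nonneg G.rho_pos.le _)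
      (Finset.sum_nonneg fun d _ => mul_nonneg (sq_nonneg _) (G.T_nonneg i d)))]
    calc ∑ i ∈ G.S.filter (fun i => i.1 ≠ 1), G.rho ^ i.1 *
        ∑ d ∈ Icc (-(G.R : ℤ)) G.R, (d : ℝ) ^ 2 * G.T i d
        ≤ ∑ i ∈ G.S.filter (fun i => i.1 ≠ 1),
          4 * ((i.1 : ℝ) ^ 2 * (G.rho ^ i.1 * G.tot i)) := by
          refine Finset.sum_le_sum fun i _ => ?_
          calc G.rho ^ i.1 * ∑ d ∈ Icc (-(G.R : ℤ)) G.R, (d : ℝ) ^ 2 * G.T i d
              ≤ G.rho ^ i.1 * (4 * (i.1 : ℝ) ^ 2 * G.tot i) :=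
                mul_le_mul_of_nonneg_left (S2_le G hloc i) (pow_nonneg G.rho_pos.le _)
            _ = 4 * ((i.1 : ℝ) ^ 2 * (G.rho ^ i.1 * G.tot i)) := by ring
      _ = 4 * ∑ i ∈ G.S.filter (fun i => i.1 ≠ 1),
          (i.1 : ℝ) ^ 2 * (G.rho ^ i.1 * G.tot i) := by rw [Finset.mul_sum]
      _ ≤ 4 * A := by linarith

/-- the parameters of the kernels for small weights -/
lemma par_near (hT : TAZ_Stmt) (hR : RHOZ_Stmt) (hHG : HG_Stmt) :
    ∃ K s0 : ℝ, 0 < K ∧ 0 < s0 ∧ ∀ n : ℕ, 6 ≤ n → ∀ (s : ℝ) (hs : 0 < s), s ≤ s0 →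
      dist (par (ker n s hs)) ((1 : ℝ), (1 : ℝ), (1 / 2 : ℝ)) ≤ K * s := by
  obtain ⟨-, C, s1, hC, hs1, -, hT⟩ := hT
  obtain ⟨C2, c2, s2, hC2, -, hs2, -, hR⟩ := hR
  refine ⟨8 * C + 2 * C2, min s1 s2, by positivity, lt_min hs1 hs2, ?_⟩
  intro n hn s hs hss
  have h1 : s ≤ s1 := hss.trans (min_le_left _ _)
  have h2 : s ≤ s2 := hss.trans (min_le_right _ _)
  have hcrit : Crit n s (ker n s hs).rho :=
    ⟨(ker n s hs).rho_pos, KW.kern_crit hHG (2 * n - 1) s hs⟩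
  obtain ⟨r1, r2, -⟩ := hR n s (ker n s hs).rho hn hs h2 hcrit
  have htail := tail_le hHG hC n s hs fun m hm =>
    hT n s (ker n s hs).rho (by omega) hs h1 (ker n s hs).rho_pos r2 m hm
  obtain ⟨p1, p2, p3⟩ := par_bound (ker n s hs) (KW.kern_loc _ s hs)
    (show 1 ≤ 2 * n - 1 + 2 by omega) htail
  have hCs : 0 ≤ C * s := by positivity
  have hC2s : 0 ≤ C2 * s := by positivity
  unfold par
  rw [Prod.dist_eq, Prod.dist_eq]
  simp only [Real.dist_eq]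
  refine max_le (p1.trans (by nlinarith)) (max_le (p2.trans (by nlinarith)) ?_)
  rw [abs_le] at p3 ⊢
  constructor <;> nlinarith

end Pool.Agent.NSP.LAPZ

namespace Pool.Agent.NSP

open Finset Filter Topology MeasureTheory
open Pool.Agent.Lib27 Pool.Agent.SapR Pool.Agent.Gap Pool.Agent.AreaLaw Pool.Agent.FL
open Pool.Agent.FS
open Pool.Agent.FL.GFIN Pool.Agent.FL.Bound Pool.Agent.FS.LAPC LAPZ

/-- MODULE NSP_LAPZ -/
theorem t_LAPZ (hT : TAZ_Stmt) (hR : RHOZ_Stmt) (hLT : GLT_Stmt) (hHG : HG_Stmt) (hMG : MG_Stmt)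
    (hMG2 : MGI2_Stmt) (oLT1 : Gap.LT1_Stmt) (oM2 : Gap.M2_Stmt) (oBAL : Gap.BAL_Stmt) :
    LAPZ_Stmt := by
  obtain ⟨L, m0, C', hL0, hm0, hC', hL, hexp⟩ := stair_side oLT1 oM2 oBAL
  obtain ⟨C, θ, hC, hθ, hθ1, N0, hN0, hD⟩ := exists_datK hMG hMG2 hHG (1 / 4) (by norm_num)
    (by norm_num)
  obtain ⟨K, s0, hK, hs0, hpar⟩ := par_near hT hR hHG
  refine ⟨fun lam => L (kk ((1 : ℝ), (1 : ℝ), (1 / 2 : ℝ)) * lam) / L 0, ?_⟩
  intro s hs hs' lam hlam
  have hev : ∀ᶠ n : ℕ in atTop, N0 ≤ n ∧ s n ≤ 1 / 4 := by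
    filter_upwards [eventually_ge_atTop N0, hs'.eventually (gt_mem_nhds (show (0 : ℝ) < 1 / 4 by
      norm_num))] with n h1 h2
    exact ⟨h1, h2.le⟩
  have hdata : ∃ E : ℕ → Dt C θ, ∀ n, N0 ≤ n → s n ≤ 1 / 4 →
      (∀ lam, lapQ n (s n) lam = lp (E n) n lam) ∧
        (E n).G = KW.kern (2 * n - 1) (s n) (hs n) := by
    choose D hDG using fun n (hn : N0 ≤ n ∧ s n ≤ 1 / 4) => hD n hn.1 (s n) (hs n) hn.2
    obtain ⟨D0, -⟩ := hD N0 le_rfl (1 / 4) (by norm_num) le_rfl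
    classical
    refine ⟨fun n => if h : N0 ≤ n ∧ s n ≤ 1 / 4 then (D n h).dt else D0.dt, fun n h1 h2 => ?_⟩
    simp only [dif_pos (show N0 ≤ n ∧ s n ≤ 1 / 4 from ⟨h1, h2⟩)]
    exact ⟨fun lam => lapQ_eq (D n ⟨h1, h2⟩) lam, hDG n ⟨h1, h2⟩⟩
  obtain ⟨E, hE⟩ := hdata
  have hlim : Tendsto (fun n => par (E n).G) atTop (𝓝 ((1 : ℝ), (1 : ℝ), (1 / 2 : ℝ))) := by
    rw [tendsto_iff_dist_tendsto_zero]
    refine squeeze_zero' (Eventually.of_forall fun n => dist_nonneg) ?_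
      (g := fun n => K * s n) (by simpa using hs'.const_mul K)
    filter_upwards [hev, eventually_ge_atTop 6, hs'.eventually (gt_mem_nhds hs0)]
      with n h1 h2 h3
    rw [(hE n h1.1 h1.2).2]
    exact hpar n h2 (s n) (hs n) h3.le
  have h1 := seq_lap hLT hL0 hL hC hθ hθ1 E ((1 : ℝ), (1 : ℝ), (1 / 2 : ℝ)) one_pos one_pos
    (by norm_num) hlim lam hlam
  refine h1.congr' ?_
  filter_upwards [hev] with n hn
  rw [(hE n hn.1 hn.2).1 lam]

end Pool.Agent.NSP
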