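import Pool.Agent.NSP.StmtsM
import Pool.Agent.Lib_helper74.FS.LOC
import Pool.Agent.Lib_helper74.FS.SMP

/-!
# NSM_LOCM: moments of the area functional at fixed span, old regime (MP_f6626d_co)
-/

set_option autoImplicit false

namespace Pool.Agent.NSP.LOCM

open Finset Filter Topology MeasureTheory
open Pool.Agent.Lib27 Pool.Agent.SapR Pool.Agent.Gap Pool.Agent.AreaLaw Pool.Agent.FL
open Pool.Agent.FS

lemma exp_small {c : ℝ} (hc : 0 < c) (r : ℕ) {n : ℕ} (h1 : 1 ≤ n) :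
    (n : ℝ) ^ r * Real.exp (-(c * n)) ≤ ((r + 1).factorial : ℝ) / c ^ (r + 1) / n := by
  have hn1 : (1 : ℝ) ≤ n := by exact_mod_cast h1
  have h2 := Real.pow_div_factorial_le_exp (c * n) (by positivity) (r + 1)
  have hE : 0 < Real.exp (c * n) := Real.exp_pos _
  rw [div_le_iff₀ (by positivity)] at h2
  rw [Real.exp_neg, ← div_eq_mul_inv, div_le_iff₀ hE, div_div, div_mul_eq_mul_div,
    le_div_iff₀ (by positivity)]
  calc (n : ℝ) ^ r * (c ^ (r + 1) * n) = (c * n) ^ (r + 1) := by rw [mul_pow]; ring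
    _ ≤ Real.exp (c * n) * ((r + 1).factorial : ℝ) := h2
    _ = _ := by ring

lemma area_ge {n k : ℕ} {σ : Fin k → Sk} (sk : IsSkel n k σ) (i : Fin k) {t : ℕ}
    (ht : t ≤ (σ i).l.sum) :
    3 / 4 * ((σ i).A : ℝ) ≤ ((((σ i).A : ℤ) - (t : ℤ) : ℤ) : ℝ) ∧
      ((((σ i).A : ℤ) - (t : ℤ) : ℤ) : ℝ) ≤ ((σ i).A : ℝ) := by
  have h1 := sk.sum_le i
  have h2 : 4 * (t : ℝ) ≤ ((σ i).A : ℝ) := by
    have : 4 * t ≤ (σ i).A := by omega
    exact_mod_cast this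
  have h3 : (0 : ℝ) ≤ t := by positivity
  push_cast
  constructor <;> linarith

lemma Z_eq {n k : ℕ} {σ : Fin k → Sk} (sk : IsSkel n k σ) (s : ℝ) :
    Zq n s = ∑ i, vsk n s (σ i) := by
  have h := LOC.key sk s (fun _ _ _ => 1)
  simp only [mul_one] at h
  unfold Zq
  rw [h]
  refine sum_congr rfl fun i _ => ?_
  rw [LOC.rs_pow]
  rfl

lemma vpos (n : ℕ) {s : ℝ} (hs : 0 < s) (a : Sk) : 0 ≤ vsk n s a := by
  unfold vsk
  positivity

lemma scpos {n : ℕ} (hn : 1 ≤ n) : 0 < sc n := by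
  have hn1 : (1 : ℝ) ≤ n := by exact_mod_cast hn
  unfold sc
  have : 0 < Real.sqrt n := Real.sqrt_pos.2 (by linarith)
  positivity

lemma bple {p CB : ℝ} (hCB : 0 < CB)
    (bin : ∀ (m : ℕ) (j : ℤ), 1 ≤ m → bp m p j ≤ CB / Real.sqrt m) (m : ℕ) (j : ℤ) :
    bp m p j ≤ CB + 1 := by
  rcases Nat.eq_zero_or_pos m with h | h
  · subst h
    unfold bp
    split_ifs with h1
    · have : j.toNat = 0 := by
        have := h1.2
        simp at this
        omega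
      rw [this]
      simp
      linarith
    · linarith
  · refine (bin m j h).trans ?_
    have h1 : (1 : ℝ) ≤ Real.sqrt m := by
      rw [Real.one_le_sqrt]
      exact_mod_cast h
    have h2 : CB / Real.sqrt m ≤ CB := by
      rw [div_le_iff₀ (by positivity)]
      nlinarith
    linarith

lemma bpbig {p CB c : ℝ} (hCB : 0 < CB) (hc : 0 < c)
    (bin : ∀ (m : ℕ) (j : ℤ), 1 ≤ m → bp m p j ≤ CB / Real.sqrt m) {n : ℕ} (hn : 1 ≤ n)
    (m : ℕ) (j : ℤ) (hm : c * n ≤ m) :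
    bp m p j ≤ CB / (Real.sqrt c * Real.sqrt n) := by
  have hn1 : (1 : ℝ) ≤ n := by exact_mod_cast hn
  have h1 : 1 ≤ m := by
    by_contra h
    have h0 : m = 0 := by omega
    rw [h0] at hm
    have : 0 < c * n := by positivity
    push_cast at hm
    linarith
  refine (bin m j h1).trans ?_
  rw [← Real.sqrt_mul hc.le]
  have h2 : Real.sqrt (c * n) ≤ Real.sqrt m := Real.sqrt_le_sqrt hm
  have h3 : 0 < Real.sqrt (c * n) := Real.sqrt_pos.2 (by positivity)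
  exact div_le_div_of_nonneg_left hCB.le h3 h2

lemma sumA {n k : ℕ} {σ : Fin k → Sk} (sk : IsSkel n k σ) (hn : 1 ≤ n) {s CA : ℝ} (hs : 0 < s)
    (r : ℕ) (arm : ∑ q ∈ Omn n, wtq n s q * ra n q ^ r ≤ CA * Zq n s) :
    ∑ i, vsk n s (σ i) * (((σ i).A : ℝ) / sc n) ^ r ≤ (4 / 3) ^ r * CA * Zq n s := by
  have h := LOC.key sk s (fun _ b _ => ((b : ℝ) / sc n) ^ r)
  have h2 : ∑ q ∈ Omn n, wtq n s q * ra n q ^ r =
      ∑ q ∈ Omn n, wtq n s q * ((((arq n q : ℕ) : ℤ) : ℝ) / sc n) ^ r := by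
    refine sum_congr rfl fun q _ => ?_
    unfold ra
    push_cast
    rfl
  rw [h2, h] at arm
  have hsc := scpos hn
  have h3 : ∑ i, vsk n s (σ i) * ((3 / 4 : ℝ) ^ r * (((σ i).A : ℝ) / sc n) ^ r) ≤
      ∑ i, s ^ (n - (σ i).H) * rs (σ i).l (fun j t => s ^ j *
        ((((((σ i).A : ℤ) - (t : ℤ) : ℤ)) : ℝ) / sc n) ^ r) := by
    refine sum_le_sum fun i _ => ?_
    unfold vsk
    rw [mul_assoc]
    refine mul_le_mul_of_nonneg_left ?_ (by positivity)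
    rw [← LOC.rs_pow, mul_comm, ← rs_mul]
    refine rs_mono _ _ _ fun j t _ ht => ?_
    obtain ⟨h4, _⟩ := area_ge sk i ht
    rw [mul_comm]
    refine mul_le_mul_of_nonneg_left ?_ (by positivity)
    have h5 : 3 / 4 * (((σ i).A : ℝ) / sc n) ≤ ((((σ i).A : ℤ) - (t : ℤ) : ℤ) : ℝ) / sc n := by
      rw [← mul_div_assoc]
      exact div_le_div_of_nonneg_right h4 hsc.le
    have h6 : (0 : ℝ) ≤ 3 / 4 * (((σ i).A : ℝ) / sc n) := by positivity
    rw [← mul_pow]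
    exact pow_le_pow_left₀ h6 h5 r
  have h4 := h3.trans arm
  have h5 : ∑ i, vsk n s (σ i) * ((3 / 4 : ℝ) ^ r * (((σ i).A : ℝ) / sc n) ^ r) =
      (3 / 4 : ℝ) ^ r * ∑ i, vsk n s (σ i) * (((σ i).A : ℝ) / sc n) ^ r := by
    rw [mul_sum]
    exact sum_congr rfl fun i _ => by ring
  rw [h5] at h4
  have h6 : (4 / 3 : ℝ) ^ r * (3 / 4 : ℝ) ^ r = 1 := by
    rw [← mul_pow]
    norm_num
  calc ∑ i, vsk n s (σ i) * (((σ i).A : ℝ) / sc n) ^ r
      = ((4 / 3 : ℝ) ^ r * (3 / 4 : ℝ) ^ r) *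
          ∑ i, vsk n s (σ i) * (((σ i).A : ℝ) / sc n) ^ r := by rw [h6, one_mul]
    _ = (4 / 3 : ℝ) ^ r * ((3 / 4 : ℝ) ^ r *
          ∑ i, vsk n s (σ i) * (((σ i).A : ℝ) / sc n) ^ r) := by ring
    _ ≤ (4 / 3 : ℝ) ^ r * (CA * Zq n s) := mul_le_mul_of_nonneg_left h4 (by positivity)
    _ = _ := by ring

lemma small_a {n k : ℕ} {σ : Fin k → Sk} (sk : IsSkel n k σ) (hn : 1 ≤ n) (r : ℕ) (i : Fin k) :
    (((σ i).A : ℝ) / sc n) ^ r ≤ 2 ^ r * (n : ℝ) ^ r := by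
  have h1 : ((σ i).A : ℝ) ≤ 2 * (n : ℝ) ^ 2 := by exact_mod_cast sk.A_le i
  have hn1 : (1 : ℝ) ≤ n := by exact_mod_cast hn
  have hsc := scpos hn
  rw [← mul_pow]
  refine pow_le_pow_left₀ (by positivity) ?_ r
  rw [div_le_iff₀ hsc]
  refine h1.trans ?_
  unfold sc
  have h2 : (1 : ℝ) ≤ Real.sqrt n := by
    rw [Real.one_le_sqrt]
    exact hn1
  nlinarith [mul_nonneg (show (0 : ℝ) ≤ 2 * (n : ℝ) ^ 2 by positivity) (sub_nonneg.2 h2)]

theorem core {n k : ℕ} {σ : Fin k → Sk} {s c CA CB : ℝ} {r : ℕ} (sk : IsSkel n k σ)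
    (hn : 1 ≤ n) (hs : 0 < s) (hc : 0 < c) (hCA : 0 < CA) (hCB : 0 < CB)
    (arm : ∑ q ∈ Omn n, wtq n s q * ra n q ^ r ≤ CA * Zq n s)
    (kb : ∑ i ∈ univ.filter (fun i : Fin k => ((σ i).l.length : ℝ) < c * n), vsk n s (σ i) ≤
      Real.exp (-(c * n)) * Zq n s)
    (bin : ∀ (m : ℕ) (j : ℤ), 1 ≤ m → bp m (s / (1 + s)) j ≤ CB / Real.sqrt m) (h : ℕ) :
    U n s h (fun a => a ^ r) ≤ (CB / Real.sqrt c * ((4 / 3) ^ r * CA) +
      (CB + 1) * 2 ^ r * (((r + 1).factorial : ℝ) / c ^ (r + 1))) / Real.sqrt n * Zq n s := by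
  have hn1 : (1 : ℝ) ≤ n := by exact_mod_cast hn
  have hsc := scpos hn
  have hZ0 : 0 ≤ Zq n s := by
    rw [Z_eq sk]
    exact sum_nonneg fun i _ => vpos n hs _
  have hsn : 0 < Real.sqrt n := Real.sqrt_pos.2 (by linarith)
  have hscc : 0 < Real.sqrt c := Real.sqrt_pos.2 hc
  have h1 := LOC.keyh sk s h (fun b _ => ((b : ℝ) / sc n) ^ r)
  have h2 : U n s h (fun a => a ^ r) = ∑ q ∈ (Omn n).filter (fun q => sp q = h),
      wtq n s q * ((((arq n q : ℕ) : ℤ) : ℝ) / sc n) ^ r := by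
    unfold U ra
    refine sum_congr rfl fun q _ => ?_
    push_cast
    rfl
  rw [h2, h1]
  have h3 : ∀ i : Fin k, s ^ (n - (σ i).H) * rs (σ i).l (fun j t => s ^ j *
      (if (j : ℤ) = (σ i).H - h then (((((σ i).A : ℤ) - (t : ℤ) : ℤ) : ℝ) / sc n) ^ r else 0)) ≤
      vsk n s (σ i) * (bp (σ i).l.length (s / (1 + s)) ((σ i).H - h) *
        (((σ i).A : ℝ) / sc n) ^ r) := by
    intro i
    unfold vsk
    rw [mul_assoc]
    refine mul_le_mul_of_nonneg_left ?_ (by positivity)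
    rw [← LOC.rs_ind SMP_thm hs]
    refine rs_mono _ _ _ fun j t _ ht => ?_
    refine mul_le_mul_of_nonneg_left ?_ (by positivity)
    split_ifs with hj
    · obtain ⟨h4, h5⟩ := area_ge sk i ht
      have h6 : (0 : ℝ) ≤ ((((σ i).A : ℤ) - (t : ℤ) : ℤ) : ℝ) :=
        le_trans (by positivity) h4
      have h7 : ((((σ i).A : ℤ) - (t : ℤ) : ℤ) : ℝ) / sc n ≤ ((σ i).A : ℝ) / sc n :=
        div_le_div_of_nonneg_right h5 hsc.le
      exact pow_le_pow_left₀ (div_nonneg h6 hsc.le) h7 r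
    · exact le_rfl
  have hE := exp_small hc r hn
  have hFpos : 0 < ((r + 1).factorial : ℝ) / c ^ (r + 1) := by positivity
  have h4 : ∀ i : Fin k, vsk n s (σ i) * (bp (σ i).l.length (s / (1 + s)) ((σ i).H - h) *
        (((σ i).A : ℝ) / sc n) ^ r) ≤
      CB / (Real.sqrt c * Real.sqrt n) * (vsk n s (σ i) * (((σ i).A : ℝ) / sc n) ^ r) +
        (CB + 1) * (2 ^ r * (n : ℝ) ^ r) *
          (if ((σ i).l.length : ℝ) < c * n then vsk n s (σ i) else 0) := by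
    intro i
    have hv := vpos n hs (σ i)
    have ha : 0 ≤ (((σ i).A : ℝ) / sc n) ^ r := by positivity
    by_cases hi : ((σ i).l.length : ℝ) < c * n
    · rw [if_pos hi]
      have h5 : bp (σ i).l.length (s / (1 + s)) ((σ i).H - h) * (((σ i).A : ℝ) / sc n) ^ r ≤
          (CB + 1) * (2 ^ r * (n : ℝ) ^ r) :=
        mul_le_mul (bple hCB bin _ _) (small_a sk hn r i) ha (by positivity)
      have h6 := mul_le_mul_of_nonneg_left h5 hv
      have h7 : 0 ≤ CB / (Real.sqrt c * Real.sqrt n) *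
          (vsk n s (σ i) * (((σ i).A : ℝ) / sc n) ^ r) := by positivity
      linarith
    · rw [if_neg hi, mul_zero, add_zero]
      have h5 := mul_le_mul_of_nonneg_left
        (mul_le_mul_of_nonneg_right (bpbig hCB hc bin hn _ ((σ i).H - h) (not_lt.1 hi)) ha) hv
      refine h5.trans (le_of_eq (by ring))
  refine (sum_le_sum fun i _ => (h3 i).trans (h4 i)).trans ?_
  rw [sum_add_distrib, ← mul_sum, ← mul_sum, ← sum_filter]
  have h5 : CB / (Real.sqrt c * Real.sqrt n) * ∑ i, vsk n s (σ i) * (((σ i).A : ℝ) / sc n) ^ r ≤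
      CB / (Real.sqrt c * Real.sqrt n) * ((4 / 3) ^ r * CA * Zq n s) :=
    mul_le_mul_of_nonneg_left (sumA sk hn hs r arm) (by positivity)
  have h6 : (CB + 1) * (2 ^ r * (n : ℝ) ^ r) *
      ∑ i ∈ univ.filter (fun i : Fin k => ((σ i).l.length : ℝ) < c * n), vsk n s (σ i) ≤
      (CB + 1) * 2 ^ r * (((r + 1).factorial : ℝ) / c ^ (r + 1)) / Real.sqrt n * Zq n s := by
    refine (mul_le_mul_of_nonneg_left kb (by positivity)).trans ?_
    have h7 : (n : ℝ) ^ r * Real.exp (-(c * n)) ≤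
        ((r + 1).factorial : ℝ) / c ^ (r + 1) / Real.sqrt n := by
      refine hE.trans (div_le_div_of_nonneg_left hFpos.le hsn ?_)
      rw [Real.sqrt_le_left (by positivity)]
      nlinarith
    calc (CB + 1) * (2 ^ r * (n : ℝ) ^ r) * (Real.exp (-(c * n)) * Zq n s)
        = (CB + 1) * 2 ^ r * Zq n s * ((n : ℝ) ^ r * Real.exp (-(c * n))) := by ring
      _ ≤ (CB + 1) * 2 ^ r * Zq n s * (((r + 1).factorial : ℝ) / c ^ (r + 1) / Real.sqrt n) :=
          mul_le_mul_of_nonneg_left h7 (by positivity)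
      _ = _ := by ring
  refine (add_le_add h5 h6).trans (le_of_eq ?_)
  field_simp

end Pool.Agent.NSP.LOCM

namespace Pool.Agent.NSP

open Finset Filter Topology MeasureTheory
open Pool.Agent.Lib27 Pool.Agent.SapR Pool.Agent.Gap Pool.Agent.AreaLaw Pool.Agent.FL
open Pool.Agent.FS

theorem t_LOCM (hS : SKEL_Stmt) (hK : KBIG_Stmt) (hB : BIN_Stmt) (hA : ARMR_Stmt) :
    LOCM_Stmt := by
  intro s0 s1 hs0 hs01 hs1 r
  have hs1' : 0 < s1 := lt_of_lt_of_le hs0 hs01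
  obtain ⟨CA, hCA, NA, hA'⟩ := hA s1 hs1' hs1 r
  obtain ⟨c, hc, NK, hNK6, hKB'⟩ := hK s0 s1 hs0 hs01 hs1
  have hp0 : 0 < s0 / (1 + s0) := by positivity
  have hmono : ∀ a b : ℝ, 0 < a → a ≤ b → a / (1 + a) ≤ b / (1 + b) := by
    intro a b ha hab
    have hb : 0 < b := lt_of_lt_of_le ha hab
    rw [div_le_div_iff₀ (by positivity) (by positivity)]
    nlinarith
  have hp1 : s1 / (1 + s1) < 1 := by
    rw [div_lt_one (by positivity)]
    linarith
  obtain ⟨⟨CB, hCB, hb1⟩, _⟩ := hB (s0 / (1 + s0)) (s1 / (1 + s1)) hp0 (hmono _ _ hs0 hs01) hp1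
  refine ⟨CB / Real.sqrt c * ((4 / 3) ^ r * CA) +
      (CB + 1) * 2 ^ r * (((r + 1).factorial : ℝ) / c ^ (r + 1)), ?_, max NA NK,
      fun n hn s hs0' hs1'' h => ?_⟩
  · have : 0 < Real.sqrt c := Real.sqrt_pos.2 hc
    positivity
  · have hn1 : NA ≤ n := (le_max_left _ _).trans hn
    have hn2 : NK ≤ n := (le_max_right _ _).trans hn
    have hs : 0 < s := lt_of_lt_of_le hs0 hs0'
    obtain ⟨k, σ, hσ⟩ := hS n (by omega)
    exact LOCM.core hσ (by omega) hs hc hCA hCB (hA' n hn1 s hs hs1'').1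
      (hKB' n hn2 s hs0' hs1'' k σ hσ)
      (fun m j hm => (hb1 (s / (1 + s)) (hmono _ _ hs0 hs0') (hmono _ _ hs hs1'') m j hm).1) h

end Pool.Agent.NSP
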