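import Pool.Agent.NSP.StmtsM

/-!
# Project NSP (MP_f6626d_co), part 2: module LOCMZ, moments at fixed span for small weights
-/

set_option autoImplicit false

namespace Pool.Agent.NSP

open Finset Filter Topology MeasureTheory
open Pool.Agent.Lib27 Pool.Agent.SapR Pool.Agent.Gap Pool.Agent.AreaLaw Pool.Agent.FL
open Pool.Agent.FS

namespace LOCMZ

/-! ### sums over subsets (as in `FS/LOC.lean`) -/

lemma rs_pow (s : ℝ) (l : List ℕ) : rs l (fun j _ => s ^ j) = (1 + s) ^ l.length := by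
  induction l with
  | nil => simp
  | cons y l ih =>
    have h : rs l (fun j t => s ^ (j + 1)) = s * rs l (fun j _ => s ^ j) := by
      rw [← rs_mul]
      refine rs_congr _ _ _ fun j t _ _ => ?_
      ring
    simp only [rs_cons, List.length_cons]
    rw [h, ih]
    ring

lemma bp_nonneg {p : ℝ} (h0 : 0 ≤ p) (h1 : p ≤ 1) (k : ℕ) (j : ℤ) : 0 ≤ bp k p j := by
  unfold bp
  split_ifs
  · have : 0 ≤ 1 - p := by linarith
    positivity
  · exact le_rfl

lemma bp_nat (k : ℕ) (p : ℝ) (n : ℕ) :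
    bp k p (n : ℤ) = (k.choose n : ℝ) * p ^ n * (1 - p) ^ (k - n) := by
  unfold bp
  by_cases h : n ≤ k
  · rw [if_pos ⟨by positivity, by exact_mod_cast h⟩, Int.toNat_natCast]
  · rw [if_neg (by rintro ⟨_, h2⟩; exact h (by exact_mod_cast h2)),
      Nat.choose_eq_zero_of_lt (by omega)]
    simp

lemma bp_neg (k : ℕ) (p : ℝ) (j : ℤ) (h : j < 0) : bp k p j = 0 := by
  unfold bp
  exact if_neg (by omega)

/-- Pascal rule for the binomial weights -/
lemma bp_succ (k : ℕ) (p : ℝ) (j : ℤ) :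
    bp (k + 1) p j = (1 - p) * bp k p j + p * bp k p (j - 1) := by
  rcases lt_trichotomy j 0 with h | h | h
  · rw [bp_neg _ _ _ h, bp_neg _ _ _ h, bp_neg _ _ _ (by omega : j - 1 < 0)]
    ring
  · subst h
    rw [bp_neg k p (0 - 1) (by omega)]
    have h1 := bp_nat (k + 1) p 0
    have h2 := bp_nat k p 0
    rw [Nat.cast_zero] at h1 h2
    rw [h1, h2]
    simp [pow_succ]
    ring
  · obtain ⟨n, rfl⟩ : ∃ n : ℕ, j = (n : ℤ) + 1 := ⟨(j - 1).toNat, by omega⟩
    have h1 : ((n : ℤ) + 1) = ((n + 1 : ℕ) : ℤ) := by push_cast; ring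
    have h2 : ((n : ℤ) + 1 - 1) = (n : ℤ) := by ring
    rw [h2, h1, bp_nat, bp_nat, bp_nat, Nat.choose_succ_succ, Nat.add_sub_add_right]
    by_cases h : n + 1 ≤ k
    · have h4 : k - n = (k - (n + 1)) + 1 := by omega
      rw [h4, pow_succ, pow_succ]
      push_cast
      ring
    · rw [Nat.choose_eq_zero_of_lt (by omega : k < n + 1)]
      push_cast
      ring

/-- the sum over the subsets of given size -/
lemma rs_ind {s : ℝ} (hs : 0 < s) (l : List ℕ) (m : ℤ) (c : ℝ) :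
    rs l (fun j _ => s ^ j * (if (j : ℤ) = m then c else 0)) =
      (1 + s) ^ l.length * (bp l.length (s / (1 + s)) m * c) := by
  induction l generalizing m with
  | nil =>
    simp only [rs_nil, List.length_nil, pow_zero, one_mul]
    by_cases h : m = 0
    · subst h
      have h1 := bp_nat 0 (s / (1 + s)) 0
      rw [Nat.cast_zero] at h1
      rw [h1]
      simp
    · rw [if_neg (by intro h2; exact h (by rw [← h2]; simp))]
      have h1 : bp 0 (s / (1 + s)) m = 0 := by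
        unfold bp
        rw [if_neg (by push_cast; omega)]
      rw [h1]
      simp
  | cons y l ih =>
    simp only [rs_cons, List.length_cons]
    have h1 : rs l (fun j _ => s ^ (j + 1) * (if ((j + 1 : ℕ) : ℤ) = m then c else 0)) =
        s * rs l (fun j _ => s ^ j * (if (j : ℤ) = m - 1 then c else 0)) := by
      rw [← rs_mul]
      refine rs_congr _ _ _ fun j t _ _ => ?_
      by_cases h : ((j + 1 : ℕ) : ℤ) = m
      · rw [if_pos h, if_pos (by push_cast at h; omega)]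
        ring
      · rw [if_neg h, if_neg (by push_cast at h; omega)]
        ring
    rw [h1, ih, ih, bp_succ]
    have hp : 1 - s / (1 + s) = 1 / (1 + s) := by field_simp; ring
    rw [hp]
    have h2 : (1 + s) ^ (l.length + 1) *
        ((1 / (1 + s) * bp l.length (s / (1 + s)) m +
          s / (1 + s) * bp l.length (s / (1 + s)) (m - 1)) * c) =
        (1 + s) ^ l.length * (bp l.length (s / (1 + s)) m * c) +
          s * ((1 + s) ^ l.length * (bp l.length (s / (1 + s)) (m - 1) * c)) := by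
      rw [pow_succ]
      field_simp
    rw [h2]

lemma bp_le_one {s : ℝ} (hs : 0 < s) (l : List ℕ) (m : ℤ) :
    bp l.length (s / (1 + s)) m ≤ 1 := by
  have h1 := rs_ind hs l m 1
  have h2 : rs l (fun j _ => s ^ j * (if (j : ℤ) = m then (1 : ℝ) else 0)) ≤
      rs l (fun j _ => s ^ j) := by
    refine rs_mono _ _ _ fun j t _ _ => ?_
    have h3 : 0 < s ^ j := by positivity
    split_ifs
    · linarith
    · linarith
  rw [h1, rs_pow, mul_one] at h2
  have h3 : 0 < (1 + s) ^ l.length := by positivity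
  nlinarith

/-! ### the words -/

lemma key {n k : ℕ} {σ : Fin k → Sk} (h : IsSk0 n k σ) (s : ℝ) (G : ℤ → ℤ → ℝ) :
    ∑ q ∈ Omn n, wtq n s q * G (sp q) (arq n q) =
      ∑ i, s ^ (n - (σ i).H) * rs (σ i).l (fun j t => s ^ j *
        G ((σ i).H - j) ((σ i).A - t)) := by
  have h1 := h.repr (fun a b _ => s ^ (n - a.toNat) * G a b)
  have h2 : ∀ q ∈ Omn n, wtq n s q * G (sp q) (arq n q) =
      s ^ (n - (sp q : ℤ).toNat) * G (sp q) (arq n q) := fun q _ => by
    rw [Int.toNat_natCast]; rfl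
  rw [sum_congr rfl h2, h1]
  refine sum_congr rfl fun i _ => ?_
  rw [← rs_mul]
  refine rs_congr _ _ _ fun j t hj ht => ?_
  have h3 := h.len_le i
  have h4 := h.H_le i
  rw [← mul_assoc, ← pow_add]
  congr 2
  omega

variable {n k : ℕ} {σ : Fin k → Sk} {s : ℝ}

lemma vpos (hs : 0 < s) (i : Fin k) : 0 ≤ vsk n s (σ i) := by
  unfold vsk
  positivity

lemma area_ge (h : IsSk0 n k σ) (i : Fin k) {t : ℕ} (ht : t ≤ (σ i).l.sum) :
    3 / 4 * ((σ i).A : ℝ) ≤ ((((σ i).A : ℤ) - (t : ℤ) : ℤ) : ℝ) ∧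
      ((((σ i).A : ℤ) - (t : ℤ) : ℤ) : ℝ) ≤ ((σ i).A : ℝ) := by
  have h1 := h.sum_le i
  have h2 : 4 * (t : ℝ) ≤ ((σ i).A : ℝ) := by
    have : 4 * t ≤ (σ i).A := by omega
    exact_mod_cast this
  have h3 : (0 : ℝ) ≤ t := by positivity
  push_cast
  constructor <;> linarith

lemma scpos (hn : 1 ≤ n) : 0 < sc n := by
  have h1 : (1 : ℝ) ≤ n := by exact_mod_cast hn
  unfold sc
  have : 0 < Real.sqrt n := Real.sqrt_pos.2 (by linarith)
  positivity

lemma sumA (h : IsSk0 n k σ) (hs : 0 < s) (hn : 1 ≤ n) (r : ℕ) :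
    ∑ i, vsk n s (σ i) * (((σ i).A : ℝ) / sc n) ^ r ≤
      (4 / 3) ^ r * ∑ q ∈ Omn n, wtq n s q * ra n q ^ r := by
  have h1 := key h s (fun _ b => ((b : ℝ) / sc n) ^ r)
  have h2 : ∑ q ∈ Omn n, wtq n s q * ra n q ^ r =
      ∑ q ∈ Omn n, wtq n s q * ((((arq n q : ℕ) : ℤ) : ℝ) / sc n) ^ r := by
    refine sum_congr rfl fun q _ => ?_
    unfold ra
    push_cast
    rfl
  rw [h2, h1, mul_sum]
  have hsc := scpos hn
  refine sum_le_sum fun i _ => ?_
  unfold vsk
  have h3 : (1 + s) ^ (σ i).l.length * (((σ i).A : ℝ) / sc n) ^ r ≤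
      (4 / 3) ^ r * rs (σ i).l (fun j t => s ^ j *
        ((((((σ i).A : ℤ) - (t : ℤ) : ℤ)) : ℝ) / sc n) ^ r) := by
    rw [← rs_pow, mul_comm, ← rs_mul, ← rs_mul]
    refine rs_mono _ _ _ fun j t _ ht => ?_
    obtain ⟨h4, _⟩ := area_ge h i ht
    have h5 : ((σ i).A : ℝ) / sc n ≤ 4 / 3 * (((((σ i).A : ℤ) - (t : ℤ) : ℤ) : ℝ) / sc n) := by
      rw [← mul_div_assoc]
      refine div_le_div_of_nonneg_right ?_ hsc.le
      linarith
    have h6 : (0 : ℝ) ≤ ((σ i).A : ℝ) / sc n := by positivity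
    have h7 := pow_le_pow_left₀ h6 h5 r
    rw [mul_pow] at h7
    have h8 : 0 ≤ s ^ j := by positivity
    calc (((σ i).A : ℝ) / sc n) ^ r * s ^ j ≤
        ((4 / 3) ^ r * (((((σ i).A : ℤ) - (t : ℤ) : ℤ) : ℝ) / sc n) ^ r) * s ^ j :=
          mul_le_mul_of_nonneg_right h7 h8
      _ = _ := by ring
  calc s ^ (n - (σ i).H) * (1 + s) ^ (σ i).l.length * (((σ i).A : ℝ) / sc n) ^ r
      = s ^ (n - (σ i).H) * ((1 + s) ^ (σ i).l.length * (((σ i).A : ℝ) / sc n) ^ r) := by ring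
    _ ≤ s ^ (n - (σ i).H) * ((4 / 3) ^ r * rs (σ i).l (fun j t => s ^ j *
        ((((((σ i).A : ℤ) - (t : ℤ) : ℤ)) : ℝ) / sc n) ^ r)) :=
        mul_le_mul_of_nonneg_left h3 (by positivity)
    _ = _ := by ring

lemma small_a (h : IsSk0 n k σ) (hn : 1 ≤ n) (i : Fin k) (r : ℕ) :
    (((σ i).A : ℝ) / sc n) ^ r ≤ (2 * (n : ℝ)) ^ r := by
  have h1 : ((σ i).A : ℝ) ≤ 2 * (n : ℝ) ^ 2 := by exact_mod_cast h.A_le i
  have hn' : (1 : ℝ) ≤ n := by exact_mod_cast hn
  have hsc := scpos hn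
  refine pow_le_pow_left₀ (by positivity) ?_ r
  rw [div_le_iff₀ hsc]
  have h2 : (1 : ℝ) ≤ Real.sqrt n := by rwa [Real.one_le_sqrt]
  have h3 : (n : ℝ) ≤ sc n := by
    unfold sc
    nlinarith
  nlinarith

/-- the sum over the words of span `h` -/
lemma U_le (h : IsSk0 n k σ) (hs : 0 < s) (hn : 1 ≤ n) (hh r : ℕ) :
    U n s hh (fun a => a ^ r) ≤ ∑ i, vsk n s (σ i) *
      (bp (σ i).l.length (s / (1 + s)) ((σ i).H - hh) * (((σ i).A : ℝ) / sc n) ^ r) := by
  have h1 := key h s (fun a b => if a = (hh : ℤ) then ((b : ℝ) / sc n) ^ r else 0)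
  have h2 : U n s hh (fun a => a ^ r) =
      ∑ q ∈ Omn n, wtq n s q * (if (sp q : ℤ) = (hh : ℤ) then
        ((((arq n q : ℕ) : ℤ) : ℝ) / sc n) ^ r else 0) := by
    unfold U ra
    rw [sum_filter]
    refine sum_congr rfl fun q _ => ?_
    by_cases h3 : sp q = hh
    · rw [if_pos h3, if_pos (by exact_mod_cast h3)]
      push_cast
      rfl
    · rw [if_neg h3, if_neg (by exact_mod_cast h3), mul_zero]
  rw [h2, h1]
  have hsc := scpos hn
  refine sum_le_sum fun i _ => ?_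
  unfold vsk
  rw [mul_assoc]
  refine mul_le_mul_of_nonneg_left ?_ (by positivity)
  rw [← rs_ind hs]
  refine rs_mono _ _ _ fun j t _ ht => ?_
  refine mul_le_mul_of_nonneg_left ?_ (by positivity)
  obtain ⟨h4, h5⟩ := area_ge h i ht
  by_cases h3 : (j : ℤ) = (σ i).H - hh
  · rw [if_pos (by omega), if_pos h3]
    have h6 : (0 : ℝ) ≤ ((((σ i).A : ℤ) - (t : ℤ) : ℤ) : ℝ) := le_trans (by positivity) h4
    exact pow_le_pow_left₀ (div_nonneg h6 hsc.le) (div_le_div_of_nonneg_right h5 hsc.le) r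
  · rw [if_neg (by omega), if_neg h3]

lemma exp_bound (c : ℝ) (hc : 0 < c) (n r : ℕ) :
    (n : ℝ) ^ (r + 1) * Real.exp (-(c * n)) ≤ (r + 1).factorial / c ^ (r + 1) := by
  have h1 := Real.pow_div_factorial_le_exp (c * n) (by positivity) (r + 1)
  have h2 : (0 : ℝ) < (r + 1).factorial := by positivity
  rw [div_le_iff₀ h2] at h1
  rw [Real.exp_neg, ← div_eq_mul_inv, div_le_div_iff₀ (Real.exp_pos _) (by positivity)]
  rw [mul_pow] at h1
  linarith

end LOCMZ

theorem t_LOCMZ (hS : SKZ_Stmt) (hK : KBGZ_Stmt) (hB : BINZ_Stmt) (hA : ARMR_Stmt) :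
    LOCMZ_Stmt := by
  intro r
  obtain ⟨CA, hCA, N1, h1⟩ := hA (1 / 4) (by norm_num) (by norm_num) r
  obtain ⟨c, hc, N2, hN2, h2⟩ := hK
  obtain ⟨CB, hCB, h3⟩ := hB.1
  refine ⟨CB / Real.sqrt (c / 2) * ((4 / 3) ^ r * CA) +
    2 ^ r * ((r + 1).factorial / c ^ (r + 1)), by positivity, max N1 N2, ?_⟩
  intro n hn s hs4 hsn h
  have hnN1 : N1 ≤ n := (le_max_left _ _).trans hn
  have hnN2 : N2 ≤ n := (le_max_right _ _).trans hn
  have hn6 : 6 ≤ n := hN2.trans hnN2
  have hn1 : 1 ≤ n := by omega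
  have hn' : (6 : ℝ) ≤ n := by exact_mod_cast hn6
  have hs : 0 < s := by
    by_contra hcon
    have : s ≤ 0 := not_lt.mp hcon
    nlinarith
  obtain ⟨k, σ, hσ⟩ := hS n hn6
  have hA1 := (h1 n hnN1 s hs hs4).1
  have hK1 := h2 n hnN2 s hs hs4 k σ hσ
  have hZ : 0 ≤ Zq n s := by
    unfold Zq
    refine sum_nonneg fun q _ => ?_
    unfold wtq
    positivity
  have hv : 0 < s * n := by positivity
  have hsv : 0 < Real.sqrt (s * n) := Real.sqrt_pos.2 hv
  have hsc2 : 0 < Real.sqrt (c / 2) := Real.sqrt_pos.2 (by positivity)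
  -- the binomial weights of the long skeletons
  have hbig : ∀ i : Fin k, c * n ≤ ((σ i).l.length : ℝ) →
      bp (σ i).l.length (s / (1 + s)) ((σ i).H - h) ≤
        CB / (Real.sqrt (c / 2) * Real.sqrt (s * n)) := by
    intro i hi
    have hl : 1 ≤ (σ i).l.length := by
      by_contra hcon
      have h0 : (σ i).l.length = 0 := by omega
      rw [h0] at hi
      have : 0 < c * n := by positivity
      push_cast at hi
      linarith
    have hp0 : 0 < s / (1 + s) := by positivity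
    have hp1 : s / (1 + s) ≤ 1 / 2 := by
      rw [div_le_div_iff₀ (by positivity) (by norm_num)]
      linarith
    refine (h3 (s / (1 + s)) hp0 hp1 _ _ hl).1.trans ?_
    rw [← Real.sqrt_mul (by positivity)]
    have hpge : s / 2 ≤ s / (1 + s) := by
      apply div_le_div_of_nonneg_left hs.le (by positivity)
      linarith
    have h5 : c / 2 * (s * n) ≤ ((σ i).l.length : ℝ) * (s / (1 + s)) := by
      calc c / 2 * (s * n) = c * n * (s / 2) := by ring
        _ ≤ _ := mul_le_mul hi hpge (by positivity) (by positivity)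
    exact div_le_div_of_nonneg_left hCB.le (Real.sqrt_pos.2 (by positivity))
      (Real.sqrt_le_sqrt h5)
  have hall : ∀ i : Fin k, vsk n s (σ i) *
      (bp (σ i).l.length (s / (1 + s)) ((σ i).H - h) * (((σ i).A : ℝ) / sc n) ^ r) ≤
      CB / (Real.sqrt (c / 2) * Real.sqrt (s * n)) *
        (vsk n s (σ i) * (((σ i).A : ℝ) / sc n) ^ r) +
      (if ((σ i).l.length : ℝ) < c * n then vsk n s (σ i) * (2 * (n : ℝ)) ^ r else 0) := by
    intro i
    have hvi : 0 ≤ vsk n s (σ i) := LOCMZ.vpos hs i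
    have hai : 0 ≤ (((σ i).A : ℝ) / sc n) ^ r := by
      have := LOCMZ.scpos hn1
      positivity
    by_cases hi : ((σ i).l.length : ℝ) < c * n
    · rw [if_pos hi]
      have h6 : bp (σ i).l.length (s / (1 + s)) ((σ i).H - h) * (((σ i).A : ℝ) / sc n) ^ r ≤
          1 * (2 * (n : ℝ)) ^ r :=
        mul_le_mul (LOCMZ.bp_le_one hs _ _) (LOCMZ.small_a hσ hn1 i r) hai (by norm_num)
      rw [one_mul] at h6
      have h7 := mul_le_mul_of_nonneg_left h6 hvi
      have h8 : 0 ≤ CB / (Real.sqrt (c / 2) * Real.sqrt (s * n)) *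
        (vsk n s (σ i) * (((σ i).A : ℝ) / sc n) ^ r) := by positivity
      linarith
    · rw [if_neg hi, add_zero]
      have h6 := hbig i (not_lt.1 hi)
      calc _ ≤ vsk n s (σ i) * (CB / (Real.sqrt (c / 2) * Real.sqrt (s * n)) *
            (((σ i).A : ℝ) / sc n) ^ r) :=
            mul_le_mul_of_nonneg_left (mul_le_mul_of_nonneg_right h6 hai) hvi
        _ = _ := by ring
  refine (LOCMZ.U_le hσ hs hn1 h r).trans ((sum_le_sum fun i _ => hall i).trans ?_)
  rw [sum_add_distrib, ← mul_sum, ← sum_filter, ← sum_mul]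
  -- first part
  have e1 : CB / (Real.sqrt (c / 2) * Real.sqrt (s * n)) *
      ∑ i, vsk n s (σ i) * (((σ i).A : ℝ) / sc n) ^ r ≤
      (CB / Real.sqrt (c / 2) * ((4 / 3) ^ r * CA)) / Real.sqrt (s * n) * Zq n s := by
    have h5 := LOCMZ.sumA hσ hs hn1 r
    have h6 : ∑ i, vsk n s (σ i) * (((σ i).A : ℝ) / sc n) ^ r ≤ (4 / 3) ^ r * (CA * Zq n s) :=
      h5.trans (mul_le_mul_of_nonneg_left hA1 (by positivity))
    calc _ ≤ CB / (Real.sqrt (c / 2) * Real.sqrt (s * n)) * ((4 / 3) ^ r * (CA * Zq n s)) :=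
          mul_le_mul_of_nonneg_left h6 (by positivity)
      _ = _ := by
        field_simp
  -- second part
  have e2 : (∑ i ∈ univ.filter (fun i : Fin k => ((σ i).l.length : ℝ) < c * n), vsk n s (σ i)) *
      (2 * (n : ℝ)) ^ r ≤
      (2 ^ r * ((r + 1).factorial / c ^ (r + 1))) / Real.sqrt (s * n) * Zq n s := by
    have h5 := LOCMZ.exp_bound c hc n r
    have h6 : Real.sqrt (s * n) ≤ n := by
      apply Real.sqrt_le_iff.2
      refine ⟨by positivity, ?_⟩
      nlinarith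
    calc _ ≤ Real.exp (-(c * n)) * Zq n s * (2 * (n : ℝ)) ^ r :=
          mul_le_mul_of_nonneg_right hK1 (by positivity)
      _ = (2 ^ r * (Real.exp (-(c * n)) * (n : ℝ) ^ r)) * Zq n s := by rw [mul_pow]; ring
      _ ≤ _ := by
        refine mul_le_mul_of_nonneg_right ?_ hZ
        rw [le_div_iff₀ hsv]
        have h7 : Real.exp (-(c * n)) * (n : ℝ) ^ r * Real.sqrt (s * n) ≤
            (r + 1).factorial / c ^ (r + 1) := by
          calc Real.exp (-(c * n)) * (n : ℝ) ^ r * Real.sqrt (s * n) ≤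
              Real.exp (-(c * n)) * (n : ℝ) ^ r * n :=
                mul_le_mul_of_nonneg_left h6 (by positivity)
            _ = (n : ℝ) ^ (r + 1) * Real.exp (-(c * n)) := by rw [pow_succ]; ring
            _ ≤ _ := h5
        calc _ = 2 ^ r * (Real.exp (-(c * n)) * (n : ℝ) ^ r * Real.sqrt (s * n)) := by ring
          _ ≤ _ := mul_le_mul_of_nonneg_left h7 (by positivity)
  calc _ ≤ (CB / Real.sqrt (c / 2) * ((4 / 3) ^ r * CA)) / Real.sqrt (s * n) * Zq n s +
      (2 ^ r * ((r + 1).factorial / c ^ (r + 1))) / Real.sqrt (s * n) * Zq n s :=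
        add_le_add e1 e2
    _ = _ := by ring

end Pool.Agent.NSP
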