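import Pool.Agent.NSP.Stmts
import Pool.Agent.Lib_helper74.FS.LOC

set_option autoImplicit false

/-!
# NSP_LOCZ: local regularity for spans close to the half perimeter (MP_f6626d_co)
-/

namespace Pool.Agent.NSP.LOCZ

open Finset Filter Topology MeasureTheory
open Pool.Agent.Lib27 Pool.Agent.SapR Pool.Agent.Gap Pool.Agent.AreaLaw Pool.Agent.FL
open Pool.Agent.FS Pool.Agent.FS.LOC

lemma key0 {n k : ℕ} {σ : Fin k → Sk} (h : IsSk0 n k σ) (s : ℝ) (G : ℤ → ℤ → ℤ → ℝ) :
    ∑ q ∈ Omn n, wtq n s q * G (sp q) (arq n q) (dq q) =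
      ∑ i, s ^ (n - (σ i).H) * rs (σ i).l (fun j t => s ^ j * G ((σ i).H - j) ((σ i).A - t)
        ((σ i).L - t + dlt0 * j)) := by
  have h1 := h.repr (fun a b c => s ^ (n - a.toNat) * G a b c)
  have h2 : ∀ q ∈ Omn n, wtq n s q * G (sp q) (arq n q) (dq q) =
      s ^ (n - (sp q : ℤ).toNat) * G (sp q) (arq n q) (dq q) := fun q _ => by
    rw [Int.toNat_natCast]; rfl
  rw [sum_congr rfl h2, h1]
  refine sum_congr rfl fun i _ => ?_
  rw [← rs_mul]
  refine rs_congr _ _ _ fun j t hj ht => ?_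
  have h3 := h.len_le i
  have h4 := h.H_le i
  rw [← mul_assoc, ← pow_add]
  congr 2
  omega

/-! ### sums over subsets -/

lemma rs_t_zero (l : List ℕ) : rs l (fun j t => if j = 0 then (t : ℝ) else 0) = 0 := by
  induction l with
  | nil => simp
  | cons y l ih =>
    simp only [rs_cons]
    rw [ih, zero_add]
    refine (rs_congr l _ (fun _ _ => (0 : ℝ)) fun j t _ _ => ?_).trans (rs_zero l)
    rw [if_neg (by omega)]

lemma rs_t_succ (hS : SMP_Stmt) (l : List ℕ) : ∀ m : ℕ,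
    rs l (fun j t => if j = m + 1 then (t : ℝ) else 0) =
      (((l.length - 1).choose m : ℕ) : ℝ) * (l.sum : ℝ) := by
  induction l with
  | nil => intro m; simp
  | cons y l ih =>
    intro m
    simp only [rs_cons]
    have h1 : rs l (fun j t => if j + 1 = m + 1 then ((t + y : ℕ) : ℝ) else 0) =
        rs l (fun j t => if j = m then (t : ℝ) else 0) + (y : ℝ) * ((l.length.choose m : ℕ) : ℝ) := by
      have h2 : rs l (fun j _ => if j = m then (1 : ℝ) else 0) = ((l.length.choose m : ℕ) : ℝ) := by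
        rw [(hS l).1 (fun j => if j = m then (1 : ℝ) else 0)]
        by_cases hm : m ∈ range (l.length + 1)
        · rw [sum_eq_single m]
          · simp
          · intro b _ hb
            rw [if_neg hb, mul_zero]
          · intro h
            exact absurd hm h
        · have h3 : l.length < m := by
            rw [mem_range] at hm
            omega
          rw [Nat.choose_eq_zero_of_lt h3, Nat.cast_zero]
          refine sum_eq_zero fun j hj => ?_
          have := mem_range.1 hj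
          rw [if_neg (by omega), mul_zero]
      rw [← h2, ← rs_mul, ← rs_add]
      refine rs_congr _ _ _ fun j t _ _ => ?_
      by_cases h : j = m
      · rw [if_pos (by omega), if_pos h, if_pos h]
        push_cast
        ring
      · rw [if_neg (by omega), if_neg h, if_neg h]
        ring
    rw [h1, ih m]
    have hcons : (y :: l).length - 1 = l.length := by simp
    rw [hcons, List.sum_cons]
    cases m with
    | zero =>
      rw [rs_t_zero]
      simp only [Nat.choose_zero_right, Nat.cast_one]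
      push_cast
      ring
    | succ m =>
      rw [ih m]
      rcases Nat.eq_zero_or_pos l.length with h0 | h0
      · have hl : l = [] := List.eq_nil_of_length_eq_zero h0
        subst hl
        simp
      · obtain ⟨r, hr⟩ : ∃ r, l.length = r + 1 := ⟨l.length - 1, by omega⟩
        rw [hr, Nat.add_sub_cancel, Nat.choose_succ_succ]
        push_cast
        ring

/-- total of the sums of the subsets of given size -/
lemma rs_tot (hS : SMP_Stmt) {s : ℝ} (hs : 0 < s) (l : List ℕ) (m : ℤ) :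
    rs l (fun j t => s ^ j * (if (j : ℤ) = m then (t : ℝ) else 0)) =
      (1 + s) ^ l.length * (bp l.length (s / (1 + s)) m * m * (l.sum / l.length)) := by
  by_cases hm : 0 ≤ m ∧ m ≤ l.length
  · obtain ⟨j0, hj0⟩ : ∃ j0 : ℕ, (j0 : ℤ) = m := ⟨m.toNat, Int.toNat_of_nonneg hm.1⟩
    subst hj0
    have hj : j0 ≤ l.length := by exact_mod_cast hm.2
    have h1 : rs l (fun j t => s ^ j * (if (j : ℤ) = (j0 : ℤ) then (t : ℝ) else 0)) =
        s ^ j0 * rs l (fun j t => if j = j0 then (t : ℝ) else 0) := by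
      rw [← rs_mul]
      refine rs_congr _ _ _ fun j t _ _ => ?_
      by_cases h : j = j0
      · subst h
        rw [if_pos rfl, if_pos rfl]
      · rw [if_neg (by exact_mod_cast h), if_neg h, mul_zero, mul_zero]
    rw [h1]
    cases j0 with
    | zero =>
      rw [rs_t_zero]
      simp
    | succ r =>
      rw [rs_t_succ hS l r]
      have h6 := choose_pow hs hj
      obtain ⟨k, hk⟩ : ∃ k, l.length = k + 1 := ⟨l.length - 1, by omega⟩
      rw [hk] at h6 ⊢
      rw [Nat.add_sub_cancel]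
      have h7 : ((k : ℝ) + 1) * (k.choose r : ℝ) = ((k + 1).choose (r + 1) : ℝ) * ((r : ℝ) + 1) := by
        exact_mod_cast Nat.add_one_mul_choose_eq k r
      have hk0 : (0 : ℝ) < (k : ℝ) + 1 := by positivity
      have h8 : (k.choose r : ℝ) = ((k + 1).choose (r + 1) : ℝ) * ((r : ℝ) + 1) / ((k : ℝ) + 1) := by
        rw [eq_div_iff hk0.ne', ← h7]
        ring
      have e1 : (((r + 1 : ℕ) : ℤ) : ℝ) = (r : ℝ) + 1 := by push_cast; ring
      have e2 : ((k + 1 : ℕ) : ℝ) = (k : ℝ) + 1 := by push_cast; ring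
      rw [h8, e1, e2]
      calc s ^ (r + 1) * (((k + 1).choose (r + 1) : ℝ) * ((r : ℝ) + 1) / ((k : ℝ) + 1) * (l.sum : ℝ))
          = (((k + 1).choose (r + 1) : ℝ) * s ^ (r + 1)) * (((r : ℝ) + 1) *
            ((l.sum : ℝ) / ((k : ℝ) + 1))) := by ring
        _ = _ := by rw [h6]; ring
  · have h0 : bp l.length (s / (1 + s)) m = 0 := by
      unfold bp
      rw [if_neg hm]
    rw [h0, zero_mul, zero_mul, mul_zero]
    refine (rs_congr l _ (fun _ _ => (0 : ℝ)) fun j t hj _ => ?_).trans (rs_zero l)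
    rw [if_neg (by intro h; apply hm; rw [← h]; constructor <;> omega)]
    ring

lemma bp_le_one (hS : SMP_Stmt) {s : ℝ} (hs : 0 < s) (l : List ℕ) (m : ℤ) :
    bp l.length (s / (1 + s)) m ≤ 1 := by
  have h1 := rs_ind hS hs l m 1
  have h2 : rs l (fun j _ => s ^ j * (if (j : ℤ) = m then (1 : ℝ) else 0)) ≤
      rs l (fun j _ => s ^ j) := by
    refine rs_mono _ _ _ fun j t _ _ => ?_
    have : 0 ≤ s ^ j := by positivity
    split_ifs <;> linarith
  rw [h1, rs_pow, mul_one] at h2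
  have h3 : 0 < (1 + s) ^ l.length := by positivity
  nlinarith

lemma bp_lip0 {p D : ℝ} {k : ℕ}
    (h : ∀ j : ℤ, |bp k p (j + 1) - bp k p j| ≤ D) (a b : ℤ) :
    |bp k p a - bp k p b| ≤ |(a : ℝ) - b| * D := by
  have h1 : ∀ (d : ℕ) (a : ℤ), |bp k p (a + d) - bp k p a| ≤ d * D := by
    intro d
    induction d with
    | zero => intro a; simp
    | succ d ih =>
      intro a
      have h2 := ih a
      have h3 := h (a + d)
      have e : bp k p (a + ((d + 1 : ℕ) : ℤ)) - bp k p a =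
          (bp k p (a + d + 1) - bp k p (a + d)) + (bp k p (a + d) - bp k p a) := by
        have : a + ((d + 1 : ℕ) : ℤ) = a + d + 1 := by push_cast; ring
        rw [this]; ring
      rw [e]
      refine (abs_add_le _ _).trans ?_
      push_cast
      linarith
  rcases le_total b a with hab | hab
  · obtain ⟨d, hd⟩ := Int.eq_ofNat_of_zero_le (show 0 ≤ a - b by omega)
    have h2 := h1 d b
    have e : b + (d : ℤ) = a := by omega
    rw [e] at h2
    have h3 : |(a : ℝ) - b| = d := by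
      have : (a : ℝ) - b = d := by
        have := congrArg (fun z : ℤ => (z : ℝ)) hd
        push_cast at this
        exact this
      rw [this]
      exact abs_of_nonneg (by positivity)
    rw [h3]
    exact h2
  · obtain ⟨d, hd⟩ := Int.eq_ofNat_of_zero_le (show 0 ≤ b - a by omega)
    have h2 := h1 d a
    have e : a + (d : ℤ) = b := by omega
    rw [e] at h2
    have h3 : |(a : ℝ) - b| = d := by
      have : (b : ℝ) - a = d := by
        have := congrArg (fun z : ℤ => (z : ℝ)) hd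
        push_cast at this
        exact this
      rw [abs_sub_comm, this]
      exact abs_of_nonneg (by positivity)
    rw [h3, abs_sub_comm]
    exact h2

/-! ### the context -/

structure Ctx (n k : ℕ) (σ : Fin k → Sk) (s c CA CB : ℝ) : Prop where
  sk : IsSk0 n k σ
  hn : 3 ≤ n
  hs : 0 < s
  hs1 : s ≤ 1 / 4
  hsn : 1 ≤ s * n
  hc : 0 < c
  hCA : 0 < CA
  hCB : 0 < CB
  smp : SMP_Stmt
  arm1 : ∑ q ∈ Omn n, wtq n s q * ra n q ^ 2 ≤ CA * Zq n s
  arm3 : ∑ q ∈ Omn n, wtq n s q * |(dq q : ℝ) - (arq n q : ℝ)| ≤ CA * (n * Real.log n) * Zq n s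
  kb : ∑ i ∈ univ.filter (fun i : Fin k => ((σ i).l.length : ℝ) < c * n), vsk n s (σ i) ≤
      1 / (n : ℝ) ^ 3 * Zq n s
  bin : ∀ (m : ℕ) (j : ℤ), 1 ≤ m → bp m (s / (1 + s)) j ≤ CB / Real.sqrt (m * (s / (1 + s))) ∧
    |bp m (s / (1 + s)) (j + 1) - bp m (s / (1 + s)) j| ≤ CB / (m * (s / (1 + s))) ∧
    bp m (s / (1 + s)) j * j ≤ CB * Real.sqrt (m * (s / (1 + s)))

variable {n k : ℕ} {σ : Fin k → Sk} {s c CA CB : ℝ}

lemma Ctx.n1 (X : Ctx n k σ s c CA CB) : (3 : ℝ) ≤ n := by exact_mod_cast X.hn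

lemma Ctx.vpos (X : Ctx n k σ s c CA CB) (i : Fin k) : 0 ≤ vsk n s (σ i) := by
  unfold vsk
  have := X.hs
  positivity

lemma Ctx.p0 (X : Ctx n k σ s c CA CB) : 0 < s / (1 + s) := by
  have := X.hs
  positivity

lemma Ctx.p1 (X : Ctx n k σ s c CA CB) : s / (1 + s) ≤ 1 := by
  have := X.hs
  rw [div_le_one (by positivity)]
  linarith

lemma Ctx.p_le (X : Ctx n k σ s c CA CB) : s / (1 + s) ≤ s := by
  have := X.hs
  rw [div_le_iff₀ (by positivity)]
  nlinarith

lemma Ctx.p_ge (X : Ctx n k σ s c CA CB) : s / 2 ≤ s / (1 + s) := by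
  have := X.hs
  have := X.hs1
  exact div_le_div_of_nonneg_left X.hs.le (by positivity) (by linarith)

lemma Ctx.snpos (X : Ctx n k σ s c CA CB) : 0 < s * n := lt_of_lt_of_le one_pos X.hsn

lemma Ctx.sn_le (X : Ctx n k σ s c CA CB) : s * n ≤ n := by
  have := X.hs1
  have := X.n1
  nlinarith

lemma Ctx.kp (X : Ctx n k σ s c CA CB) (m : ℕ) (hm : c * n ≤ m) :
    c / 2 * (s * n) ≤ m * (s / (1 + s)) := by
  have h1 := X.p_ge
  have h2 := X.p0
  have hc := X.hc
  have hn := X.n1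
  have hs := X.hs
  calc c / 2 * (s * n) = (c * n) * (s / 2) := by ring
    _ ≤ m * (s / (1 + s)) := mul_le_mul hm h1 (by positivity) (by positivity)

lemma Ctx.Z (X : Ctx n k σ s c CA CB) : Zq n s = ∑ i, vsk n s (σ i) := by
  have h := key0 X.sk s (fun _ _ _ => 1)
  simp only [mul_one] at h
  unfold Zq
  rw [h]
  refine sum_congr rfl fun i _ => ?_
  rw [rs_pow]
  rfl

lemma Ctx.Zpos (X : Ctx n k σ s c CA CB) : 0 ≤ Zq n s := by
  rw [X.Z]
  exact sum_nonneg fun i _ => X.vpos i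

lemma Ctx.scpos (X : Ctx n k σ s c CA CB) : 0 < sc n := by
  have := X.n1
  unfold sc
  have : 0 < Real.sqrt n := Real.sqrt_pos.2 (by linarith)
  positivity

lemma Ctx.bple (X : Ctx n k σ s c CA CB) (i : Fin k) (j : ℤ) :
    bp (σ i).l.length (s / (1 + s)) j ≤ 1 := bp_le_one X.smp X.hs _ _

lemma Ctx.bpbig (X : Ctx n k σ s c CA CB) (m : ℕ) (j : ℤ) (hm : c * n ≤ m) :
    bp m (s / (1 + s)) j ≤ CB / (Real.sqrt (c / 2) * Real.sqrt (s * n)) := by
  have hc := X.hc
  have hn := X.n1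
  have hCB := X.hCB
  have h1 : 1 ≤ m := by
    by_contra h
    have : m = 0 := by omega
    rw [this] at hm
    have : 0 < c * n := by positivity
    push_cast at hm
    linarith
  refine (X.bin m j h1).1.trans ?_
  rw [← Real.sqrt_mul (by positivity)]
  have h2 : Real.sqrt (c / 2 * (s * n)) ≤ Real.sqrt (m * (s / (1 + s))) :=
    Real.sqrt_le_sqrt (X.kp m hm)
  have h3 : 0 < Real.sqrt (c / 2 * (s * n)) := Real.sqrt_pos.2 (by have := X.snpos; positivity)
  exact div_le_div_of_nonneg_left hCB.le h3 h2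

lemma Ctx.split (X : Ctx n k σ s c CA CB) (f g : Fin k → ℝ) (D : ℝ)
    (hD : 0 ≤ D) (hg : ∀ i, 0 ≤ g i)
    (hbig : ∀ i, c * n ≤ ((σ i).l.length : ℝ) → f i ≤ vsk n s (σ i) * g i)
    (hsmall : ∀ i, f i ≤ vsk n s (σ i) * D) :
    ∑ i, f i ≤ ∑ i, vsk n s (σ i) * g i + D / (n : ℝ) ^ 3 * Zq n s := by
  have h1 : ∀ i, f i ≤ vsk n s (σ i) * g i +
      (if ((σ i).l.length : ℝ) < c * n then vsk n s (σ i) * D else 0) := by
    intro i
    have hv := X.vpos i
    by_cases h : ((σ i).l.length : ℝ) < c * n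
    · rw [if_pos h]
      have := hsmall i
      have := mul_nonneg hv (hg i)
      linarith
    · rw [if_neg h]
      have := hbig i (not_lt.1 h)
      linarith
  refine (sum_le_sum fun i _ => h1 i).trans ?_
  rw [sum_add_distrib]
  refine add_le_add le_rfl ?_
  rw [← sum_filter, ← sum_mul]
  calc _ ≤ 1 / (n : ℝ) ^ 3 * Zq n s * D := mul_le_mul_of_nonneg_right X.kb hD
    _ = _ := by ring

lemma Ctx.area_ge (X : Ctx n k σ s c CA CB) (i : Fin k) {t : ℕ} (ht : t ≤ (σ i).l.sum) :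
    3 / 4 * ((σ i).A : ℝ) ≤ ((((σ i).A : ℤ) - (t : ℤ) : ℤ) : ℝ) ∧
      ((((σ i).A : ℤ) - (t : ℤ) : ℤ) : ℝ) ≤ ((σ i).A : ℝ) := by
  have h1 := X.sk.sum_le i
  have h2 : 4 * (t : ℝ) ≤ ((σ i).A : ℝ) := by
    have : 4 * t ≤ (σ i).A := by omega
    exact_mod_cast this
  have h3 : (0 : ℝ) ≤ t := by positivity
  push_cast
  constructor <;> linarith

lemma Ctx.sumA (X : Ctx n k σ s c CA CB) :
    ∑ i, vsk n s (σ i) * (((σ i).A : ℝ) / sc n) ^ 2 ≤ 2 * CA * Zq n s := by
  have h := key0 X.sk s (fun _ b _ => ((b : ℝ) / sc n) ^ 2)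
  have h1 := X.arm1
  have h2 : ∑ q ∈ Omn n, wtq n s q * ra n q ^ 2 = ∑ q ∈ Omn n, wtq n s q * ((((arq n q : ℕ) : ℤ) : ℝ) / sc n) ^ 2 := by
    refine sum_congr rfl fun q _ => ?_
    unfold ra
    push_cast
    rfl
  rw [h2, h] at h1
  have hs := X.hs
  have hsc := X.scpos
  have h3 : ∑ i, vsk n s (σ i) * (9 / 16 * (((σ i).A : ℝ) / sc n) ^ 2) ≤
      ∑ i, s ^ (n - (σ i).H) * rs (σ i).l (fun j t => s ^ j *
        ((((((σ i).A : ℤ) - (t : ℤ) : ℤ)) : ℝ) / sc n) ^ 2) := by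
    refine sum_le_sum fun i _ => ?_
    unfold vsk
    rw [mul_assoc]
    refine mul_le_mul_of_nonneg_left ?_ (by positivity)
    rw [← rs_pow, mul_comm, ← rs_mul]
    refine rs_mono _ _ _ fun j t _ ht => ?_
    obtain ⟨h4, _⟩ := X.area_ge i ht
    rw [mul_comm]
    refine mul_le_mul_of_nonneg_left ?_ (by positivity)
    have h5 : 3 / 4 * (((σ i).A : ℝ) / sc n) ≤ ((((σ i).A : ℤ) - (t : ℤ) : ℤ) : ℝ) / sc n := by
      rw [← mul_div_assoc]
      exact div_le_div_of_nonneg_right h4 hsc.le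
    have h6 : (0 : ℝ) ≤ 3 / 4 * (((σ i).A : ℝ) / sc n) := by positivity
    calc 9 / 16 * (((σ i).A : ℝ) / sc n) ^ 2 = (3 / 4 * (((σ i).A : ℝ) / sc n)) ^ 2 := by ring
      _ ≤ _ := pow_le_pow_left₀ h6 h5 2
  have h4 := h3.trans h1
  have h5 : ∑ i, vsk n s (σ i) * (9 / 16 * (((σ i).A : ℝ) / sc n) ^ 2) =
      9 / 16 * ∑ i, vsk n s (σ i) * (((σ i).A : ℝ) / sc n) ^ 2 := by
    rw [mul_sum]
    exact sum_congr rfl fun i _ => by ring
  rw [h5] at h4
  have h6 : 0 ≤ CA * Zq n s := mul_nonneg X.hCA.le X.Zpos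
  linarith

lemma Ctx.sumV (X : Ctx n k σ s c CA CB) :
    ∑ i, vsk n s (σ i) * (1 + (((σ i).A : ℝ) / sc n) ^ 2) ≤ (1 + 2 * CA) * Zq n s := by
  have h := X.sumA
  have h1 := X.Z
  simp only [mul_add, mul_one, sum_add_distrib]
  rw [← h1]
  linarith

lemma Ctx.small_a (X : Ctx n k σ s c CA CB) (i : Fin k) : (((σ i).A : ℝ) / sc n) ^ 2 ≤ 4 * n := by
  have h1 : ((σ i).A : ℝ) ≤ 2 * (n : ℝ) ^ 2 := by exact_mod_cast X.sk.A_le i
  have hn := X.n1
  have h2 : sc n ^ 2 = (n : ℝ) ^ 3 := by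
    unfold sc
    rw [mul_pow, Real.sq_sqrt (by positivity)]
    ring
  rw [div_pow, h2, div_le_iff₀ (by positivity)]
  have h3 : ((σ i).A : ℝ) ^ 2 ≤ (2 * (n : ℝ) ^ 2) ^ 2 := pow_le_pow_left₀ (by positivity) h1 2
  calc _ ≤ (2 * (n : ℝ) ^ 2) ^ 2 := h3
    _ = _ := by ring

/-- sums over the words of span `h` -/
lemma keyh0 (h : IsSk0 n k σ) (s : ℝ) (hh : ℕ) (G : ℤ → ℤ → ℝ) :
    ∑ q ∈ (Omn n).filter (fun q => sp q = hh), wtq n s q * G (arq n q) (dq q) =
      ∑ i, s ^ (n - (σ i).H) * rs (σ i).l (fun j t => s ^ j *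
        (if (j : ℤ) = (σ i).H - hh then G ((σ i).A - t) ((σ i).L - t + dlt0 * j) else 0)) := by
  have h1 := key0 h s (fun a b c => if a = (hh : ℤ) then G b c else 0)
  have h2 : ∑ q ∈ (Omn n).filter (fun q => sp q = hh), wtq n s q * G (arq n q) (dq q) =
      ∑ q ∈ Omn n, wtq n s q * (if (sp q : ℤ) = (hh : ℤ) then G (arq n q) (dq q) else 0) := by
    rw [sumif (Omn n) (fun q => wtq n s q) (fun q => sp q = hh) (fun q => G (arq n q) (dq q))]
    refine sum_congr rfl fun q _ => ?_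
    by_cases h3 : sp q = hh
    · rw [if_pos h3, if_pos (by exact_mod_cast h3)]
    · rw [if_neg h3, if_neg (by exact_mod_cast h3)]
  rw [h2, h1]
  refine sum_congr rfl fun i _ => ?_
  congr 1
  refine rs_congr _ _ _ fun j t _ _ => ?_
  by_cases h3 : (j : ℤ) = (σ i).H - hh
  · rw [if_pos h3, if_pos (by omega)]
  · rw [if_neg h3, if_neg (by omega)]

/-! ### part (i) -/

lemma Ctx.sqn (X : Ctx n k σ s c CA CB) : 0 < Real.sqrt (s * n) := Real.sqrt_pos.2 X.snpos

lemma Ctx.sqn_le (X : Ctx n k σ s c CA CB) : Real.sqrt (s * n) ≤ n := by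
  have h1 := X.sn_le
  have h2 := X.n1
  rw [Real.sqrt_le_left (by positivity)]
  nlinarith

lemma Ctx.part1 (X : Ctx n k σ s c CA CB) (h : ℕ) :
    U n s h (fun a => 1 + a ^ 2) ≤
      (CB / Real.sqrt (c / 2) * (1 + 2 * CA) + 5) / Real.sqrt (s * n) * Zq n s := by
  have hn := X.n1
  have hs := X.hs
  have hsc := X.scpos
  have hCB := X.hCB
  have hZ := X.Zpos
  have hc := X.hc
  have hsn := X.sqn
  have hscc : 0 < Real.sqrt (c / 2) := Real.sqrt_pos.2 (by positivity)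
  have h1 := keyh0 X.sk s h (fun b _ => 1 + ((b : ℝ) / sc n) ^ 2)
  have h2 : U n s h (fun a => 1 + a ^ 2) = ∑ q ∈ (Omn n).filter (fun q => sp q = h),
      wtq n s q * (1 + ((((arq n q : ℕ) : ℤ) : ℝ) / sc n) ^ 2) := by
    unfold U ra
    refine sum_congr rfl fun q _ => ?_
    push_cast
    rfl
  rw [h2, h1]
  have h3 : ∀ i : Fin k, s ^ (n - (σ i).H) * rs (σ i).l (fun j t => s ^ j *
      (if (j : ℤ) = (σ i).H - h then 1 + (((((σ i).A : ℤ) - (t : ℤ) : ℤ) : ℝ) / sc n) ^ 2 else 0)) ≤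
      vsk n s (σ i) * (bp (σ i).l.length (s / (1 + s)) ((σ i).H - h) *
        (1 + (((σ i).A : ℝ) / sc n) ^ 2)) := by
    intro i
    unfold vsk
    rw [mul_assoc]
    refine mul_le_mul_of_nonneg_left ?_ (by positivity)
    rw [← rs_ind X.smp hs]
    refine rs_mono _ _ _ fun j t _ ht => ?_
    refine mul_le_mul_of_nonneg_left ?_ (by positivity)
    split_ifs with hj
    · obtain ⟨h4, h5⟩ := X.area_ge i ht
      have h6 : (0 : ℝ) ≤ ((((σ i).A : ℤ) - (t : ℤ) : ℤ) : ℝ) :=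
        le_trans (by positivity) h4
      have h7 : ((((σ i).A : ℤ) - (t : ℤ) : ℤ) : ℝ) / sc n ≤ ((σ i).A : ℝ) / sc n :=
        div_le_div_of_nonneg_right h5 hsc.le
      have h8 := pow_le_pow_left₀ (div_nonneg h6 hsc.le) h7 2
      linarith
    · exact le_rfl
  have h4 := X.split (fun i => vsk n s (σ i) * (bp (σ i).l.length (s / (1 + s)) ((σ i).H - h) *
        (1 + (((σ i).A : ℝ) / sc n) ^ 2))) (fun i => CB / (Real.sqrt (c / 2) * Real.sqrt (s * n)) *
        (1 + (((σ i).A : ℝ) / sc n) ^ 2)) (1 * (1 + 4 * n)) (by positivity)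
        (fun i => by positivity) (fun i hi => by
          refine mul_le_mul_of_nonneg_left ?_ (X.vpos i)
          exact mul_le_mul_of_nonneg_right (X.bpbig _ _ hi) (by positivity))
        (fun i => by
          refine mul_le_mul_of_nonneg_left ?_ (X.vpos i)
          have h5 := X.small_a i
          exact mul_le_mul (X.bple _ _) (by linarith) (by positivity) (by positivity))
  refine (sum_le_sum fun i _ => h3 i).trans (h4.trans ?_)
  have h5 : ∑ i, vsk n s (σ i) * (CB / (Real.sqrt (c / 2) * Real.sqrt (s * n)) *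
        (1 + (((σ i).A : ℝ) / sc n) ^ 2)) = CB / (Real.sqrt (c / 2) * Real.sqrt (s * n)) *
        ∑ i, vsk n s (σ i) * (1 + (((σ i).A : ℝ) / sc n) ^ 2) := by
    rw [mul_sum]
    exact sum_congr rfl fun i _ => by ring
  rw [h5]
  have h6 : CB / (Real.sqrt (c / 2) * Real.sqrt (s * n)) *
      ∑ i, vsk n s (σ i) * (1 + (((σ i).A : ℝ) / sc n) ^ 2) ≤
      CB / (Real.sqrt (c / 2) * Real.sqrt (s * n)) * ((1 + 2 * CA) * Zq n s) :=
    mul_le_mul_of_nonneg_left X.sumV (by positivity)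
  have h7 : 1 * (1 + 4 * (n : ℝ)) / (n : ℝ) ^ 3 * Zq n s ≤ 5 / Real.sqrt (s * n) * Zq n s := by
    refine mul_le_mul_of_nonneg_right ?_ hZ
    rw [div_le_div_iff₀ (by positivity) hsn]
    have h8 := X.sqn_le
    calc 1 * (1 + 4 * (n : ℝ)) * Real.sqrt (s * n) ≤ (5 * n) * n :=
          mul_le_mul (by linarith) h8 hsn.le (by positivity)
      _ = 5 * (n : ℝ) ^ 2 * 1 := by ring
      _ ≤ 5 * (n : ℝ) ^ 2 * n := mul_le_mul_of_nonneg_left (by linarith) (by positivity)
      _ = _ := by ring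
  refine (add_le_add h6 h7).trans (le_of_eq ?_)
  field_simp

/-! ### part (ii) -/

lemma Ctx.L_le (X : Ctx n k σ s c CA CB) (i : Fin k) : |((σ i).L : ℝ)| ≤ 4 * (n : ℝ) ^ 2 := by
  have h := X.sk.all (fun _ _ z => |z| ≤ 4 * (n : ℤ) ^ 2)
    (fun q hq => dq_bound n q hq (by have := X.hn; omega)) i
  exact_mod_cast h

lemma Ctx.sumL (X : Ctx n k σ s c CA CB) :
    ∑ i, vsk n s (σ i) * |((σ i).L : ℝ) - ((σ i).A : ℝ)| ≤
      (CA * (n * Real.log n) + |(dlt0 : ℝ)| * n) * Zq n s := by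
  have h := key0 X.sk s (fun _ b c => |(c : ℝ) - (b : ℝ)|)
  have h1 := X.arm3
  have h2 : ∑ q ∈ Omn n, wtq n s q * |(dq q : ℝ) - (arq n q : ℝ)| =
      ∑ q ∈ Omn n, wtq n s q * |(dq q : ℝ) - (((arq n q : ℕ) : ℤ) : ℝ)| := by
    refine sum_congr rfl fun q _ => ?_
    push_cast
    rfl
  rw [h2, h] at h1
  have hs := X.hs
  have h3 : ∑ i, vsk n s (σ i) * (|((σ i).L : ℝ) - ((σ i).A : ℝ)| - |(dlt0 : ℝ)| * n) ≤
      ∑ i, s ^ (n - (σ i).H) * rs (σ i).l (fun j t => s ^ j *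
        |((((σ i).L - (t : ℤ) + dlt0 * (j : ℤ) : ℤ)) : ℝ) - (((((σ i).A : ℤ) - (t : ℤ) : ℤ)) : ℝ)|) := by
    refine sum_le_sum fun i _ => ?_
    unfold vsk
    rw [mul_assoc]
    refine mul_le_mul_of_nonneg_left ?_ (by positivity)
    rw [← rs_pow, mul_comm, ← rs_mul]
    refine rs_mono _ _ _ fun j t hj ht => ?_
    rw [mul_comm]
    refine mul_le_mul_of_nonneg_left ?_ (by positivity)
    have hjn : (j : ℝ) ≤ n := by
      have := X.sk.len_le i
      have := X.sk.H_le i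
      exact_mod_cast (by omega : j ≤ n)
    push_cast
    have e : ((σ i).L : ℝ) - ((σ i).A : ℝ) =
        (((σ i).L : ℝ) - t + dlt0 * j - (((σ i).A : ℝ) - t)) - dlt0 * j := by ring
    have h4 := abs_sub (((σ i).L : ℝ) - t + dlt0 * j - (((σ i).A : ℝ) - t)) (dlt0 * j)
    rw [← e, abs_mul, abs_of_nonneg (show (0 : ℝ) ≤ j by positivity)] at h4
    have h5 : |(dlt0 : ℝ)| * j ≤ |(dlt0 : ℝ)| * n := mul_le_mul_of_nonneg_left hjn (abs_nonneg _)
    linarith
  have h4 := h3.trans h1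
  simp only [mul_sub, sum_sub_distrib] at h4
  rw [← sum_mul, ← X.Z] at h4
  linarith

lemma Ctx.part2 (X : Ctx n k σ s c CA CB) (h : ℕ) :
    ∑ q ∈ (Omn n).filter (fun q => sp q = h), wtq n s q * |(dq q : ℝ) - (arq n q : ℝ)| ≤
      (CB / Real.sqrt (c / 2) * (CA + 2 * |(dlt0 : ℝ)|) + (6 + |(dlt0 : ℝ)|)) *
        (n * Real.log n / Real.sqrt (s * n)) * Zq n s := by
  have hn := X.n1
  have hs := X.hs
  have hsc := X.scpos
  have hCB := X.hCB
  have hCA := X.hCA
  have hZ := X.Zpos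
  have hc := X.hc
  have hsn := X.sqn
  have hscc : 0 < Real.sqrt (c / 2) := Real.sqrt_pos.2 (by positivity)
  have hlog : 1 ≤ Real.log n := by
    rw [Real.le_log_iff_exp_le (by linarith)]
    have := Real.exp_one_lt_d9
    linarith
  have hd := abs_nonneg (dlt0 : ℝ)
  have h1 := keyh0 X.sk s h (fun b c => |(c : ℝ) - (b : ℝ)|)
  have h2 : ∑ q ∈ (Omn n).filter (fun q => sp q = h), wtq n s q * |(dq q : ℝ) - (arq n q : ℝ)| =
      ∑ q ∈ (Omn n).filter (fun q => sp q = h),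
        wtq n s q * |(dq q : ℝ) - (((arq n q : ℕ) : ℤ) : ℝ)| := by
    refine sum_congr rfl fun q _ => ?_
    push_cast
    rfl
  rw [h2, h1]
  have h3 : ∀ i : Fin k, s ^ (n - (σ i).H) * rs (σ i).l (fun j t => s ^ j *
      (if (j : ℤ) = (σ i).H - h then |((((σ i).L - (t : ℤ) + dlt0 * (j : ℤ) : ℤ)) : ℝ) -
        (((((σ i).A : ℤ) - (t : ℤ) : ℤ)) : ℝ)| else 0)) ≤
      vsk n s (σ i) * (bp (σ i).l.length (s / (1 + s)) ((σ i).H - h) *
        (|((σ i).L : ℝ) - ((σ i).A : ℝ)| + |(dlt0 : ℝ)| * n)) := by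
    intro i
    unfold vsk
    rw [mul_assoc]
    refine mul_le_mul_of_nonneg_left ?_ (by positivity)
    rw [← rs_ind X.smp hs]
    refine rs_mono _ _ _ fun j t hj ht => ?_
    refine mul_le_mul_of_nonneg_left ?_ (by positivity)
    have hjn : (j : ℝ) ≤ n := by
      have := X.sk.len_le i
      have := X.sk.H_le i
      exact_mod_cast (by omega : j ≤ n)
    split_ifs with hjj
    · push_cast
      have e : ((σ i).L : ℝ) - t + dlt0 * j - (((σ i).A : ℝ) - t) =
          (((σ i).L : ℝ) - ((σ i).A : ℝ)) + dlt0 * j := by ring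
      rw [e]
      refine (abs_add_le _ _).trans ?_
      rw [abs_mul, abs_of_nonneg (show (0 : ℝ) ≤ j by positivity)]
      have h5 : |(dlt0 : ℝ)| * j ≤ |(dlt0 : ℝ)| * n := mul_le_mul_of_nonneg_left hjn (abs_nonneg _)
      linarith
    · exact le_rfl
  have h4 := X.split (fun i => vsk n s (σ i) * (bp (σ i).l.length (s / (1 + s)) ((σ i).H - h) *
        (|((σ i).L : ℝ) - ((σ i).A : ℝ)| + |(dlt0 : ℝ)| * n)))
        (fun i => CB / (Real.sqrt (c / 2) * Real.sqrt (s * n)) *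
        (|((σ i).L : ℝ) - ((σ i).A : ℝ)| + |(dlt0 : ℝ)| * n))
        (1 * ((6 + |(dlt0 : ℝ)|) * (n : ℝ) ^ 2)) (by positivity)
        (fun i => by positivity) (fun i hi => by
          refine mul_le_mul_of_nonneg_left ?_ (X.vpos i)
          exact mul_le_mul_of_nonneg_right (X.bpbig _ _ hi) (by positivity))
        (fun i => by
          refine mul_le_mul_of_nonneg_left ?_ (X.vpos i)
          have h5 := X.L_le i
          have h6 : ((σ i).A : ℝ) ≤ 2 * (n : ℝ) ^ 2 := by exact_mod_cast X.sk.A_le i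
          have h7 : |((σ i).L : ℝ) - ((σ i).A : ℝ)| ≤ 6 * (n : ℝ) ^ 2 := by
            refine (abs_sub _ _).trans ?_
            rw [abs_of_nonneg (show (0 : ℝ) ≤ ((σ i).A : ℝ) by positivity)]
            linarith
          have h8 : |(dlt0 : ℝ)| * n ≤ |(dlt0 : ℝ)| * (n : ℝ) ^ 2 :=
            mul_le_mul_of_nonneg_left (by nlinarith) hd
          exact mul_le_mul (X.bple _ _) (by linarith) (by positivity) (by positivity))
  refine (sum_le_sum fun i _ => h3 i).trans (h4.trans ?_)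
  have h5 : ∑ i, vsk n s (σ i) * (CB / (Real.sqrt (c / 2) * Real.sqrt (s * n)) *
        (|((σ i).L : ℝ) - ((σ i).A : ℝ)| + |(dlt0 : ℝ)| * n)) =
        CB / (Real.sqrt (c / 2) * Real.sqrt (s * n)) *
        (∑ i, vsk n s (σ i) * |((σ i).L : ℝ) - ((σ i).A : ℝ)| + |(dlt0 : ℝ)| * n * Zq n s) := by
    rw [X.Z, mul_add, mul_sum, mul_sum, mul_sum, ← sum_add_distrib]
    exact sum_congr rfl fun i _ => by ring
  rw [h5]
  have h6 : CB / (Real.sqrt (c / 2) * Real.sqrt (s * n)) *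
      (∑ i, vsk n s (σ i) * |((σ i).L : ℝ) - ((σ i).A : ℝ)| + |(dlt0 : ℝ)| * n * Zq n s) ≤
      CB / (Real.sqrt (c / 2) * Real.sqrt (s * n)) *
        ((CA + 2 * |(dlt0 : ℝ)|) * (n * Real.log n) * Zq n s) := by
    refine mul_le_mul_of_nonneg_left ?_ (by positivity)
    have h7 := X.sumL
    have h8 : |(dlt0 : ℝ)| * n * Zq n s ≤ |(dlt0 : ℝ)| * (n * Real.log n) * Zq n s := by
      refine mul_le_mul_of_nonneg_right ?_ hZ
      refine mul_le_mul_of_nonneg_left ?_ hd
      nlinarith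
    linarith
  have h7 : 1 * ((6 + |(dlt0 : ℝ)|) * (n : ℝ) ^ 2) / (n : ℝ) ^ 3 * Zq n s ≤
      (6 + |(dlt0 : ℝ)|) * (n * Real.log n / Real.sqrt (s * n)) * Zq n s := by
    refine mul_le_mul_of_nonneg_right ?_ hZ
    have h8 : 1 * ((6 + |(dlt0 : ℝ)|) * (n : ℝ) ^ 2) / (n : ℝ) ^ 3 =
        (6 + |(dlt0 : ℝ)|) * (1 / n) := by
      field_simp
    rw [h8]
    refine mul_le_mul_of_nonneg_left ?_ (by positivity)
    have h9 : 1 / (n : ℝ) ≤ 1 := by
      rw [div_le_one (by linarith)]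
      linarith
    refine h9.trans ?_
    rw [one_le_div hsn]
    have h10 := X.sqn_le
    nlinarith
  refine (add_le_add h6 h7).trans (le_of_eq ?_)
  field_simp

/-! ### part (iii) -/

lemma Ctx.U_eq (X : Ctx n k σ s c CA CB) (h : ℕ) (φ : ℝ → ℝ) :
    U n s h φ = ∑ i, ui n s (σ i) h φ := by
  have h1 := keyh0 X.sk s h (fun b _ => φ ((b : ℝ) / sc n))
  have h2 : U n s h φ = ∑ q ∈ (Omn n).filter (fun q => sp q = h),
      wtq n s q * φ ((((arq n q : ℕ) : ℤ) : ℝ) / sc n) := by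
    unfold U ra
    refine sum_congr rfl fun q _ => ?_
    push_cast
    rfl
  rw [h2, h1]
  rfl

lemma Ctx.ui_small (X : Ctx n k σ s c CA CB) (i : Fin k) (h : ℕ) (φ : ℝ → ℝ)
    (hφ : ∀ a, |φ a| ≤ 1) : |ui n s (σ i) h φ| ≤ vsk n s (σ i) * 1 := by
  have hs := X.hs
  have h1 := rs_abs (σ i).l (fun j t => s ^ j * (if (j : ℤ) = (σ i).H - h then
    φ (((((σ i).A : ℤ) - (t : ℤ) : ℤ) : ℝ) / sc n) else 0)) (fun _ _ => 0)
    (fun j _ => s ^ j * (if (j : ℤ) = (σ i).H - h then 1 else 0)) (fun j t _ _ => by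
      rw [sub_zero, abs_mul, abs_of_nonneg (show 0 ≤ s ^ j by positivity)]
      refine mul_le_mul_of_nonneg_left ?_ (by positivity)
      split_ifs
      · exact hφ _
      · simp)
  rw [rs_zero, sub_zero, rs_ind X.smp hs] at h1
  unfold ui
  rw [abs_mul, abs_of_nonneg (show 0 ≤ s ^ (n - (σ i).H) by positivity)]
  unfold vsk
  rw [mul_assoc]
  refine mul_le_mul_of_nonneg_left ?_ (by positivity)
  refine h1.trans ?_
  rw [mul_one]
  exact mul_le_mul_of_nonneg_left (X.bple _ _) (by positivity)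

lemma Ctx.ui_big (X : Ctx n k σ s c CA CB) (i : Fin k)
    (hi : c * n ≤ ((σ i).l.length : ℝ)) (h : ℕ) (φ : ℝ → ℝ) (hL : LipschitzWith 1 φ) :
    |ui n s (σ i) h φ - vsk n s (σ i) * (bp (σ i).l.length (s / (1 + s)) ((σ i).H - h) *
        φ (((σ i).A : ℝ) / sc n))| ≤
      vsk n s (σ i) * (CB / Real.sqrt c *
        (1 + (((σ i).A : ℝ) / sc n) ^ 2) * (s / Real.sqrt (s * n))) := by
  have hn := X.n1
  have hs := X.hs
  have hsc := X.scpos
  have hCB := X.hCB
  have hc := X.hc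
  have hsn := X.sqn
  have hscc : 0 < Real.sqrt c := Real.sqrt_pos.2 hc
  have hcn : 0 < c * n := by positivity
  have hlen : (0 : ℝ) < (σ i).l.length := lt_of_lt_of_le hcn hi
  obtain ⟨m, hm⟩ : ∃ m : ℤ, m = (σ i).H - h := ⟨_, rfl⟩
  obtain ⟨p, hp⟩ : ∃ p, p = s / (1 + s) := ⟨_, rfl⟩
  have hp0 : 0 < p := hp ▸ X.p0
  have hps : p ≤ s := hp ▸ X.p_le
  have h1 := rs_abs (σ i).l (fun j t => s ^ j * (if (j : ℤ) = m then
    φ (((((σ i).A : ℤ) - (t : ℤ) : ℤ) : ℝ) / sc n) else 0))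
    (fun j _ => s ^ j * (if (j : ℤ) = m then φ (((σ i).A : ℝ) / sc n) else 0))
    (fun j t => 1 / sc n * (s ^ j * (if (j : ℤ) = m then (t : ℝ) else 0)))
    (fun j t _ _ => by
      rw [← mul_sub, abs_mul, abs_of_nonneg (show 0 ≤ s ^ j by positivity)]
      rw [← mul_assoc, mul_comm (1 / sc n), mul_assoc]
      refine mul_le_mul_of_nonneg_left ?_ (by positivity)
      split_ifs
      · have h2 := hL.dist_le_mul (((((σ i).A : ℤ) - (t : ℤ) : ℤ) : ℝ) / sc n)
          (((σ i).A : ℝ) / sc n)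
        rw [Real.dist_eq, Real.dist_eq] at h2
        refine h2.trans (le_of_eq ?_)
        simp only [Int.cast_sub, Int.cast_natCast, NNReal.coe_one]
        rw [one_mul, ← sub_div, abs_div, abs_of_pos hsc]
        rw [show ((σ i).A : ℝ) - t - ((σ i).A : ℝ) = - (t : ℝ) by ring, abs_neg,
          abs_of_nonneg (show (0 : ℝ) ≤ t by positivity)]
        ring
      · simp)
  rw [rs_ind X.smp hs, rs_mul, rs_tot X.smp hs, ← hp] at h1
  -- size of the sum of the entries
  have hA0 : (0 : ℝ) ≤ ((σ i).A : ℝ) := by positivity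
  have hS4 : 4 * ((σ i).l.sum : ℝ) ≤ ((σ i).A : ℝ) := by exact_mod_cast X.sk.sum_le i
  have hS0 : (0 : ℝ) ≤ ((σ i).l.sum : ℝ) := by positivity
  obtain ⟨a, ha⟩ : ∃ a : ℝ, a = ((σ i).A : ℝ) / sc n := ⟨_, rfl⟩
  have ha0 : 0 ≤ a := by rw [ha]; positivity
  have hA : ((σ i).A : ℝ) = a * sc n := by rw [ha]; field_simp
  have hlen1 : 1 ≤ (σ i).l.length := by
    have : (0 : ℕ) < (σ i).l.length := by exact_mod_cast hlen
    omega
  have hthird := (X.bin (σ i).l.length m hlen1).2.2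
  rw [← hp] at hthird
  obtain ⟨K, hK⟩ : ∃ K : ℝ, K = ((σ i).l.length : ℝ) := ⟨_, rfl⟩
  rw [← hK] at hthird hi hlen
  have hsum : ((σ i).l.sum : ℝ) / sc n ≤ 1 + a ^ 2 := by
    have h5 : ((σ i).l.sum : ℝ) / sc n ≤ a := by
      rw [div_le_iff₀ hsc, ← hA]
      linarith
    nlinarith [sq_nonneg (a - 1)]
  have hsq : Real.sqrt (K * p) / K ≤ 1 / Real.sqrt c * (s / Real.sqrt (s * n)) := by
    have e1 : Real.sqrt (K * p) = Real.sqrt K * Real.sqrt p := Real.sqrt_mul hlen.le p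
    have e2 : Real.sqrt (s * n) = Real.sqrt s * Real.sqrt n := Real.sqrt_mul hs.le _
    have hK0 : 0 < Real.sqrt K := Real.sqrt_pos.2 hlen
    have hs0 : 0 < Real.sqrt s := Real.sqrt_pos.2 hs
    have hn0 : 0 < Real.sqrt n := Real.sqrt_pos.2 (by linarith)
    have e3 : Real.sqrt K * Real.sqrt p / K = Real.sqrt p / Real.sqrt K := by
      rw [div_eq_div_iff hlen.ne' hK0.ne']
      have h0 : Real.sqrt K * Real.sqrt K = K := Real.mul_self_sqrt hlen.le
      calc Real.sqrt K * Real.sqrt p * Real.sqrt K = Real.sqrt p * (Real.sqrt K * Real.sqrt K) := by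
            ring
        _ = _ := by rw [h0]
    have e4 : s / (Real.sqrt s * Real.sqrt n) = Real.sqrt s / Real.sqrt n := by
      rw [div_eq_div_iff (by positivity) hn0.ne']
      have h0 : Real.sqrt s * Real.sqrt s = s := Real.mul_self_sqrt hs.le
      calc s * Real.sqrt n = (Real.sqrt s * Real.sqrt s) * Real.sqrt n := by rw [h0]
        _ = _ := by ring
    rw [e1, e2, e3, e4, div_mul_div_comm, one_mul, ← Real.sqrt_mul hc.le]
    have h5 : Real.sqrt (c * n) ≤ Real.sqrt K := Real.sqrt_le_sqrt hi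
    have h6 : Real.sqrt p ≤ Real.sqrt s := Real.sqrt_le_sqrt hps
    have h7 : 0 < Real.sqrt (c * n) := Real.sqrt_pos.2 hcn
    exact div_le_div₀ hs0.le h6 h7 h5
  have h6 : 1 / sc n * ((1 + s) ^ (σ i).l.length *
      (bp (σ i).l.length p m * m * ((σ i).l.sum / K))) ≤
      (1 + s) ^ (σ i).l.length * (CB / Real.sqrt c * (1 + a ^ 2) * (s / Real.sqrt (s * n))) := by
    have e : 1 / sc n * ((1 + s) ^ (σ i).l.length *
      (bp (σ i).l.length p m * m * ((σ i).l.sum / K))) = (1 + s) ^ (σ i).l.length *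
      (bp (σ i).l.length p m * m / K * ((σ i).l.sum / sc n)) := by
      field_simp
    rw [e]
    refine mul_le_mul_of_nonneg_left ?_ (by positivity)
    have h7 : bp (σ i).l.length p m * m / K ≤ CB * (Real.sqrt (K * p) / K) := by
      rw [← mul_div_assoc]
      exact div_le_div_of_nonneg_right hthird hlen.le
    have h8 : CB * (Real.sqrt (K * p) / K) ≤ CB * (1 / Real.sqrt c * (s / Real.sqrt (s * n))) :=
      mul_le_mul_of_nonneg_left hsq hCB.le
    have h9 : 0 ≤ CB * (1 / Real.sqrt c * (s / Real.sqrt (s * n))) := by positivity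
    calc _ ≤ (CB * (1 / Real.sqrt c * (s / Real.sqrt (s * n)))) * (1 + a ^ 2) :=
          mul_le_mul (h7.trans h8) hsum (by positivity) h9
      _ = _ := by ring
  rw [← hK] at h1
  have h7 := h1.trans h6
  unfold ui vsk
  rw [← hm, ← hp, ← ha, mul_assoc, mul_assoc, ← mul_sub, abs_mul,
    abs_of_nonneg (show 0 ≤ s ^ (n - (σ i).H) by positivity)]
  rw [← ha] at h7
  exact mul_le_mul_of_nonneg_left h7 (by positivity)

lemma Ctx.part3 (X : Ctx n k σ s c CA CB) (h h' : ℕ) (φ : ℝ → ℝ)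
    (hφ : ∀ a, |φ a| ≤ 1) (hL : LipschitzWith 1 φ) :
    |U n s h φ - U n s h' φ| ≤
      (2 * (CB / Real.sqrt c) * (1 + 2 * CA) + 2 * CB / c + 2) *
        (s / Real.sqrt (s * n) + |(h : ℝ) - h'| / (s * n)) * Zq n s := by
  have hn := X.n1
  have hs := X.hs
  have hsc := X.scpos
  have hCB := X.hCB
  have hCA := X.hCA
  have hZ := X.Zpos
  have hc := X.hc
  have hsn := X.sqn
  have hsn0 := X.snpos
  have hscc : 0 < Real.sqrt c := Real.sqrt_pos.2 hc
  obtain ⟨r, hr⟩ : ∃ r : ℝ, r = s / Real.sqrt (s * n) := ⟨_, rfl⟩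
  have hr0 : 0 < r := by rw [hr]; positivity
  have hrn : 1 / (n : ℝ) ≤ r := by
    rw [hr, div_le_div_iff₀ (by linarith) hsn, one_mul]
    have h1 : Real.sqrt (s * n) * Real.sqrt (s * n) = s * n := Real.mul_self_sqrt hsn0.le
    have h2 : 1 ≤ Real.sqrt (s * n) := by
      rw [Real.one_le_sqrt]
      exact X.hsn
    nlinarith
  obtain ⟨B, hB⟩ : ∃ B : ℝ, B = CB / Real.sqrt c := ⟨_, rfl⟩
  have hB0 : 0 < B := by rw [hB]; positivity
  rw [← hr, ← hB, X.U_eq, X.U_eq, ← sum_sub_distrib]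
  refine (abs_sum_le_sum_abs _ _).trans ?_
  have h1 := X.split (fun i => |ui n s (σ i) h φ - ui n s (σ i) h' φ|)
    (fun i => 2 * (B * (1 + (((σ i).A : ℝ) / sc n) ^ 2) * r) +
      |(h : ℝ) - h'| * (CB / (c / 2 * (s * n))))
    2 (by positivity) (fun i => by positivity)
    (fun i hi => by
      have h2 := X.ui_big i hi h φ hL
      have h3 := X.ui_big i hi h' φ hL
      rw [← hr, ← hB] at h2 h3
      have hcn : 0 < c * n := by positivity
      have hlen : (0 : ℝ) < (σ i).l.length := lt_of_lt_of_le hcn hi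
      have hlen1 : 1 ≤ (σ i).l.length := by
        have : (0 : ℕ) < (σ i).l.length := by exact_mod_cast hlen
        omega
      have h4 := bp_lip0 (fun j => (X.bin (σ i).l.length j hlen1).2.1) ((σ i).H - h) ((σ i).H - h')
      obtain ⟨y, hy⟩ : ∃ y : ℝ, y = φ (((σ i).A : ℝ) / sc n) := ⟨_, rfl⟩
      have hy1 : |y| ≤ 1 := by rw [hy]; exact hφ _
      rw [← hy] at h2 h3
      obtain ⟨b1, hb1⟩ : ∃ b, b = bp (σ i).l.length (s / (1 + s)) ((σ i).H - h) := ⟨_, rfl⟩
      obtain ⟨b2, hb2⟩ : ∃ b, b = bp (σ i).l.length (s / (1 + s)) ((σ i).H - h') := ⟨_, rfl⟩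
      rw [← hb1] at h2 h4
      rw [← hb2] at h3 h4
      have h5 : |(((σ i).H - h : ℤ) : ℝ) - (((σ i).H - h' : ℤ) : ℝ)| = |(h : ℝ) - h'| := by
        simp only [Int.cast_sub, Int.cast_natCast]
        rw [show ((σ i).H : ℝ) - h - (((σ i).H : ℝ) - h') = -((h : ℝ) - h') by ring, abs_neg]
      rw [h5] at h4
      have h6 : CB / (((σ i).l.length : ℝ) * (s / (1 + s))) ≤ CB / (c / 2 * (s * n)) :=
        div_le_div_of_nonneg_left hCB.le (by positivity) (X.kp _ hi)
      have h7 : |b1 - b2| ≤ |(h : ℝ) - h'| * (CB / (c / 2 * (s * n))) :=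
        h4.trans (mul_le_mul_of_nonneg_left h6 (abs_nonneg _))
      have hv := X.vpos i
      have h8 : |vsk n s (σ i) * (b1 * y) - vsk n s (σ i) * (b2 * y)| ≤
          vsk n s (σ i) * (|(h : ℝ) - h'| * (CB / (c / 2 * (s * n)))) := by
        rw [← mul_sub, ← sub_mul, abs_mul, abs_mul, abs_of_nonneg hv]
        refine mul_le_mul_of_nonneg_left ?_ hv
        calc |b1 - b2| * |y| ≤ |b1 - b2| * 1 := mul_le_mul_of_nonneg_left hy1 (abs_nonneg _)
          _ ≤ _ := by rw [mul_one]; exact h7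
      have h9 : |ui n s (σ i) h φ - ui n s (σ i) h' φ| ≤
          |ui n s (σ i) h φ - vsk n s (σ i) * (b1 * y)| +
          |vsk n s (σ i) * (b1 * y) - vsk n s (σ i) * (b2 * y)| +
          |ui n s (σ i) h' φ - vsk n s (σ i) * (b2 * y)| := by
        have e : ui n s (σ i) h φ - ui n s (σ i) h' φ =
          (ui n s (σ i) h φ - vsk n s (σ i) * (b1 * y)) +
          (vsk n s (σ i) * (b1 * y) - vsk n s (σ i) * (b2 * y)) -
          (ui n s (σ i) h' φ - vsk n s (σ i) * (b2 * y)) := by ring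
        rw [e]
        refine (abs_sub _ _).trans ?_
        have := abs_add_le (ui n s (σ i) h φ - vsk n s (σ i) * (b1 * y))
          (vsk n s (σ i) * (b1 * y) - vsk n s (σ i) * (b2 * y))
        linarith
      refine h9.trans ?_
      rw [mul_add]
      linarith)
    (fun i => by
      have h2 := X.ui_small i h φ hφ
      have h3 := X.ui_small i h' φ hφ
      have h4 := abs_sub (ui n s (σ i) h φ) (ui n s (σ i) h' φ)
      linarith)
  refine h1.trans ?_
  have h2 : ∑ i, vsk n s (σ i) * (2 * (B * (1 + (((σ i).A : ℝ) / sc n) ^ 2) * r) +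
      |(h : ℝ) - h'| * (CB / (c / 2 * (s * n)))) =
      2 * B * r * ∑ i, vsk n s (σ i) * (1 + (((σ i).A : ℝ) / sc n) ^ 2) +
        |(h : ℝ) - h'| * (CB / (c / 2 * (s * n))) * Zq n s := by
    rw [X.Z, mul_sum, mul_sum, ← sum_add_distrib]
    exact sum_congr rfl fun i _ => by ring
  rw [h2]
  have h3 : 2 * B * r * ∑ i, vsk n s (σ i) * (1 + (((σ i).A : ℝ) / sc n) ^ 2) ≤
      2 * B * r * ((1 + 2 * CA) * Zq n s) := mul_le_mul_of_nonneg_left X.sumV (by positivity)
  have h4 : 2 / (n : ℝ) ^ 3 * Zq n s ≤ 2 * r * Zq n s := by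
    refine mul_le_mul_of_nonneg_right ?_ hZ
    have h5 : 1 / (n : ℝ) ^ 3 ≤ 1 / n := by
      refine div_le_div_of_nonneg_left (by norm_num) (by positivity) ?_
      calc (n : ℝ) = n * 1 := by ring
        _ ≤ n * (n ^ 2) := mul_le_mul_of_nonneg_left (by nlinarith) (by positivity)
        _ = _ := by ring
    calc 2 / (n : ℝ) ^ 3 = 2 * (1 / (n : ℝ) ^ 3) := by ring
      _ ≤ 2 * r := mul_le_mul_of_nonneg_left (h5.trans hrn) (by norm_num)
  have h5 : 0 ≤ |(h : ℝ) - h'| / (s * n) := by positivity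
  have h6 : |(h : ℝ) - h'| * (CB / (c / 2 * (s * n))) = 2 * CB / c * (|(h : ℝ) - h'| / (s * n)) := by
    field_simp
  rw [h6]
  have h8 : 0 ≤ 2 * B * (1 + 2 * CA) * (|(h : ℝ) - h'| / (s * n)) * Zq n s := by positivity
  have h9 : 0 ≤ 2 * CB / c * r * Zq n s := by positivity
  have h10 : 0 ≤ 2 * (|(h : ℝ) - h'| / (s * n)) * Zq n s := by positivity
  calc _ ≤ 2 * B * r * ((1 + 2 * CA) * Zq n s) + 2 * CB / c * (|(h : ℝ) - h'| / (s * n)) * Zq n s +
        2 * r * Zq n s := add_le_add (add_le_add h3 le_rfl) h4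
    _ ≤ (2 * B * r * ((1 + 2 * CA) * Zq n s) + 2 * CB / c * (|(h : ℝ) - h'| / (s * n)) * Zq n s +
        2 * r * Zq n s) +
        (2 * B * (1 + 2 * CA) * (|(h : ℝ) - h'| / (s * n)) * Zq n s + 2 * CB / c * r * Zq n s +
        2 * (|(h : ℝ) - h'| / (s * n)) * Zq n s) := by linarith
    _ = _ := by ring

/-! ### part (iv) -/

lemma Ctx.part4 (X : Ctx n k σ s c CA CB) (K c' v0 : ℝ) (hK : 0 < K)
    (hc' : 0 < c')
    (hbin : ∀ (m : ℕ) (j : ℤ), v0 ≤ m * (s / (1 + s)) →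
      |(j : ℝ) - s / (1 + s) * m| ≤ 2 * Real.sqrt (2 * K / c) * Real.sqrt (m * (s / (1 + s))) →
        c' / Real.sqrt (m * (s / (1 + s))) ≤ bp m (s / (1 + s)) j)
    (hv0 : v0 ≤ c / 2 * (s * n)) (h : ℕ)
    (hv : ∑ q ∈ Omn n, wtq n s q * ((sp q : ℝ) - h) ^ 2 ≤ K * (s * n) * Zq n s) :
    c' / 2 / Real.sqrt (s * n) * Zq n s ≤ U n s h (fun _ => 1) := by
  classical
  have hn := X.n1
  have hs := X.hs
  have hsc := X.scpos
  have hZ := X.Zpos
  have hc := X.hc
  have hsn := X.sqn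
  have hsn0 := X.snpos
  obtain ⟨p, hp⟩ : ∃ p, p = s / (1 + s) := ⟨_, rfl⟩
  have hp0 : 0 < p := hp ▸ X.p0
  have hps : p ≤ s := hp ▸ X.p_le
  -- the second moment
  have h1 := key0 X.sk s (fun a _ _ => ((a : ℝ) - h) ^ 2)
  have h2 : ∑ q ∈ Omn n, wtq n s q * ((sp q : ℝ) - h) ^ 2 =
      ∑ q ∈ Omn n, wtq n s q * ((((sp q : ℕ) : ℤ) : ℝ) - h) ^ 2 := by
    refine sum_congr rfl fun q _ => ?_
    push_cast
    rfl
  rw [h2, h1] at hv
  have h3 : ∑ i, vsk n s (σ i) * ((((σ i).H : ℝ) - h) - p * (σ i).l.length) ^ 2 ≤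
      K * (s * n) * Zq n s := by
    refine le_trans (sum_le_sum fun i _ => ?_) hv
    unfold vsk
    rw [mul_assoc]
    refine mul_le_mul_of_nonneg_left ?_ (by positivity)
    rw [hp]
    refine (rs_jensen hs (σ i).l (((σ i).H : ℝ) - h)).trans (le_of_eq ?_)
    refine rs_congr _ _ _ fun j t _ _ => ?_
    simp only [Int.cast_sub, Int.cast_natCast]
    ring
  -- good skeletons
  obtain ⟨bad, hbad⟩ : ∃ bad : Finset (Fin k), bad = univ.filter (fun i : Fin k =>
    4 * K * (s * n) < ((((σ i).H : ℝ) - h) - p * (σ i).l.length) ^ 2) := ⟨_, rfl⟩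
  have h4 : ∑ i ∈ bad, vsk n s (σ i) ≤ 1 / 4 * Zq n s := by
    have h5 : ∑ i ∈ bad, vsk n s (σ i) * (4 * K * (s * n)) ≤ K * (s * n) * Zq n s := by
      refine le_trans ?_ h3
      refine le_trans ?_ (sum_le_sum_of_subset_of_nonneg (subset_univ bad) fun i _ _ =>
        mul_nonneg (X.vpos i) (sq_nonneg _))
      refine sum_le_sum fun i hi => mul_le_mul_of_nonneg_left ?_ (X.vpos i)
      rw [hbad] at hi
      exact (mem_filter.1 hi).2.le
    rw [← sum_mul] at h5
    have h6 : 0 < K * (s * n) := by positivity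
    have h7 : (∑ i ∈ bad, vsk n s (σ i)) * 4 * (K * (s * n)) ≤ Zq n s * (K * (s * n)) := by
      linarith
    have h8 := le_of_mul_le_mul_right h7 h6
    linarith
  have h5 : ∑ i ∈ univ.filter (fun i : Fin k => ((σ i).l.length : ℝ) < c * n), vsk n s (σ i) ≤
      1 / 4 * Zq n s := by
    refine X.kb.trans (mul_le_mul_of_nonneg_right ?_ hZ)
    rw [div_le_div_iff₀ (by positivity) (by norm_num)]
    have : (3 : ℝ) ^ 3 ≤ (n : ℝ) ^ 3 := pow_le_pow_left₀ (by norm_num) hn 3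
    linarith
  -- lower bound
  have h6 : ∀ i : Fin k, c' / Real.sqrt (s * n) * vsk n s (σ i) -
      (c' / Real.sqrt (s * n) * (if i ∈ bad then vsk n s (σ i) else 0) +
        c' / Real.sqrt (s * n) * (if ((σ i).l.length : ℝ) < c * n then vsk n s (σ i) else 0)) ≤
      ui n s (σ i) h (fun _ => 1) := by
    intro i
    have hui : ui n s (σ i) h (fun _ => 1) =
        vsk n s (σ i) * bp (σ i).l.length p ((σ i).H - h) := by
      unfold ui vsk
      rw [rs_ind X.smp hs, ← hp]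
      ring
    have hb0 := bp_nonneg X.p0.le X.p1 (σ i).l.length ((σ i).H - h)
    rw [← hp] at hb0
    have hv := X.vpos i
    have hcn' : 0 ≤ c' / Real.sqrt (s * n) * vsk n s (σ i) := by positivity
    rw [hui]
    by_cases hi1 : i ∈ bad
    · rw [if_pos hi1]
      have : 0 ≤ c' / Real.sqrt (s * n) *
          (if ((σ i).l.length : ℝ) < c * n then vsk n s (σ i) else 0) := by
        split_ifs <;> positivity
      have := mul_nonneg hv hb0
      linarith
    · by_cases hi2 : ((σ i).l.length : ℝ) < c * n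
      · rw [if_neg hi1, if_pos hi2]
        have := mul_nonneg hv hb0
        linarith
      · rw [if_neg hi1, if_neg hi2, mul_zero, add_zero, sub_zero, mul_comm]
        refine mul_le_mul_of_nonneg_left ?_ hv
        have hi3 : c * n ≤ (σ i).l.length := not_lt.1 hi2
        have hcn : 0 < c * n := by positivity
        have hlen : (0 : ℝ) < (σ i).l.length := lt_of_lt_of_le hcn hi3
        have hkp := X.kp _ hi3
        rw [hbad, mem_filter, not_and, not_lt] at hi1
        have hi4 := hi1 (mem_univ i)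
        have h7 : |((((σ i).H - h : ℤ)) : ℝ) - s / (1 + s) * (σ i).l.length| ≤
            2 * Real.sqrt (2 * K / c) * Real.sqrt ((σ i).l.length * (s / (1 + s))) := by
          simp only [Int.cast_sub, Int.cast_natCast]
          rw [← hp, ← Real.sqrt_sq_eq_abs]
          have e : 2 * Real.sqrt (2 * K / c) * Real.sqrt ((σ i).l.length * p) =
              Real.sqrt (4 * (2 * K / c) * ((σ i).l.length * p)) := by
            have e4 : Real.sqrt (4 * (2 * K / c)) = 2 * Real.sqrt (2 * K / c) := by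
              rw [Real.sqrt_mul (by norm_num), show (4 : ℝ) = 2 ^ 2 by norm_num,
                Real.sqrt_sq (by norm_num)]
            rw [Real.sqrt_mul (show (0 : ℝ) ≤ 4 * (2 * K / c) by positivity), e4]
          rw [e]
          refine Real.sqrt_le_sqrt (hi4.trans ?_)
          rw [← hp] at hkp
          calc 4 * K * (s * n) = 4 * (2 * K / c) * (c / 2 * (s * n)) := by field_simp
            _ ≤ _ := mul_le_mul_of_nonneg_left hkp (by positivity)
        have h8 := hbin _ _ (hv0.trans hkp) h7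
        rw [← hp] at h8
        refine le_trans ?_ h8
        have hsl : 0 < Real.sqrt ((σ i).l.length * p) := Real.sqrt_pos.2 (by positivity)
        refine div_le_div_of_nonneg_left hc'.le hsl (Real.sqrt_le_sqrt ?_)
        have h9 := X.sk.len_le i
        have h10 := X.sk.H_le i
        have h11 : ((σ i).l.length : ℝ) ≤ n := by
          exact_mod_cast (by omega : (σ i).l.length ≤ n)
        calc ((σ i).l.length : ℝ) * p ≤ n * s := mul_le_mul h11 hps hp0.le (by positivity)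
          _ = s * n := by ring
  rw [X.U_eq]
  refine le_trans ?_ (sum_le_sum fun i _ => h6 i)
  rw [sum_sub_distrib, sum_add_distrib, ← mul_sum, ← mul_sum, ← mul_sum, ← X.Z]
  have e1 : ∑ i, (if i ∈ bad then vsk n s (σ i) else 0) = ∑ i ∈ bad, vsk n s (σ i) := by
    rw [← sum_filter]
    congr 1
    ext i
    simp
  have e2 : ∑ i, (if ((σ i).l.length : ℝ) < c * n then vsk n s (σ i) else 0) =
      ∑ i ∈ univ.filter (fun i : Fin k => ((σ i).l.length : ℝ) < c * n), vsk n s (σ i) := by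
    rw [← sum_filter]
  rw [e1, e2]
  have h7 : 0 < c' / Real.sqrt (s * n) := by positivity
  have h8 : c' / Real.sqrt (s * n) * ∑ i ∈ bad, vsk n s (σ i) ≤
      c' / Real.sqrt (s * n) * (1 / 4 * Zq n s) :=
    mul_le_mul_of_nonneg_left h4 h7.le
  have h9 : c' / Real.sqrt (s * n) *
      ∑ i ∈ univ.filter (fun i : Fin k => ((σ i).l.length : ℝ) < c * n),
      vsk n s (σ i) ≤ c' / Real.sqrt (s * n) * (1 / 4 * Zq n s) :=
    mul_le_mul_of_nonneg_left h5 h7.le
  have e3 : c' / 2 / Real.sqrt (s * n) * Zq n s = c' / Real.sqrt (s * n) * Zq n s -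
      (c' / Real.sqrt (s * n) * (1 / 4 * Zq n s) + c' / Real.sqrt (s * n) * (1 / 4 * Zq n s)) := by
    ring
  rw [e3]
  linarith

end Pool.Agent.NSP.LOCZ

namespace Pool.Agent.NSP

open Finset Filter Topology MeasureTheory
open Pool.Agent.Lib27 Pool.Agent.SapR Pool.Agent.Gap Pool.Agent.AreaLaw Pool.Agent.FL
open Pool.Agent.FS

theorem t_LOCZ (hS : SKZ_Stmt) (hK : KBGZ_Stmt) (hB : BINZ_Stmt) (hM : SMP_Stmt)
    (hA : ARM_Stmt) : LOCZ_Stmt := by
  obtain ⟨CA, hCA, NA, hA'⟩ := hA (1 / 4) (by norm_num) (by norm_num)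
  obtain ⟨c, hc, NK, hNK6, hKB'⟩ := hK
  obtain ⟨⟨CB, hCB, hb1⟩, hb2⟩ := hB
  obtain ⟨N, hN⟩ : ∃ N : ℕ, N = max (max NA NK) ⌈24 / c ^ 4⌉₊ := ⟨_, rfl⟩
  have hp : ∀ s : ℝ, 0 < s → s ≤ 1 / 4 → 0 < s / (1 + s) ∧ s / (1 + s) ≤ 1 / 2 := by
    intro s hs hs1
    refine ⟨by positivity, ?_⟩
    rw [div_le_div_iff₀ (by positivity) (by norm_num)]
    linarith
  have hctx : ∀ n : ℕ, N ≤ n → ∀ s : ℝ, s ≤ 1 / 4 → 1 ≤ s * n → ∃ (k : ℕ) (σ : Fin k → Sk),
      LOCZ.Ctx n k σ s c CA CB := by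
    intro n hn s hs1 hsn
    have hn1 : NA ≤ n := le_trans (le_trans (le_max_left _ _) (le_max_left _ _)) (hN ▸ hn)
    have hn2 : NK ≤ n := le_trans (le_trans (le_max_right _ _) (le_max_left _ _)) (hN ▸ hn)
    have hn3 : ⌈24 / c ^ 4⌉₊ ≤ n := le_trans (le_max_right _ _) (hN ▸ hn)
    have hn4 : 24 / c ^ 4 ≤ n := (Nat.le_ceil _).trans (by exact_mod_cast hn3)
    obtain ⟨k, σ, hσ⟩ := hS n (by omega)
    have hs : 0 < s := by
      by_contra h
      have h1 : s * n ≤ 0 := mul_nonpos_of_nonpos_of_nonneg (not_lt.1 h) (by positivity)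
      linarith
    obtain ⟨a1, _, a3⟩ := hA' n hn1 s hs hs1
    refine ⟨k, σ, ⟨hσ, by omega, hs, hs1, hsn, hc, hCA, hCB, hM, a1, a3, ?_, ?_⟩⟩
    · refine (hKB' n hn2 s hs hs1 k σ hσ).trans ?_
      refine mul_le_mul_of_nonneg_right (LOC.exp_small hc hn4 (by omega)) ?_
      unfold Zq
      refine sum_nonneg fun q _ => ?_
      unfold wtq
      positivity
    · intro m j hm
      exact hb1 (s / (1 + s)) (hp s hs hs1).1 (hp s hs hs1).2 m j hm
  refine ⟨⟨max (max (CB / Real.sqrt (c / 2) * (1 + 2 * CA) + 5)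
      (CB / Real.sqrt (c / 2) * (CA + 2 * |(dlt0 : ℝ)|) + (6 + |(dlt0 : ℝ)|)))
      (2 * (CB / Real.sqrt c) * (1 + 2 * CA) + 2 * CB / c + 2), ?_, N, ?_⟩, ?_⟩
  · have : 0 < CB / Real.sqrt (c / 2) * (1 + 2 * CA) + 5 := by positivity
    exact lt_of_lt_of_le this ((le_max_left _ _).trans (le_max_left _ _))
  · intro n hn s hs1 hsn
    obtain ⟨k, σ, X⟩ := hctx n hn s hs1 hsn
    have hZ := X.Zpos
    have hnn := X.n1
    have hs := X.hs
    have hlog : 0 ≤ Real.log n := Real.log_nonneg (by linarith)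
    refine ⟨fun h => ?_, fun h => ?_, fun h h' φ hφ hL => ?_⟩
    · refine (X.part1 h).trans (mul_le_mul_of_nonneg_right ?_ hZ)
      exact div_le_div_of_nonneg_right ((le_max_left _ _).trans (le_max_left _ _)) (Real.sqrt_nonneg _)
    · refine (X.part2 h).trans (mul_le_mul_of_nonneg_right ?_ hZ)
      exact mul_le_mul_of_nonneg_right ((le_max_right _ _).trans (le_max_left _ _)) (by positivity)
    · refine (X.part3 h h' φ hφ hL).trans (mul_le_mul_of_nonneg_right ?_ hZ)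
      exact mul_le_mul_of_nonneg_right (le_max_right _ _) (by positivity)
  · intro K hK
    obtain ⟨c', v0, hc', hv0, hb3⟩ := hb2 (2 * Real.sqrt (2 * K / c)) (by positivity)
    refine ⟨c' / 2, max 1 (2 * v0 / c), by positivity, by positivity, N, fun n hn s hs1 hsn h hv => ?_⟩
    obtain ⟨k, σ, X⟩ := hctx n hn s hs1 ((le_max_left _ _).trans hsn)
    have hs := X.hs
    refine X.part4 K c' v0 hK hc' (fun m j hm hj => ?_) ?_ h hv
    · exact hb3 (s / (1 + s)) (hp s hs hs1).1 (hp s hs hs1).2 m j hm hj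
    · have h2 : 2 * v0 / c ≤ s * n := (le_max_right _ _).trans hsn
      rw [div_le_iff₀ hc] at h2
      linarith

end Pool.Agent.NSP
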