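import Pool.Agent.NSP.StmtsM
import Pool.Agent.SUBB.FIN

/-!
# Module NSM_OLDM: moments in the old regime, condition on the span only
-/

set_option autoImplicit false

namespace Pool.Agent.NSP

open Finset Filter Topology MeasureTheory
open Pool.Agent.Lib27 Pool.Agent.SapR Pool.Agent.Gap Pool.Agent.AreaLaw Pool.Agent.FL
open Pool.Agent.FS
open Pool.Agent.KCS (airyMoment)
open Pool.Agent.KCC (areaMoment)

/-- MODULE NSM_OLDM -/
theorem t_OLDM (hF : FSM_Stmt) (hP : SUBB.POL_Stmt) : OLDM_Stmt := by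
  classical
  intro μ hμ hforce hmom
  obtain ⟨e₀, he₀, he₀', hmain⟩ := hF μ hμ hforce hmom
  have h1 : ∀ k : ℕ, ∀ᶠ n : ℕ in atTop,
      ((((SAP n).filter (fun s => 1 / ((k : ℝ) + 1) * n ≤ (span n s : ℝ))).card : ℕ) : ℝ) ≤
        Real.exp (-(e₀ n * n)) * ((SAP n).card : ℝ) := by
    intro k
    obtain ⟨c, hc, h2⟩ := hP (1 / ((k : ℝ) + 1)) (by positivity)
    have h3 : ∀ᶠ n in atTop, e₀ n < c := (tendsto_order.1 he₀').2 c hc
    filter_upwards [h2, h3] with n h4 h5
    have h6 : Real.exp (-(c * n)) * ((SAP n).card : ℝ) ≤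
        Real.exp (-(e₀ n * n)) * ((SAP n).card : ℝ) := by
      refine mul_le_mul_of_nonneg_right (Real.exp_le_exp.2 ?_) (Nat.cast_nonneg _)
      have : e₀ n * n ≤ c * n := mul_le_mul_of_nonneg_right h5.le (Nat.cast_nonneg _)
      linarith
    refine le_trans (le_of_eq ?_) (h4.trans h6)
    congr 2
  obtain ⟨K, hK, hKP⟩ := SUBB.FIN.diag _ h1
  refine ⟨fun n => max (e₀ n) (1 / ((K n : ℝ) + 1)), fun n => lt_max_of_lt_left (he₀ n), ?_, ?_⟩
  · have h2 : Tendsto (fun n => 1 / ((K n : ℝ) + 1)) atTop (𝓝 0) :=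
      tendsto_one_div_add_atTop_nhds_zero_nat.comp hK
    have h3 := he₀'.max h2
    rwa [max_self] at h3
  · intro h hh b r
    refine hmain h ?_ b r
    filter_upwards [hh, hKP] with n h3 h4
    obtain ⟨h5, h6⟩ := h3
    have hn0 : (0 : ℝ) ≤ n := Nat.cast_nonneg n
    refine ⟨le_trans ?_ h4, h6.trans ?_⟩
    · norm_cast
      refine card_le_card fun s hs => ?_
      rw [mem_filter] at hs ⊢
      refine ⟨hs.1, ?_⟩
      have h7 : (h n : ℝ) ≤ (span n s : ℝ) := by exact_mod_cast hs.2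
      have h8 : 1 / ((K n : ℝ) + 1) * n ≤ (h n : ℝ) :=
        le_trans (mul_le_mul_of_nonneg_right (le_max_right _ _) hn0) h5
      have h9 := h8.trans h7
      push_cast
      exact h9
    · exact mul_le_mul_of_nonneg_right (by linarith [le_max_left (e₀ n) (1 / ((K n : ℝ) + 1))]) hn0

end Pool.Agent.NSP
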