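import Pool.Agent.NSP.StmtsM

/-!
Project NSP, module REGM: moments for regular sequences.
-/

set_option autoImplicit false

namespace Pool.Agent.NSP

open Finset Filter Topology MeasureTheory
open Pool.Agent.Lib27 Pool.Agent.SapR Pool.Agent.Gap Pool.Agent.AreaLaw Pool.Agent.FL
open Pool.Agent.FS
open Pool.Agent.KCS (airyMoment)
open Pool.Agent.KCC (areaMoment)

namespace REGM

/-- the moments in terms of the rescaled area -/
lemma areaMoment_eq (n : ℕ) (hn : 1 ≤ n) (F : Finset (Fin (2 * n) → Fin 4)) (r : ℕ) :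
    areaMoment n F r = ((∑ w ∈ F, (2 * area n w / sc n) ^ r) / (F.card : ℝ)) /
      ((∑ w ∈ F, 2 * area n w / sc n) / (F.card : ℝ)) ^ r := by
  have hs := sc_pos hn
  have hk : (0 : ℝ) < (2 / sc n) ^ r := by positivity
  have e1 : ∑ w ∈ F, (2 * area n w / sc n) ^ r = (2 / sc n) ^ r * ∑ w ∈ F, area n w ^ r := by
    rw [Finset.mul_sum]
    refine Finset.sum_congr rfl fun w _ => ?_
    rw [← mul_pow]
    congr 1
    ring
  have e2 : ∑ w ∈ F, 2 * area n w / sc n = (2 / sc n) * ∑ w ∈ F, area n w := by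
    rw [Finset.mul_sum]
    refine Finset.sum_congr rfl fun w _ => ?_
    ring
  have e3 : (2 / sc n) * (∑ w ∈ F, area n w) / (F.card : ℝ) =
      (2 / sc n) * ((∑ w ∈ F, area n w) / (F.card : ℝ)) := mul_div_assoc _ _ _
  have e4 : (2 / sc n) ^ r * (∑ w ∈ F, area n w ^ r) / (F.card : ℝ) =
      (2 / sc n) ^ r * ((∑ w ∈ F, area n w ^ r) / (F.card : ℝ)) := mul_div_assoc _ _ _
  rw [e1, e2, e3, e4, mul_pow, mul_div_mul_left _ _ hk.ne']
  rfl

/-- boundedness of the moments from a lower bound for the mean -/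
lemma bound (F : ∀ n : ℕ, Finset (Fin (2 * n) → Fin 4)) (c : ℝ) (hc : 0 < c)
    (hm : ∀ᶠ n : ℕ in atTop, c ≤ (∑ w ∈ F n, 2 * area n w / sc n) / ((F n).card : ℝ))
    (r : ℕ) (hC : ∃ C : ℝ, ∀ᶠ n : ℕ in atTop,
      (∑ w ∈ F n, (2 * area n w / sc n) ^ r) / ((F n).card : ℝ) ≤ C) :
    ∃ C : ℝ, ∀ᶠ n : ℕ in atTop, areaMoment n (F n) r ≤ C := by
  obtain ⟨C, hC⟩ := hC
  refine ⟨C / c ^ r, ?_⟩
  filter_upwards [hm, hC, eventually_ge_atTop 1] with n h1 h2 h3
  rw [areaMoment_eq n h3]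
  have h4 : 0 ≤ (∑ w ∈ F n, (2 * area n w / sc n) ^ r) / ((F n).card : ℝ) := by
    refine div_nonneg (Finset.sum_nonneg fun w _ => pow_nonneg ?_ r) (Nat.cast_nonneg _)
    exact div_nonneg (mul_nonneg (by norm_num) (area_nonneg n w)) (sc_nonneg n)
  have h5 : 0 < c ^ r := pow_pos hc r
  have h6 : c ^ r ≤ ((∑ w ∈ F n, 2 * area n w / sc n) / ((F n).card : ℝ)) ^ r :=
    pow_le_pow_left₀ hc.le h1 r
  exact div_le_div₀ (h4.trans h2) h2 h5 h6

/-- positivity of the sum of the areas from a lower bound for the mean -/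
lemma area_pos (n : ℕ) (F : Finset (Fin (2 * n) → Fin 4)) (c : ℝ) (hc : 0 < c)
    (hm : c ≤ (∑ w ∈ F, 2 * area n w / sc n) / (F.card : ℝ)) :
    0 < ∑ w ∈ F, area n w := by
  rcases (Finset.sum_nonneg fun w _ => area_nonneg n w : 0 ≤ ∑ w ∈ F, area n w).lt_or_eq
    with h | h
  · exact h
  · exfalso
    have e2 : ∑ w ∈ F, 2 * area n w / sc n = (2 / sc n) * ∑ w ∈ F, area n w := by
      rw [Finset.mul_sum]
      refine Finset.sum_congr rfl fun w _ => ?_
      ring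
    rw [e2, ← h, mul_zero, zero_div] at hm
    linarith

end REGM

theorem t_REGM (hF : FINZ_Stmt) (hS : SAPZ_Stmt) (hC : CLMZ_Stmt) (hCM : CDFM_Stmt) :
    REGM_Stmt := by
  intro μ hμ hFo hmom s h hR b r
  obtain ⟨s1, -, s3, c, hc, s4⟩ := hS s h hR b
  have hlow : ∀ᶠ n : ℕ in atTop,
      c / 2 ≤ (∑ w ∈ cls n b (h n), 2 * area n w / sc n) / ((cls n b (h n)).card : ℝ) := by
    filter_upwards [s4, (Metric.tendsto_nhds.1 s3) (c / 2) (by linarith)] with n h1 h2
    rw [Real.dist_eq, sub_zero] at h2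
    have h3 := (abs_lt.1 h2).1
    have h4 := h1.1
    unfold cls
    linarith
  refine hCM μ airyMoment hμ hmom (fun n => cls n b (h n)) ?_
    (fun x hx => hF μ hμ hFo s h hR b x hx) ?_ r
  · filter_upwards [s1, hlow] with n h1 h2
    exact ⟨h1, REGM.area_pos n _ (c / 2) (by linarith) h2⟩
  · intro k
    exact REGM.bound (fun n => cls n b (h n)) (c / 2) (by linarith) hlow k (hC s h hR b k)

end Pool.Agent.NSP
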