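import Pool.Agent.NSP.Stmts

/-!
# Project NSP: the critical weight for small `s`
-/

set_option autoImplicit false

namespace Pool.Agent.NSP

open Finset Filter Topology MeasureTheory
open Pool.Agent.Lib27 Pool.Agent.SapR Pool.Agent.Gap Pool.Agent.AreaLaw Pool.Agent.FL
open Pool.Agent.FS

namespace RHOZ

/-! ### the piece `tz` -/

lemma tz_hl : hl tz = 4 := by decide
lemma tz_htn : htn tz = 3 := by decide

lemma tz_free : FreePiece tz.1 tz.2 := by
  refine ⟨?_, ?_⟩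
  · unfold StripPair; decide
  · intro k h1 h2
    have h3 : lev (ep 0 tz.1) = 3 := by decide
    rw [h3] at h2 ⊢
    have : k = 1 ∨ k = 2 := by omega
    rcases this with rfl | rfl <;> decide

lemma tz_mem (n : ℕ) (hn : 6 ≤ n) : tz ∈ Pc (2 * n - 1) := by
  rw [M41.mem_Pc]
  refine ⟨tz_free, ?_⟩
  have : tz.1.length + tz.2.length = 8 := by decide
  omega

/-! ### elementary inequalities -/

lemma exp_sub_one_le (x : ℝ) : Real.exp x - 1 ≤ x * Real.exp x := by
  have h1 := Real.add_one_le_exp (-x)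
  have h2 : Real.exp (-x) * Real.exp x = 1 := by
    rw [← Real.exp_add]; simp
  have h3 : 0 < Real.exp x := Real.exp_pos x
  nlinarith [mul_le_mul_of_nonneg_right h1 h3.le]

lemma abs_exp_sub (x : ℝ) : |Real.exp x - 1 - x| ≤ x ^ 2 * Real.exp |x| := by
  have h0 : 0 ≤ Real.exp x - 1 - x := by
    have := Real.add_one_le_exp x
    linarith
  rw [abs_of_nonneg h0]
  have h1 := exp_sub_one_le x
  have h2 : Real.exp x - 1 - x ≤ x * (Real.exp x - 1) := by linarith
  refine h2.trans ?_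
  rcases le_total 0 x with hx | hx
  · rw [abs_of_nonneg hx]
    calc x * (Real.exp x - 1) ≤ x * (x * Real.exp x) := mul_le_mul_of_nonneg_left h1 hx
      _ = x ^ 2 * Real.exp x := by ring
  · have h3 : 1 - Real.exp x ≤ -x := by
      have := Real.add_one_le_exp x
      linarith
    have h4 : 1 ≤ Real.exp |x| := Real.one_le_exp (abs_nonneg x)
    calc x * (Real.exp x - 1) = (-x) * (1 - Real.exp x) := by ring
      _ ≤ (-x) * (-x) := mul_le_mul_of_nonneg_left h3 (by linarith)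
      _ = x ^ 2 * 1 := by ring
      _ ≤ x ^ 2 * Real.exp |x| := mul_le_mul_of_nonneg_left h4 (sq_nonneg x)

lemma nat_le_exp (m : ℕ) : (m : ℝ) ≤ 12 * Real.exp (m / 12) := by
  have := Real.add_one_le_exp ((m : ℝ) / 12)
  linarith

lemma nat_sq_le_exp (m : ℕ) : (m : ℝ) ^ 2 ≤ 144 * Real.exp (m / 6) := by
  have h := nat_le_exp m
  have h0 : (0 : ℝ) ≤ m := Nat.cast_nonneg m
  have h1 : Real.exp ((m : ℝ) / 6) = Real.exp (m / 12) * Real.exp (m / 12) := by
    rw [← Real.exp_add]; congr 1; ring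
  rw [h1]
  have := mul_le_mul h h h0 (by positivity)
  nlinarith

lemma exp_five_thirds : Real.exp (5 / 3) ≤ 53 / 10 := by
  have h1 : Real.exp (5 / 3) ^ 3 = Real.exp 1 ^ 5 := by
    rw [← Real.exp_nat_mul, ← Real.exp_nat_mul]; congr 1; norm_num
  have h2 : Real.exp 1 ^ 5 ≤ 2.7182818286 ^ 5 :=
    pow_le_pow_left₀ (Real.exp_pos 1).le Real.exp_one_lt_d9.le 5
  by_contra hc
  push Not at hc
  have h3 : (53 / 10 : ℝ) ^ 3 < Real.exp (5 / 3) ^ 3 := pow_lt_pow_left₀ hc (by norm_num) (by norm_num)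
  rw [h1] at h3
  have h4 : (2.7182818286 : ℝ) ^ 5 < (53 / 10) ^ 3 := by norm_num
  linarith

/-! ### sums over the pieces -/

/-- the weight of a piece -/
noncomputable def w (s ρ : ℝ) (p : Wd × Wd) : ℝ := ρ ^ hl p * s ^ (hl p - htn p)

lemma w_nonneg {s ρ : ℝ} (hs : 0 < s) (hρ : 0 < ρ) (p : Wd × Wd) : 0 ≤ w s ρ p := by
  unfold w; positivity

lemma w_exp {s ρ ρ' : ℝ} (hρ : 0 < ρ) (hρ' : 0 < ρ') (u : ℝ) (p : Wd × Wd) :
    w (s * Real.exp u) ρ' p =
      w s ρ p * Real.exp (Real.log (ρ' / ρ) * hl p + u * ((hl p - htn p : ℕ) : ℝ)) := by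
  unfold w
  rw [Real.exp_add, mul_comm (Real.log _), mul_comm u, Real.exp_nat_mul, Real.exp_nat_mul,
    Real.exp_log (div_pos hρ' hρ), mul_pow, div_pow]
  field_simp

open Classical in
lemma split (hg : HG_Stmt) (n : ℕ) (f : Wd × Wd → ℝ) :
    ∑ p ∈ Pc (2 * n - 1), f p = ∑ p ∈ (Pc (2 * n - 1)).filter (fun p => hl p = 1), f p +
      ∑ p ∈ (Pc (2 * n - 1)).filter (fun p => 2 ≤ hl p), f p := by
  rw [← Finset.sum_filter_add_sum_filter_not (Pc (2 * n - 1)) (fun p => hl p = 1) f]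
  congr 1
  refine Finset.sum_congr ?_ fun _ _ => rfl
  ext p
  simp only [mem_filter]
  constructor
  · rintro ⟨h1, h2⟩
    have := hg.2.2 _ p h1
    exact ⟨h1, by omega⟩
  · rintro ⟨h1, h2⟩
    exact ⟨h1, by omega⟩

lemma dlt_one (hg : HG_Stmt) {r : ℕ} {p : Wd × Wd} (hp : p ∈ Pc r) (h : hl p = 1) :
    hl p - htn p = 0 := by
  have := hg.2.2 _ p hp
  omega

open Classical in
/-- exponential moments of the weights of the long pieces -/
lemma exps {C s0 : ℝ} (hT : ∀ (n : ℕ) (s ρ : ℝ), 2 ≤ n → 0 < s → s ≤ s0 → 0 < ρ → ρ ≤ 1 / 4 →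
      ∀ m : ℕ, 2 ≤ m →
      ∑ p ∈ (Pc (2 * n - 1)).filter (fun p => hl p = m), ρ ^ hl p * s ^ (hl p - htn p) ≤
        C * s / 8 ^ m) (hC : 0 < C) (n : ℕ) (s ρ : ℝ) (hn : 2 ≤ n) (hs : 0 < s) (hs0 : s ≤ s0)
    (hρ : 0 < ρ) (hρ4 : ρ ≤ 1 / 4) :
    ∑ p ∈ (Pc (2 * n - 1)).filter (fun p => 2 ≤ hl p), w s ρ p * Real.exp (5 / 3 * hl p) ≤
      3 * C * s := by
  set T := (Pc (2 * n - 1)).filter (fun p => 2 ≤ hl p) with hTd
  have h1 : ∑ p ∈ T, w s ρ p * Real.exp (5 / 3 * hl p) =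
      ∑ m ∈ T.image hl, ∑ p ∈ T.filter (fun p => hl p = m), w s ρ p * Real.exp (5 / 3 * hl p) :=
    (Finset.sum_fiberwise_of_maps_to (fun p hp => Finset.mem_image_of_mem _ hp) _).symm
  rw [h1]
  have h2 : ∀ m ∈ T.image hl, ∑ p ∈ T.filter (fun p => hl p = m),
      w s ρ p * Real.exp (5 / 3 * hl p) ≤ C * s * (53 / 80 : ℝ) ^ m := by
    intro m hm
    obtain ⟨p, hp, rfl⟩ := Finset.mem_image.1 hm
    have h2m : 2 ≤ hl p := (Finset.mem_filter.1 hp).2
    generalize hl p = m at h2m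
    have h3 : T.filter (fun p => hl p = m) = (Pc (2 * n - 1)).filter (fun p => hl p = m) := by
      ext q
      simp only [hTd, mem_filter]
      constructor
      · rintro ⟨⟨h1, h2⟩, h3⟩
        exact ⟨h1, h3⟩
      · rintro ⟨h1, h3⟩
        exact ⟨⟨h1, by omega⟩, h3⟩
    rw [h3]
    have h4 : ∑ p ∈ (Pc (2 * n - 1)).filter (fun p => hl p = m),
        w s ρ p * Real.exp (5 / 3 * hl p) =
        (∑ p ∈ (Pc (2 * n - 1)).filter (fun p => hl p = m), ρ ^ hl p * s ^ (hl p - htn p)) *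
          Real.exp (5 / 3 * m) := by
      rw [Finset.sum_mul]
      refine Finset.sum_congr rfl fun q hq => ?_
      have := (Finset.mem_filter.1 hq).2
      unfold w
      rw [this]
    rw [h4]
    have h5 : Real.exp (5 / 3 * (m : ℝ)) ≤ (53 / 10 : ℝ) ^ m := by
      rw [mul_comm, Real.exp_nat_mul]
      exact pow_le_pow_left₀ (Real.exp_pos _).le exp_five_thirds m
    have h6 := hT n s ρ hn hs hs0 hρ hρ4 m h2m
    calc (∑ p ∈ (Pc (2 * n - 1)).filter (fun p => hl p = m), ρ ^ hl p * s ^ (hl p - htn p)) *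
          Real.exp (5 / 3 * m) ≤ (C * s / 8 ^ m) * (53 / 10 : ℝ) ^ m := by
          refine mul_le_mul h6 h5 (Real.exp_pos _).le (by positivity)
      _ = C * s * (53 / 80 : ℝ) ^ m := by
          rw [div_mul_eq_mul_div, mul_div_assoc, ← div_pow]
          norm_num
  refine (Finset.sum_le_sum h2).trans ?_
  rw [← Finset.mul_sum]
  have h3 : ∑ m ∈ T.image hl, (53 / 80 : ℝ) ^ m ≤ 3 := by
    have h4 : Summable (fun m : ℕ => (53 / 80 : ℝ) ^ m) :=
      summable_geometric_of_lt_one (by norm_num) (by norm_num)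
    have h5 := h4.sum_le_tsum (T.image hl) (fun m _ => by positivity)
    rw [tsum_geometric_of_lt_one (by norm_num) (by norm_num)] at h5
    refine h5.trans (by norm_num)
  calc C * s * ∑ m ∈ T.image hl, (53 / 80 : ℝ) ^ m ≤ C * s * 3 :=
        mul_le_mul_of_nonneg_left h3 (by positivity)
    _ = 3 * C * s := by ring

/-- the two estimates for the pieces that are used below -/
structure Est (C s0 : ℝ) : Prop where
  one : ∀ (n : ℕ) (s ρ : ℝ), 2 ≤ n →
    ∑ p ∈ (Pc (2 * n - 1)).filter (fun p => hl p = 1), w s ρ p = 4 * ρ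
  pos : 0 < C
  exps : ∀ (n : ℕ) (s ρ : ℝ), 2 ≤ n → 0 < s → s ≤ s0 → 0 < ρ → ρ ≤ 1 / 4 →
    ∑ p ∈ (Pc (2 * n - 1)).filter (fun p => 2 ≤ hl p), w s ρ p * Real.exp (5 / 3 * hl p) ≤ C * s

lemma crit_sum {n : ℕ} {s ρ : ℝ} (h : Crit n s ρ) : ∑ p ∈ Pc (2 * n - 1), w s ρ p = 1 := h.2

lemma sum_sub_one {n : ℕ} {s ρ : ℝ} (h : Crit n s ρ) (f : Wd × Wd → ℝ) :
    ∑ p ∈ Pc (2 * n - 1), w s ρ p * f p =
      ∑ p ∈ Pc (2 * n - 1), w s ρ p * (f p - 1) + 1 := by
  have h1 := crit_sum h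
  have h2 : ∑ p ∈ Pc (2 * n - 1), w s ρ p * (f p - 1) =
      ∑ p ∈ Pc (2 * n - 1), w s ρ p * f p - ∑ p ∈ Pc (2 * n - 1), w s ρ p := by
    rw [← Finset.sum_sub_distrib]
    exact Finset.sum_congr rfl fun p _ => by ring
  rw [h2, h1]
  ring

lemma w_one_le {s ρ : ℝ} (hs : 0 < s) (hρ : 0 < ρ) (p : Wd × Wd) :
    w s ρ p ≤ w s ρ p * Real.exp (5 / 3 * hl p) :=
  le_mul_of_one_le_right (w_nonneg hs hρ p) (Real.one_le_exp (by positivity))

open Classical in
/-- bounds for the critical weight -/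
lemma crit_bd {C s0 : ℝ} (hE : Est C s0) (hg : HG_Stmt) {n : ℕ} {s ρ : ℝ} (hn : 2 ≤ n)
    (hs : 0 < s) (hs0 : s ≤ s0) (h : Crit n s ρ) : 1 / 4 - C / 4 * s ≤ ρ ∧ ρ ≤ 1 / 4 := by
  have h1 := crit_sum h
  rw [split hg, hE.one n s ρ hn] at h1
  have h2 : 0 ≤ ∑ p ∈ (Pc (2 * n - 1)).filter (fun p => 2 ≤ hl p), w s ρ p :=
    Finset.sum_nonneg fun p _ => w_nonneg hs h.1 p
  have h3 : ρ ≤ 1 / 4 := by linarith
  have h4 := hE.exps n s ρ hn hs hs0 h.1 h3
  have h5 : ∑ p ∈ (Pc (2 * n - 1)).filter (fun p => 2 ≤ hl p), w s ρ p ≤ C * s :=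
    (Finset.sum_le_sum fun p _ => w_one_le hs h.1 p).trans h4
  exact ⟨by linarith, h3⟩

/-- the weights for another parameter -/
lemma crit_exp {n : ℕ} {s ρ ρ' : ℝ} (u : ℝ) (h : Crit n s ρ) (h' : Crit n (s * Real.exp u) ρ') :
    ∑ p ∈ Pc (2 * n - 1), w s ρ p * Real.exp (Real.log (ρ' / ρ) * hl p +
      u * ((hl p - htn p : ℕ) : ℝ)) = 1 := by
  rw [← crit_sum h']
  exact Finset.sum_congr rfl fun p _ => (w_exp h.1 h'.1 u p).symm

lemma mul_exp_le (m : ℕ) {a : ℝ} (ha : 0 ≤ a) (ha1 : a ≤ 1) :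
    Real.exp (a * m) - 1 ≤ a * (12 * Real.exp (5 / 3 * m)) := by
  have h0 : (0 : ℝ) ≤ m := Nat.cast_nonneg m
  refine (exp_sub_one_le _).trans ?_
  rw [mul_assoc]
  refine mul_le_mul_of_nonneg_left ?_ ha
  calc (m : ℝ) * Real.exp (a * m) ≤ (12 * Real.exp (m / 12)) * Real.exp m := by
        refine mul_le_mul (nat_le_exp m) (Real.exp_le_exp.2 ?_) (Real.exp_pos _).le (by positivity)
        nlinarith
    _ = 12 * Real.exp (m / 12 + m) := by rw [Real.exp_add]; ring
    _ ≤ 12 * Real.exp (5 / 3 * m) := by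
        refine mul_le_mul_of_nonneg_left (Real.exp_le_exp.2 ?_) (by norm_num)
        linarith

open Classical in
/-- part (b), increasing weights -/
lemma crit_inc {C s0 : ℝ} (hE : Est C s0) (hg : HG_Stmt) {n : ℕ} {s ρ ρ' u : ℝ} (hn : 2 ≤ n)
    (hs : 0 < s) (hs0 : s ≤ s0) (hu : 0 ≤ u) (hu1 : u ≤ 1) (h : Crit n s ρ)
    (h' : Crit n (s * Real.exp u) ρ') :
    Real.log (ρ' / ρ) ≤ 0 ∧ -(12 * C * s * u) ≤ Real.log (ρ' / ρ) := by
  have h1 := crit_exp u h h'
  set a := Real.log (ρ' / ρ) with ha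
  have hw : ∀ p ∈ Pc (2 * n - 1), 0 ≤ w s ρ p := fun p _ => w_nonneg hs h.1 p
  have hlp : ∀ p ∈ Pc (2 * n - 1), (1 : ℝ) ≤ hl p := by
    intro p hp
    have := hg.2.2 _ p hp
    exact_mod_cast this.1.trans this.2
  have ha0 : a ≤ 0 := by
    by_contra hc
    push Not at hc
    have h2 : Real.exp a ≤ 1 := by
      calc Real.exp a = ∑ p ∈ Pc (2 * n - 1), w s ρ p * Real.exp a := by
            rw [← Finset.sum_mul, crit_sum h, one_mul]
        _ ≤ ∑ p ∈ Pc (2 * n - 1), w s ρ p * Real.exp (a * hl p +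
              u * ((hl p - htn p : ℕ) : ℝ)) := by
            refine Finset.sum_le_sum fun p hp => mul_le_mul_of_nonneg_left
              (Real.exp_le_exp.2 ?_) (hw p hp)
            have h3 := hlp p hp
            have h4 : 0 ≤ u * ((hl p - htn p : ℕ) : ℝ) := by positivity
            nlinarith
        _ = 1 := h1
    have := Real.one_lt_exp_iff.2 hc
    linarith
  refine ⟨ha0, ?_⟩
  have h4 := (crit_bd hE hg hn hs hs0 h).2
  have h5 : ∑ p ∈ Pc (2 * n - 1), w s ρ p * Real.exp (u * ((hl p - htn p : ℕ) : ℝ)) ≤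
      1 + 12 * C * s * u := by
    have h6 : ∑ p ∈ Pc (2 * n - 1), w s ρ p * (Real.exp (u * ((hl p - htn p : ℕ) : ℝ)) - 1) ≤
        12 * C * s * u := by
      rw [split hg]
      have h7 : ∑ p ∈ (Pc (2 * n - 1)).filter (fun p => hl p = 1),
          w s ρ p * (Real.exp (u * ((hl p - htn p : ℕ) : ℝ)) - 1) = 0 := by
        refine Finset.sum_eq_zero fun p hp => ?_
        have hp' := Finset.mem_filter.1 hp
        rw [dlt_one hg hp'.1 hp'.2]
        simp
      rw [h7, zero_add]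
      calc ∑ p ∈ (Pc (2 * n - 1)).filter (fun p => 2 ≤ hl p),
            w s ρ p * (Real.exp (u * ((hl p - htn p : ℕ) : ℝ)) - 1)
          ≤ ∑ p ∈ (Pc (2 * n - 1)).filter (fun p => 2 ≤ hl p),
            12 * u * (w s ρ p * Real.exp (5 / 3 * hl p)) := by
            refine Finset.sum_le_sum fun p _ => ?_
            have h8 : Real.exp (u * ((hl p - htn p : ℕ) : ℝ)) - 1 ≤
                u * (12 * Real.exp (5 / 3 * hl p)) := by
              refine le_trans ?_ (mul_exp_le (hl p) hu hu1)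
              refine sub_le_sub_right (Real.exp_le_exp.2 ?_) 1
              refine mul_le_mul_of_nonneg_left ?_ hu
              exact_mod_cast Nat.sub_le _ _
            calc w s ρ p * (Real.exp (u * ((hl p - htn p : ℕ) : ℝ)) - 1)
                ≤ w s ρ p * (u * (12 * Real.exp (5 / 3 * hl p))) :=
                  mul_le_mul_of_nonneg_left h8 (w_nonneg hs h.1 p)
              _ = 12 * u * (w s ρ p * Real.exp (5 / 3 * hl p)) := by ring
        _ ≤ 12 * u * (C * s) := by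
            rw [← Finset.mul_sum]
            exact mul_le_mul_of_nonneg_left (hE.exps n s ρ hn hs hs0 h.1 h4) (by positivity)
        _ = 12 * C * s * u := by ring
    have h9 : ∑ p ∈ Pc (2 * n - 1), w s ρ p * Real.exp (u * ((hl p - htn p : ℕ) : ℝ)) =
        ∑ p ∈ Pc (2 * n - 1), w s ρ p * (Real.exp (u * ((hl p - htn p : ℕ) : ℝ)) - 1) + 1 :=
      sum_sub_one h _
    rw [h9]
    linarith
  have h10 : 1 ≤ Real.exp a * (1 + 12 * C * s * u) := by
    calc (1 : ℝ) = ∑ p ∈ Pc (2 * n - 1), w s ρ p * Real.exp (a * hl p +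
              u * ((hl p - htn p : ℕ) : ℝ)) := h1.symm
      _ ≤ ∑ p ∈ Pc (2 * n - 1), Real.exp a *
            (w s ρ p * Real.exp (u * ((hl p - htn p : ℕ) : ℝ))) := by
          refine Finset.sum_le_sum fun p hp => ?_
          have h3 := hlp p hp
          have h11 : Real.exp (a * hl p + u * ((hl p - htn p : ℕ) : ℝ)) ≤
              Real.exp a * Real.exp (u * ((hl p - htn p : ℕ) : ℝ)) := by
            rw [← Real.exp_add]
            refine Real.exp_le_exp.2 ?_
            nlinarith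
          calc w s ρ p * Real.exp (a * hl p + u * ((hl p - htn p : ℕ) : ℝ))
              ≤ w s ρ p * (Real.exp a * Real.exp (u * ((hl p - htn p : ℕ) : ℝ))) :=
                mul_le_mul_of_nonneg_left h11 (hw p hp)
            _ = Real.exp a * (w s ρ p * Real.exp (u * ((hl p - htn p : ℕ) : ℝ))) := by ring
      _ = Real.exp a * ∑ p ∈ Pc (2 * n - 1),
            w s ρ p * Real.exp (u * ((hl p - htn p : ℕ) : ℝ)) := by rw [Finset.mul_sum]
      _ ≤ Real.exp a * (1 + 12 * C * s * u) :=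
          mul_le_mul_of_nonneg_left h5 (Real.exp_pos a).le
  have h12 : 0 ≤ 12 * C * s * u := by have := hE.pos; positivity
  have h13 : Real.exp (-a) ≤ 1 + 12 * C * s * u := by
    rw [Real.exp_neg]
    rw [inv_le_iff_one_le_mul₀ (Real.exp_pos a)]
    linarith
  have h14 := Real.add_one_le_exp (-a)
  linarith

/-- part (b) -/
lemma crit_lip {C s0 : ℝ} (hE : Est C s0) (hg : HG_Stmt) {n : ℕ} {s ρ ρ' u : ℝ} (hn : 2 ≤ n)
    (hs : 0 < s) (hs0 : s ≤ s0) (hu1 : |u| ≤ 1) (h : Crit n s ρ)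
    (h' : Crit n (s * Real.exp u) ρ') : |Real.log (ρ' / ρ)| ≤ 12 * C * s * |u| := by
  have hC := hE.pos
  rcases le_total 0 u with hu | hu
  · rw [abs_of_nonneg hu] at hu1 ⊢
    obtain ⟨h1, h2⟩ := crit_inc hE hg hn hs hs0 hu hu1 h h'
    rw [abs_of_nonpos h1]
    linarith
  · rw [abs_of_nonpos hu] at hu1 ⊢
    have h3 : s * Real.exp u ≤ s := by
      have : Real.exp u ≤ 1 := Real.exp_le_one_iff.2 hu
      nlinarith
    have h4 : Crit n (s * Real.exp u * Real.exp (-u)) ρ := by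
      rw [mul_assoc, ← Real.exp_add]
      simpa using h
    obtain ⟨h1, h2⟩ := crit_inc hE hg hn (mul_pos hs (Real.exp_pos u)) (h3.trans hs0)
      (by linarith) hu1 h' h4
    have h5 : Real.log (ρ' / ρ) = -Real.log (ρ / ρ') := by
      rw [← Real.log_inv, inv_div]
    rw [h5, abs_neg, abs_of_nonpos h1]
    have h6 : 12 * C * (s * Real.exp u) * -u ≤ 12 * C * s * -u := by
      have : 0 ≤ 12 * C * -u := mul_nonneg (by positivity) (by linarith)
      nlinarith
    linarith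

open Classical in
/-- part (c) -/
lemma crit_low {C s0 : ℝ} (hE : Est C s0) (hg : HG_Stmt) {n : ℕ} {s ρ ρ' : ℝ} (hn : 6 ≤ n)
    (hs : 0 < s) (hs0 : s ≤ s0) (hs1 : s ≤ 1) (hCs : 24 * C * s ≤ 1) (h : Crit n s ρ)
    (h' : Crit n (s * Real.exp (-1)) ρ') :
    1 / (8 ^ 4 * 24 * (6 + C)) * s ≤ Real.log (ρ' / ρ) := by
  have hC := hE.pos
  have hn2 : 2 ≤ n := by omega
  have h1 := crit_exp (-1) h h'
  have hlip := crit_lip hE hg hn2 hs hs0 (by norm_num) h h'
  set a := Real.log (ρ' / ρ) with ha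
  have ha0 : 0 ≤ a := by
    have h3 : s * Real.exp (-1) ≤ s0 := by
      have : Real.exp (-1) ≤ 1 := Real.exp_le_one_iff.2 (by norm_num)
      nlinarith
    have h4 : Crit n (s * Real.exp (-1) * Real.exp 1) ρ := by
      rw [mul_assoc, ← Real.exp_add]
      simpa using h
    have h5 := (crit_inc hE hg hn2 (mul_pos hs (Real.exp_pos _)) h3 (by norm_num) le_rfl h' h4).1
    have h6 : a = -Real.log (ρ / ρ') := by
      rw [← Real.log_inv, inv_div]
    linarith
  have ha1 : a ≤ 1 := by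
    have h3 := le_abs_self a
    rw [abs_neg, abs_one, mul_one] at hlip
    linarith
  obtain ⟨hρl, hρ4⟩ := crit_bd hE hg hn2 hs hs0 h
  have hρ8 : 1 / 8 ≤ ρ := by
    have : C / 4 * s ≤ 1 / 8 := by linarith
    linarith
  -- upper bound of the exponential moment
  have h2 : ∑ p ∈ Pc (2 * n - 1), w s ρ p * Real.exp (5 / 3 * hl p) ≤ 6 + C := by
    rw [split hg]
    have h3 : ∑ p ∈ (Pc (2 * n - 1)).filter (fun p => hl p = 1),
        w s ρ p * Real.exp (5 / 3 * hl p) ≤ 6 := by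
      calc ∑ p ∈ (Pc (2 * n - 1)).filter (fun p => hl p = 1), w s ρ p * Real.exp (5 / 3 * hl p)
          = ∑ p ∈ (Pc (2 * n - 1)).filter (fun p => hl p = 1), w s ρ p * Real.exp (5 / 3) := by
            refine Finset.sum_congr rfl fun p hp => ?_
            rw [(Finset.mem_filter.1 hp).2]
            norm_num
        _ = 4 * ρ * Real.exp (5 / 3) := by rw [← Finset.sum_mul, hE.one n s ρ hn2]
        _ ≤ 1 * (53 / 10) := mul_le_mul (by linarith) exp_five_thirds (Real.exp_pos _).le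
            (by norm_num)
        _ ≤ 6 := by norm_num
    have h4 := hE.exps n s ρ hn2 hs hs0 h.1 hρ4
    have h5 : C * s ≤ C := by nlinarith
    linarith
  have h3 : ∑ p ∈ Pc (2 * n - 1), w s ρ p * Real.exp (a * hl p) ≤ 1 + 12 * (6 + C) * a := by
    have h4 : ∑ p ∈ Pc (2 * n - 1), w s ρ p * Real.exp (a * hl p) =
        ∑ p ∈ Pc (2 * n - 1), w s ρ p * (Real.exp (a * hl p) - 1) + 1 :=
      sum_sub_one h _
    rw [h4]
    have h5 : ∑ p ∈ Pc (2 * n - 1), w s ρ p * (Real.exp (a * hl p) - 1) ≤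
        12 * a * ∑ p ∈ Pc (2 * n - 1), w s ρ p * Real.exp (5 / 3 * hl p) := by
      rw [Finset.mul_sum]
      refine Finset.sum_le_sum fun p _ => ?_
      calc w s ρ p * (Real.exp (a * hl p) - 1)
          ≤ w s ρ p * (a * (12 * Real.exp (5 / 3 * hl p))) :=
            mul_le_mul_of_nonneg_left (mul_exp_le (hl p) ha0 ha1) (w_nonneg hs h.1 p)
        _ = 12 * a * (w s ρ p * Real.exp (5 / 3 * hl p)) := by ring
    have h6 := mul_le_mul_of_nonneg_left h2 (show 0 ≤ 12 * a by positivity)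
    linarith
  -- the piece tz
  have h4 : w s ρ tz * (1 / 2) ≤ ∑ p ∈ Pc (2 * n - 1),
      w s ρ p * (Real.exp (a * hl p) - Real.exp (a * hl p + -1 * ((hl p - htn p : ℕ) : ℝ))) := by
    have h5 : ∀ p ∈ Pc (2 * n - 1), 0 ≤ w s ρ p * (Real.exp (a * hl p) -
        Real.exp (a * hl p + -1 * ((hl p - htn p : ℕ) : ℝ))) := by
      intro p _
      refine mul_nonneg (w_nonneg hs h.1 p) (sub_nonneg.2 (Real.exp_le_exp.2 ?_))
      have : (0 : ℝ) ≤ ((hl p - htn p : ℕ) : ℝ) := Nat.cast_nonneg _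
      linarith
    refine le_trans ?_ (Finset.single_le_sum h5 (tz_mem n hn))
    refine mul_le_mul_of_nonneg_left ?_ (w_nonneg hs h.1 _)
    rw [tz_hl, tz_htn]
    have h6 : Real.exp (a * (4 : ℕ) + -1 * ((4 - 3 : ℕ) : ℝ)) =
        Real.exp (a * (4 : ℕ)) * Real.exp (-1) := by
      rw [← Real.exp_add]; congr 1; norm_num
    rw [h6]
    have h7 : Real.exp (-1) ≤ 1 / 2 := by
      rw [Real.exp_neg, inv_le_comm₀ (Real.exp_pos 1) (by norm_num)]
      have := Real.exp_one_gt_d9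
      linarith
    have h8 : 1 ≤ Real.exp (a * (4 : ℕ)) := Real.one_le_exp (by positivity)
    have h9 : 0 ≤ 1 - Real.exp (-1) := by linarith
    have h10 := mul_le_mul_of_nonneg_right h8 h9
    calc (1 / 2 : ℝ) ≤ 1 * (1 - Real.exp (-1)) := by linarith
      _ ≤ Real.exp (a * (4 : ℕ)) * (1 - Real.exp (-1)) := h10
      _ = _ := by ring
  have h5 : w s ρ tz * (1 / 2) ≤ 12 * (6 + C) * a := by
    have h6 : ∑ p ∈ Pc (2 * n - 1),
      w s ρ p * (Real.exp (a * hl p) - Real.exp (a * hl p + -1 * ((hl p - htn p : ℕ) : ℝ))) =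
        ∑ p ∈ Pc (2 * n - 1), w s ρ p * Real.exp (a * hl p) -
        ∑ p ∈ Pc (2 * n - 1), w s ρ p * Real.exp (a * hl p + -1 * ((hl p - htn p : ℕ) : ℝ)) := by
      rw [← Finset.sum_sub_distrib]
      exact Finset.sum_congr rfl fun p _ => by ring
    rw [h6, h1] at h4
    linarith
  have h6 : (1 / 8) ^ 4 * s ≤ w s ρ tz := by
    unfold w
    rw [tz_hl, tz_htn]
    have h7 : (1 / 8 : ℝ) ^ 4 ≤ ρ ^ 4 := pow_le_pow_left₀ (by norm_num) hρ8 4
    have h8 : s ^ (4 - 3) = s := by norm_num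
    rw [h8]
    exact mul_le_mul_of_nonneg_right h7 hs.le
  have h7 : (1 / 8) ^ 4 * s * (1 / 2) ≤ 12 * (6 + C) * a := by linarith
  have h8 : 0 < 6 + C := by linarith
  rw [one_div, inv_mul_le_iff₀ (by positivity)]
  have h9 : (8 : ℝ) ^ 4 * 24 * (6 + C) * a = 8 ^ 4 * 2 * (12 * (6 + C) * a) := by ring
  rw [h9]
  have h10 : s = 8 ^ 4 * 2 * ((1 / 8) ^ 4 * s * (1 / 2)) := by ring
  calc s = 8 ^ 4 * 2 * ((1 / 8) ^ 4 * s * (1 / 2)) := h10
    _ ≤ 8 ^ 4 * 2 * (12 * (6 + C) * a) := mul_le_mul_of_nonneg_left h7 (by positivity)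

open Classical in
/-- first moment of the exponents -/
lemma first_moment {C s0 : ℝ} (hE : Est C s0) (hg : HG_Stmt) {n : ℕ} {s ρ ρ' u : ℝ} (hn : 2 ≤ n)
    (hs : 0 < s) (hs0 : s ≤ s0) (hCs : 24 * C * s ≤ 1) (hu1 : |u| ≤ 1) (h : Crit n s ρ)
    (h' : Crit n (s * Real.exp u) ρ') :
    |∑ p ∈ Pc (2 * n - 1), w s ρ p * (Real.log (ρ' / ρ) * hl p +
      u * ((hl p - htn p : ℕ) : ℝ))| ≤ 336 * C * s * u ^ 2 := by
  have hC := hE.pos
  have h1 := crit_exp u h h'
  have hlip := crit_lip hE hg hn hs hs0 hu1 h h'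
  set a := Real.log (ρ' / ρ) with ha
  obtain ⟨hρl, hρ4⟩ := crit_bd hE hg hn hs hs0 h
  have hu0 : 0 ≤ |u| := abs_nonneg u
  have ha2 : |a| ≤ 1 / 2 * |u| := by
    refine hlip.trans ?_
    exact mul_le_mul_of_nonneg_right (by linarith) hu0
  have h2 : ∑ p ∈ Pc (2 * n - 1), w s ρ p * (a * hl p + u * ((hl p - htn p : ℕ) : ℝ)) =
      -∑ p ∈ Pc (2 * n - 1), w s ρ p * (Real.exp (a * hl p + u * ((hl p - htn p : ℕ) : ℝ)) - 1 -
        (a * hl p + u * ((hl p - htn p : ℕ) : ℝ))) := by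
    have h3 : ∑ p ∈ Pc (2 * n - 1), w s ρ p * (Real.exp (a * hl p +
        u * ((hl p - htn p : ℕ) : ℝ)) - 1 - (a * hl p + u * ((hl p - htn p : ℕ) : ℝ))) =
        ∑ p ∈ Pc (2 * n - 1), w s ρ p * Real.exp (a * hl p + u * ((hl p - htn p : ℕ) : ℝ)) -
        ∑ p ∈ Pc (2 * n - 1), w s ρ p -
        ∑ p ∈ Pc (2 * n - 1), w s ρ p * (a * hl p + u * ((hl p - htn p : ℕ) : ℝ)) := by
      rw [← Finset.sum_sub_distrib, ← Finset.sum_sub_distrib]
      exact Finset.sum_congr rfl fun p _ => by ring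
    rw [h3, h1, crit_sum h]
    ring
  rw [h2, abs_neg]
  refine (Finset.abs_sum_le_sum_abs _ _).trans ?_
  rw [split hg]
  have h3 : ∑ p ∈ (Pc (2 * n - 1)).filter (fun p => hl p = 1), |w s ρ p *
      (Real.exp (a * hl p + u * ((hl p - htn p : ℕ) : ℝ)) - 1 -
        (a * hl p + u * ((hl p - htn p : ℕ) : ℝ)))| ≤ 12 * C * s * u ^ 2 := by
    calc ∑ p ∈ (Pc (2 * n - 1)).filter (fun p => hl p = 1), |w s ρ p *
      (Real.exp (a * hl p + u * ((hl p - htn p : ℕ) : ℝ)) - 1 -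
        (a * hl p + u * ((hl p - htn p : ℕ) : ℝ)))|
        ≤ ∑ p ∈ (Pc (2 * n - 1)).filter (fun p => hl p = 1), w s ρ p * (12 * C * s * u ^ 2) := by
          refine Finset.sum_le_sum fun p hp => ?_
          have hp' := Finset.mem_filter.1 hp
          rw [dlt_one hg hp'.1 hp'.2, hp'.2, abs_mul, abs_of_nonneg (w_nonneg hs h.1 p)]
          refine mul_le_mul_of_nonneg_left ?_ (w_nonneg hs h.1 p)
          have h4 : a * ((1 : ℕ) : ℝ) + u * ((0 : ℕ) : ℝ) = a := by push_cast; ring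
          rw [h4]
          refine (abs_exp_sub a).trans ?_
          have h5 : Real.exp |a| ≤ 2 := by
            have h6 : |a| ≤ 1 / 2 := by linarith
            have h7 : Real.exp (1 / 2) ≤ 2 := by
              by_contra hc
              push Not at hc
              have h8 : (2 : ℝ) ^ 2 < Real.exp (1 / 2) ^ 2 :=
                pow_lt_pow_left₀ hc (by norm_num) (by norm_num)
              rw [← Real.exp_nat_mul] at h8
              have h9 := Real.exp_one_lt_d9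
              norm_num at h8
              linarith
            exact (Real.exp_le_exp.2 h6).trans h7
          have h6 : a ^ 2 ≤ (12 * C * s * |u|) * (1 / 2 * |u|) := by
            rw [← sq_abs a, sq]
            exact mul_le_mul hlip ha2 (abs_nonneg a) (by positivity)
          calc a ^ 2 * Real.exp |a| ≤ ((12 * C * s * |u|) * (1 / 2 * |u|)) * 2 :=
                mul_le_mul h6 h5 (Real.exp_pos _).le (by positivity)
            _ = 12 * C * s * |u| ^ 2 := by ring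
            _ = 12 * C * s * u ^ 2 := by rw [sq_abs]
      _ = 4 * ρ * (12 * C * s * u ^ 2) := by rw [← Finset.sum_mul, hE.one n s ρ hn]
      _ ≤ 1 * (12 * C * s * u ^ 2) := mul_le_mul_of_nonneg_right (by linarith) (by positivity)
      _ = 12 * C * s * u ^ 2 := one_mul _
  have h4 : ∑ p ∈ (Pc (2 * n - 1)).filter (fun p => 2 ≤ hl p), |w s ρ p *
      (Real.exp (a * hl p + u * ((hl p - htn p : ℕ) : ℝ)) - 1 -
        (a * hl p + u * ((hl p - htn p : ℕ) : ℝ)))| ≤ 324 * C * s * u ^ 2 := by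
    calc ∑ p ∈ (Pc (2 * n - 1)).filter (fun p => 2 ≤ hl p), |w s ρ p *
      (Real.exp (a * hl p + u * ((hl p - htn p : ℕ) : ℝ)) - 1 -
        (a * hl p + u * ((hl p - htn p : ℕ) : ℝ)))|
        ≤ ∑ p ∈ (Pc (2 * n - 1)).filter (fun p => 2 ≤ hl p),
          324 * u ^ 2 * (w s ρ p * Real.exp (5 / 3 * hl p)) := by
          refine Finset.sum_le_sum fun p _ => ?_
          rw [abs_mul, abs_of_nonneg (w_nonneg hs h.1 p)]
          have hm0 : (0 : ℝ) ≤ hl p := Nat.cast_nonneg _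
          have hd0 : (0 : ℝ) ≤ ((hl p - htn p : ℕ) : ℝ) := Nat.cast_nonneg _
          have hdm : ((hl p - htn p : ℕ) : ℝ) ≤ hl p := by exact_mod_cast Nat.sub_le _ _
          have h5 : |a * hl p + u * ((hl p - htn p : ℕ) : ℝ)| ≤ 3 / 2 * |u| * hl p := by
            refine (abs_add_le _ _).trans ?_
            rw [abs_mul, abs_mul, abs_of_nonneg hm0, abs_of_nonneg hd0]
            have h6 := mul_le_mul_of_nonneg_right ha2 hm0
            have h7 := mul_le_mul_of_nonneg_left hdm hu0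
            linarith
          have h6 : (a * hl p + u * ((hl p - htn p : ℕ) : ℝ)) ^ 2 ≤
              9 / 4 * u ^ 2 * (hl p : ℝ) ^ 2 := by
            rw [← sq_abs]
            calc |a * hl p + u * ((hl p - htn p : ℕ) : ℝ)| ^ 2 ≤ (3 / 2 * |u| * hl p) ^ 2 :=
                  pow_le_pow_left₀ (abs_nonneg _) h5 2
              _ = 9 / 4 * |u| ^ 2 * (hl p : ℝ) ^ 2 := by ring
              _ = 9 / 4 * u ^ 2 * (hl p : ℝ) ^ 2 := by rw [sq_abs]
          have h7 : Real.exp |a * hl p + u * ((hl p - htn p : ℕ) : ℝ)| ≤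
              Real.exp (3 / 2 * hl p) := by
            refine Real.exp_le_exp.2 (h5.trans ?_)
            nlinarith
          have h8 := nat_sq_le_exp (hl p)
          have h9 : Real.exp ((hl p : ℝ) / 6) * Real.exp (3 / 2 * hl p) =
              Real.exp (5 / 3 * hl p) := by
            rw [← Real.exp_add]; congr 1; ring
          calc w s ρ p * |Real.exp (a * hl p + u * ((hl p - htn p : ℕ) : ℝ)) - 1 -
                  (a * hl p + u * ((hl p - htn p : ℕ) : ℝ))|
              ≤ w s ρ p * ((9 / 4 * u ^ 2 * (144 * Real.exp ((hl p : ℝ) / 6))) *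
                Real.exp (3 / 2 * hl p)) := by
                refine mul_le_mul_of_nonneg_left ((abs_exp_sub _).trans ?_) (w_nonneg hs h.1 p)
                refine mul_le_mul (h6.trans ?_) h7 (Real.exp_pos _).le (by positivity)
                exact mul_le_mul_of_nonneg_left h8 (by positivity)
            _ = 324 * u ^ 2 * (w s ρ p *
                  (Real.exp ((hl p : ℝ) / 6) * Real.exp (3 / 2 * hl p))) := by ring
            _ = 324 * u ^ 2 * (w s ρ p * Real.exp (5 / 3 * hl p)) := by rw [h9]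
      _ ≤ 324 * u ^ 2 * (C * s) := by
          rw [← Finset.mul_sum]
          exact mul_le_mul_of_nonneg_left (hE.exps n s ρ hn hs hs0 h.1 hρ4) (by positivity)
      _ = 324 * C * s * u ^ 2 := by ring
  linarith

end RHOZ

open RHOZ in
theorem t_RHOZ (hT : TAZ_Stmt) (hg : HG_Stmt) : RHOZ_Stmt := by
  obtain ⟨hone, C, s0, hC, hs0, hs04, hT2⟩ := hT
  have hE : Est (3 * C) s0 :=
    ⟨fun n s ρ hn => hone n s ρ hn, by positivity, fun n s ρ hn h1 h2 h3 h4 =>
      exps hT2 hC n s ρ hn h1 h2 h3 h4⟩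
  set D := 3 * C with hD
  have hD0 : 0 < D := by positivity
  refine ⟨672 * D, 1 / (8 ^ 4 * 24 * (6 + D)), min s0 (1 / (24 * D)), by positivity,
    by positivity, lt_min hs0 (by positivity), (min_le_left _ _).trans hs04, ?_⟩
  intro n s ρ hn hs hsm h
  have h1 : s ≤ s0 := hsm.trans (min_le_left _ _)
  have h2 : 24 * D * s ≤ 1 := by
    have h3 := hsm.trans (min_le_right _ _)
    rw [le_div_iff₀ (by positivity)] at h3
    linarith
  have hn2 : 2 ≤ n := by omega
  have hs1 : s ≤ 1 := h1.trans (hs04.trans (by norm_num))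
  obtain ⟨h3, h4⟩ := crit_bd hE hg hn2 hs h1 h
  refine ⟨?_, h4, ?_, ?_, ?_⟩
  · have : 0 < D * s := by positivity
    linarith
  · intro u ρ' hu h'
    refine (crit_lip hE hg hn2 hs h1 hu h h').trans ?_
    have : 0 ≤ D * s * |u| := by positivity
    linarith
  · intro ρ' h'
    exact crit_low hE hg hn hs h1 hs1 h2 h h'
  · intro u ρ₁ ρ₂ hu h₁ h₂
    have h5 := first_moment hE hg hn2 hs h1 h2 hu h h₁
    have h6 := first_moment hE hg hn2 hs h1 h2 (by rwa [abs_neg]) h h₂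
    set a := Real.log (ρ₁ / ρ)
    set b := Real.log (ρ₂ / ρ)
    have h7 : ∑ p ∈ Pc (2 * n - 1), w s ρ p * (a * hl p + u * ((hl p - htn p : ℕ) : ℝ)) +
        ∑ p ∈ Pc (2 * n - 1), w s ρ p * (b * hl p + -u * ((hl p - htn p : ℕ) : ℝ)) =
        (a + b) * ∑ p ∈ Pc (2 * n - 1), w s ρ p * hl p := by
      rw [← Finset.sum_add_distrib, Finset.mul_sum]
      exact Finset.sum_congr rfl fun p _ => by ring
    have h8 : 1 ≤ ∑ p ∈ Pc (2 * n - 1), w s ρ p * hl p := by
      refine (crit_sum h).symm.le.trans ?_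
      refine Finset.sum_le_sum fun p hp => le_mul_of_one_le_right (w_nonneg hs h.1 p) ?_
      have := hg.2.2 _ p hp
      exact_mod_cast this.1.trans this.2
    have h9 : |(a + b) * ∑ p ∈ Pc (2 * n - 1), w s ρ p * hl p| ≤ 672 * D * s * u ^ 2 := by
      rw [← h7]
      refine (abs_add_le _ _).trans ?_
      have h10 : (-u) ^ 2 = u ^ 2 := by ring
      rw [h10] at h6
      linarith
    rw [abs_mul, abs_of_nonneg (by linarith :
      0 ≤ ∑ p ∈ Pc (2 * n - 1), w s ρ p * (hl p : ℝ))] at h9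
    refine le_trans ?_ h9
    exact le_mul_of_one_le_right (abs_nonneg _) h8

end Pool.Agent.NSP
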