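import Pool.Agent.NSP.Stmts
import Pool.Agent.Lib_helper74.FS.SAPC

/-!
# Project NSP (MP_f6626d_co): module SAPZ

From the canonical words to the frozen encoding of polygons, weights tending to zero.
-/

set_option autoImplicit false

namespace Pool.Agent.NSP

open Finset Filter Topology MeasureTheory
open Pool.Agent.Lib27 Pool.Agent.SapR Pool.Agent.Gap Pool.Agent.AreaLaw Pool.Agent.FL
open Pool.Agent.FS Pool.Agent.FS.SAPC

/-- NSP_SAPZ -/
theorem t_SAPZ (hC : CLSZ_Stmt) (hZ : ZB_Stmt) (hTR : TR_Stmt) (hg : HG_Stmt) : SAPZ_Stmt := by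
  classical
  intro s h hreg b
  obtain ⟨⟨c, hc, hlow⟩, hphi, hid, c1, hc1, hmean⟩ := hC s h hreg b
  obtain ⟨C, θ, hC0, hθ, hθ1, N, hZB'⟩ := hZ (1 / 2) (by norm_num) (by norm_num)
  obtain ⟨f, hf⟩ : ∃ f : ℕ → ℝ, f = fun n => -Real.log (s n) := ⟨_, rfl⟩
  have hexp : ∀ n, Real.exp (-(f n)) = s n := by
    intro n
    rw [hf]
    simp only [neg_neg]
    exact Real.exp_log (hreg.pos n)
  have hsmall : ∀ᶠ n : ℕ in atTop, s n ≤ 1 / 2 := by
    have h1 := hreg.lim
    rw [Metric.tendsto_nhds] at h1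
    filter_upwards [h1 (1 / 2) (by norm_num)] with n hn
    rw [Real.dist_eq, sub_zero] at hn
    exact (abs_lt.1 hn).2.le
  -- the basic estimates
  have hbase : ∀ᶠ n : ℕ in atTop, 1 ≤ n ∧ s n ≤ 1 ∧ 0 < Zq n (s n) ∧
      Z0 n (s n) * Real.sqrt n ≤ C ^ 2 * (n : ℝ) ^ 3 * θ ^ n * Zq n (s n) := by
    filter_upwards [eventually_ge_atTop (max N 1), hsmall] with n hn hs2
    have hn1 : 1 ≤ n := (le_max_right _ _).trans hn
    obtain ⟨rho, hcrit, htails, _, _, hz1, _⟩ := hZB' n ((le_max_left _ _).trans hn)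
      (s n) (hreg.pos n) hs2
    have h2 := Z0_le C θ hC0 hθ n hn1 _ rho hcrit.1 htails hz1
    exact ⟨hn1, by linarith, h2.1, h2.2⟩
  have hlow' : ∀ᶠ n : ℕ in atTop, c / Real.sqrt n * Zq n (s n) ≤
      s n ^ (n - h n) * ((Omn n).filter (fun q => inC b (h n) (sp q))).card := by
    filter_upwards [hbase, hlow] with n h1 h2
    refine le_trans ?_ h2
    have hn1 : (0 : ℝ) < n := by exact_mod_cast h1.1
    have hp : 0 < s n * n := mul_pos (hreg.pos n) hn1
    have h3 : Real.sqrt (s n * n) ≤ Real.sqrt n :=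
      Real.sqrt_le_sqrt (by nlinarith [h1.2.1])
    exact mul_le_mul_of_nonneg_right
      (div_le_div_of_nonneg_left hc.le (Real.sqrt_pos.2 hp) h3) h1.2.2.1.le
  have hcls : ∀ᶠ n : ℕ in atTop,
      0 < (((Omn n).filter (fun q => inC b (h n) (sp q))).card : ℝ) ∧
      (((NoCut n).filter (fun w => inC b (h n) (spn w))).card : ℝ) /
        ((Omn n).filter (fun q => inC b (h n) (sp q))).card ≤
          C ^ 2 * (n : ℝ) ^ 3 * θ ^ n * c⁻¹ := by
    filter_upwards [hbase, hlow'] with n h1 h2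
    exact cls_small n (h n) h1.1 _ C θ c (hreg.pos n)
      h1.2.1 hc _ (inC_le b (h n)) h1.2.2.1 h1.2.2.2 h2
  have hfor : ∀ᶠ n : ℕ in atTop, Z0 n (s n) / Zq n (s n) ≤
      C ^ 2 * (n : ℝ) ^ 3 * θ ^ n * 1 := by
    filter_upwards [hbase] with n h1
    rw [div_le_iff₀ h1.2.2.1, mul_one]
    refine le_trans ?_ h1.2.2.2
    have h2 : (1 : ℝ) ≤ Real.sqrt n := by
      rw [Real.one_le_sqrt]
      exact_mod_cast h1.1
    have h3 := Z0_nonneg n (s n) (hreg.pos n)
    nlinarith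
  -- the general comparison
  have key : ∀ g : ℝ → ℝ, (∀ n : ℕ, 1 ≤ n → ∀ y : ℝ, 0 ≤ y → y ≤ 4 * n → |g y| ≤ 4 * n) →
      Tendsto (fun n : ℕ => (∑ q ∈ (Omn n).filter (fun q => inC b (h n) (sp q)),
        g (|(dq q : ℝ)| / sc n)) / ((Omn n).filter (fun q => inC b (h n) (sp q))).card -
      (∑ q ∈ Omn n, wtq n (s n) q * g (|(dq q : ℝ)| / sc n)) /
        Zq n (s n)) atTop (𝓝 0) →
      Tendsto (fun n : ℕ => (∑ w ∈ (SAP n).filter (fun w => inC b (h n) (span n w)),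
        g (2 * area n w / sc n)) / ((SAP n).filter (fun w => inC b (h n) (span n w))).card -
      (∑ w ∈ SAP n, Real.exp (f n * span n w) * g (2 * area n w / sc n)) / forceZ (f n) n)
      atTop (𝓝 0) ∧
      Tendsto (fun n : ℕ =>
        (∑ w ∈ SAP n, Real.exp (f n * span n w) * g (2 * area n w / sc n)) / forceZ (f n) n -
        (∑ q ∈ Omn n, wtq n (s n) q * g (|(dq q : ℝ)| / sc n)) /
        Zq n (s n)) atTop (𝓝 0) := by
    intro g hgg hlim
    have t1 : Tendsto (fun n : ℕ => (∑ w ∈ (SAP n).filter (fun w => inC b (h n) (span n w)),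
        g (2 * area n w / sc n)) / ((SAP n).filter (fun w => inC b (h n) (span n w))).card -
        (∑ q ∈ (Omn n).filter (fun q => inC b (h n) (sp q)),
        g (|(dq q : ℝ)| / sc n)) / ((Omn n).filter (fun q => inC b (h n) (sp q))).card)
        atTop (𝓝 0) := by
      refine squeeze_zero_norm' ?_ (lim_err C c⁻¹ θ hθ hθ1)
      filter_upwards [hbase, hcls] with n h1 h2
      have h3 := (cls_cmp hTR n h1.1 (inC b (h n)) g (hgg n h1.1) h2.1).2
      rw [Real.norm_eq_abs]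
      exact h3.trans (mul_le_mul_of_nonneg_left h2.2 (by norm_num))
    have t2 : Tendsto (fun n : ℕ =>
        (∑ w ∈ SAP n, Real.exp (f n * span n w) * g (2 * area n w / sc n)) / forceZ (f n) n -
        (∑ q ∈ Omn n, wtq n (s n) q * g (|(dq q : ℝ)| / sc n)) /
        Zq n (s n)) atTop (𝓝 0) := by
      refine squeeze_zero_norm' ?_ (lim_err C 1 θ hθ hθ1)
      filter_upwards [hbase, hfor] with n h1 h2
      have h3 := force_cmp hg hTR n h1.1 (f n) g (hgg n h1.1) (by rw [hexp]; exact h1.2.2.1)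
      rw [hexp] at h3
      rw [Real.norm_eq_abs]
      exact h3.trans (mul_le_mul_of_nonneg_left h2 (by norm_num))
    refine ⟨?_, t2⟩
    have t3 := (t1.add hlim).sub t2
    simp only [add_zero, sub_zero] at t3
    refine t3.congr fun n => ?_
    ring
  have hone : ∀ φ : ℝ → ℝ, (∀ a, |φ a| ≤ 1) →
      ∀ n : ℕ, 1 ≤ n → ∀ y : ℝ, 0 ≤ y → y ≤ 4 * n → |φ y| ≤ 4 * n := by
    intro φ hφ n hn y _ _
    have h1 : (1 : ℝ) ≤ n := by exact_mod_cast hn
    linarith [hφ y]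
  have hidb : ∀ n : ℕ, 1 ≤ n → ∀ y : ℝ, 0 ≤ y → y ≤ 4 * n → |y| ≤ 4 * n := by
    intro n _ y h0 h1
    rw [abs_of_nonneg h0]
    exact h1
  have hk := key (fun y => y) hidb hid
  have hfx : ∀ n, f n = -Real.log (s n) := fun n => by rw [hf]
  refine ⟨?_, ?_, ?_, ?_⟩
  · filter_upwards [hbase, hcls] with n h1 h2
    exact (cls_cmp hTR n h1.1 (inC b (h n)) (fun y => y) (hidb n h1.1) h2.1).1
  · intro φ hφ hL
    have h1 := (key φ (hone φ hφ) (hphi φ hφ hL)).1
    simp only [hfx] at h1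
    exact h1
  · have h1 := hk.1
    simp only [hfx] at h1
    exact h1
  · -- two-sided bound of the mean
    have hk2 := hk.2
    rw [Metric.tendsto_nhds] at hk2
    have h2 := hk2 (min (c1 / 2) 1) (by positivity)
    obtain ⟨c2, hc2⟩ : ∃ c2, c2 = min (c1 / 2) (c1⁻¹ + 1)⁻¹ := ⟨_, rfl⟩
    have hc20 : 0 < c2 := by
      rw [hc2]
      positivity
    refine ⟨c2, hc20, ?_⟩
    filter_upwards [hmean, h2] with n h3 h4
    rw [Real.dist_eq, sub_zero] at h4
    rw [hfx n] at h4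
    obtain ⟨X, hX⟩ : ∃ X, X = (∑ w ∈ SAP n, Real.exp (-Real.log (s n) * span n w) *
      (2 * area n w / sc n)) / forceZ (-Real.log (s n)) n := ⟨_, rfl⟩
    obtain ⟨Y, hY⟩ : ∃ Y, Y = (∑ q ∈ Omn n, wtq n (s n) q *
      (|(dq q : ℝ)| / sc n)) / Zq n (s n) := ⟨_, rfl⟩
    rw [← hY] at h3
    rw [← hX, ← hY] at h4
    rw [← hX]
    have h5 := abs_lt.1 h4
    have h6 : min (c1 / 2) 1 ≤ c1 / 2 := min_le_left _ _
    have h7 : min (c1 / 2) 1 ≤ 1 := min_le_right _ _
    constructor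
    · have h8 : c2 ≤ c1 / 2 := by
        rw [hc2]
        exact min_le_left _ _
      linarith [h3.1]
    · have h8 : c1⁻¹ + 1 ≤ c2⁻¹ := by
        have h9 : c2 ≤ (c1⁻¹ + 1)⁻¹ := by
          rw [hc2]
          exact min_le_right _ _
        have h10 : 0 < c1⁻¹ + 1 := by positivity
        have h11 := inv_anti₀ hc20 h9
        rwa [inv_inv] at h11
      linarith [h3.2]

end Pool.Agent.NSP
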