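import Pool.Agent.NSP.SKZc

/-!
Module SKZ: skeletons of the canonical polygon words (tokens `c c c d` and `tz`).
-/

set_option autoImplicit false

namespace Pool.Agent.NSP.SKZ

open Finset Filter Topology MeasureTheory
open Pool.Agent.Lib27 Pool.Agent.SapR Pool.Agent.Gap Pool.Agent.AreaLaw Pool.Agent.FL
open Pool.Agent.FS Pool.Agent.FS.SKEL

theorem SKZ_aux (h : HG_Stmt) (n : ℕ) (hn : 6 ≤ n) : ∃ (k : ℕ) (σ : Fin k → Sk),
    IsSk0 n k σ := by
  classical
  obtain ⟨r, hr⟩ : ∃ r, r = 2 * n - 1 := ⟨_, rfl⟩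
  have hr10 : 10 ≤ r := by omega
  have hex : ∀ (x : ℤ) (m : ℕ), ∃ M : Multiset Sk, 1 ≤ x → ASk0 r x m 0 M := by
    intro x m
    by_cases hx : 1 ≤ x
    · obtain ⟨M, hM⟩ := ars0 h r hr10 m x 0 hx
      exact ⟨M, fun _ => hM⟩
    · exact ⟨0, fun h => absurd h hx⟩
  choose N hN using hex
  obtain ⟨k, σ, hmem, hsum⟩ := exists_fin (pol r n N)
  have hcapT : ∀ (x : ℤ) (M : ℕ) (T : Wd), 1 ≤ x → T ∈ CapSet r x M →
      M = 2 * (M / 2) ∧ x ≤ (M / 2 : ℕ) ∧ M ≤ 2 * n ∧ hgt T ≤ M / 2 := by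
    intro x M T hx hT
    obtain ⟨h1, h2, h3, h4⟩ := H66.k5cap.1 r x M T hx hT
    have hT' := (M41.mem_CapSet _ _ _ _).1 hT
    have h5 := h.2.1 x T hx hT'.2.1
    rw [hT'.1] at h5
    rw [Nat.even_iff] at h1
    refine ⟨by omega, by omega, by omega, by omega⟩
  refine ⟨k, σ, ⟨?_, ?_, ?_, ?_, ?_, ?_⟩⟩
  · intro F
    have e0 : ∑ i, rs (σ i).l (fun j t => F ((σ i).H - j) ((σ i).A - t) ((σ i).L - t + dlt0 * j)) =
        ms (ev0 F) (pol r n N) := (hsum (ev0 F)).symm
    rw [e0]
    unfold pol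
    rw [ms_sum]
    unfold Omn M41.Om
    rw [← hr, sum_sigma]
    apply sum_congr rfl
    intro x hx
    rw [mem_Icc] at hx
    rw [ms_sum, sum_sigma]
    apply sum_congr rfl
    intro M hM
    rw [ms_sum, sum_product]
    apply sum_congr rfl
    intro T hT
    obtain ⟨c1, c2, c3, c4⟩ := hcapT x M T hx.1 hT
    rw [ms_map]
    have e1 : ∑ w ∈ ArchSet r x (2 * (n - M / 2)), F (hgt w + hgt T) (M41.Ar r w)
        (dbl 0 w + dbl 0 T) =
        ms (ev0 (fun a b c => F (a + hgt T) b (c + dbl 0 T))) (N x (n - M / 2)) :=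
      (hN x (n - M / 2) hx.1).repr (fun a b c => F (a + hgt T) b (c + dbl 0 T))
    rw [show 2 * (n - M / 2) = 2 * n - M by omega] at e1
    have e2 : ms (fun a => ev0 F (clo T a)) (N x (n - M / 2)) =
        ms (ev0 (fun a b c => F (a + hgt T) b (c + dbl 0 T))) (N x (n - M / 2)) := by
      apply ms_congr
      intro a _
      unfold ev0 clo
      apply rs_congr
      intro j t _ _
      push_cast
      congr 1 <;> ring
    rw [e2, ← e1]
    apply sum_congr rfl
    intro w _
    unfold sp arq dq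
    rw [← hr]
    push_cast
    rfl
  · intro i
    obtain ⟨x, M, T, b, hx, hM, hT, hb, hab⟩ := mem_pol (hmem i)
    rw [hab]
    have := (hN x (n - M / 2) hx).len_le b hb
    unfold clo
    simp only
    omega
  · intro i
    obtain ⟨x, M, T, b, hx, hM, hT, hb, hab⟩ := mem_pol (hmem i)
    rw [hab]
    obtain ⟨c1, c2, c3, c4⟩ := hcapT x M T hx hT
    have := (hN x (n - M / 2) hx).H_le b hb
    unfold clo
    simp only
    omega
  · intro i
    obtain ⟨x, M, T, b, hx, hM, hT, hb, hab⟩ := mem_pol (hmem i)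
    rw [hab]
    exact (hN x (n - M / 2) hx).sum_le b hb
  · intro i
    obtain ⟨x, M, T, b, hx, hM, hT, hb, hab⟩ := mem_pol (hmem i)
    rw [hab]
    refine ((hN x (n - M / 2) hx).A_le b hb).trans ?_
    have : n - M / 2 ≤ n := Nat.sub_le _ _
    exact Nat.mul_le_mul_left 2 (Nat.pow_le_pow_left this 2)
  · intro s τ ρ hs hτ hρ hρ2 hyp
    rw [← hr] at hyp
    have hc0 : ∀ m', 0 ≤ cf r s ρ m' := fun m' => cf_nonneg r s ρ m' hs hρ
    have hK : capK n s ρ = ∑ m ∈ range (n + 1), cf r s ρ m := by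
      unfold capK cf
      rw [← hr]
    set K : ℝ := ∑ m ∈ range (n + 1), cf r s ρ m with hKdef
    have hK0 : 0 ≤ K := Finset.sum_nonneg fun m _ => hc0 m
    rw [hK, ← hsum (fun a => s ^ (n - a.H) * ((1 + s) * τ) ^ a.l.length)]
    unfold pol
    rw [ms_sum, mul_sum]
    have hterm : ∀ x ∈ Icc (1 : ℤ) r, ρ ^ n * ms (fun a => s ^ (n - a.H) *
        ((1 + s) * τ) ^ a.l.length) (∑ M ∈ range (r + 2), ∑ T ∈ CapSet r x M,
          (N x (n - M / 2)).map (clo T)) ≤
        ∑ M ∈ range (r + 2), ∑ T ∈ CapSet r x M, ρ ^ (M / 2) * s ^ (M / 2 - hgt T) * (8 * K) := by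
      intro x hx
      rw [mem_Icc] at hx
      rw [ms_sum, mul_sum]
      apply sum_le_sum
      intro M _
      rw [ms_sum, mul_sum]
      apply sum_le_sum
      intro T hT
      obtain ⟨c1, c2, c3, c4⟩ := hcapT x M T hx.1 hT
      have e1 : ms (fun a => s ^ (n - a.H) * ((1 + s) * τ) ^ a.l.length)
          ((N x (n - M / 2)).map (clo T)) = s ^ (M / 2 - hgt T) *
          ms (fun a => s ^ (n - M / 2 - a.H) * ((1 + s) * τ) ^ a.l.length)
            (N x (n - M / 2)) := by
        rw [ms_map, ← ms_mul]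
        apply ms_congr
        intro a ha
        have h4 := (hN x (n - M / 2) hx.1).H_le a ha
        unfold clo
        simp only
        rw [← mul_assoc, ← pow_add]
        congr 2
        omega
      have e2 : ρ ^ n = ρ ^ (M / 2) * ρ ^ (n - M / 2) := by
        rw [← pow_add]; congr 1; omega
      have e3 := (hN x (n - M / 2) hx.1).count s τ ρ hs hτ hρ hρ2 hyp
      rw [show vj 0 ρ = 1 from rfl, mul_one] at e3
      have e4 : ∑ m' ∈ range (n - M / 2 + 1), cf r s ρ m' ≤ K := by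
        apply Finset.sum_le_sum_of_subset_of_nonneg
        · intro a ha
          rw [mem_range] at *
          omega
        · intro a _ _
          exact hc0 a
      rw [e1, e2]
      have e4' : 8 * ∑ m' ∈ range (n - M / 2 + 1), cf r s ρ m' ≤ 8 * K := by linarith
      have e5 := mul_le_mul_of_nonneg_left (e3.trans e4')
        (show 0 ≤ ρ ^ (M / 2) * s ^ (M / 2 - hgt T) by positivity)
      refine le_trans (le_of_eq ?_) e5
      ring
    refine (Finset.sum_le_sum hterm).trans ?_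
    simp only [← Finset.sum_mul]
    rw [show 8 * K ^ 2 = K * (8 * K) by ring]
    refine mul_le_mul_of_nonneg_right ?_ (by linarith)
    -- sum over the caps
    rw [sum_comm]
    have hodd : ∀ M ∈ range (r + 2), M % 2 = 1 → ∑ x ∈ Icc (1 : ℤ) r, ∑ T ∈ CapSet r x M,
        ρ ^ (M / 2) * s ^ (M / 2 - hgt T) = 0 := by
      intro M _ hM
      apply sum_eq_zero
      intro x hx
      rw [mem_Icc] at hx
      rw [M41.CapSet_empty H66.k5cap r x M hx.1 (Or.inl hM), sum_empty]
    have e6 : ∑ M ∈ range (r + 2), ∑ x ∈ Icc (1 : ℤ) r, ∑ T ∈ CapSet r x M,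
        ρ ^ (M / 2) * s ^ (M / 2 - hgt T) =
        ∑ M ∈ (range (r + 2)).filter (fun M => M % 2 = 0), ∑ x ∈ Icc (1 : ℤ) r,
          ∑ T ∈ CapSet r x M, ρ ^ (M / 2) * s ^ (M / 2 - hgt T) := by
      rw [Finset.sum_filter]
      apply sum_congr rfl
      intro M hM
      by_cases h2 : M % 2 = 0
      · rw [if_pos h2]
      · rw [if_neg h2]
        exact hodd M hM (by omega)
    rw [e6]
    have e7 : ∑ M ∈ (range (r + 2)).filter (fun M => M % 2 = 0), ∑ x ∈ Icc (1 : ℤ) r,
          ∑ T ∈ CapSet r x M, ρ ^ (M / 2) * s ^ (M / 2 - hgt T) ≤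
        ∑ M ∈ (range (r + 2)).filter (fun M => M % 2 = 0), cf r s ρ (M / 2) := by
      apply sum_le_sum
      intro M hM
      rw [mem_filter, mem_range] at hM
      unfold cf
      have hM2 : 2 * (M / 2) = M := by omega
      rw [hM2]
      have hsub : ∑ x ∈ Icc (1 : ℤ) r, ∑ T ∈ CapSet r x M, ρ ^ (M / 2) * s ^ (M / 2 - hgt T) ≤
          ∑ x ∈ (Icc (1 : ℤ) r).filter (fun x : ℤ => x ≤ ((M / 2 : ℕ) : ℤ)), ∑ T ∈ CapSet r x M,
            ρ ^ (M / 2) * s ^ (M / 2 - hgt T) := by
        rw [Finset.sum_filter]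
        apply sum_le_sum
        intro x hx
        rw [mem_Icc] at hx
        by_cases hxM : x ≤ ((M / 2 : ℕ) : ℤ)
        · rw [if_pos hxM]
        · rw [if_neg hxM, M41.CapSet_empty H66.k5cap r x M hx.1 (by right; left; omega),
            sum_empty]
      refine hsub.trans ?_
      apply Finset.sum_le_sum_of_subset_of_nonneg
      · intro x hx
        rw [mem_filter, mem_Icc] at hx
        rw [mem_Icc]
        exact ⟨hx.1.1, hx.2⟩
      · intro x _ _
        exact Finset.sum_nonneg fun T _ => by positivity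
    refine e7.trans ?_
    rw [hKdef]
    have hinj : Set.InjOn (fun M => M / 2) (((range (r + 2)).filter (fun M => M % 2 = 0) :
        Finset ℕ) : Set ℕ) := by
      intro a ha b hb hab
      rw [mem_coe, mem_filter] at ha hb
      simp only at hab
      omega
    rw [← Finset.sum_image (f := fun m => cf r s ρ m) hinj]
    apply Finset.sum_le_sum_of_subset_of_nonneg
    · intro m hm
      rw [mem_image] at hm
      obtain ⟨M, hM, rfl⟩ := hm
      rw [mem_filter, mem_range] at hM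
      rw [mem_range]
      omega
    · intro m _ _
      exact hc0 m

end Pool.Agent.NSP.SKZ

namespace Pool.Agent.NSP

open Pool.Agent.FL

/-- SKZ -/
theorem t_SKZ (hg : HG_Stmt) : SKZ_Stmt := fun n hn => SKZ.SKZ_aux hg n hn

end Pool.Agent.NSP
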