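import Pool.Agent.NSP.Stmts
import Pool.Agent.Lib_helper89.FL.KW

/-!
# Project NSP: pieces of half length at least two have small weight
-/

set_option autoImplicit false

namespace Pool.Agent.NSP

open Finset Filter Topology MeasureTheory
open Pool.Agent.Lib27 Pool.Agent.SapR Pool.Agent.Gap Pool.Agent.AreaLaw Pool.Agent.FL
open Pool.Agent.FS

namespace TAZ

lemma sum_cnt (a : ℤ) (H : ℕ) (l : List (ℤ × ℤ)) :
    ∑ k ∈ range H, cnt l (a + k) ≤ cntI l a (a + H - 1) := by
  induction l with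
  | nil => simp [cnt]
  | cons p l ih =>
    rw [cntI_cons]
    simp only [cnt_cons]
    rw [sum_add_distrib]
    refine Nat.add_le_add ?_ ih
    by_cases h : a ≤ lev p ∧ lev p ≤ a + H - 1
    · rw [if_pos h]
      calc ∑ k ∈ range H, (if lev p = a + (k : ℤ) then 1 else 0)
          ≤ ∑ k ∈ range H, (if k = (lev p - a).toNat then 1 else 0) := by
            refine sum_le_sum fun k _ => ?_
            by_cases hk : lev p = a + (k : ℤ)
            · rw [if_pos hk, if_pos (by omega)]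
            · rw [if_neg hk]
              exact Nat.zero_le _
        _ ≤ 1 := by
            rw [sum_ite_eq']
            split_ifs <;> simp
    · rw [if_neg h]
      refine (sum_eq_zero fun k hk => ?_).le
      rw [mem_range] at hk
      rw [if_neg]
      intro h1
      apply h
      omega

lemma cntI_strand {w : List (Fin 4)} (hw : w ≠ []) (a b : ℤ) (h0 : ¬ (a ≤ 0 ∧ 0 ≤ b))
    (h1 : ¬ (a ≤ lev (ep 0 w) ∧ lev (ep 0 w) ≤ b)) : cntI (vt 0 w) a b + 1 ≤ w.length := by
  have h2 : vt 0 w = vs 0 w ++ [ep 0 w] := rfl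
  rw [h2, vs_eq_cons w 0 hw, List.cons_append, cntI_cons, cntI_append, cntI_cons]
  have h3 : lev (0 : ℤ × ℤ) = 0 := rfl
  rw [h3, if_neg h0, if_neg h1, cntI_nil]
  have h4 := cntI_le_length (vs 0 w).tail a b
  have h5 : ((vs 0 w).tail).length + 1 = w.length := by
    have h6 := vt_length 0 w
    rw [h2, vs_eq_cons w 0 hw] at h6
    simp only [List.cons_append, List.length_cons, List.length_append, List.length_nil] at h6
    omega
  omega

/-- every intermediate level is visited at least three times -/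
lemma key {r : ℕ} {p : Wd × Wd} (hp : p ∈ Pc r) : 3 * htn p ≤ 2 * hl p + 1 := by
  obtain ⟨h1, h2, -⟩ := KW.len_hl hp
  have h3 := KW.ht_eq hp
  obtain ⟨⟨hS, hI⟩, -⟩ := (M41.mem_Pc r p).1 hp
  obtain ⟨U, D⟩ := p
  simp only at hS hI h1
  have h4 : lev (ep 0 U) = (htn (U, D) : ℤ) := h3
  obtain ⟨h, hh⟩ : ∃ h : ℕ, h = htn (U, D) := ⟨_, rfl⟩
  rw [← hh] at h4 ⊢
  have hpos := hS.1
  have hD := hS.2.1
  obtain ⟨H, hH⟩ : ∃ H : ℕ, h = H + 1 := ⟨h - 1, by omega⟩
  have hU1 := cntI_strand hS.U_ne 1 (1 + H - 1) (by omega) (by omega)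
  have hD1 := cntI_strand hS.D_ne (1 - h) ((1 - h) + H - 1) (by omega) (by omega)
  have hU2 := sum_cnt 1 H (vt 0 U)
  have hD2 := sum_cnt (1 - h) H (vt 0 D)
  have h5 : ∑ k ∈ range H, 3 ≤
      ∑ k ∈ range H, (cnt (vt 0 U) (1 + k) + cnt (vt 0 D) (1 - h + k)) := by
    refine sum_le_sum fun k hk => ?_
    rw [mem_range] at hk
    have h6 : 0 < cnt (vt 0 U) (1 + k) :=
      (cnt_pos _ _).2 (exists_level U 0 _ (by rw [lev_zero]; omega) (by omega))
    have h7 : 0 < cnt (vt 0 D) (1 - h + k) :=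
      (cnt_pos _ _).2 (exists_level' D 0 _ (by rw [lev_zero]; omega) (by omega))
    have h8 := hI (1 + k) (by omega) (by omega)
    have h9 : (1 : ℤ) + k - lev (ep 0 U) = 1 - h + k := by omega
    rw [h9] at h8
    omega
  rw [sum_add_distrib, sum_const, card_range, smul_eq_mul] at h5
  omega

lemma card_le (r m : ℕ) : ((Pc r).filter (fun p => hl p = m)).card ≤ (2 * m + 1) * 16 ^ m := by
  classical
  have h1 : (Pc r).filter (fun p => hl p = m) ⊆
      (range (2 * m + 1)).biUnion (fun a => words a ×ˢ words (2 * m - a)) := by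
    intro p hp
    rw [mem_filter] at hp
    obtain ⟨h2, -, -⟩ := KW.len_hl hp.1
    rw [hp.2] at h2
    rw [mem_biUnion]
    refine ⟨p.1.length, ?_, ?_⟩
    · rw [mem_range]
      omega
    · rw [mem_product, mem_words, mem_words]
      exact ⟨rfl, by omega⟩
  refine (card_le_card h1).trans ?_
  refine card_biUnion_le.trans ?_
  have h2 : ∀ a ∈ range (2 * m + 1), (words a ×ˢ words (2 * m - a)).card = 16 ^ m := by
    intro a ha
    rw [mem_range] at ha
    rw [card_product, card_words, card_words, ← pow_add, show a + (2 * m - a) = 2 * m by omega,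
      pow_mul]
    norm_num
  rw [sum_congr rfl h2, sum_const, card_range, smul_eq_mul]

lemma four (r : ℕ) : (Pc r).filter (fun p => hl p = 1) =
    {([0], [2]), ([1], [3]), ([0], [3]), ([1], [2])} := by
  obtain ⟨b1, b2, b3, b4⟩ := H66.k5basic r 2 (by norm_num)
  ext p
  rw [mem_filter, mem_insert, mem_insert, mem_insert, mem_singleton]
  constructor
  · rintro ⟨h1, h2⟩
    obtain ⟨h3, -, -⟩ := KW.len_hl h1
    rw [h2] at h3
    have h4 := M41.Pc_two r p h1 (by omega)
    exact h4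
  · rintro (rfl | rfl | rfl | rfl)
    · exact ⟨((M41.mem_allowed _ _ _).1 b1).1, rfl⟩
    · exact ⟨((M41.mem_allowed _ _ _).1 b2).1, rfl⟩
    · exact ⟨((M41.mem_allowed _ _ _).1 b3).1, rfl⟩
    · exact ⟨((M41.mem_allowed _ _ _).1 (b4 le_rfl)).1, rfl⟩

lemma pow_le (m : ℕ) : 2 * m + 1 ≤ 2 * 2 ^ m := by
  have h : m + 1 ≤ 2 ^ m := Nat.lt_two_pow_self
  omega

end TAZ

open TAZ in
theorem t_TAZ (hg : HG_Stmt) : TAZ_Stmt := by
  have _ := hg
  refine ⟨fun n s ρ _ => ?_, 2 * 64 ^ 4, (1 / 64) ^ 3, by norm_num, by norm_num, by norm_num, ?_⟩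
  · rw [four]
    have e1 : htn (([0], [2]) : Wd × Wd) = 1 := by decide
    have e2 : htn (([1], [3]) : Wd × Wd) = 1 := by decide
    have e3 : htn (([0], [3]) : Wd × Wd) = 1 := by decide
    have e4 : htn (([1], [2]) : Wd × Wd) = 1 := by decide
    have f1 : hl (([0], [2]) : Wd × Wd) = 1 := rfl
    have f2 : hl (([1], [3]) : Wd × Wd) = 1 := rfl
    have f3 : hl (([0], [3]) : Wd × Wd) = 1 := rfl
    have f4 : hl (([1], [2]) : Wd × Wd) = 1 := rfl
    rw [sum_insert (by decide), sum_insert (by decide), sum_insert (by decide), sum_singleton,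
      e1, e2, e3, e4, f1, f2, f3, f4]
    simp only [Nat.sub_self, pow_zero, pow_one]
    ring
  · intro n s ρ _ hs hs0 hρ hρ4 m hm
    have hone : ∀ p ∈ (Pc (2 * n - 1)).filter (fun p => hl p = m),
        ρ ^ hl p * s ^ (hl p - htn p) ≤ 64 ^ 4 * s * (1 / 256) ^ m := by
      intro p hp
      rw [mem_filter] at hp
      have h1 := key hp.1
      rw [hp.2] at h1 ⊢
      obtain ⟨e, he⟩ : ∃ e, m - htn p = e + 1 := ⟨m - htn p - 1, by omega⟩
      have h2 : m ≤ 3 * e + 4 := by omega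
      rw [he, pow_succ]
      have h3 : ρ ^ m ≤ (1 / 4) ^ m := pow_le_pow_left₀ hρ.le hρ4 m
      have h4 : s ^ e ≤ 64 ^ 4 * (1 / 64) ^ m := by
        calc s ^ e ≤ ((1 / 64) ^ 3) ^ e := pow_le_pow_left₀ hs.le hs0 e
          _ = 64 ^ 4 * (1 / 64) ^ (3 * e + 4) := by
            rw [← pow_mul, pow_add]
            ring
          _ ≤ 64 ^ 4 * (1 / 64) ^ m :=
            mul_le_mul_of_nonneg_left
              (pow_le_pow_of_le_one (by norm_num) (by norm_num) h2) (by norm_num)
      calc ρ ^ m * (s ^ e * s) ≤ (1 / 4) ^ m * ((64 ^ 4 * (1 / 64) ^ m) * s) :=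
            mul_le_mul h3 (mul_le_mul_of_nonneg_right h4 hs.le) (by positivity) (by positivity)
        _ = 64 ^ 4 * s * ((1 / 4) ^ m * (1 / 64) ^ m) := by ring
        _ = 64 ^ 4 * s * (1 / 256) ^ m := by
            rw [← mul_pow]
            norm_num
    refine (sum_le_card_nsmul _ _ _ hone).trans ?_
    rw [nsmul_eq_mul]
    have h5 : (((Pc (2 * n - 1)).filter (fun p => hl p = m)).card : ℝ) ≤
        (2 * 2 ^ m) * 16 ^ m := by
      have h6 := (card_le (2 * n - 1) m).trans (Nat.mul_le_mul_right (16 ^ m) (pow_le m))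
      exact_mod_cast h6
    calc (((Pc (2 * n - 1)).filter (fun p => hl p = m)).card : ℝ) *
          (64 ^ 4 * s * (1 / 256) ^ m)
        ≤ ((2 * 2 ^ m) * 16 ^ m) * (64 ^ 4 * s * (1 / 256) ^ m) :=
          mul_le_mul_of_nonneg_right h5 (by positivity)
      _ = 2 * 64 ^ 4 * s * (2 ^ m * 16 ^ m * (1 / 256) ^ m) := by ring
      _ = 2 * 64 ^ 4 * s / 8 ^ m := by
          have h7 : (2 ^ m * 16 ^ m * (1 / 256) ^ m : ℝ) = (8 ^ m)⁻¹ := by
            rw [← mul_pow, ← mul_pow, ← inv_pow]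
            norm_num
          rw [h7, ← div_eq_mul_inv]

end Pool.Agent.NSP
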