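import Pool.Agent.NSP.Stmts

/-!
# Project NSP, module UNQ: uniqueness of the limit law
-/

set_option autoImplicit false

namespace Pool.Agent.NSP

open Filter Topology MeasureTheory ProbabilityTheory

/-- the atoms of a finite measure are countable -/
lemma UNQ.countable (μ : Measure ℝ) [IsProbabilityMeasure μ] : {x : ℝ | μ {x} ≠ 0}.Countable := by
  have h := Measure.countable_meas_pos_of_disjoint_iUnion (μ := μ) (As := fun x : ℝ => {x})
    (fun x => MeasurableSet.singleton x) (fun x y hxy => by simpa using hxy)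
  refine h.mono fun x hx => ?_
  exact pos_iff_ne_zero.2 hx

theorem t_UNQ : UNQ_Stmt := by
  intro μ μ' hμ hμ' F h1 h2
  have hd : Dense ({x : ℝ | μ {x} ≠ 0} ∪ {x : ℝ | μ' {x} ≠ 0})ᶜ :=
    ((UNQ.countable μ).union (UNQ.countable μ')).dense_compl ℝ
  have hS : ∀ x ∈ ({x : ℝ | μ {x} ≠ 0} ∪ {x : ℝ | μ' {x} ≠ 0})ᶜ, cdf μ x = cdf μ' x := by
    intro x hx
    simp only [Set.mem_compl_iff, Set.mem_union, Set.mem_ofPred_eq, not_or, not_not] at hx
    have := tendsto_nhds_unique (h1 x hx.1) (h2 x hx.2)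
    rw [cdf_eq_real, cdf_eq_real]
    exact this
  refine Measure.eq_of_cdf μ μ' ?_
  refine StieltjesFunction.ext fun x => ?_
  obtain ⟨u, _, hu, hl⟩ := hd.exists_seq_strictAnti_tendsto x
  have hw : Tendsto u atTop (𝓝[Set.Ici x] x) :=
    tendsto_nhdsWithin_iff.2 ⟨hl, Filter.Eventually.of_forall fun n => Set.mem_Ici.2 (le_of_lt (hu n).1)⟩
  have a1 := ((cdf μ).right_continuous x).tendsto.comp hw
  have a2 := ((cdf μ').right_continuous x).tendsto.comp hw
  refine tendsto_nhds_unique a1 (a2.congr fun n => ?_)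
  exact (hS _ (hu n).2).symm

end Pool.Agent.NSP
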