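import Pool.Agent.NSP.MainPre2
import Pool.Agent.NSP.TAZ
import Pool.Agent.NSP.RHOZ
import Pool.Agent.NSP.SKZ
import Pool.Agent.NSP.KBGZ
import Pool.Agent.NSP.BINZ
import Pool.Agent.NSP.LOCZ
import Pool.Agent.NSP.LAPZ
import Pool.Agent.NSP.EXPZ
import Pool.Agent.NSP.CHOZ
import Pool.Agent.NSP.EQZ
import Pool.Agent.NSP.BDZ
import Pool.Agent.NSP.CLSZ
import Pool.Agent.NSP.SAPZ
import Pool.Agent.NSP.FINZ
import Pool.Agent.NSP.UNQ
import Pool.Agent.NSP.ARMR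
import Pool.Agent.NSP.LOCM
import Pool.Agent.NSP.LOCMZ
import Pool.Agent.NSP.CLM
import Pool.Agent.NSP.CLMZ
import Pool.Agent.NSP.CDFM
import Pool.Agent.NSP.DIAGM
import Pool.Agent.NSP.FSM
import Pool.Agent.NSP.OLDM
import Pool.Agent.NSP.REGM
import Pool.Agent.SUBB.Main
import Pool.Agent.EXW.Main3
import Pool.Agent.Lib_helper74.FS.Main

/-!
# Project NSP: the final theorem
-/

set_option autoImplicit false

namespace Pool.Agent.NSP

open Finset Filter Topology MeasureTheory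
open Pool.Agent.Lib27 Pool.Agent.SapR Pool.Agent.Gap Pool.Agent.AreaLaw Pool.Agent.FL
open Pool.Agent.FS

theorem m_RHOZ : RHOZ_Stmt := t_RHOZ (t_TAZ hg) hg

theorem m_LAPZ : LAPZ_Stmt := by
  obtain ⟨oLT, oLT1, oM2, oBAL, oST, oSUP, oW⟩ := old_gap
  exact t_LAPZ (t_TAZ hg) m_RHOZ glt_main hg mg_main mgi2 oLT1 oM2 oBAL

theorem m_SKZ : SKZ_Stmt := t_SKZ hg

theorem m_KBGZ : KBGZ_Stmt := t_KBGZ zb_main

theorem m_LOCZ : LOCZ_Stmt := t_LOCZ m_SKZ m_KBGZ t_BINZ SMP_thm arm_main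

theorem m_EXPZ : EXPZ_Stmt := t_EXPZ m_RHOZ zb_main hg

theorem m_CHOZ : CHOZ_Stmt := t_CHOZ m_RHOZ zb_main hg

theorem m_IND : IND_Stmt := IND_thm MGF_thm

theorem m_EQZ : EQZ_Stmt := t_EQZ m_LOCZ m_IND m_EXPZ m_LAPZ arm_main zb_main hg

theorem m_BDZ : BDZ_Stmt :=
  t_BDZ m_SKZ m_KBGZ SMP_thm zb_main m_RHOZ m_IND m_EXPZ m_LAPZ arm_main hg

theorem m_CLSZ : CLSZ_Stmt := t_CLSZ m_LOCZ arm_main zb_main

theorem m_SAPZ : SAPZ_Stmt := t_SAPZ m_CLSZ zb_main (tr K1H.k1h) hg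

theorem m_FINZ : FINZ_Stmt := t_FINZ CDF_thm m_SAPZ

/-- moments under forces bounded from below -/
theorem m_FM : FM_Stmt := by
  obtain ⟨μ, hμ, hmom, hst, hforce⟩ := EXW.main3
  intro a ha f hf r
  refine (hforce f ?_).2 r
  have h1 : Tendsto (fun n : ℕ => a * Real.log n) atTop atTop :=
    (Real.tendsto_log_atTop.comp tendsto_natCast_atTop_atTop).const_mul_atTop ha
  refine tendsto_atTop_mono' _ ?_ h1
  filter_upwards [eventually_ge_atTop 1] with n hn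
  exact mul_le_mul_of_nonneg_right (hf n) (Real.log_nonneg (by exact_mod_cast hn))

theorem m_ARMR : ARMR_Stmt := t_ARMR m_FM zb_main arm_main (tr K1H.k1h) hg (EXW.t_PDIF (EXW.t_NEARP hg))

theorem m_CLM : CLM_Stmt :=
  t_CLM (t_LOCM (SKEL_thm hg) (KBIG_thm zb_main) BIN_thm m_ARMR) m_ARMR
    (CLS_thm eq_main loc_main arm_main zb_main) zb_main (tr K1H.k1h) hg

theorem m_CLMZ : CLMZ_Stmt :=
  t_CLMZ (t_LOCMZ m_SKZ m_KBGZ t_BINZ m_ARMR) m_ARMR m_CLSZ zb_main (tr K1H.k1h) hg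

theorem m_OLDM : OLDM_Stmt :=
  t_OLDM (t_FSM CHOICE_thm
    (SAPC_thm (CLS_thm eq_main loc_main arm_main zb_main) zb_main (tr K1H.k1h) hg) CDF_thm m_CLM
    t_CDFM t_DIAGM) SUBB.pol

theorem m_REGM : REGM_Stmt := t_REGM m_FINZ m_SAPZ m_CLMZ t_CDFM

/-- The area law of self-avoiding polygons with prescribed span, with all moments. -/
theorem main : FIN_NSM :=
  assemble2 EXW.main3 (SUBB.fin SUBB.pol FS.fs_main) t_UNQ m_CHOZ m_EQZ m_BDZ m_FINZ m_OLDM m_REGM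

end Pool.Agent.NSP
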