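import Pool.Agent.NSP.StmtsM
import Pool.Agent.Lib_helper74.FS.SAPC

/-!
# Project NSP (MP_f6626d_co), module ARMR: moments of the area functional
-/

set_option autoImplicit false

namespace Pool.Agent.NSP

open Finset Filter Topology MeasureTheory
open Pool.Agent.Lib27 Pool.Agent.SapR Pool.Agent.Gap Pool.Agent.AreaLaw Pool.Agent.FL
open Pool.Agent.FS
open Pool.Agent.KCS (airyMoment)
open Pool.Agent.KCC (areaMoment)

namespace ARMR

/-- weighted power sums of the rescaled shoelace sums -/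
noncomputable def V (n : ℕ) (s : ℝ) (r : ℕ) : ℝ :=
  ∑ q ∈ Omn n, wtq n s q * (|(dq q : ℝ)| / sc n) ^ r

lemma wtq_nonneg (n : ℕ) (s : ℝ) (hs : 0 < s) (q : QI) : 0 ≤ wtq n s q := by
  unfold wtq
  positivity

lemma sc_pos {n : ℕ} (hn : 1 ≤ n) : 0 < sc n := by
  have h1 : (1 : ℝ) ≤ n := by exact_mod_cast hn
  exact lt_of_lt_of_le (by linarith) (SAPC.sc_ge n hn)

lemma V_nonneg (n : ℕ) (s : ℝ) (hs : 0 < s) (r : ℕ) : 0 ≤ V n s r := by
  refine Finset.sum_nonneg fun q _ => mul_nonneg (wtq_nonneg n s hs q) (pow_nonneg ?_ _)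
  unfold sc
  positivity

lemma tails_mono2 {C C' θ θ' : ℝ} (hC : C ≤ C') (hC0 : 0 ≤ C') (hθ : 0 < θ) (hh : θ ≤ θ')
    {n : ℕ} {s rho : ℝ} (hT : Tails C θ n s rho) : Tails C' θ' n s rho := by
  obtain ⟨h1, h2, h3⟩ := hT
  have h4 : ∀ m : ℕ, C * θ ^ m ≤ C' * θ' ^ m := fun m =>
    mul_le_mul hC (pow_le_pow_left₀ hθ.le hh m) (by positivity) hC0
  refine ⟨fun m => (h1 m).trans (h4 m), fun m => (h2 m).trans (h4 m), h3.trans ?_⟩
  have h5 := mul_le_mul_of_nonneg_left (h4 n) (Nat.cast_nonneg (α := ℝ) n)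
  calc C * n * θ ^ n = n * (C * θ ^ n) := by ring
    _ ≤ n * (C' * θ' ^ n) := h5
    _ = C' * n * θ' ^ n := by ring

lemma log_le (n : ℕ) (hn : 1 ≤ n) : Real.log n ≤ 2 * Real.sqrt n := by
  have h0 : (0 : ℝ) < n := by exact_mod_cast hn
  have h1 : 0 < Real.sqrt n := Real.sqrt_pos.2 h0
  have h2 := Real.log_le_sub_one_of_pos h1
  have h3 : Real.log n = 2 * Real.log (Real.sqrt n) := by
    conv_lhs => rw [← Real.sq_sqrt h0.le]
    rw [Real.log_pow]
    push_cast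
    ring
  rw [h3]
  linarith

lemma nlog_ge (n : ℕ) (hn : 2 ≤ n) : (1 : ℝ) ≤ n * Real.log n := by
  have hn2 : (2 : ℝ) ≤ n := by exact_mod_cast hn
  have h3 : Real.log 2 ≤ Real.log n := Real.log_le_log (by norm_num) hn2
  have h4 := Real.log_two_gt_d9
  nlinarith

/-- the differences between the shoelace sum and the area functional -/
lemma diff_part (hZ : ZB_Stmt) (hP : EXW.PDIF_Stmt) (s1 : ℝ) (h0 : 0 < s1) (h1 : s1 < 1)
    (r : ℕ) : ∃ C : ℝ, 0 < C ∧ ∃ N : ℕ, ∀ n : ℕ, N ≤ n → ∀ s : ℝ, 0 < s → s ≤ s1 →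
      ∑ q ∈ Omn n, wtq n s q * |(|(dq q : ℝ)| - (arq n q : ℝ))| ^ r ≤
        C * (n * Real.log n) ^ r * Zq n s := by
  obtain ⟨C, θ, hC, hθ, hθ1, N, hZ⟩ := hZ s1 h0 h1
  obtain ⟨K, hK⟩ := hP r
  obtain ⟨D, hD2, hDC, hDθ⟩ : ∃ D : ℝ, 2 ≤ D ∧ C ≤ D ∧ θ ≤ 1 - D⁻¹ := by
    refine ⟨max 2 (max C (1 - θ)⁻¹), le_max_left _ _,
      (le_max_left _ _).trans (le_max_right _ _), ?_⟩
    have h3 : 0 < 1 - θ := by linarith
    have h2 : (1 - θ)⁻¹ ≤ max 2 (max C (1 - θ)⁻¹) :=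
      (le_max_right _ _).trans (le_max_right _ _)
    have h4 : (max 2 (max C (1 - θ)⁻¹))⁻¹ ≤ 1 - θ := by
      have := inv_anti₀ (inv_pos.2 h3) h2
      rwa [inv_inv] at this
    linarith
  have hD0 : 0 < D := by linarith
  refine ⟨(D ^ K) ^ r + D ^ K * C, by positivity, max N 2, fun n hn s hs hs1 => ?_⟩
  have hnN : N ≤ n := (le_max_left _ _).trans hn
  have hn2 : 2 ≤ n := (le_max_right _ _).trans hn
  obtain ⟨rho, hcrit, hT, _, _, hz, _⟩ := hZ n hnN s hs hs1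
  have hT' := tails_mono2 hDC hD0.le hθ hDθ hT
  have h2 := hK D hD2 n s rho hn2 hs (hs1.trans h1.le) hcrit.1 hcrit.2 hT'
  have hZq : 0 < Zq n s := (SAPC.Z0_le C θ hC hθ n (by omega) s rho hcrit.1 hT hz).1
  have hn1 : (1 : ℝ) ≤ n := by
    have : 1 ≤ n := by omega
    exact_mod_cast this
  have hr : 0 < rho ^ n := pow_pos hcrit.1 n
  -- the error term
  have h3 : 1 / ((n : ℝ) ^ 2 * rho ^ n) ≤ C * Zq n s := by
    rw [div_le_iff₀ (by positivity)]
    have h4 : 1 ≤ C * (sc n * rho ^ n * Zq n s) := by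
      have := mul_le_mul_of_nonneg_left hz hC.le
      rwa [mul_inv_cancel₀ hC.ne'] at this
    have h5 : sc n ≤ (n : ℝ) ^ 2 := by
      unfold sc
      have h6 : Real.sqrt n ≤ n := by
        rw [Real.sqrt_le_left (by linarith)]
        nlinarith
      nlinarith
    calc (1 : ℝ) ≤ C * (sc n * rho ^ n * Zq n s) := h4
      _ ≤ C * ((n : ℝ) ^ 2 * rho ^ n * Zq n s) := by gcongr
      _ = C * Zq n s * ((n : ℝ) ^ 2 * rho ^ n) := by ring
  have h6 := nlog_ge n hn2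
  have h7 : (1 : ℝ) ≤ (n * Real.log n) ^ r := one_le_pow₀ h6
  have h8 : (D ^ K * n * Real.log n) ^ r = (D ^ K) ^ r * (n * Real.log n) ^ r := by
    rw [← mul_pow, mul_assoc]
  rw [h8] at h2
  refine le_trans h2 ?_
  have h9 : D ^ K * (1 / ((n : ℝ) ^ 2 * rho ^ n)) ≤ D ^ K * C * (n * Real.log n) ^ r * Zq n s := by
    calc D ^ K * (1 / ((n : ℝ) ^ 2 * rho ^ n)) ≤ D ^ K * (C * Zq n s) := by gcongr
      _ = D ^ K * C * 1 * Zq n s := by ring
      _ ≤ _ := by gcongr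
  calc (D ^ K) ^ r * (n * Real.log n) ^ r * Zq n s + D ^ K * (1 / ((n : ℝ) ^ 2 * rho ^ n))
      ≤ (D ^ K) ^ r * (n * Real.log n) ^ r * Zq n s +
        D ^ K * C * (n * Real.log n) ^ r * Zq n s := by linarith
    _ = _ := by ring

/-- the force moment dominates the power sums -/
lemma ratio_le (hg : HG_Stmt) (hTR : TR_Stmt) (n : ℕ) (hn : 1 ≤ n) (s : ℝ) (hs : 0 < s)
    (hZq : 0 < Zq n s) (hZ0 : SAPC.Z0 n s ≤ Zq n s) (B : ℝ) (r : ℕ)
    (hQ0 : 0 < (∑ w ∈ SAP n, Real.exp (-Real.log s * span n w) * (2 * area n w / sc n)) /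
      forceZ (-Real.log s) n)
    (hQ : (∑ w ∈ SAP n, Real.exp (-Real.log s * span n w) * (2 * area n w / sc n)) /
      forceZ (-Real.log s) n ≤ B) :
    V n s r / Zq n s ≤ 2 * B ^ r * forceMoment (-Real.log s) n r := by
  set f := -Real.log s with hf
  have hfs : Real.exp (-f) = s := by rw [hf, neg_neg, Real.exp_log hs]
  have hsc := sc_pos hn
  have hn0 : (1 : ℝ) ≤ n := by exact_mod_cast hn
  have h1 := SAPC.force_sum hg hTR n hn f (fun y => y ^ r)
  have h2 := SAPC.force_sum hg hTR n hn f (fun _ => 1)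
  simp only [mul_one] at h2
  rw [hfs] at h1 h2
  beta_reduce at h1
  have hFZ : forceZ f n = Real.exp (f * n) * (4 * n * Zq n s + SAPC.Z0 n s) := h2
  obtain ⟨V0, hV0⟩ : ∃ V0, V0 = ∑ w ∈ NoCut n, s ^ (n - spn w) *
      (|((dbl 0 w : ℤ) : ℝ)| / sc n) ^ r := ⟨_, rfl⟩
  have hV0' : 0 ≤ V0 := by
    rw [hV0]
    exact Finset.sum_nonneg fun w _ => by positivity
  have hZ00 := SAPC.Z0_nonneg n s hs
  have hP : (∑ w ∈ SAP n, Real.exp (f * span n w) * (2 * area n w / sc n) ^ r) / forceZ f n =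
      (4 * n * V n s r + V0) / (4 * n * Zq n s + SAPC.Z0 n s) := by
    rw [h1, hFZ, mul_div_mul_left _ _ (Real.exp_pos _).ne', hV0]
    rfl
  have hV := V_nonneg n s hs r
  have h3 : V n s r / (2 * Zq n s) ≤
      (∑ w ∈ SAP n, Real.exp (f * span n w) * (2 * area n w / sc n) ^ r) / forceZ f n := by
    rw [hP, div_le_div_iff₀ (by positivity) (by positivity)]
    have e1 : V n s r * SAPC.Z0 n s ≤ V n s r * (n * Zq n s) := by
      apply mul_le_mul_of_nonneg_left _ hV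
      nlinarith
    have e2 : 0 ≤ V n s r * (n * Zq n s) := by positivity
    have e3 : 0 ≤ V0 * Zq n s := by positivity
    nlinarith
  -- scale invariance
  have h4 : forceMoment f n r =
      ((∑ w ∈ SAP n, Real.exp (f * span n w) * (2 * area n w / sc n) ^ r) / forceZ f n) /
        ((∑ w ∈ SAP n, Real.exp (f * span n w) * (2 * area n w / sc n)) / forceZ f n) ^ r := by
    have e1 : ∑ w ∈ SAP n, Real.exp (f * span n w) * (2 * area n w / sc n) ^ r =
        (2 / sc n) ^ r * ∑ w ∈ SAP n, Real.exp (f * span n w) * area n w ^ r := by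
      rw [Finset.mul_sum]
      refine Finset.sum_congr rfl fun w _ => ?_
      rw [show 2 * area n w / sc n = 2 / sc n * area n w by ring, mul_pow]
      ring
    have e2 : ∑ w ∈ SAP n, Real.exp (f * span n w) * (2 * area n w / sc n) =
        (2 / sc n) * ∑ w ∈ SAP n, Real.exp (f * span n w) * area n w := by
      rw [Finset.mul_sum]
      refine Finset.sum_congr rfl fun w _ => ?_
      ring
    rw [e1, e2, mul_div_assoc ((2 / sc n) ^ r), mul_div_assoc (2 / sc n), mul_pow,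
      mul_div_mul_left _ _ (by positivity)]
    rfl
  obtain ⟨P, hPdef⟩ : ∃ P, P =
      (∑ w ∈ SAP n, Real.exp (f * span n w) * (2 * area n w / sc n) ^ r) / forceZ f n := ⟨_, rfl⟩
  obtain ⟨Q, hQdef⟩ : ∃ Q, Q =
      (∑ w ∈ SAP n, Real.exp (f * span n w) * (2 * area n w / sc n)) / forceZ f n := ⟨_, rfl⟩
  rw [← hPdef] at h3 h4
  rw [← hQdef] at h4 hQ0 hQ
  have hP0 : 0 ≤ P := le_trans (by positivity) h3
  have h5 : P ≤ B ^ r * (P / Q ^ r) := by
    rw [← mul_div_assoc, le_div_iff₀ (pow_pos hQ0 r), mul_comm (B ^ r)]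
    exact mul_le_mul_of_nonneg_left (pow_le_pow_left₀ hQ0.le hQ r) hP0
  rw [h4]
  have h6 : V n s r / Zq n s = 2 * (V n s r / (2 * Zq n s)) := by
    field_simp
  rw [h6]
  linarith

/-- the mean of the rescaled area, from below and above, and the weight of the words without cut -/
lemma mean_bounds (hZ : ZB_Stmt) (hA : ARM_Stmt) (hTR : TR_Stmt) (hg : HG_Stmt) (s1 : ℝ)
    (h0 : 0 < s1) (h1 : s1 < 1) : ∃ B : ℝ, 0 < B ∧ ∃ N : ℕ, ∀ n : ℕ, N ≤ n → ∀ s : ℝ, 0 < s →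
      s ≤ s1 → 1 ≤ n ∧ 0 < Zq n s ∧ SAPC.Z0 n s ≤ Zq n s ∧
      0 < (∑ w ∈ SAP n, Real.exp (-Real.log s * span n w) * (2 * area n w / sc n)) /
        forceZ (-Real.log s) n ∧
      (∑ w ∈ SAP n, Real.exp (-Real.log s * span n w) * (2 * area n w / sc n)) /
        forceZ (-Real.log s) n ≤ B := by
  obtain ⟨C, θ, hC, hθ, hθ1, N1, hZ⟩ := hZ s1 h0 h1
  obtain ⟨C2, hC2, N2, hA⟩ := hA s1 h0 h1
  -- the words without cut
  have e3 : Tendsto (fun n : ℕ => C ^ 2 * ((n : ℝ) ^ 3 * θ ^ n)) atTop (𝓝 (C ^ 2 * 0)) :=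
    (tendsto_pow_const_mul_const_pow_of_lt_one 3 hθ.le hθ1).const_mul _
  rw [mul_zero] at e3
  have e4 := e3.eventually (gt_mem_nhds (show (0 : ℝ) < min 1 (C2⁻¹ / 8) by
    have := inv_pos.2 hC2
    exact lt_min one_pos (by positivity)))
  obtain ⟨N3, hN3⟩ := Filter.eventually_atTop.1 e4
  -- the logarithm
  have e5 : ∃ N4 : ℕ, ∀ n : ℕ, N4 ≤ n → C2 * Real.log n ≤ C2⁻¹ / 4 * Real.sqrt n := by
    have hl := (isLittleO_log_rpow_atTop (show (0 : ℝ) < 1 / 2 by norm_num)).bound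
      (show (0 : ℝ) < C2⁻¹ / 4 / C2 by have := inv_pos.2 hC2; positivity)
    have hl2 := tendsto_natCast_atTop_atTop (R := ℝ) |>.eventually hl
    obtain ⟨N4, hN4⟩ := Filter.eventually_atTop.1 hl2
    refine ⟨max N4 1, fun n hn => ?_⟩
    have h2 := hN4 n ((le_max_left _ _).trans hn)
    have hn1 : 1 ≤ n := (le_max_right _ _).trans hn
    have h3 : (0 : ℝ) ≤ Real.log n := Real.log_natCast_nonneg n
    rw [Real.norm_of_nonneg h3, Real.norm_of_nonneg (by positivity), ← Real.sqrt_eq_rpow] at h2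
    calc C2 * Real.log n ≤ C2 * (C2⁻¹ / 4 / C2 * Real.sqrt n) := by gcongr
      _ = C2⁻¹ / 4 * Real.sqrt n := by field_simp
  obtain ⟨N4, hN4⟩ := e5
  refine ⟨1 + C2 + 2 * C2 + 2, by positivity, max (max N1 N2) (max (max N3 N4) 1),
    fun n hn s hs hs1 => ?_⟩
  have hnN1 : N1 ≤ n := (le_max_left _ _).trans ((le_max_left _ _).trans hn)
  have hnN2 : N2 ≤ n := (le_max_right _ _).trans ((le_max_left _ _).trans hn)
  have hnN3 : N3 ≤ n := (le_max_left _ _).trans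
    ((le_max_left _ _).trans ((le_max_right _ _).trans hn))
  have hnN4 : N4 ≤ n := (le_max_right _ _).trans
    ((le_max_left _ _).trans ((le_max_right _ _).trans hn))
  have hn1 : 1 ≤ n := (le_max_right _ _).trans ((le_max_right _ _).trans hn)
  have hnR : (1 : ℝ) ≤ n := by exact_mod_cast hn1
  have hsc := sc_pos hn1
  have hsq : 1 ≤ Real.sqrt n := by
    rw [Real.one_le_sqrt]
    exact hnR
  obtain ⟨rho, hcrit, hT, _, _, hz, _⟩ := hZ n hnN1 s hs hs1
  obtain ⟨hZq, hZ0⟩ := SAPC.Z0_le C θ hC hθ n hn1 s rho hcrit.1 hT hz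
  obtain ⟨hA1, hA2, hA3⟩ := hA n hnN2 s hs hs1
  have hZ00 := SAPC.Z0_nonneg n s hs
  have h3 := hN3 n hnN3
  rw [lt_min_iff] at h3
  have hZ1 : SAPC.Z0 n s ≤ C ^ 2 * ((n : ℝ) ^ 3 * θ ^ n) * Zq n s := by
    refine le_trans ?_ (hZ0.trans (le_of_eq (by ring)))
    nlinarith
  have hZ2 : SAPC.Z0 n s ≤ Zq n s := by
    refine hZ1.trans ?_
    nlinarith [h3.1]
  have hZ3 : SAPC.Z0 n s ≤ C2⁻¹ / 8 * Zq n s := hZ1.trans
    (mul_le_mul_of_nonneg_right h3.2.le hZq.le)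
  refine ⟨hn1, hZq, hZ2, ?_⟩
  -- comparison with the canonical words
  set f := -Real.log s with hf
  have hfs : Real.exp (-f) = s := by rw [hf, neg_neg, Real.exp_log hs]
  have hcmp := SAPC.force_cmp hg hTR n hn1 f (fun y => y) (fun y hy hy' => by
    rw [abs_of_nonneg hy]
    exact hy') (by rw [hfs]; exact hZq)
  rw [hfs] at hcmp
  beta_reduce at hcmp
  have hq1 : SAPC.Z0 n s / Zq n s ≤ 1 := (div_le_one hZq).2 hZ2
  have hq2 : SAPC.Z0 n s / Zq n s ≤ C2⁻¹ / 8 := (div_le_iff₀ hZq).2 hZ3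
  rw [abs_le] at hcmp
  -- the canonical words
  have hV1 : |(∑ q ∈ Omn n, wtq n s q * (|(dq q : ℝ)| / sc n)) -
      ∑ q ∈ Omn n, wtq n s q * ra n q| ≤ C2 * Real.log n / Real.sqrt n * Zq n s := by
    rw [← Finset.sum_sub_distrib]
    refine (Finset.abs_sum_le_sum_abs _ _).trans ?_
    have e6 : ∑ q ∈ Omn n, |wtq n s q * (|(dq q : ℝ)| / sc n) - wtq n s q * ra n q| ≤
        (∑ q ∈ Omn n, wtq n s q * |(dq q : ℝ) - (arq n q : ℝ)|) / sc n := by
      rw [Finset.sum_div]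
      refine Finset.sum_le_sum fun q _ => ?_
      have hw := wtq_nonneg n s hs q
      rw [← mul_sub, abs_mul, abs_of_nonneg hw, mul_div_assoc]
      refine mul_le_mul_of_nonneg_left ?_ hw
      unfold ra
      rw [← sub_div, abs_div, abs_of_pos hsc]
      refine div_le_div_of_nonneg_right ?_ hsc.le
      have h7 : (0 : ℝ) ≤ (arq n q : ℝ) := Nat.cast_nonneg _
      have h8 := abs_abs_sub_abs_le_abs_sub (dq q : ℝ) (arq n q : ℝ)
      rwa [abs_of_nonneg h7] at h8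
    refine e6.trans ?_
    rw [div_le_iff₀ hsc]
    refine hA3.trans (le_of_eq ?_)
    unfold sc
    field_simp
  have hlog : C2 * Real.log n / Real.sqrt n ≤ C2⁻¹ / 4 := by
    rw [div_le_iff₀ (by linarith)]
    exact hN4 n hnN4
  have hlog2 : C2 * Real.log n / Real.sqrt n ≤ 2 * C2 := by
    rw [div_le_iff₀ (by linarith)]
    have := log_le n hn1
    nlinarith
  have hra : ∑ q ∈ Omn n, wtq n s q * ra n q ≤ (1 + C2) * Zq n s := by
    have e7 : ∑ q ∈ Omn n, wtq n s q * ra n q ≤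
        ∑ q ∈ Omn n, (wtq n s q + wtq n s q * ra n q ^ 2) := by
      refine Finset.sum_le_sum fun q _ => ?_
      have hw := wtq_nonneg n s hs q
      have h7 : ra n q ≤ 1 + ra n q ^ 2 := by nlinarith [sq_nonneg (ra n q - 1)]
      calc wtq n s q * ra n q ≤ wtq n s q * (1 + ra n q ^ 2) := mul_le_mul_of_nonneg_left h7 hw
        _ = _ := by ring
    rw [Finset.sum_add_distrib] at e7
    have e8 : ∑ q ∈ Omn n, wtq n s q = Zq n s := rfl
    rw [e8] at e7
    linarith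
  obtain ⟨S, hS⟩ : ∃ S, S = ∑ q ∈ Omn n, wtq n s q * (|(dq q : ℝ)| / sc n) := ⟨_, rfl⟩
  obtain ⟨A, hAd⟩ : ∃ A, A = ∑ q ∈ Omn n, wtq n s q * ra n q := ⟨_, rfl⟩
  rw [← hS, ← hAd, abs_le] at hV1
  rw [← hAd] at hra hA2
  rw [← hS] at hcmp
  have hlo : C2⁻¹ / 4 * 3 ≤ S / Zq n s := by
    rw [le_div_iff₀ hZq]
    have : C2 * Real.log n / Real.sqrt n * Zq n s ≤ C2⁻¹ / 4 * Zq n s :=
      mul_le_mul_of_nonneg_right hlog hZq.le
    linarith [hV1.1]
  have hup : S / Zq n s ≤ 1 + C2 + 2 * C2 := by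
    rw [div_le_iff₀ hZq]
    have : C2 * Real.log n / Real.sqrt n * Zq n s ≤ 2 * C2 * Zq n s :=
      mul_le_mul_of_nonneg_right hlog2 hZq.le
    linarith [hV1.2]
  have hi := inv_pos.2 hC2
  constructor
  · linarith [hcmp.1]
  · linarith [hcmp.2]

end ARMR

open ARMR in
theorem t_ARMR (hF : FM_Stmt) (hZ : ZB_Stmt) (hA : ARM_Stmt) (hTR : TR_Stmt) (hg : HG_Stmt)
    (hP : EXW.PDIF_Stmt) : ARMR_Stmt := by
  intro s1 h0 h1 r
  obtain ⟨Cd, hCd, Nd, hd⟩ := diff_part hZ hP s1 h0 h1 r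
  obtain ⟨B, hB, Nb, hb⟩ := mean_bounds hZ hA hTR hg s1 h0 h1
  -- the weights with the almost largest power sums
  have hchoose : ∀ n : ℕ, ∃ t : ℝ, 0 < t ∧ t ≤ s1 ∧ (Nb ≤ n → ∀ s : ℝ, 0 < s → s ≤ s1 →
      V n s r / Zq n s ≤ V n t r / Zq n t + 1) := by
    intro n
    by_cases hn : Nb ≤ n
    · obtain ⟨A, hA'⟩ : ∃ A : Set ℝ, A = {y | ∃ s : ℝ, 0 < s ∧ s ≤ s1 ∧ y = V n s r / Zq n s} :=
        ⟨_, rfl⟩
      have hne : A.Nonempty := by
        rw [hA']
        exact ⟨_, s1, h0, le_rfl, rfl⟩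
      have hn1 : 1 ≤ n := (hb n hn s1 h0 le_rfl).1
      have hbdd : BddAbove A := by
        refine ⟨(4 * n) ^ r, ?_⟩
        rw [hA']
        rintro y ⟨s, hs, hs1, rfl⟩
        have hZq := (hb n hn s hs hs1).2.1
        rw [div_le_iff₀ hZq]
        unfold V Zq
        rw [Finset.mul_sum]
        refine Finset.sum_le_sum fun q hq => ?_
        have h5 := SAPC.scaled_le n hn1 (dq q : ℝ) (SAPC.dq_le n q hq)
        rw [mul_comm]
        exact mul_le_mul_of_nonneg_right (pow_le_pow_left₀ h5.1 h5.2 r) (wtq_nonneg n s hs q)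
      obtain ⟨y, hy, hy2⟩ := exists_lt_of_lt_csSup hne (sub_one_lt (sSup A))
      rw [hA'] at hy
      obtain ⟨t, ht, ht1, rfl⟩ := hy
      refine ⟨t, ht, ht1, fun _ s hs hs1 => ?_⟩
      have h2 : V n s r / Zq n s ≤ sSup A := le_csSup hbdd (by rw [hA']; exact ⟨s, hs, hs1, rfl⟩)
      linarith
    · exact ⟨s1, h0, le_rfl, fun h => absurd h hn⟩
  choose t ht0 ht1 ht using hchoose
  have ha : 0 < -Real.log s1 := by
    have := Real.log_neg h0 h1
    linarith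
  have hlim := hF (-Real.log s1) ha (fun n => -Real.log (t n)) (fun n => by
    have := Real.log_le_log (ht0 n) (ht1 n)
    linarith) r
  have hev := hlim.eventually (gt_mem_nhds (show airyMoment r < airyMoment r + 1 by linarith))
  obtain ⟨Nm, hm⟩ := Filter.eventually_atTop.1 hev
  obtain ⟨M, hM⟩ : ∃ M : ℝ, M = 2 * B ^ r * |airyMoment r + 1| + 1 := ⟨_, rfl⟩
  have hM0 : 0 < M := by
    rw [hM]
    positivity
  have hmain : ∀ n : ℕ, max Nb Nm ≤ n → ∀ s : ℝ, 0 < s → s ≤ s1 → V n s r ≤ M * Zq n s := by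
    intro n hn s hs hs1
    have hnb : Nb ≤ n := (le_max_left _ _).trans hn
    have hnm : Nm ≤ n := (le_max_right _ _).trans hn
    obtain ⟨hn1, hZq, hZ0, hQ0, hQ⟩ := hb n hnb (t n) (ht0 n) (ht1 n)
    have h2 := ratio_le hg hTR n hn1 (t n) (ht0 n) hZq hZ0 B r hQ0 hQ
    have h3 := hm n hnm
    have h4 : forceMoment (-Real.log (t n)) n r ≤ |airyMoment r + 1| :=
      h3.le.trans (le_abs_self _)
    have h5 : 2 * B ^ r * forceMoment (-Real.log (t n)) n r ≤ 2 * B ^ r * |airyMoment r + 1| :=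
      mul_le_mul_of_nonneg_left h4 (by positivity)
    have h6 := ht n hnb s hs hs1
    rw [← div_le_iff₀ (hb n hnb s hs hs1).2.1, hM]
    linarith
  refine ⟨2 ^ r * (M + Cd * 2 ^ r) + Cd, by positivity, max (max Nb Nm) Nd,
    fun n hn s hs hs1 => ?_⟩
  have hn2 : max Nb Nm ≤ n := (le_max_left _ _).trans hn
  have hnd : Nd ≤ n := (le_max_right _ _).trans hn
  obtain ⟨hn1, hZq, _⟩ := hb n ((le_max_left _ _).trans hn2) s hs hs1
  have hV := hmain n hn2 s hs hs1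
  have hD := hd n hnd s hs hs1
  have hsc := ARMR.sc_pos hn1
  have hnR : (1 : ℝ) ≤ n := by exact_mod_cast hn1
  have hlog0 : (0 : ℝ) ≤ Real.log n := Real.log_natCast_nonneg n
  constructor
  · have e1 : ∀ q ∈ Omn n, wtq n s q * ra n q ^ r ≤
        2 ^ r * (wtq n s q * (|(dq q : ℝ)| / sc n) ^ r +
          wtq n s q * |(|(dq q : ℝ)| - (arq n q : ℝ))| ^ r / sc n ^ r) := by
      intro q _
      have hw := wtq_nonneg n s hs q
      have ha0 : 0 ≤ |(dq q : ℝ)| / sc n := by positivity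
      have hb0 : 0 ≤ |(|(dq q : ℝ)| - (arq n q : ℝ))| / sc n := by positivity
      have h2 : ra n q ≤ |(dq q : ℝ)| / sc n + |(|(dq q : ℝ)| - (arq n q : ℝ))| / sc n := by
        unfold ra
        rw [← add_div]
        refine div_le_div_of_nonneg_right ?_ hsc.le
        have := neg_abs_le (|(dq q : ℝ)| - (arq n q : ℝ))
        linarith
      have h3 : 0 ≤ ra n q := by
        unfold ra
        positivity
      have h4 : ra n q ^ r ≤ 2 ^ r * ((|(dq q : ℝ)| / sc n) ^ r +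
          (|(|(dq q : ℝ)| - (arq n q : ℝ))| / sc n) ^ r) := by
        obtain ⟨x, hx⟩ : ∃ x, x = |(dq q : ℝ)| / sc n := ⟨_, rfl⟩
        obtain ⟨y, hy⟩ : ∃ y, y = |(|(dq q : ℝ)| - (arq n q : ℝ))| / sc n := ⟨_, rfl⟩
        rw [← hx, ← hy] at h2
        rw [← hx] at ha0 ⊢
        rw [← hy] at hb0 ⊢
        have hx' := pow_nonneg ha0 r
        have hy' := pow_nonneg hb0 r
        rcases le_total x y with hxy | hxy
        · calc ra n q ^ r ≤ (2 * y) ^ r := pow_le_pow_left₀ h3 (by linarith) r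
            _ = 2 ^ r * y ^ r := mul_pow _ _ _
            _ ≤ _ := mul_le_mul_of_nonneg_left (by linarith) (by positivity)
        · calc ra n q ^ r ≤ (2 * x) ^ r := pow_le_pow_left₀ h3 (by linarith) r
            _ = 2 ^ r * x ^ r := mul_pow _ _ _
            _ ≤ _ := mul_le_mul_of_nonneg_left (by linarith) (by positivity)
      calc wtq n s q * ra n q ^ r ≤ wtq n s q * (2 ^ r * ((|(dq q : ℝ)| / sc n) ^ r +
          (|(|(dq q : ℝ)| - (arq n q : ℝ))| / sc n) ^ r)) := mul_le_mul_of_nonneg_left h4 hw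
        _ = _ := by
          rw [div_pow (|(|(dq q : ℝ)| - (arq n q : ℝ))|)]
          ring
    have e2 := Finset.sum_le_sum e1
    rw [← Finset.mul_sum, Finset.sum_add_distrib, ← Finset.sum_div] at e2
    refine e2.trans ?_
    have e3 : (∑ q ∈ Omn n, wtq n s q * |(|(dq q : ℝ)| - (arq n q : ℝ))| ^ r) / sc n ^ r ≤
        Cd * 2 ^ r * Zq n s := by
      rw [div_le_iff₀ (by positivity)]
      refine hD.trans ?_
      have h4 : n * Real.log n ≤ 2 * sc n := by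
        unfold sc
        have := log_le n hn1
        nlinarith
      have h5 : (n * Real.log n) ^ r ≤ 2 ^ r * sc n ^ r := by
        rw [← mul_pow]
        exact pow_le_pow_left₀ (by positivity) h4 r
      calc Cd * (n * Real.log n) ^ r * Zq n s ≤ Cd * (2 ^ r * sc n ^ r) * Zq n s := by gcongr
        _ = _ := by ring
    have e4 : ∑ q ∈ Omn n, wtq n s q * (|(dq q : ℝ)| / sc n) ^ r = V n s r := rfl
    rw [e4]
    have e5 : 0 ≤ Cd * Zq n s := by positivity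
    calc 2 ^ r * (V n s r +
        (∑ q ∈ Omn n, wtq n s q * |(|(dq q : ℝ)| - (arq n q : ℝ))| ^ r) / sc n ^ r)
        ≤ 2 ^ r * (M * Zq n s + Cd * 2 ^ r * Zq n s) :=
          mul_le_mul_of_nonneg_left (add_le_add hV e3) (by positivity)
      _ ≤ 2 ^ r * (M * Zq n s + Cd * 2 ^ r * Zq n s) + Cd * Zq n s := by linarith
      _ = _ := by ring
  · refine hD.trans ?_
    have h3 : 0 ≤ (n * Real.log n) ^ r * Zq n s := by positivity
    have h4 : 0 ≤ 2 ^ r * (M + Cd * 2 ^ r) := by positivity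
    calc Cd * (n * Real.log n) ^ r * Zq n s = Cd * ((n * Real.log n) ^ r * Zq n s) := by ring
      _ ≤ (2 ^ r * (M + Cd * 2 ^ r) + Cd) * ((n * Real.log n) ^ r * Zq n s) :=
        mul_le_mul_of_nonneg_right (by linarith) h3
      _ = _ := by ring

end Pool.Agent.NSP
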