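import Pool.Agent.Lib_helper74.FS.Stmts

/-!
# Project NSP (MP_f6626d_co): self-avoiding polygons whose span is close to the half perimeter

Definitions. The definitions of `Lib_helper74/FS/Defs.lean` (`Omn`, `sp`, `arq`, `dq`, `ra`, `Zq`, `U`,
`Crit`, `lapQ`, `rs`, `bp`, `Sk`, `capK`, `vsk`, `inC`) are used as they are.
-/

set_option autoImplicit false

namespace Pool.Agent.NSP

open Finset Filter Topology MeasureTheory
open Pool.Agent.Lib27 Pool.Agent.SapR Pool.Agent.Gap Pool.Agent.AreaLaw Pool.Agent.FL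
open Pool.Agent.FS

/-- the letter `c` : both strands make a step East -/
def lc : Wd × Wd := ([0], [2])

/-- the letter `d` : both strands make a step North -/
def ld : Wd × Wd := ([1], [3])

/-- the token of the second kind: height `3`, half length `4`, jump `0` -/
def tz : Wd × Wd := ([1, 0, 3, 0, 1], [2, 2, 3])

/-- difference of the area offsets of the tokens `tz` and `c c c d` -/
def dlt0 : ℤ := off tz - (3 * off lc + off ld)

/-- The family `σ` of skeletons describes the canonical polygon words. Here a token is the word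
`c c c d` (first kind, height 4) or the piece `tz` (second kind, height 3), at a gap `x`, and
`y = 2 x`. Replacing `j` tokens with total `t` by the second kind changes the height, the area
functional and the shoelace sum to `H - j`, `A - t`, `L - t + dlt0 * j`. -/
structure IsSk0 (n k : ℕ) (σ : Fin k → Sk) : Prop where
  repr : ∀ F : ℤ → ℤ → ℤ → ℝ, ∑ q ∈ Omn n, F (sp q) (arq n q) (dq q) =
    ∑ i, rs (σ i).l (fun j t => F ((σ i).H - j) ((σ i).A - t) ((σ i).L - t + dlt0 * j))
  len_le : ∀ i, (σ i).l.length ≤ (σ i).H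
  H_le : ∀ i, (σ i).H ≤ n
  sum_le : ∀ i, 4 * (σ i).l.sum ≤ (σ i).A
  A_le : ∀ i, (σ i).A ≤ 2 * n ^ 2
  count : ∀ s τ ρ : ℝ, 0 < s → 0 ≤ τ → 0 < ρ → ρ ≤ 1 / 2 →
    ∑ p ∈ Pc (2 * n - 1), ρ ^ hl p * s ^ (hl p - htn p) ≤ 1 + (1 - τ) * (ρ ^ 4 * (1 + s)) →
    ρ ^ n * ∑ i, s ^ (n - (σ i).H) * ((1 + s) * τ) ^ (σ i).l.length ≤ 8 * (capK n s ρ) ^ 2

open Classical in
/-- a property of all words holds for the words in which all tokens are of the first kind -/
lemma IsSk0.all {n k : ℕ} {σ : Fin k → Sk} (h : IsSk0 n k σ) (Q : ℤ → ℤ → ℤ → Prop)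
    (hQ : ∀ q ∈ Omn n, Q (sp q) (arq n q) (dq q)) (i : Fin k) :
    Q (σ i).H (σ i).A (σ i).L := by
  by_contra hc
  have h1 := h.repr (fun a b c => if Q a b c then 0 else 1)
  have h2 : ∑ q ∈ Omn n, (if Q (sp q) (arq n q) (dq q) then (0 : ℝ) else 1) = 0 := by
    refine Finset.sum_eq_zero fun q hq => ?_
    rw [if_pos (hQ q hq)]
  rw [h2] at h1
  have h3 : ∀ j ∈ (univ : Finset (Fin k)), 0 ≤ rs (σ j).l (fun a t =>
      if Q ((σ j).H - a) ((σ j).A - t) ((σ j).L - t + dlt0 * a) then (0 : ℝ) else 1) := by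
    intro j _
    refine rs_nonneg _ _ fun a t _ _ => ?_
    split_ifs <;> norm_num
  have h4 := (Finset.sum_eq_zero_iff_of_nonneg h3).1 h1.symm i (Finset.mem_univ i)
  have h5 := rs_ge_zero (σ i).l (fun a t =>
      if Q ((σ i).H - a) ((σ i).A - t) ((σ i).L - t + dlt0 * a) then (0 : ℝ) else 1) (by
    intro a t _ _
    split_ifs <;> norm_num)
  simp only [Nat.cast_zero, sub_zero, mul_zero, add_zero] at h5
  rw [if_neg hc, h4] at h5
  linarith

/-- the mean of the span of the canonical words is within distance `1` of `m` -/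
def CenQ (n : ℕ) (s m : ℝ) : Prop := |∑ q ∈ Omn n, wtq n s q * ((sp q : ℝ) - m)| ≤ Zq n s

/-- A sequence of weights `s n → 0` with `n * s n ≥ 1` and a sequence of spans `h n` which is typical
for the weights, on which the rescaled area functional is asymptotically as without the condition
on the span. -/
structure Reg (s : ℕ → ℝ) (h : ℕ → ℕ) : Prop where
  pos : ∀ n, 0 < s n
  lim : Tendsto s atTop (𝓝 0)
  ge : ∀ᶠ n : ℕ in atTop, 1 ≤ s n * n
  low : ∃ c : ℝ, 0 < c ∧ ∀ᶠ n : ℕ in atTop,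
    c / Real.sqrt (s n * n) * Zq n (s n) ≤ U n (s n) (h n) (fun _ => 1)
  eqv : ∀ φ : ℝ → ℝ, (∀ a, |φ a| ≤ 1) → LipschitzWith 1 φ →
    Tendsto (fun n : ℕ => U n (s n) (h n) φ / U n (s n) (h n) (fun _ => 1) -
      (∑ q ∈ Omn n, wtq n (s n) q * φ (ra n q)) / Zq n (s n)) atTop (𝓝 0)

end Pool.Agent.NSP
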