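import Pool.Agent.NSP.Stmts
import Pool.Agent.SUBB.FIN
import Pool.Agent.EXW.Stmts3

/-!
# Project NSP: assembly
-/

set_option autoImplicit false

namespace Pool.Agent.NSP

open Finset Filter Topology MeasureTheory
open Pool.Agent.Lib27 Pool.Agent.SapR Pool.Agent.Gap Pool.Agent.AreaLaw Pool.Agent.FL
open Pool.Agent.FS

/-- the final theorem -/
def FIN_NSP : Prop := ∃ μ : Measure ℝ, IsProbabilityMeasure μ ∧
  (∀ r : ℕ, Integrable (fun x : ℝ => x ^ r) μ ∧ ∫ x, x ^ r ∂μ = KCS.airyMoment r) ∧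
  (∀ x : ℝ, μ {x} = 0 →
    Tendsto (fun n : ℕ => areaCdf n (Staircase n) x) atTop (𝓝 (μ (Set.Iic x)).toReal)) ∧
  ∃ e : ℕ → ℝ, (∀ n, 0 < e n) ∧ Tendsto e atTop (𝓝 0) ∧
    ∀ h : ℕ → ℕ, (∀ᶠ n : ℕ in atTop, e n * n ≤ (h n : ℝ) ∧ h n ≤ n) →
      ∀ x : ℝ, μ {x} = 0 →
        Tendsto (fun n : ℕ => areaCdf n ((SAP n).filter (fun s => span n s = h n)) x) atTop
          (𝓝 (μ (Set.Iic x)).toReal) ∧
        Tendsto (fun n : ℕ => areaCdf n ((SAP n).filter (fun s => h n ≤ span n s)) x) atTop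
          (𝓝 (μ (Set.Iic x)).toReal)

theorem assemble (hE : EXW.FINAL3_Stmt) (hO : SUBB.FIN_Stmt) (hU : UNQ_Stmt) (hB : FINB_Stmt) :
    FIN_NSP := by
  classical
  obtain ⟨μ, hμ, hmom, hst, hforce⟩ := hE
  obtain ⟨μ', hμ', hst', e', he', hl', hold⟩ := hO
  have hμμ : μ = μ' := hU μ μ' hμ hμ' (fun n x => areaCdf n (Staircase n) x) hst hst'
  subst hμμ
  have hF : FORCE_Stmt μ := by
    intro a ha f hf x hx
    refine (hforce f ?_).1 x hx
    have h1 : Tendsto (fun n : ℕ => a * Real.log n) atTop atTop :=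
      (Real.tendsto_log_atTop.comp tendsto_natCast_atTop_atTop).const_mul_atTop ha
    refine tendsto_atTop_mono' _ ?_ h1
    filter_upwards [eventually_ge_atTop 1] with n hn
    exact mul_le_mul_of_nonneg_right (hf n) (Real.log_nonneg (by exact_mod_cast hn))
  have ht : ∀ n h, cls n true h = (SAP n).filter (fun s => span n s = h) := by
    intro n h
    unfold cls
    apply Finset.filter_congr
    intro s _
    unfold inC
    simp
  have hf : ∀ n h, cls n false h = (SAP n).filter (fun s => h ≤ span n s) := by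
    intro n h
    unfold cls
    apply Finset.filter_congr
    intro s _
    unfold inC
    simp
  have hOLD : OLD_Stmt μ := by
    refine ⟨e', he', hl', fun h hh x hx b => ?_⟩
    obtain ⟨h1, h2⟩ := hold h hh x hx
    cases b with
    | true =>
      refine h1.congr fun n => ?_
      rw [ht]
    | false =>
      refine h2.congr fun n => ?_
      rw [hf]
  obtain ⟨e, he, hl, h3⟩ := hB μ hμ hF hOLD
  refine ⟨μ, hμ, hmom, hst, e, he, hl, fun h hh x hx => ⟨?_, ?_⟩⟩
  · refine (h3 h hh x hx true).congr fun n => ?_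
    rw [ht]
  · refine (h3 h hh x hx false).congr fun n => ?_
    rw [hf]

end Pool.Agent.NSP
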