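import Pool.Agent.NSP.Stmts
import Pool.Agent.Lib_helper74.FS.SKEL

/-!
Module SKZ, part 1: the letters `c`, `d`, the token `tz`, and the functionals of the four states.
-/

set_option autoImplicit false

namespace Pool.Agent.NSP.SKZ

open Finset Filter Topology MeasureTheory
open Pool.Agent.Lib27 Pool.Agent.SapR Pool.Agent.Gap Pool.Agent.AreaLaw Pool.Agent.FL
open Pool.Agent.FS Pool.Agent.FS.SKEL

lemma lc_ne_ld : lc ≠ ld := by decide
lemma lc_ne_tz : lc ≠ tz := by decide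
lemma ld_ne_tz : ld ≠ tz := by decide

lemma lc_hl : hl lc = 1 := by decide
lemma ld_hl : hl ld = 1 := by decide
lemma tz_hl : hl tz = 4 := by decide
lemma lc_ht : ht lc = 1 := by decide
lemma ld_ht : ht ld = 1 := by decide
lemma tz_ht : ht tz = 3 := by decide
lemma lc_htn : htn lc = 1 := by decide
lemma ld_htn : htn ld = 1 := by decide
lemma tz_htn : htn tz = 3 := by decide
lemma lc_jump : jump lc = 0 := by decide
lemma ld_jump : jump ld = 0 := by decide
lemma tz_jump : jump tz = 0 := by decide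

lemma lc_free : FreePiece lc.1 lc.2 := by
  refine ⟨?_, ?_⟩
  · unfold StripPair; decide
  · intro k h1 h2
    have h3 : lev (ep 0 lc.1) = 1 := by decide
    rw [h3] at h2
    omega

lemma ld_free : FreePiece ld.1 ld.2 := by
  refine ⟨?_, ?_⟩
  · unfold StripPair; decide
  · intro k h1 h2
    have h3 : lev (ep 0 ld.1) = 1 := by decide
    rw [h3] at h2
    omega

lemma tz_free : FreePiece tz.1 tz.2 := by
  refine ⟨?_, ?_⟩
  · unfold StripPair; decide
  · intro k h1 h2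
    have h3 : lev (ep 0 tz.1) = 3 := by decide
    rw [h3] at h2 ⊢
    have : k = 1 ∨ k = 2 := by omega
    rcases this with rfl | rfl <;> decide

lemma lc_mem (r : ℕ) (hr : 10 ≤ r) (x : ℤ) (hx : 1 ≤ x) : lc ∈ allowed r x := by
  rw [M41.mem_allowed, M41.mem_Pc]
  refine ⟨⟨lc_free, ?_⟩, hx, ?_, ?_⟩
  · have : lc.1.length + lc.2.length = 2 := by decide
    omega
  · rw [lc_jump]; omega
  · intro v h1 h2
    have h3 : ∀ v ∈ vt 0 lc.1, v.2 ≤ 0 := by decide
    have h4 := h3 v h1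
    rw [lc_jump] at h2
    have h5 : ep 0 lc.1 = (1, 0) := by decide
    rw [h5] at h2
    unfold lc at h2
    simp [dv, Prod.ext_iff] at h2
    omega

lemma ld_mem (r : ℕ) (hr : 10 ≤ r) (x : ℤ) (hx : 1 ≤ x) : ld ∈ allowed r x := by
  rw [M41.mem_allowed, M41.mem_Pc]
  refine ⟨⟨ld_free, ?_⟩, hx, ?_, ?_⟩
  · have : ld.1.length + ld.2.length = 2 := by decide
    omega
  · rw [ld_jump]; omega
  · intro v h1 h2
    have h3 : ∀ v ∈ vt 0 ld.1, v.1 = 0 := by decide
    have h4 := h3 v h1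
    rw [ld_jump] at h2
    have h5 : ep 0 ld.1 = (0, 1) := by decide
    rw [h5] at h2
    unfold ld at h2
    simp [dv, Prod.ext_iff] at h2
    omega

lemma tz_mem (r : ℕ) (hr : 10 ≤ r) (x : ℤ) (hx : 1 ≤ x) : tz ∈ allowed r x := by
  rw [M41.mem_allowed, M41.mem_Pc]
  refine ⟨⟨tz_free, ?_⟩, hx, ?_, ?_⟩
  · have : tz.1.length + tz.2.length = 8 := by decide
    omega
  · rw [tz_jump]; omega
  · intro v h1 h2
    have h3 : ∀ v ∈ vt 0 tz.1, v = (0, 0) ∨ v = (0, 1) ∨ v = (1, 1) ∨ v = (1, 0) ∨ v = (2, 0) ∨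
        v = (2, 1) := by decide
    have h4 := h3 v h1
    rw [tz_jump] at h2
    have h5 : ep 0 tz.1 = (2, 1) := by decide
    rw [h5] at h2
    unfold tz at h2
    simp [dv, Prod.ext_iff] at h2
    rcases h4 with rfl | rfl | rfl | rfl | rfl | rfl <;> simp at h2 <;> omega

/-- the sum over all arches -/
noncomputable def AA (r : ℕ) (x : ℤ) (m : ℕ) (F : ℤ → ℤ → ℤ → ℝ) : ℝ :=
  ∑ w ∈ ArchSet r x (2 * m), F (hgt w) (M41.Ar r w) (dbl 0 w)

lemma AA_zero (r : ℕ) (x : ℤ) (F : ℤ → ℤ → ℤ → ℝ) : AA r x 0 F = 0 := by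
  unfold AA
  rw [mul_zero, M41.ArchSet_zero, sum_empty]

lemma AA_nonneg (r : ℕ) (x : ℤ) (m : ℕ) (F : ℤ → ℤ → ℤ → ℝ) (h : ∀ a b c, 0 ≤ F a b c) :
    0 ≤ AA r x m F := Finset.sum_nonneg fun _ _ => h _ _ _

/-- the state after a further letter `c` -/
def nx : ℕ → ℕ
  | 0 => 1
  | 1 => 2
  | _ + 2 => 3

/-- the functional of the state `j` -/
noncomputable def St (r : ℕ) (x : ℤ) (m : ℕ) (j : ℕ) (F : ℤ → ℤ → ℤ → ℝ) : ℝ :=
  match j with
  | 0 => AA r x m F
  | 1 => AA r x m F - AA r x (m - 3) (inn x ld (inn x lc (inn x lc F)))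
  | 2 => AA r x m F - AA r x (m - 3) (inn x ld (inn x lc (inn x lc F))) -
      AA r x (m - 2) (inn x ld (inn x lc F))
  | _ + 3 => AA r x m F - AA r x (m - 3) (inn x ld (inn x lc (inn x lc F))) -
      AA r x (m - 2) (inn x ld (inn x lc F)) - AA r x (m - 1) (inn x ld F)

/-- the values `v_j` -/
def vj (j : ℕ) (ρ : ℝ) : ℝ :=
  match j with
  | 0 => 1
  | 1 => 1 - ρ ^ 3
  | 2 => 1 - ρ ^ 3 - ρ ^ 2
  | _ + 3 => 1 - ρ ^ 3 - ρ ^ 2 - ρ

lemma vj_ge (j : ℕ) (ρ : ℝ) (h0 : 0 < ρ) (h1 : ρ ≤ 1 / 2) : 1 ≤ 8 * vj j ρ := by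
  have e2 : ρ ^ 2 ≤ 1 / 4 := by nlinarith
  have e3 : ρ ^ 3 ≤ 1 / 8 := by
    have : ρ ^ 3 = ρ ^ 2 * ρ := by ring
    rw [this]
    nlinarith [sq_nonneg ρ]
  match j with
  | 0 => unfold vj; norm_num
  | 1 => unfold vj; linarith
  | 2 => unfold vj; linarith
  | _ + 3 => unfold vj; linarith

open Classical in
/-- the other pieces -/
noncomputable def oth0 (r : ℕ) (x : ℤ) (m : ℕ) : Finset (Wd × Wd) :=
  (allowed r x).filter (fun p => (p ≠ lc ∧ p ≠ ld ∧ p ≠ tz) ∧ hl p ≤ m)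

/-- caps -/
noncomputable def cps (r : ℕ) (x : ℤ) (m : ℕ) (F : ℤ → ℤ → ℤ → ℝ) : ℝ :=
  ∑ T ∈ CapSet r x (2 * m), F (hgt T) 0 (dbl 0 T)

lemma AA_step (h : HG_Stmt) (r : ℕ) (hr : 10 ≤ r) (x : ℤ) (hx : 1 ≤ x) (m : ℕ)
    (F : ℤ → ℤ → ℤ → ℝ) :
    AA r x m F = cps r x m F + ∑ p ∈ oth0 r x m, AA r (x + jump p) (m - hl p) (inn x p F) +
      (AA r x (m - 1) (inn x lc F) + AA r x (m - 1) (inn x ld F) +
        AA r x (m - 4) (inn x tz F)) := by
  classical
  have h0 : AA r x m F = cps r x m F +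
      ∑ p ∈ allowed r x, AA r (x + jump p) (m - hl p) (inn x p F) := by
    unfold AA
    rw [KW.k2' r x (2 * m) hx (fun w => F (hgt w) (M41.Ar r w) (dbl 0 w))]
    rw [sum_congr rfl (fun p hp => step h r x m hx p hp F)]
    congr 1
    apply sum_congr rfl
    intro T hT
    rw [M41.Ar_cap KW.k2' r x (2 * m) hx T hT]
    simp
  rw [h0, add_assoc]
  congr 1
  have hz : ∀ p ∈ allowed r x, ¬ hl p ≤ m →
      AA r (x + jump p) (m - hl p) (inn x p F) = 0 := by
    intro p _ hpm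
    rw [show m - hl p = 0 by omega, AA_zero]
  rw [← Finset.sum_filter_add_sum_filter_not (allowed r x) (fun p => p ≠ lc ∧ p ≠ ld ∧ p ≠ tz)]
  congr 1
  · rw [← Finset.sum_filter_add_sum_filter_not ((allowed r x).filter
      (fun p => p ≠ lc ∧ p ≠ ld ∧ p ≠ tz)) (fun p => hl p ≤ m)]
    rw [Finset.filter_filter]
    have : ∑ p ∈ ((allowed r x).filter (fun p => p ≠ lc ∧ p ≠ ld ∧ p ≠ tz)).filter
        (fun p => ¬ hl p ≤ m), AA r (x + jump p) (m - hl p) (inn x p F) = 0 := by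
      apply sum_eq_zero
      intro p hp
      rw [mem_filter, mem_filter] at hp
      exact hz p hp.1.1 hp.2
    rw [this, add_zero]
    apply sum_congr _ (fun _ _ => rfl)
    unfold oth0
    ext p
    simp only [mem_filter]
  · have hset : (allowed r x).filter (fun p => ¬ (p ≠ lc ∧ p ≠ ld ∧ p ≠ tz)) = {lc, ld, tz} := by
      ext p
      rw [mem_filter, mem_insert, mem_insert, mem_singleton]
      constructor
      · rintro ⟨_, h3⟩
        by_contra hc
        push Not at hc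
        exact h3 hc
      · rintro (rfl | rfl | rfl)
        · exact ⟨lc_mem r hr x hx, fun hc => hc.1 rfl⟩
        · exact ⟨ld_mem r hr x hx, fun hc => hc.2.1 rfl⟩
        · exact ⟨tz_mem r hr x hx, fun hc => hc.2.2 rfl⟩
    rw [hset, sum_insert (by
      rw [mem_insert, mem_singleton]
      rintro (h3 | h3)
      · exact lc_ne_ld h3
      · exact lc_ne_tz h3), sum_pair ld_ne_tz]
    rw [lc_jump, ld_jump, tz_jump, lc_hl, ld_hl, tz_hl, add_zero]
    ring

/-- the recursion of the four states -/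
lemma St_step (h : HG_Stmt) (r : ℕ) (hr : 10 ≤ r) (x : ℤ) (hx : 1 ≤ x) (m j : ℕ)
    (F : ℤ → ℤ → ℤ → ℝ) :
    St r x m j F = cps r x m F + ∑ p ∈ oth0 r x m, AA r (x + jump p) (m - hl p) (inn x p F) +
      St r x (m - 1) (nx j) (inn x lc F) + (if j < 3 then AA r x (m - 1) (inn x ld F) else 0) +
      (AA r x (m - 4) (inn x tz F) +
        AA r x (m - 4) (inn x ld (inn x lc (inn x lc (inn x lc F))))) := by
  have h0 := AA_step h r hr x hx m F
  have e3 : m - 1 - 3 = m - 4 := by omega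
  have e2 : m - 1 - 2 = m - 3 := by omega
  have e1 : m - 1 - 1 = m - 2 := by omega
  match j with
  | 0 =>
    simp only [St, nx, e3]
    rw [if_pos (by norm_num)]
    linarith
  | 1 =>
    simp only [St, nx, e3, e2]
    rw [if_pos (by norm_num)]
    linarith
  | 2 =>
    simp only [St, nx, e3, e2, e1]
    rw [if_pos (by norm_num)]
    linarith
  | k + 3 =>
    simp only [St, nx, e3, e2, e1]
    rw [if_neg (by omega)]
    linarith

end Pool.Agent.NSP.SKZ
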