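import Pool.Agent.NSP.SKZa

/-!
Module SKZ, part 2: skeletons of the arches.
-/

set_option autoImplicit false

namespace Pool.Agent.NSP.SKZ

open Finset Filter Topology MeasureTheory
open Pool.Agent.Lib27 Pool.Agent.SapR Pool.Agent.Gap Pool.Agent.AreaLaw Pool.Agent.FL
open Pool.Agent.FS Pool.Agent.FS.SKEL

/-- value of a skeleton -/
noncomputable def ev0 (F : ℤ → ℤ → ℤ → ℝ) (a : Sk) : ℝ :=
  rs a.l (fun j t => F (a.H - j) (a.A - t) (a.L - t + dlt0 * j))

/-- the multiset `M` describes the functional of the state `j` for the arches of gap `x` with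
half length `m` -/
structure ASk0 (r : ℕ) (x : ℤ) (m j : ℕ) (M : Multiset Sk) : Prop where
  repr : ∀ F : ℤ → ℤ → ℤ → ℝ, St r x m j F = ms (ev0 F) M
  len_le : ∀ a ∈ M, a.l.length ≤ a.H
  H_le : ∀ a ∈ M, a.H ≤ m
  sum_le : ∀ a ∈ M, 4 * a.l.sum ≤ a.A
  A_le : ∀ a ∈ M, a.A ≤ 2 * m ^ 2
  count : ∀ s τ ρ : ℝ, 0 < s → 0 ≤ τ → 0 < ρ → ρ ≤ 1 / 2 →
    ∑ p ∈ Pc r, ρ ^ hl p * s ^ (hl p - htn p) ≤ 1 + (1 - τ) * (ρ ^ 4 * (1 + s)) →
    ρ ^ m * ms (fun a => s ^ (m - a.H) * ((1 + s) * τ) ^ a.l.length) M ≤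
      8 * vj j ρ * ∑ m' ∈ range (m + 1), cf r s ρ m'

/-- new token -/
def tok0 (x : ℤ) (a : Sk) : Sk :=
  ⟨(2 * x).toNat :: a.l, a.H + 4, a.A + 4 * (2 * x).toNat,
    a.L + (4 * (2 * x) + 3 * off lc + off ld)⟩

lemma ev0_shf (x : ℤ) (p : Wd × Wd) (F : ℤ → ℤ → ℤ → ℝ) (a : Sk)
    (h0 : 0 ≤ ht p * (2 * x + jump p)) : ev0 F (shf x p a) = ev0 (inn x p F) a := by
  unfold ev0 shf inn
  apply rs_congr
  intro j t _ _
  simp only [Nat.cast_add, Int.toNat_of_nonneg h0]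
  congr 1 <;> ring

lemma ev0_tok (x : ℤ) (F : ℤ → ℤ → ℤ → ℝ) (a : Sk) (hx : 1 ≤ x) :
    ev0 F (tok0 x a) = ev0 (inn x tz F) a +
      ev0 (inn x ld (inn x lc (inn x lc (inn x lc F)))) a := by
  have hy : (((2 * x).toNat : ℕ) : ℤ) = 2 * x := Int.toNat_of_nonneg (by omega)
  unfold ev0 tok0
  simp only [rs_cons]
  rw [add_comm]
  congr 1
  · apply rs_congr
    intro j t _ _
    unfold inn
    rw [tz_htn, tz_ht, tz_jump]
    push_cast
    rw [hy]
    unfold dlt0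
    congr 1 <;> ring
  · apply rs_congr
    intro j t _ _
    unfold inn
    rw [lc_htn, lc_ht, lc_jump, ld_htn, ld_ht, ld_jump]
    push_cast
    rw [hy]
    congr 1 <;> ring

/-- assembled multiset -/
noncomputable def asm0 (r : ℕ) (x : ℤ) (m j : ℕ) (N : ℤ → ℕ → ℕ → Multiset Sk) : Multiset Sk :=
  (CapSet r x (2 * m)).val.map capSk +
    ∑ p ∈ oth0 r x m, (N (x + jump p) (m - hl p) 0).map (shf x p) +
    (if 1 ≤ m then (N x (m - 1) (nx j)).map (shf x lc) else 0) +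
    (if 1 ≤ m ∧ j < 3 then (N x (m - 1) 0).map (shf x ld) else 0) +
    (if 4 ≤ m then (N x (m - 4) 0).map (tok0 x) else 0)

lemma mem_asm0 {r : ℕ} {x : ℤ} {m j : ℕ} {N : ℤ → ℕ → ℕ → Multiset Sk} {a : Sk}
    (h : a ∈ asm0 r x m j N) : (∃ T ∈ CapSet r x (2 * m), a = capSk T) ∨
      (∃ p ∈ oth0 r x m, ∃ b ∈ N (x + jump p) (m - hl p) 0, a = shf x p b) ∨
      (1 ≤ m ∧ ∃ b ∈ N x (m - 1) (nx j), a = shf x lc b) ∨
      (1 ≤ m ∧ ∃ b ∈ N x (m - 1) 0, a = shf x ld b) ∨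
      (4 ≤ m ∧ ∃ b ∈ N x (m - 4) 0, a = tok0 x b) := by
  unfold asm0 at h
  rw [Multiset.mem_add, Multiset.mem_add, Multiset.mem_add, Multiset.mem_add] at h
  rcases h with (((h | h) | h) | h) | h
  · left
    rw [Multiset.mem_map] at h
    obtain ⟨T, hT, rfl⟩ := h
    exact ⟨T, hT, rfl⟩
  · right; left
    rw [Multiset.mem_sum] at h
    obtain ⟨p, hp, h⟩ := h
    rw [Multiset.mem_map] at h
    obtain ⟨b, hb, rfl⟩ := h
    exact ⟨p, hp, b, hb, rfl⟩
  · right; right; left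
    split_ifs at h with h6
    · rw [Multiset.mem_map] at h
      obtain ⟨b, hb, rfl⟩ := h
      exact ⟨h6, b, hb, rfl⟩
    · simp at h
  · right; right; right; left
    split_ifs at h with h6
    · rw [Multiset.mem_map] at h
      obtain ⟨b, hb, rfl⟩ := h
      exact ⟨h6.1, b, hb, rfl⟩
    · simp at h
  · right; right; right; right
    split_ifs at h with h6
    · rw [Multiset.mem_map] at h
      obtain ⟨b, hb, rfl⟩ := h
      exact ⟨h6, b, hb, rfl⟩
    · simp at h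

lemma St_zero (r : ℕ) (x : ℤ) (j : ℕ) (F : ℤ → ℤ → ℤ → ℝ) : St r x 0 j F = 0 := by
  match j with
  | 0 => simp [St, AA_zero]
  | 1 => simp [St, AA_zero]
  | 2 => simp [St, AA_zero]
  | k + 3 => simp [St, AA_zero]

lemma shf_ms (r : ℕ) (x : ℤ) (p : Wd × Wd) (hp : p ∈ allowed r x) (F : ℤ → ℤ → ℤ → ℝ)
    (M : Multiset Sk) : ms (ev0 F) (M.map (shf x p)) = ms (ev0 (inn x p F)) M := by
  have hp1 := ((M41.mem_allowed _ _ _).1 hp)
  rw [ms_map]
  apply ms_congr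
  intro a _
  apply ev0_shf
  apply mul_nonneg
  · rw [KW.ht_eq hp1.1]; positivity
  · have := hp1.2.2.1
    omega

lemma asm0_repr (h : HG_Stmt) (r : ℕ) (hr : 10 ≤ r) (x : ℤ) (hx : 1 ≤ x) (m j : ℕ)
    (N : ℤ → ℕ → ℕ → Multiset Sk)
    (hN : ∀ (x' : ℤ) (m' j' : ℕ), 1 ≤ x' → m' < m → ASk0 r x' m' j' (N x' m' j'))
    (F : ℤ → ℤ → ℤ → ℝ) :
    St r x m j F = ms (ev0 F) (asm0 r x m j N) := by
  classical
  rw [St_step h r hr x hx m j F]
  unfold asm0
  rw [ms_add, ms_add, ms_add, ms_add, ms_val, ms_sum]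
  have e1 : cps r x m F = ∑ i ∈ CapSet r x (2 * m), ev0 F (capSk i) := by
    unfold cps
    apply sum_congr rfl
    intro T _
    unfold ev0 capSk
    simp
  have e2 : ∑ p ∈ oth0 r x m, AA r (x + jump p) (m - hl p) (inn x p F) =
      ∑ p ∈ oth0 r x m, ms (ev0 F) ((N (x + jump p) (m - hl p) 0).map (shf x p)) := by
    apply sum_congr rfl
    intro p hp
    unfold oth0 at hp
    rw [mem_filter] at hp
    have hp1 := ((M41.mem_allowed _ _ _).1 hp.1)
    have hlen := KW.len_hl hp1.1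
    have e := (hN (x + jump p) (m - hl p) 0 hp1.2.2.1 (by omega)).repr (inn x p F)
    rw [shf_ms r x p hp.1, ← e]
    rfl
  have e3 : St r x (m - 1) (nx j) (inn x lc F) =
      ms (ev0 F) (if 1 ≤ m then (N x (m - 1) (nx j)).map (shf x lc) else 0) := by
    split_ifs with h1
    · rw [shf_ms r x lc (lc_mem r hr x hx)]
      exact (hN x (m - 1) (nx j) hx (by omega)).repr _
    · rw [show m - 1 = 0 by omega, St_zero, ms_zero]
  have e4 : (if j < 3 then AA r x (m - 1) (inn x ld F) else 0) =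
      ms (ev0 F) (if 1 ≤ m ∧ j < 3 then (N x (m - 1) 0).map (shf x ld) else 0) := by
    by_cases hj : j < 3
    · rw [if_pos hj]
      by_cases h1 : 1 ≤ m
      · rw [if_pos ⟨h1, hj⟩, shf_ms r x ld (ld_mem r hr x hx)]
        exact (hN x (m - 1) 0 hx (by omega)).repr _
      · rw [if_neg (fun hc => h1 hc.1), show m - 1 = 0 by omega, AA_zero, ms_zero]
    · rw [if_neg hj, if_neg (fun hc => hj hc.2), ms_zero]
  have e5 : AA r x (m - 4) (inn x tz F) +
        AA r x (m - 4) (inn x ld (inn x lc (inn x lc (inn x lc F)))) =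
      ms (ev0 F) (if 4 ≤ m then (N x (m - 4) 0).map (tok0 x) else 0) := by
    split_ifs with h1
    · have e6 := (hN x (m - 4) 0 hx (by omega)).repr
      have e7 : ∀ G, AA r x (m - 4) G = ms (ev0 G) (N x (m - 4) 0) := fun G => e6 G
      rw [e7, e7, ms_map, ← ms_add_fun]
      apply ms_congr
      intro a _
      exact (ev0_tok x F a hx).symm
    · rw [show m - 4 = 0 by omega, AA_zero, AA_zero, ms_zero, add_zero]
  rw [e1, e2, e3, e4, e5]

lemma asm0_inv (h : HG_Stmt) (r : ℕ) (hr : 10 ≤ r) (x : ℤ) (hx : 1 ≤ x) (m j : ℕ)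
    (N : ℤ → ℕ → ℕ → Multiset Sk)
    (hN : ∀ (x' : ℤ) (m' j' : ℕ), 1 ≤ x' → m' < m → ASk0 r x' m' j' (N x' m' j')) :
    (∀ a ∈ asm0 r x m j N, a.l.length ≤ a.H) ∧ (∀ a ∈ asm0 r x m j N, a.H ≤ m) ∧
    (∀ a ∈ asm0 r x m j N, 4 * a.l.sum ≤ a.A) := by
  classical
  have hoth : ∀ p ∈ oth0 r x m, 1 ≤ x + jump p ∧ m - hl p < m ∧ hl p ≤ m ∧ htn p ≤ hl p := by
    intro p hp
    unfold oth0 at hp
    rw [mem_filter] at hp
    have hp1 := ((M41.mem_allowed _ _ _).1 hp.1)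
    have hlen := KW.len_hl hp1.1
    have h3 := h.2.2 r p hp1.1
    exact ⟨hp1.2.2.1, by omega, hp.2.2, h3.2⟩
  refine ⟨?_, ?_, ?_⟩
  · intro a ha
    rcases mem_asm0 ha with ⟨T, hT, rfl⟩ | ⟨p, hp, b, hb, rfl⟩ | ⟨h1, b, hb, rfl⟩ |
      ⟨h1, b, hb, rfl⟩ | ⟨h4, b, hb, rfl⟩
    · unfold capSk
      simp
    · have := (hN _ _ _ (hoth p hp).1 (hoth p hp).2.1).len_le b hb
      unfold shf
      simp only
      omega
    · have := (hN _ _ _ hx (show m - 1 < m by omega)).len_le b hb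
      unfold shf
      simp only
      omega
    · have := (hN _ _ _ hx (show m - 1 < m by omega)).len_le b hb
      unfold shf
      simp only
      omega
    · have := (hN _ _ _ hx (show m - 4 < m by omega)).len_le b hb
      unfold tok0
      simp only [List.length_cons]
      omega
  · intro a ha
    rcases mem_asm0 ha with ⟨T, hT, rfl⟩ | ⟨p, hp, b, hb, rfl⟩ | ⟨h1, b, hb, rfl⟩ |
      ⟨h1, b, hb, rfl⟩ | ⟨h4, b, hb, rfl⟩
    · unfold capSk
      simp only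
      have hT' := (M41.mem_CapSet _ _ _ _).1 hT
      have := h.2.1 x T hx hT'.2.1
      rw [hT'.1] at this
      omega
    · have h2 := (hN _ _ _ (hoth p hp).1 (hoth p hp).2.1).H_le b hb
      have h3 := hoth p hp
      unfold shf
      simp only
      omega
    · have := (hN _ _ _ hx (show m - 1 < m by omega)).H_le b hb
      unfold shf
      simp only [lc_htn]
      omega
    · have := (hN _ _ _ hx (show m - 1 < m by omega)).H_le b hb
      unfold shf
      simp only [ld_htn]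
      omega
    · have := (hN _ _ _ hx (show m - 4 < m by omega)).H_le b hb
      unfold tok0
      simp only
      omega
  · intro a ha
    rcases mem_asm0 ha with ⟨T, hT, rfl⟩ | ⟨p, hp, b, hb, rfl⟩ | ⟨h1, b, hb, rfl⟩ |
      ⟨h1, b, hb, rfl⟩ | ⟨h4, b, hb, rfl⟩
    · unfold capSk
      simp
    · have h2 := (hN _ _ _ (hoth p hp).1 (hoth p hp).2.1).sum_le b hb
      unfold shf
      simp only
      omega
    · have := (hN _ _ _ hx (show m - 1 < m by omega)).sum_le b hb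
      unfold shf
      simp only
      omega
    · have := (hN _ _ _ hx (show m - 1 < m by omega)).sum_le b hb
      unfold shf
      simp only
      omega
    · have := (hN _ _ _ hx (show m - 4 < m by omega)).sum_le b hb
      unfold tok0
      simp only [List.sum_cons]
      omega

lemma St_le (r : ℕ) (x : ℤ) (m j : ℕ) (F : ℤ → ℤ → ℤ → ℝ) (hF : ∀ a b c, 0 ≤ F a b c) :
    St r x m j F ≤ AA r x m F := by
  have h1 := AA_nonneg r x (m - 3) (inn x ld (inn x lc (inn x lc F))) (fun _ _ _ => hF _ _ _)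
  have h2 := AA_nonneg r x (m - 2) (inn x ld (inn x lc F)) (fun _ _ _ => hF _ _ _)
  have h3 := AA_nonneg r x (m - 1) (inn x ld F) (fun _ _ _ => hF _ _ _)
  match j with
  | 0 => simp [St]
  | 1 => simp only [St]; linarith
  | 2 => simp only [St]; linarith
  | k + 3 => simp only [St]; linarith

lemma ASk0.nonempty {r : ℕ} {x : ℤ} {m j : ℕ} {M : Multiset Sk} (h : ASk0 r x m j M) {a : Sk}
    (ha : a ∈ M) : (ArchSet r x (2 * m)).Nonempty := by
  have h1 := h.repr (fun _ _ _ => 1)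
  have h2 : ∀ b : Sk, 1 ≤ ev0 (fun _ _ _ => 1) b := by
    intro b
    unfold ev0
    exact rs_ge_zero b.l (fun _ _ => 1) (fun _ _ _ _ => zero_le_one)
  have h3 : 1 ≤ ms (ev0 (fun _ _ _ => 1)) M := by
    obtain ⟨M', rfl⟩ := Multiset.exists_cons_of_mem ha
    unfold ms
    rw [Multiset.map_cons, Multiset.sum_cons]
    have h4 : 0 ≤ (M'.map (ev0 (fun _ _ _ => 1))).sum := by
      apply Multiset.sum_nonneg
      intro y hy
      rw [Multiset.mem_map] at hy
      obtain ⟨b, _, rfl⟩ := hy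
      linarith [h2 b]
    linarith [h2 a]
  have h5 := St_le r x m j (fun _ _ _ => 1) (fun _ _ _ => zero_le_one)
  by_contra hc
  rw [Finset.not_nonempty_iff_eq_empty] at hc
  unfold AA at h5
  rw [hc, Finset.sum_empty] at h5
  linarith

lemma arith (m k hh : ℕ) (z : ℤ) (A : ℕ) (g1 : hh ≤ k) (g2 : 1 ≤ k) (g3 : k ≤ m)
    (g4 : z ≤ 2 * (m : ℤ) - k) (g5 : A ≤ 2 * (m - k) ^ 2) :
    A + ((hh : ℤ) * z).toNat ≤ 2 * m ^ 2 := by
  have e1 : ((hh : ℤ) * z).toNat ≤ k * (2 * m - k) := by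
    rw [Int.toNat_le]
    have e2 : ((k * (2 * m - k) : ℕ) : ℤ) = (k : ℤ) * (2 * m - k) := by
      rw [Nat.cast_mul, Nat.cast_sub (by omega)]
      push_cast
      ring
    rw [e2]
    have e3 : (hh : ℤ) * z ≤ (hh : ℤ) * (2 * m - k) :=
      mul_le_mul_of_nonneg_left g4 (by positivity)
    have e4 : (hh : ℤ) * (2 * m - k) ≤ (k : ℤ) * (2 * m - k) :=
      mul_le_mul_of_nonneg_right (by exact_mod_cast g1) (by omega)
    linarith
  obtain ⟨d, rfl⟩ := Nat.exists_eq_add_of_le g3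
  have e5 : k + d - k = d := by omega
  have e6 : 2 * (k + d) - k = k + 2 * d := by omega
  rw [e5] at g5
  rw [e6] at e1
  nlinarith

lemma shf_A_le (h : HG_Stmt) (r : ℕ) (x : ℤ) (hx : 1 ≤ x) (m j : ℕ) (p : Wd × Wd)
    (hp : p ∈ allowed r x) (hpm : hl p ≤ m) (M : Multiset Sk)
    (hM : ASk0 r (x + jump p) (m - hl p) j M) (b : Sk) (hb : b ∈ M) :
    (shf x p b).A ≤ 2 * m ^ 2 := by
  have hp1 := ((M41.mem_allowed _ _ _).1 hp)
  have h2 := hM.nonempty hb
  have h3 := gap_le hp1.2.2.1 h2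
  have h4 := gap_le hx (glue_nonempty hx hp hpm h2)
  rw [Nat.cast_sub hpm] at h3
  have h5 := hM.A_le b hb
  have hlen := KW.len_hl hp1.1
  have h6 := h.2.2 r p hp1.1
  unfold shf
  simp only
  rw [KW.ht_eq hp1.1]
  exact arith m (hl p) (htn p) (2 * x + jump p) b.A h6.2 hlen.2.1 hpm (by linarith) h5

lemma asm0_A (h : HG_Stmt) (r : ℕ) (hr : 10 ≤ r) (x : ℤ) (hx : 1 ≤ x) (m j : ℕ)
    (N : ℤ → ℕ → ℕ → Multiset Sk)
    (hN : ∀ (x' : ℤ) (m' j' : ℕ), 1 ≤ x' → m' < m → ASk0 r x' m' j' (N x' m' j')) :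
    ∀ a ∈ asm0 r x m j N, a.A ≤ 2 * m ^ 2 := by
  classical
  intro a ha
  rcases mem_asm0 ha with ⟨T, hT, rfl⟩ | ⟨p, hp, b, hb, rfl⟩ | ⟨h1, b, hb, rfl⟩ |
    ⟨h1, b, hb, rfl⟩ | ⟨h4, b, hb, rfl⟩
  · unfold capSk
    simp
  · unfold oth0 at hp
    rw [mem_filter] at hp
    have hp1 := ((M41.mem_allowed _ _ _).1 hp.1)
    have hlen := KW.len_hl hp1.1
    exact shf_A_le h r x hx m 0 p hp.1 hp.2.2 _ (hN _ _ _ hp1.2.2.1 (by omega)) b hb
  · refine shf_A_le h r x hx m (nx j) lc (lc_mem r hr x hx) (by rw [lc_hl]; exact h1)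
      (N x (m - 1) (nx j)) ?_ b hb
    rw [lc_jump, lc_hl, add_zero]
    exact hN _ _ _ hx (by omega)
  · refine shf_A_le h r x hx m 0 ld (ld_mem r hr x hx) (by rw [ld_hl]; exact h1)
      (N x (m - 1) 0) ?_ b hb
    rw [ld_jump, ld_hl, add_zero]
    exact hN _ _ _ hx (by omega)
  · have h5 := hN x (m - 4) 0 hx (by omega)
    have h6 := gap_le hx (h5.nonempty hb)
    rw [Nat.cast_sub h4] at h6
    push_cast at h6
    have h7 := h5.A_le b hb
    have := arith m 4 4 (2 * x) b.A le_rfl (by norm_num) h4 (by push_cast; linarith) h7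
    unfold tok0
    simp only
    have e : ((4 : ℕ) : ℤ) * (2 * x) = ((4 * (2 * x).toNat : ℕ) : ℤ) := by
      push_cast
      rw [Int.toNat_of_nonneg (by omega)]
    rw [e, Int.toNat_natCast] at this
    exact this

end Pool.Agent.NSP.SKZ
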