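import Pool.Agent.NSP.SKZb

/-!
Module SKZ, part 3: the weighted count of the skeletons of the arches.
-/

set_option autoImplicit false

namespace Pool.Agent.NSP.SKZ

open Finset Filter Topology MeasureTheory
open Pool.Agent.Lib27 Pool.Agent.SapR Pool.Agent.Gap Pool.Agent.AreaLaw Pool.Agent.FL
open Pool.Agent.FS Pool.Agent.FS.SKEL

/-- one shifted multiset -/
lemma shf_count (h : HG_Stmt) (r : ℕ) (x : ℤ) (m j : ℕ) (p : Wd × Wd)
    (hp : p ∈ allowed r x) (hpm : hl p ≤ m) (M : Multiset Sk)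
    (hM : ASk0 r (x + jump p) (m - hl p) j M)
    (s τ ρ : ℝ) (hs : 0 < s) (hτ : 0 ≤ τ) (hρ : 0 < ρ) (hρ2 : ρ ≤ 1 / 2)
    (hyp : ∑ p ∈ Pc r, ρ ^ hl p * s ^ (hl p - htn p) ≤ 1 + (1 - τ) * (ρ ^ 4 * (1 + s))) :
    ρ ^ m * ms (fun a => s ^ (m - a.H) * ((1 + s) * τ) ^ a.l.length) (M.map (shf x p)) ≤
      ρ ^ hl p * s ^ (hl p - htn p) * (8 * vj j ρ * ∑ m' ∈ range m, cf r s ρ m') := by
  have hc0 : ∀ m', 0 ≤ cf r s ρ m' := fun m' => cf_nonneg r s ρ m' hs hρ
  have hp1 := ((M41.mem_allowed _ _ _).1 hp).1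
  have hlen := KW.len_hl hp1
  have h3 := h.2.2 r p hp1
  have hv := vj_ge j ρ hρ hρ2
  have hinner : ρ ^ (m - hl p) * ms (fun a => s ^ (m - hl p - a.H) *
      ((1 + s) * τ) ^ a.l.length) M ≤ 8 * vj j ρ * ∑ m' ∈ range m, cf r s ρ m' := by
    refine (hM.count s τ ρ hs hτ hρ hρ2 hyp).trans ?_
    refine mul_le_mul_of_nonneg_left ?_ (by linarith)
    apply Finset.sum_le_sum_of_subset_of_nonneg
    · intro a ha
      rw [mem_range] at *
      omega
    · intro a _ _
      exact hc0 a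
  rw [ms_map]
  have e1 : ms (fun a => s ^ (m - (shf x p a).H) * ((1 + s) * τ) ^ (shf x p a).l.length) M =
      s ^ (hl p - htn p) *
        ms (fun a => s ^ (m - hl p - a.H) * ((1 + s) * τ) ^ a.l.length) M := by
    rw [← ms_mul]
    apply ms_congr
    intro a ha
    have h4 := hM.H_le a ha
    unfold shf
    simp only
    rw [← mul_assoc, ← pow_add]
    congr 2
    omega
  rw [e1]
  have e2 : ρ ^ m = ρ ^ hl p * ρ ^ (m - hl p) := by
    rw [← pow_add]; congr 1; omega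
  rw [e2]
  have e3 := mul_le_mul_of_nonneg_left hinner
    (show 0 ≤ ρ ^ hl p * s ^ (hl p - htn p) by positivity)
  refine le_trans (le_of_eq ?_) e3
  ring

/-- the computation for the values `v_j` -/
lemma vj_rec (j : ℕ) (s τ ρ W : ℝ) (hW : W ≤ 1 + (1 - τ) * (ρ ^ 4 * (1 + s))) :
    (W - 2 * ρ - ρ ^ 4 * s) + ρ * vj (nx j) ρ + (if j < 3 then ρ else 0) +
      ρ ^ 4 * ((1 + s) * τ) ≤ vj j ρ := by
  match j with
  | 0 =>
    simp only [vj, nx]
    rw [if_pos (by norm_num)]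
    nlinarith
  | 1 =>
    simp only [vj, nx]
    rw [if_pos (by norm_num)]
    nlinarith
  | 2 =>
    simp only [vj, nx]
    rw [if_pos (by norm_num)]
    nlinarith
  | k + 3 =>
    simp only [vj, nx]
    rw [if_neg (by omega)]
    nlinarith

lemma asm0_count (h : HG_Stmt) (r : ℕ) (hr : 10 ≤ r) (x : ℤ) (hx : 1 ≤ x) (m j : ℕ)
    (N : ℤ → ℕ → ℕ → Multiset Sk)
    (hN : ∀ (x' : ℤ) (m' j' : ℕ), 1 ≤ x' → m' < m → ASk0 r x' m' j' (N x' m' j'))
    (s τ ρ : ℝ) (hs : 0 < s) (hτ : 0 ≤ τ) (hρ : 0 < ρ) (hρ2 : ρ ≤ 1 / 2)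
    (hyp : ∑ p ∈ Pc r, ρ ^ hl p * s ^ (hl p - htn p) ≤ 1 + (1 - τ) * (ρ ^ 4 * (1 + s))) :
    ρ ^ m * ms (fun a => s ^ (m - a.H) * ((1 + s) * τ) ^ a.l.length) (asm0 r x m j N) ≤
      8 * vj j ρ * ∑ m' ∈ range (m + 1), cf r s ρ m' := by
  classical
  have hc := lc_mem r hr x hx
  have hd := ld_mem r hr x hx
  have ht := tz_mem r hr x hx
  have hc0 : ∀ m', 0 ≤ cf r s ρ m' := fun m' => cf_nonneg r s ρ m' hs hρ
  set K : ℝ := ∑ m' ∈ range m, cf r s ρ m' with hK
  have hK0 : 0 ≤ K := Finset.sum_nonneg fun m' _ => hc0 m'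
  have hv0 : vj 0 ρ = 1 := rfl
  -- caps
  have hcap : ρ ^ m * ms (fun a => s ^ (m - a.H) * ((1 + s) * τ) ^ a.l.length)
      ((CapSet r x (2 * m)).val.map capSk) ≤ cf r s ρ m := by
    rw [ms_val, Finset.mul_sum]
    unfold capSk
    simp only [List.length_nil, pow_zero, mul_one]
    unfold cf
    by_cases hxm : x ≤ m
    · exact Finset.single_le_sum (f := fun x : ℤ => ∑ T ∈ CapSet r x (2 * m),
        ρ ^ m * s ^ (m - hgt T)) (fun x _ => Finset.sum_nonneg fun T _ => by positivity)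
        (mem_Icc.2 ⟨hx, hxm⟩)
    · rw [M41.CapSet_empty H66.k5cap r x (2 * m) hx (by push_cast; omega), Finset.sum_empty]
      exact Finset.sum_nonneg fun x _ => Finset.sum_nonneg fun T _ => by positivity
  -- other pieces
  have hoth : ∀ p ∈ oth0 r x m, ρ ^ m * ms (fun a => s ^ (m - a.H) * ((1 + s) * τ) ^ a.l.length)
      ((N (x + jump p) (m - hl p) 0).map (shf x p)) ≤
        ρ ^ hl p * s ^ (hl p - htn p) * (8 * K) := by
    intro p hp
    unfold oth0 at hp
    rw [mem_filter] at hp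
    have hp1 := ((M41.mem_allowed _ _ _).1 hp.1)
    have hlen := KW.len_hl hp1.1
    have := shf_count h r x m 0 p hp.1 hp.2.2 _ (hN _ _ _ hp1.2.2.1 (by omega)) s τ ρ hs hτ hρ
      hρ2 hyp
    rw [hv0, mul_one] at this
    exact this
  -- letter c
  have hlc : ρ ^ m * ms (fun a => s ^ (m - a.H) * ((1 + s) * τ) ^ a.l.length)
      (if 1 ≤ m then (N x (m - 1) (nx j)).map (shf x lc) else 0) ≤
        ρ * (8 * vj (nx j) ρ * K) := by
    split_ifs with h1
    · have := shf_count h r x m (nx j) lc hc (by rw [lc_hl]; exact h1) (N x (m - 1) (nx j)) (by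
        rw [lc_jump, lc_hl, add_zero]
        exact hN _ _ _ hx (by omega)) s τ ρ hs hτ hρ hρ2 hyp
      rw [lc_hl, lc_htn, Nat.sub_self, pow_zero, pow_one, mul_one] at this
      exact this
    · rw [ms_zero, mul_zero]
      have := vj_ge (nx j) ρ hρ hρ2
      have h8 : 0 ≤ 8 * vj (nx j) ρ := by linarith
      exact mul_nonneg hρ.le (mul_nonneg h8 hK0)
  -- letter d
  have hld : ρ ^ m * ms (fun a => s ^ (m - a.H) * ((1 + s) * τ) ^ a.l.length)
      (if 1 ≤ m ∧ j < 3 then (N x (m - 1) 0).map (shf x ld) else 0) ≤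
        (if j < 3 then ρ else 0) * (8 * K) := by
    by_cases hj : j < 3
    · rw [if_pos hj]
      by_cases h1 : 1 ≤ m
      · rw [if_pos ⟨h1, hj⟩]
        have := shf_count h r x m 0 ld hd (by rw [ld_hl]; exact h1) (N x (m - 1) 0) (by
          rw [ld_jump, ld_hl, add_zero]
          exact hN _ _ _ hx (by omega)) s τ ρ hs hτ hρ hρ2 hyp
        rw [ld_hl, ld_htn, Nat.sub_self, pow_zero, pow_one, mul_one, hv0, mul_one] at this
        exact this
      · rw [if_neg (fun hc => h1 hc.1), ms_zero, mul_zero]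
        positivity
    · rw [if_neg hj, if_neg (fun hc => hj hc.2), ms_zero, mul_zero, zero_mul]
  -- tokens
  have htok : ρ ^ m * ms (fun a => s ^ (m - a.H) * ((1 + s) * τ) ^ a.l.length)
      (if 4 ≤ m then (N x (m - 4) 0).map (tok0 x) else 0) ≤
        ρ ^ 4 * ((1 + s) * τ) * (8 * K) := by
    split_ifs with h4
    · have hN1 := hN x (m - 4) 0 hx (by omega)
      have hi := hN1.count s τ ρ hs hτ hρ hρ2 hyp
      have hi2 : ρ ^ (m - 4) * ms (fun a => s ^ (m - 4 - a.H) *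
          ((1 + s) * τ) ^ a.l.length) (N x (m - 4) 0) ≤ 8 * K := by
        refine hi.trans ?_
        rw [hv0, mul_one]
        refine mul_le_mul_of_nonneg_left ?_ (by norm_num)
        apply Finset.sum_le_sum_of_subset_of_nonneg
        · intro a ha
          rw [mem_range] at *
          omega
        · intro a _ _
          exact hc0 a
      rw [ms_map]
      have e1 : ms (fun a => s ^ (m - (tok0 x a).H) * ((1 + s) * τ) ^ (tok0 x a).l.length)
          (N x (m - 4) 0) = ((1 + s) * τ) *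
            ms (fun a => s ^ (m - 4 - a.H) * ((1 + s) * τ) ^ a.l.length) (N x (m - 4) 0) := by
        rw [← ms_mul]
        apply ms_congr
        intro a ha
        have h5 := hN1.H_le a ha
        unfold tok0
        simp only [List.length_cons]
        rw [show m - (a.H + 4) = m - 4 - a.H by omega, pow_succ]
        ring
      rw [e1]
      have e2 : ρ ^ m = ρ ^ 4 * ρ ^ (m - 4) := by
        rw [← pow_add]; congr 1; omega
      rw [e2]
      have e3 := mul_le_mul_of_nonneg_left hi2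
        (show 0 ≤ ρ ^ 4 * ((1 + s) * τ) by positivity)
      refine le_trans (le_of_eq ?_) e3
      ring
    · rw [ms_zero, mul_zero]
      positivity
  -- total weight
  have hW : ∑ p ∈ oth0 r x m, ρ ^ hl p * s ^ (hl p - htn p) ≤
      (∑ p ∈ Pc r, ρ ^ hl p * s ^ (hl p - htn p)) - 2 * ρ - ρ ^ 4 * s := by
    have hPc := ((M41.mem_allowed _ _ _).1 hc).1
    have hPd := ((M41.mem_allowed _ _ _).1 hd).1
    have hPt := ((M41.mem_allowed _ _ _).1 ht).1
    have e1 : ∑ p ∈ oth0 r x m, ρ ^ hl p * s ^ (hl p - htn p) ≤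
        ∑ p ∈ (Pc r).filter (fun p => ¬ (p = lc ∨ p = ld ∨ p = tz)),
          ρ ^ hl p * s ^ (hl p - htn p) := by
      apply Finset.sum_le_sum_of_subset_of_nonneg
      · intro p hp
        unfold oth0 at hp
        rw [mem_filter] at hp
        rw [mem_filter]
        refine ⟨((M41.mem_allowed _ _ _).1 hp.1).1, ?_⟩
        rintro (h5 | h5 | h5)
        · exact hp.2.1.1 h5
        · exact hp.2.1.2.1 h5
        · exact hp.2.1.2.2 h5
      · intro p _ _
        positivity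
    have e2 := Finset.sum_filter_add_sum_filter_not (Pc r) (fun p => p = lc ∨ p = ld ∨ p = tz)
      (fun p => ρ ^ hl p * s ^ (hl p - htn p))
    have e3 : (Pc r).filter (fun p => p = lc ∨ p = ld ∨ p = tz) = {lc, ld, tz} := by
      ext p
      rw [mem_filter, mem_insert, mem_insert, mem_singleton]
      constructor
      · exact fun h => h.2
      · rintro (rfl | rfl | rfl)
        · exact ⟨hPc, Or.inl rfl⟩
        · exact ⟨hPd, Or.inr (Or.inl rfl)⟩
        · exact ⟨hPt, Or.inr (Or.inr rfl)⟩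
    rw [e3, sum_insert (by
      rw [mem_insert, mem_singleton]
      rintro (h3 | h3)
      · exact lc_ne_ld h3
      · exact lc_ne_tz h3), sum_pair ld_ne_tz, lc_hl, ld_hl, tz_hl, lc_htn, ld_htn,
      tz_htn] at e2
    rw [show (4 : ℕ) - 3 = 1 from rfl, Nat.sub_self, pow_zero, pow_one, pow_one, mul_one] at e2
    linarith
  have htot : ρ ^ m * ms (fun a => s ^ (m - a.H) * ((1 + s) * τ) ^ a.l.length)
      (asm0 r x m j N) =
      ρ ^ m * ms (fun a => s ^ (m - a.H) * ((1 + s) * τ) ^ a.l.length)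
        ((CapSet r x (2 * m)).val.map capSk) +
      ∑ p ∈ oth0 r x m, ρ ^ m * ms (fun a => s ^ (m - a.H) * ((1 + s) * τ) ^ a.l.length)
        ((N (x + jump p) (m - hl p) 0).map (shf x p)) +
      ρ ^ m * ms (fun a => s ^ (m - a.H) * ((1 + s) * τ) ^ a.l.length)
        (if 1 ≤ m then (N x (m - 1) (nx j)).map (shf x lc) else 0) +
      ρ ^ m * ms (fun a => s ^ (m - a.H) * ((1 + s) * τ) ^ a.l.length)
        (if 1 ≤ m ∧ j < 3 then (N x (m - 1) 0).map (shf x ld) else 0) +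
      ρ ^ m * ms (fun a => s ^ (m - a.H) * ((1 + s) * τ) ^ a.l.length)
        (if 4 ≤ m then (N x (m - 4) 0).map (tok0 x) else 0) := by
    unfold asm0
    rw [ms_add, ms_add, ms_add, ms_add, ms_sum, mul_add, mul_add, mul_add, mul_add, mul_sum]
  rw [htot, Finset.sum_range_succ]
  have e4 := Finset.sum_le_sum hoth
  rw [← Finset.sum_mul] at e4
  have hrec := vj_rec j s τ ρ _ hyp
  have h8K : 0 ≤ 8 * K := by linarith
  have e5 := mul_le_mul_of_nonneg_right hW h8K
  have e6 := mul_le_mul_of_nonneg_right hrec h8K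
  have hv := vj_ge j ρ hρ hρ2
  have e7 : cf r s ρ m ≤ 8 * vj j ρ * cf r s ρ m := by
    have := mul_le_mul_of_nonneg_right hv (hc0 m)
    linarith
  have e8 : 8 * vj j ρ * (K + cf r s ρ m) = vj j ρ * (8 * K) + 8 * vj j ρ * cf r s ρ m := by ring
  rw [e8]
  have e9 : ρ * (8 * vj (nx j) ρ * K) = ρ * vj (nx j) ρ * (8 * K) := by ring
  rw [e9] at hlc
  rw [add_mul, add_mul, add_mul] at e6
  linarith

/-- skeletons of arches, all states -/
theorem ars0 (h : HG_Stmt) (r : ℕ) (hr : 10 ≤ r) (m : ℕ) : ∀ (x : ℤ) (j : ℕ), 1 ≤ x →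
    ∃ M : Multiset Sk, ASk0 r x m j M := by
  classical
  induction m using Nat.strong_induction_on with
  | _ m ih =>
    intro x j hx
    have hex : ∀ (x' : ℤ) (m' j' : ℕ), ∃ M : Multiset Sk, 1 ≤ x' → m' < m →
        ASk0 r x' m' j' M := by
      intro x' m' j'
      by_cases hc : 1 ≤ x' ∧ m' < m
      · obtain ⟨M, hM⟩ := ih m' hc.2 x' j' hc.1
        exact ⟨M, fun _ _ => hM⟩
      · exact ⟨0, fun h1 h2 => absurd ⟨h1, h2⟩ hc⟩
    choose N hN using hex
    obtain ⟨i1, i2, i3⟩ := asm0_inv h r hr x hx m j N hN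
    exact ⟨asm0 r x m j N, asm0_repr h r hr x hx m j N hN, i1, i2, i3,
      asm0_A h r hr x hx m j N hN,
      fun s τ ρ hs hτ hρ hρ2 hyp => asm0_count h r hr x hx m j N hN s τ ρ hs hτ hρ hρ2 hyp⟩

end Pool.Agent.NSP.SKZ
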