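import Pool.Agent.NSP.Defs
import Pool.Agent.Lib_helper74.FS.Final

/-!
# Project NSP (MP_f6626d_co): polygons with span close to the half perimeter, statements

THEOREM (`FINB_Stmt`): there is `e n → 0` such that the area law holds for the uniform
self-avoiding polygons of perimeter `2n` with span exactly (at least) `h n`, for all `h` with
`e n * n ≤ h n ≤ n`. The old hand-in `AreaLawEverySpan` (`OLD_Stmt` here) needs `h n ≤ (1 - e n) n`.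

METHOD: that of `Lib_helper74/FS` (its `PAPER.md` and files) for weights `s = exp (-f) → 0` with
`s n ≥ 1`; the number of defects `n - span` has mean and variance of order `s n`. New tokens: the
word `c c c d` of four staircase pieces against the piece `tz` with one defect; given the skeleton
the number of tokens of the second kind is binomial with parameter `s / (1 + s)`. Every doc string
contains the proof; constants are absolute.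
-/

set_option autoImplicit false

namespace Pool.Agent.NSP

open Finset Filter Topology MeasureTheory
open Pool.Agent.Lib27 Pool.Agent.SapR Pool.Agent.Gap Pool.Agent.AreaLaw Pool.Agent.FL
open Pool.Agent.FS

/-! ### Pieces and critical weights for small `s` -/

/-- TAZ (from HG): pieces of half length `m ≥ 2` have small weight. PROOF. Half length `1`: `htn = 1` (HG) and
there are four of them (`M41.PcT_one`, `FL.KW`). Let `p = (U, D)` be in `Pc r`, `h = htn p`, `m = hl p`. By `Irred`, for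
every level `k` strictly between `0` and `h` the two strands have together at least three vertices at
level `k` (each has at least one), and only the start and the end of a strand have level `0` or `h`
(`StripPair`); counting the inner vertices, `2 m - 2 ≥ 3 (h - 1)`. So the number of defects `δ = m - h`
satisfies `3 δ ≥ m - 1`, and `δ ≥ 1` if `m ≥ 2`. The number of pairs of words with `|U| + |D| = 2 m` is at most
`(2 m + 1) 16^m`. With `ρ ≤ 1/4` and `s ≤ s0 = 2^-18`, `ρ^m s^δ ≤ 4^-m s s0^((m-4)/3)`: the sum is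
`≤ C (2m+1) 4^m 64^-m s ≤ C' s / 8^m`. (Any smaller `s0` is allowed.) -/
def TAZ_Stmt : Prop := (∀ (n : ℕ) (s ρ : ℝ), 2 ≤ n →
    ∑ p ∈ (Pc (2 * n - 1)).filter (fun p => hl p = 1), ρ ^ hl p * s ^ (hl p - htn p) = 4 * ρ) ∧
  ∃ C s0 : ℝ, 0 < C ∧ 0 < s0 ∧ s0 ≤ 1 / 4 ∧
    ∀ (n : ℕ) (s ρ : ℝ), 2 ≤ n → 0 < s → s ≤ s0 → 0 < ρ → ρ ≤ 1 / 4 → ∀ m : ℕ, 2 ≤ m →
      ∑ p ∈ (Pc (2 * n - 1)).filter (fun p => hl p = m), ρ ^ hl p * s ^ (hl p - htn p) ≤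
        C * s / 8 ^ m

/-- RHOZ (from TAZ, HG): the critical weight `ρ(s)` for small `s`. PROOF. `ρ ≤ 1/4`, since the sum over
the pieces is strictly increasing in `ρ` and at `ρ = 1/4` the pieces of half length `1` alone give `1`;
then `4 ρ + ∑_{m ≥ 2} (..) = 1` gives (a). For two weights put `p_i = ρ^m_i s^δ_i` (`∑ p_i = 1`), `s' = s e^u`,
`a = log(ρ'/ρ)`: `∑ p_i exp(a m_i + u δ_i) = 1`. (b) `u ≥ 0`: `a ≤ 0`, and `1 ≤ exp(a) ∑ p_i exp(u δ_i) ≤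
exp(a) (1 + C u s)` (TAZ at `(s, ρ)`: `∑_{m ≥ 2} p_i (exp(u δ_i) - 1) ≤ C u s`, as `δ_i ≤ m_i`, `e < 8`), so `|a| ≤ C s u`;
`u < 0`: exchange `s` and `s' ≤ s`. (c) `u = -1`: `1 = ∑ p_i exp(a m_i - δ_i)`, `0 ≤ a ≤ C s0`;
`∑ p_i exp(a m_i) ≤ 1 + C a` and the piece `tz` (in `Pc (2n-1)` for `n ≥ 6`) has `δ = 1`, `p = ρ^4 s ≥ s/8^4`, so
`1 ≤ 1 + C a - (1 - 1/e) s / 8^4`. (d) For `±u`, `a₊`, `a₋` the logarithms: `0 = ∑ p_i (exp(x_i) - 1)`,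
`x_i = a₊ m_i + u δ_i`, so `|∑ p_i x_i| ≤ ∑ p_i x_i^2 exp|x_i| ≤ C s u^2` (for `m = 1`: `x = a₊ = O(s u)`; for `m ≥ 2` TAZ,
`|x_i| ≤ (1 + C s0) |u| m_i`, `C s0 ≤ 1/2`, `exp(3/2) < 8`); the same for `-u`; add: `(a₊ + a₋) ∑ p_i m_i` is
`O(s u^2)`, and `∑ p_i m_i ≥ 1`. -/
def RHOZ_Stmt : Prop := ∃ C c s0 : ℝ, 0 < C ∧ 0 < c ∧ 0 < s0 ∧ s0 ≤ 1 / 4 ∧
  ∀ (n : ℕ) (s ρ : ℝ), 6 ≤ n → 0 < s → s ≤ s0 → Crit n s ρ →
    1 / 4 - C * s ≤ ρ ∧ ρ ≤ 1 / 4 ∧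
    (∀ u ρ' : ℝ, |u| ≤ 1 → Crit n (s * Real.exp u) ρ' → |Real.log (ρ' / ρ)| ≤ C * s * |u|) ∧
    (∀ ρ' : ℝ, Crit n (s * Real.exp (-1)) ρ' → c * s ≤ Real.log (ρ' / ρ)) ∧
    ∀ u ρ₁ ρ₂ : ℝ, |u| ≤ 1 → Crit n (s * Real.exp u) ρ₁ → Crit n (s * Real.exp (-u)) ρ₂ →
      |Real.log (ρ₁ / ρ) + Real.log (ρ₂ / ρ)| ≤ C * s * u ^ 2

/-! ### Local regularity -/

/-- SKZ: the skeletons (from HG and the old K2, K4, K5 as in `FS/Arch*.lean`, `FS/SKEL.lean`).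
PROOF. For a functional `F` let `A(x, m; F) = ∑_{w ∈ ArchSet r x (2m)} F (hgt w) (Ar r w) (dbl 0 w)`
and `[p] A (x, m; F) = A(x + jump p, m - hl p; inn x p F)` (`FS.SKEL.inn`), so by K2
`A = caps + ∑_{p allowed} [p] A` (`FS.SKEL.step`). The four states: `A_0 = A`,
`A_1 = A - [c][c][d]A`, `A_2 = A_1 - [c][d]A`, `A_3 = A_2 - [d]A`. They satisfy, for `j = 0, 1, 2, 3`,
`A_j = caps + ∑_{p ≠ c, d, tz} [p] A_0 + [c] A_(min (j+1) 3) + (if j < 3 then [d] A_0) + ([tz] A_0 + [c][c][c][d] A_0)`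
(insert the definitions). `c, d, tz` are allowed at every gap `x ≥ 1`, `jump = 0`; `A_j` with
negative half length is `0`. By strong induction on `m` (all `x ≥ 1`, all `j`) there is a multiset
`M_j` of skeletons with `ms (ev F) M_j = A_j(x, m; F)` for all `F` (`ev` with `dlt0`): put together
`capSk`, `shf x p` (`FS/Arch.lean`) and for the last bracket the token
`tok0 x a = ⟨2 x :: a.l, a.H + 4, a.A + 4 (2 x), a.L + 4 (2 x) + 3 off c + off d⟩` for `a` in `M_0(x, m - 4)`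
(compare `FS.SKEL.ev_tok`). The invariants (`len_le`, `H_le`, `sum_le`, `A_le`) as in `FS/Arch2, Arch3`.
COUNT: let `W = ∑_{p ∈ Pc} ρ^hl s^(hl - htn)`, `V_j(x, m) = ρ^m ms (s^(m-H) ((1+s) τ)^length) M_j`,
`v_0 = 1`, `v_1 = 1 - ρ^3`, `v_2 = v_1 - ρ^2`, `v_3 = v_2 - ρ ≥ 1/8` (`ρ ≤ 1/2`). From the recursion and
`W ≤ 1 + (1-τ) ρ^4 (1+s)`: `(W - 2ρ - ρ^4 s) v_0 + ρ v_(min (j+1) 3) + [j < 3] ρ v_0 + ρ^4 (1+s) τ v_0 ≤ v_j` (equality of the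
parts by the same computation as above), so by induction `V_j(x, m) ≤ 8 v_j ∑_{m' ≤ m} cf m'` (`FS.SKEL.cf`).
The polygons: `FS/SKEL.lean` (bottom cap times arch), the factor `8` appears once. -/
def SKZ_Stmt : Prop := ∀ n : ℕ, 6 ≤ n → ∃ (k : ℕ) (σ : Fin k → Sk), IsSk0 n k σ

/-- KBGZ (from ZB, SKZ only through `IsSk0`): skeletons with few tokens are negligible. PROOF. As
`FS/KBIG.lean` with `τ = 1/2`: `ρ` critical for `s`, `ρ' = ρ e^κ`, `∑_p ρ'^hl s^(..) ≤ 1 + C κ` (tails, uniform in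
`s`) `≤ 1 + (1/2) ρ'^4 (1+s)` for a small absolute `κ` (`ρ ≥ 1/100`), `ρ' ≤ 1/2`, `capK n s ρ' ≤ C'`. So by
`count` `∑_i s^(n-H_i) ((1+s)/2)^k_i ≤ 8 C'^2 e^(-κ n) ρ^-n`; for `k_i < c n`: `2^-k_i ≥ 2^(-c n)`; `ρ^-n ≤ C n^(3/2) Zq`. -/
def KBGZ_Stmt : Prop := ∃ c : ℝ, 0 < c ∧ ∃ N : ℕ, 6 ≤ N ∧ ∀ n : ℕ, N ≤ n → ∀ s : ℝ, 0 < s →
  s ≤ 1 / 4 → ∀ (k : ℕ) (σ : Fin k → Sk), IsSk0 n k σ →
    ∑ i ∈ univ.filter (fun i : Fin k => ((σ i).l.length : ℝ) < c * n), vsk n s (σ i) ≤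
      Real.exp (-(c * n)) * Zq n s

/-- BINZ: local estimates for the binomial weights with small parameter. PROOF. As `FS/BIN.lean`,
with the variance `k p (1 - p) ∈ [k p / 2, k p]` instead of `k`. If `k p < 1`: `bp ≤ 1`. Else, (1) ratio
`bp(j+1)/bp(j) = (k-j) p / ((j+1)(1-p))`; increasing for `j ≤ pk - 1`, decreasing for `j ≥ pk`; Chebyshev
gives `bp(j) ≤ 8 k p / |j - pk|^3`; near `pk` compare with `√(kp)` neighbours. Alternatively Fourier: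
`|1 - p + p e^(i t)|^2 = 1 - 2 p (1-p) (1 - cos t) ≤ exp(-p t^2 / C)`, so `bp ≤ C ∫ exp(-c k p t^2) dt`,
`|bp(j+1) - bp(j)| ≤ C ∫ |t| exp(-c k p t^2) dt`. Third: `j bp k p j = k p bp (k-1) p (j-1)`. Last part: Chebyshev gives
a `j0` with `|j0 - pk| ≤ 2 √(kp)` and `bp ≥ c/√(kp)`, then at most `(R + 2) √(kp)` ratios, each
`1 + O((R + 2)/√(kp))`. -/
def BINZ_Stmt : Prop :=
  (∃ C : ℝ, 0 < C ∧ ∀ p : ℝ, 0 < p → p ≤ 1 / 2 → ∀ (k : ℕ) (j : ℤ), 1 ≤ k →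
    bp k p j ≤ C / Real.sqrt (k * p) ∧ |bp k p (j + 1) - bp k p j| ≤ C / (k * p) ∧
    bp k p j * j ≤ C * Real.sqrt (k * p)) ∧
  ∀ R : ℝ, 0 < R → ∃ c v0 : ℝ, 0 < c ∧ 0 < v0 ∧ ∀ p : ℝ, 0 < p → p ≤ 1 / 2 →
    ∀ (k : ℕ) (j : ℤ), v0 ≤ k * p → |(j : ℝ) - p * k| ≤ R * Real.sqrt (k * p) →
      c / Real.sqrt (k * p) ≤ bp k p j

/-- LOCZ (from SKZ, KBGZ, BINZ, the old SMP and ARM): local regularity. PROOF. As `FS/LOC.lean`.
`p = s/(1+s)`, `k_i` the number of tokens, `j = H_i - h`: `s^(n-H_i) C(k_i, j) s^j = vsk_i bp k_i p j`, `U n s h φ =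
∑_i vsk_i p^j (1-p)^(k_i - j) ∑_{|S| = j} φ((A_i - t_S)/sc)`. (i) `bp ≤ C/√(s n)` for `k_i ≥ c n` (BINZ, `k p ≥ c s n / 2`),
`(3/4) A_i ≤ A_i - t ≤ A_i`, `∑_i vsk_i A_i^2 ≤ 2 ∑_q wtq arq^2`; for `k_i < c n` KBGZ and crude bounds
(`A_i ≤ 2 n^2`, `exp(-c n)` against powers of `s ≥ 1/n`). (ii) `dq - arq = L_i - A_i + dlt0 j`, `j bp ≤ C √(k p)`.
(iii) `|φ((A_i - t)/sc) - φ(A_i/sc)| ≤ t/sc` and (SMP first part or directly) `∑_{|S| = j} t_S = (j/k_i) C(k_i, j) ∑ l_i`,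
so the error is `≤ (bp j/k_i) (A_i/sc) ≤ C (√(k p)/k) (A_i/sc)`, `√(p/k_i) ≤ C s/√(s n)`; then
`|bp(j) - bp(j')| ≤ C |j - j'|/(k p)`. (iv) `∑_j bp(j) (H_i - j - h)^2 ≥ (H_i - p k_i - h)^2`; so at least half of the weight
has `|H_i - p k_i - h| ≤ 2 √(K s n)` and `k_i ≥ c n`: BINZ lower bound with `R` depending on `K`. -/
def LOCZ_Stmt : Prop :=
  (∃ C : ℝ, 0 < C ∧ ∃ N : ℕ, ∀ n : ℕ, N ≤ n → ∀ s : ℝ, s ≤ 1 / 4 → 1 ≤ s * n →
    (∀ h : ℕ, U n s h (fun a => 1 + a ^ 2) ≤ C / Real.sqrt (s * n) * Zq n s) ∧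
    (∀ h : ℕ, ∑ q ∈ (Omn n).filter (fun q => sp q = h),
        wtq n s q * |(dq q : ℝ) - (arq n q : ℝ)| ≤
          C * (n * Real.log n / Real.sqrt (s * n)) * Zq n s) ∧
    (∀ (h h' : ℕ) (φ : ℝ → ℝ), (∀ a, |φ a| ≤ 1) → LipschitzWith 1 φ →
      |U n s h φ - U n s h' φ| ≤
        C * (s / Real.sqrt (s * n) + |(h : ℝ) - h'| / (s * n)) * Zq n s)) ∧
  ∀ K : ℝ, 0 < K → ∃ c v0 : ℝ, 0 < c ∧ 0 < v0 ∧ ∃ N : ℕ, ∀ n : ℕ, N ≤ n → ∀ s : ℝ, s ≤ 1 / 4 →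
    v0 ≤ s * n → ∀ h : ℕ,
      ∑ q ∈ Omn n, wtq n s q * ((sp q : ℝ) - h) ^ 2 ≤ K * (s * n) * Zq n s →
        c / Real.sqrt (s * n) * Zq n s ≤ U n s h (fun _ => 1)

/-! ### Laplace transforms and exponential moments -/

/-- LAPZ (from TAZ, GLT and the hypotheses of `FS.LAPC_thm` other than PARC): limit of the Laplace
transforms for `s → 0`. PROOF. `FS.LAPC.seq_lap` with the limit parameters `q = (1, 1, 1/2)` of `mbar`, `hbar`,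
`sig2`: `Λ lam = L (kk q * lam) / L 0` (data as in the proof of `FS.LAPC_thm`, `s1 = 1/4`, changed for
small `n`). The parameters of `KW.kern (2n-1) (s n)`: the pieces of half length `1` contribute
`4 ρ`, `4 ρ`, `2 ρ` (`T (1,1) 0 = 2`, `T (1,1) (±1) = 1`), `ρ → 1/4`, and the others at most
`∑_{m ≥ 2} (2 m)^2 C s / 8^m → 0` (TAZ, `kern_level`, `i.2 ≤ i.1`, `|d| ≤ 2 i.1`). -/
def LAPZ_Stmt : Prop := ∃ Λ : ℝ → ℝ, ∀ s : ℕ → ℝ, (∀ n, 0 < s n) → Tendsto s atTop (𝓝 0) →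
  ∀ lam : ℝ, 0 ≤ lam → Tendsto (fun n : ℕ => lapQ n (s n) lam) atTop (𝓝 (Λ lam))

/-- EXPZ (from RHOZ, ZB): exponential moments. PROOF. `D = n - sp q`, `wtq n (s e^u) q = wtq n s q * e^(u D)`, so
`∑ wtq e^(u D) = Zq n (s e^u)`; `sc ρ^n Zq` is bounded above and below (ZB). (1): `|t| ≤ 1` by RHOZ (b) with `s ≤ M/n`, and
for larger `|t|` by RHOZ (a) for both weights (`n log(ρ/ρ') ≤ C n s e^|t|`). (2) `u = -t/√(s n)`, `|u| ≤ 1` if
`s n ≥ t^2`; `E e^(u (D - (n - m))) ≤ e^|u| E e^(u D) E e^(-u D)` (Jensen and CenQ: `E e^(-u D) ≥ e^(-u E D) ≥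
e^(-u (n - m) - |u|)`), which is at most `C (ρ^2/(ρ₁ ρ₂))^n ≤ C exp(C s u^2 n)` by RHOZ (d). (`sp q ≤ n` on `Omn n`: HG, see
`FS/EXPM.lean`, or `FL.height_le`.) -/
def EXPZ_Stmt : Prop := ∃ s0 : ℝ, 0 < s0 ∧
  (∀ t M : ℝ, 0 < M → ∃ C : ℝ, 0 < C ∧ ∃ N : ℕ, ∀ n : ℕ, N ≤ n → ∀ s : ℝ, 0 < s → s * n ≤ M →
    ∑ q ∈ Omn n, wtq n s q * Real.exp (t * ((n : ℝ) - sp q)) ≤ C * Zq n s) ∧
  ∀ t : ℝ, ∃ C v0 : ℝ, 0 < C ∧ 0 < v0 ∧ ∃ N : ℕ, ∀ n : ℕ, N ≤ n → ∀ s : ℝ, s ≤ s0 → v0 ≤ s * n →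
    ∀ m : ℝ, CenQ n s m →
      ∑ q ∈ Omn n, wtq n s q * Real.exp (t * (((sp q : ℝ) - m) / Real.sqrt (s * n))) ≤
        C * Zq n s

/-- CHOZ (from RHOZ, ZB): choice of the weight. PROOF. `E_s[D] = ∑ wtq D / Zq`, `D = n - sp q`.
`E_s D ≤ log E_s e^D = log (Zq (s e) / Zq s) ≤ C + C s n`, `E_s D ≥ -log E_s e^(-D) = -log (Zq (s/e) / Zq s) ≥ c s n - C`
(ZB, RHOZ (b), (c)). The function `s ↦ ∑ wtq n s q (D - δ)` is continuous (polynomial in `s`), for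
`δ = n - h`: negative or zero at `s = c1 δ/n` (`C + C c1 δ ≤ δ` for `δ ≥ D0`), nonnegative at `s = s0` if
`δ ≤ η n`. At a zero `c s n - C ≤ δ`, so `s n ≤ C1 δ`. -/
def CHOZ_Stmt : Prop := ∃ c1 C1 η : ℝ, 0 < c1 ∧ 0 < C1 ∧ 0 < η ∧ ∃ D0 N : ℕ, ∀ n : ℕ, N ≤ n →
  ∀ h : ℕ, h + D0 ≤ n → (n : ℝ) - h ≤ η * n → ∃ s : ℝ, 0 < s ∧ c1 * ((n : ℝ) - h) ≤ s * n ∧
    s * n ≤ C1 * ((n : ℝ) - h) ∧ CenQ n s h

/-! ### Regular sequences -/

/-- EQZ (from LOCZ, IND, EXPZ, LAPZ, ARM). PROOF. As `FS/EQ.lean`. `X = (sp q - h n)/√(s n)`, `A = ra`. IND with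
`w = wtq/Zq`: `∑ wtq_s exp(t X) exp(-lam A) / ∑ wtq_s exp(t X) = lapQ n (s exp(-t/√(s n))) lam`, and both `lapQ n s lam` and
this one tend to `Λ lam` (LAPZ); the exponential moments are bounded (EXPZ). Second moment of `X` `≤
C(1) + C(-1)`, so LOCZ (second part) gives the lower bound. `χ(x) = max 0 (1 - |x|/δ)`:
sum over all naturals `k`: `∑_k χ((k - h n)/√(s n)) U(k; φ) = ∑_q wtq χ(X) φ(A)`; by LOCZ it equals
`S' U(h n; φ) + S' O((s + δ)/√(s n)) Zq`, `S' = ∑_k χ ≥ c δ √(s n)` (already from `k ≥ h n`); the same for `φ = 1`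
(it gives `E χ(X) ≥ c δ` with the lower bound); divide, `n → ∞`, `δ → 0`. -/
def EQZ_Stmt : Prop := ∀ (s : ℕ → ℝ) (h : ℕ → ℕ), (∀ n, 0 < s n) → Tendsto s atTop (𝓝 0) →
  Tendsto (fun n : ℕ => s n * n) atTop atTop → (∀ᶠ n in atTop, CenQ n (s n) (h n)) → Reg s h

/-- BDZ (from SKZ, KBGZ, ZB, RHOZ, IND, EXPZ, LAPZ, ARM, SMP, HG): bounded number `δ` of defects,
`s = 2/(n+1)`. PROOF. `eqv`: IND with `X = n - sp q`, `w = wtq/Zq` (exponential moments: EXPZ (1), `M = 2`;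
`∑ wtq_s exp(t X) exp(-lam A) / ∑ wtq_s exp(t X) = lapQ n (s e^t) lam → Λ lam`, also for `t = 0`),
`g(x) = max 0 (1 - 2 |x - δ|)`: `E[g(X) φ(A)] = U(n - δ; φ)/Zq` for `n ≥ δ`, and `low`. LOW: `N_0 = #{sp q = n}`:
`Zq n s' → N_0` as `s' → 0` (`n` fixed), and `sc (1/4)^n Zq n s' ≥ sc ρ^n Zq ≥ C^-1` (ZB, constants uniform in
`s'`), so `N_0 ≥ c 4^n/sc ≥ c' Zq n s` by ZB and RHOZ (a) (`ρ^-n ≤ 4^n e^C`). `N_0` is the number of skeletons with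
`H_i = n` (`repr` with `F = [sp = n]`, SMP first part), and those with `k_i < c n` are at most `exp(-c n) Zq`
(KBGZ). A skeleton with `H_i = n`, `k_i ≥ c n` contributes `C(k_i, δ) s^δ ≥ c''` to `U n s (n - δ) 1`
(`Nat.pow_le_choose`). -/
def BDZ_Stmt : Prop := ∀ δ : ℕ, Reg (fun n : ℕ => 2 / ((n : ℝ) + 1)) (fun n => n - δ)

open Classical in
/-- CLSZ (from LOCZ, ARM, ZB): both classes. PROOF. As `FS/CLS.lean`. Class `span = h`: `U(h; φ)/U(h; 1)`.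
Class `span ≥ h`: weights `s^i` on the spans `h + i`, `∑_{i ≥ 1} s^i U(h + i; 1) ≤ 2 s C/√(s n) Zq` (LOCZ; `s n ≥ 1`), negligible
against `U(h; 1) ≥ c/√(s n) Zq`. `ra` replaced by `|dq|/sc` with LOCZ (ii) (and ARM for the force side). Means:
truncation, second moments from LOCZ (i), ARM. -/
def CLSZ_Stmt : Prop := ∀ (s : ℕ → ℝ) (h : ℕ → ℕ), Reg s h → ∀ b : Bool,
  (∃ c : ℝ, 0 < c ∧ ∀ᶠ n : ℕ in atTop, c / Real.sqrt (s n * n) * Zq n (s n) ≤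
    s n ^ (n - h n) * ((Omn n).filter (fun q => inC b (h n) (sp q))).card) ∧
  (∀ φ : ℝ → ℝ, (∀ a, |φ a| ≤ 1) → LipschitzWith 1 φ →
    Tendsto (fun n : ℕ => (∑ q ∈ (Omn n).filter (fun q => inC b (h n) (sp q)),
        φ (|(dq q : ℝ)| / sc n)) / ((Omn n).filter (fun q => inC b (h n) (sp q))).card -
      (∑ q ∈ Omn n, wtq n (s n) q * φ (|(dq q : ℝ)| / sc n)) / Zq n (s n)) atTop (𝓝 0)) ∧
  Tendsto (fun n : ℕ => (∑ q ∈ (Omn n).filter (fun q => inC b (h n) (sp q)),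
        |(dq q : ℝ)| / sc n) / ((Omn n).filter (fun q => inC b (h n) (sp q))).card -
      (∑ q ∈ Omn n, wtq n (s n) q * (|(dq q : ℝ)| / sc n)) / Zq n (s n)) atTop (𝓝 0) ∧
  ∃ c : ℝ, 0 < c ∧ ∀ᶠ n : ℕ in atTop,
    c ≤ (∑ q ∈ Omn n, wtq n (s n) q * (|(dq q : ℝ)| / sc n)) / Zq n (s n) ∧
    (∑ q ∈ Omn n, wtq n (s n) q * (|(dq q : ℝ)| / sc n)) / Zq n (s n) ≤ c⁻¹

open Classical in
/-- SAPZ (from CLSZ, ZB, TR, HG): the same for the frozen encoding. PROOF. As `FS/SAPC.lean` with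
`f n = -log (s n)`. -/
def SAPZ_Stmt : Prop := ∀ (s : ℕ → ℝ) (h : ℕ → ℕ), Reg s h → ∀ b : Bool,
  (∀ᶠ n in atTop, 0 < ((SAP n).filter (fun w => inC b (h n) (span n w))).card) ∧
  (∀ φ : ℝ → ℝ, (∀ a, |φ a| ≤ 1) → LipschitzWith 1 φ →
    Tendsto (fun n : ℕ => (∑ w ∈ (SAP n).filter (fun w => inC b (h n) (span n w)),
        φ (2 * area n w / sc n)) / ((SAP n).filter (fun w => inC b (h n) (span n w))).card -
      (∑ w ∈ SAP n, Real.exp (-Real.log (s n) * span n w) * φ (2 * area n w / sc n)) /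
        forceZ (-Real.log (s n)) n) atTop (𝓝 0)) ∧
  Tendsto (fun n : ℕ => (∑ w ∈ (SAP n).filter (fun w => inC b (h n) (span n w)),
        2 * area n w / sc n) / ((SAP n).filter (fun w => inC b (h n) (span n w))).card -
      (∑ w ∈ SAP n, Real.exp (-Real.log (s n) * span n w) * (2 * area n w / sc n)) /
        forceZ (-Real.log (s n)) n) atTop (𝓝 0) ∧
  ∃ c : ℝ, 0 < c ∧ ∀ᶠ n : ℕ in atTop,
    c ≤ (∑ w ∈ SAP n, Real.exp (-Real.log (s n) * span n w) * (2 * area n w / sc n)) /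
      forceZ (-Real.log (s n)) n ∧
    (∑ w ∈ SAP n, Real.exp (-Real.log (s n) * span n w) * (2 * area n w / sc n)) /
      forceZ (-Real.log (s n)) n ≤ c⁻¹

/-- FINZ (from CDF, SAPZ): the law for regular sequences. PROOF. As `FS.conv_cls` (`FS/Final.lean`),
`f n = -log (s n)`, which is at least `1` eventually (change `f` for small `n`). -/
def FINZ_Stmt : Prop := ∀ μ : Measure ℝ, IsProbabilityMeasure μ → FORCE_Stmt μ →
  ∀ (s : ℕ → ℝ) (h : ℕ → ℕ), Reg s h → ∀ (b : Bool) (x : ℝ), μ {x} = 0 →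
    Tendsto (fun n : ℕ => areaCdf n (cls n b (h n)) x) atTop (𝓝 (μ (Set.Iic x)).toReal)

/-- NSF (from CHOZ, EQZ, BDZ, FINZ): spans close to the half perimeter. PROOF. Suppose that
`|areaCdf - μ(Iic x)| > ε` for infinitely many `n`. (A) If `n - h n` is bounded by `B` along infinitely
many of them, then it is constant `= δ` along infinitely many: contradiction to BDZ, FINZ for `δ`
(compare `h n = n - δ`). (B) Otherwise there are infinitely many `n_k` with `n_k - h n_k → ∞`. For `n` in this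
set let `s n` be the weight of CHOZ and `h' n = h n`; for the other `n` (and small `n`) take
`h' n = n - ⌊√n⌋` and the weight of CHOZ for it. Then EQZ applies (`s n ≤ C1 (n - h' n)/n → 0`,
`s n * n ≥ c1 (n - h' n) → ∞`), contradiction. -/
def NSF_Stmt : Prop := ∀ μ : Measure ℝ, IsProbabilityMeasure μ → FORCE_Stmt μ →
  ∀ h : ℕ → ℕ, (∀ᶠ n : ℕ in atTop, h n ≤ n) →
    Tendsto (fun n : ℕ => (h n : ℝ) / n) atTop (𝓝 1) → ∀ (b : Bool) (x : ℝ), μ {x} = 0 →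
      Tendsto (fun n : ℕ => areaCdf n (cls n b (h n)) x) atTop (𝓝 (μ (Set.Iic x)).toReal)

/-- UNQ: the limit law is unique. PROOF. At all `x` with `μ {x} = 0` and `μ' {x} = 0`, `μ(Iic x) = μ'(Iic x)`
(uniqueness of limits). These `x` are dense (only countably many atoms), so by continuity from the right
(`tendsto_measure_iInter` or `StieltjesFunction` of `cdf`) this holds for all `x`; `Measure.ext_of_Iic`. -/
def UNQ_Stmt : Prop := ∀ μ μ' : Measure ℝ, IsProbabilityMeasure μ → IsProbabilityMeasure μ' →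
  ∀ F : ℕ → ℝ → ℝ,
    (∀ x : ℝ, μ {x} = 0 → Tendsto (fun n => F n x) atTop (𝓝 (μ (Set.Iic x)).toReal)) →
    (∀ x : ℝ, μ' {x} = 0 → Tendsto (fun n => F n x) atTop (𝓝 (μ' (Set.Iic x)).toReal)) → μ = μ'

/-- the old theorem on spans up to `(1 - e n) n` for the measure `μ` -/
def OLD_Stmt (μ : Measure ℝ) : Prop := ∃ e : ℕ → ℝ, (∀ n, 0 < e n) ∧ Tendsto e atTop (𝓝 0) ∧
  ∀ h : ℕ → ℕ, (∀ᶠ n : ℕ in atTop, e n * n ≤ (h n : ℝ) ∧ (h n : ℝ) ≤ (1 - e n) * n) →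
    ∀ x : ℝ, μ {x} = 0 → ∀ b : Bool,
      Tendsto (fun n : ℕ => areaCdf n (cls n b (h n)) x) atTop (𝓝 (μ (Set.Iic x)).toReal)

/-- FINB (from NSF): all spans from `e n * n` to `n`. PROOF. `e` of the old theorem. If
`|areaCdf - μ(Iic x)| > ε` for infinitely many `n`: either there is `c < 1` with `h n ≤ c n` for
infinitely many of them: contradiction to OLD for `h' n = h n` at these `n` and `h' n = ⌊n/2⌋` else
(`e n ≤ min (1 - c) (1/4)` eventually); or `h n / n → 1` along them: contradiction to NSF for `h' n = h n` at these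
`n` and `h' n = n` else. -/
def FINB_Stmt : Prop := ∀ μ : Measure ℝ, IsProbabilityMeasure μ → FORCE_Stmt μ → OLD_Stmt μ →
  ∃ e : ℕ → ℝ, (∀ n, 0 < e n) ∧ Tendsto e atTop (𝓝 0) ∧
    ∀ h : ℕ → ℕ, (∀ᶠ n : ℕ in atTop, e n * n ≤ (h n : ℝ) ∧ h n ≤ n) →
      ∀ x : ℝ, μ {x} = 0 → ∀ b : Bool,
        Tendsto (fun n : ℕ => areaCdf n (cls n b (h n)) x) atTop (𝓝 (μ (Set.Iic x)).toReal)

end Pool.Agent.NSP
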